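import Pool.Agent.Lib.MP_dae6d7_al.SubFacts

/-! Row A1a: the substitution on words. -/

namespace Dae

theorem length_sbst (w : Wd X6) : (sbst w).length = 8 * w.length := by
  induction w with
  | nil => simp [sbst]
  | cons y w ih =>
    simp only [sbst, List.flatMap_cons, List.length_append, sub_len, List.length_cons] at ih ⊢
    omega

theorem sbst_append (u w : Wd X6) : sbst (u ++ w) = sbst u ++ sbst w := by
  simp [sbst]

theorem sbn_succ (j : ℕ) (w : Wd X6) : sbn (j + 1) w = sbst (sbn j w) := by
  simp only [sbn, Function.iterate_succ_apply']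

theorem sbn_succ' (j : ℕ) (w : Wd X6) : sbn (j + 1) w = sbn j (sbst w) := by
  simp only [sbn, Function.iterate_succ_apply]

theorem length_sbn (j : ℕ) (w : Wd X6) : (sbn j w).length = 8 ^ j * w.length := by
  induction j with
  | zero => simp [sbn]
  | succ j ih => rw [sbn_succ, length_sbst, ih, pow_succ]; ring

theorem sbn_append (j : ℕ) (u w : Wd X6) : sbn j (u ++ w) = sbn j u ++ sbn j w := by
  induction j with
  | zero => simp [sbn]
  | succ j ih => rw [sbn_succ, sbn_succ, sbn_succ, ih, sbst_append]

theorem sbn_add (i j : ℕ) (w : Wd X6) : sbn (i + j) w = sbn i (sbn j w) := by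
  simp only [sbn, Function.iterate_add_apply]

theorem sbst_invRev (w : Wd X6) : sbst (FreeGroup.invRev w) = FreeGroup.invRev (sbst w) := by
  induction w with
  | nil => simp [sbst, FreeGroup.invRev]
  | cons y w ih =>
    have e : FreeGroup.invRev (y :: w) = FreeGroup.invRev w ++ [(y.1, !y.2)] := by
      simp [FreeGroup.invRev]
    have e2 : sbst (y :: w) = sub y ++ sbst w := by simp [sbst]
    have e3 : ∀ a b : Wd X6, FreeGroup.invRev (a ++ b) = FreeGroup.invRev b ++ FreeGroup.invRev a := by
      intro a b; simp [FreeGroup.invRev]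
    rw [e, sbst_append, ih, e2, e3]
    congr 1
    rcases y with ⟨x, b⟩
    simp only [sbst, List.flatMap_cons, List.flatMap_nil, List.append_nil]
    exact sub_neg x b

theorem sbn_invRev (j : ℕ) (w : Wd X6) : sbn j (FreeGroup.invRev w) = FreeGroup.invRev (sbn j w) := by
  induction j with
  | zero => simp [sbn]
  | succ j ih => rw [sbn_succ, sbn_succ, ih, sbst_invRev]

end Dae
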