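import Pool.Agent.Lib.MP_dae6d7_al.A1a

/-! Row A1b. (Sections refer to the paper /team-store/dae6d7_paper.md.)

red_sbst: FreeGroup.IsReduced is a chain condition (List.IsChain fun a b => a.1 = b.1 -> a.2 = b.2); induction on w:
sub y is reduced (sub_red), its last letter is y (sub_last), the first letter of the rest sbst w is the first letter of w
(sub_head), so the junction is a reduced pair of y :: w.  toWord_phi: phi h = mk (sbst h.toWord) (induction on the word;
for (x,false): lift of (of x)^{-1} is (mk (base x))^{-1} = mk (invRev (base x))), and toWord (mk v) = reduce v = v for v reduced.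
phi_injective: toWord_injective and injectivity of sbst (block by block: sub y determines y by sub_head).
-/

namespace Dae

theorem A1b_sbst_cons (y : X6 × Bool) (w : Wd X6) : sbst (y :: w) = sub y ++ sbst w := by
  simp [sbst]

theorem A1b_sbst_nil : sbst [] = [] := rfl

theorem A1b_head (w : Wd X6) : (sbst w).head? = w.head? := by
  cases w with
  | nil => rfl
  | cons y w =>
    rw [A1b_sbst_cons, List.head?_append, sub_head]
    simp

/-- the first letter of sub y is y and the last one too, so reduced words stay reduced -/
theorem red_sbst {w : Wd X6} (h : FreeGroup.IsReduced w) : FreeGroup.IsReduced (sbst w) := by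
  induction w with
  | nil => exact FreeGroup.IsReduced.nil
  | cons y w ih =>
    rw [A1b_sbst_cons]
    have h' := List.isChain_cons.1 h
    refine List.IsChain.append (sub_red y) (ih h'.2) ?_
    intro x hx z hz
    rw [sub_last] at hx
    rw [A1b_head] at hz
    have hxy : x = y := by simpa using hx.symm
    subst hxy
    exact h'.1 z hz

theorem red_sbn (j : ℕ) {w : Wd X6} (h : FreeGroup.IsReduced w) : FreeGroup.IsReduced (sbn j w) := by
  induction j with
  | zero => exact h
  | succ j ih =>
    rw [sbn_succ]
    exact red_sbst ih

theorem A1b_phi_mk (w : Wd X6) : phi (FreeGroup.mk w) = FreeGroup.mk (sbst w) := by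
  induction w with
  | nil =>
    have h1 : (FreeGroup.mk ([] : Wd X6)) = 1 := rfl
    rw [A1b_sbst_nil, h1, map_one]
  | cons y w ih =>
    rw [A1b_sbst_cons, ← FreeGroup.mul_mk, ← ih]
    have h1 : (FreeGroup.mk (y :: w)) = FreeGroup.mk [y] * FreeGroup.mk w := by
      rw [FreeGroup.mul_mk]; rfl
    rw [h1, map_mul]
    congr 1
    rcases y with ⟨x, b⟩
    cases b
    · simp [phi, sub, FreeGroup.lift_mk, FreeGroup.inv_mk]
    · simp [phi, sub, FreeGroup.lift_mk]

theorem toWord_phi (h : F) : (phi h).toWord = sbst h.toWord := by
  conv_lhs => rw [← FreeGroup.mk_toWord (x := h), A1b_phi_mk, FreeGroup.toWord_mk]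
  exact (red_sbst FreeGroup.isReduced_toWord).reduce_eq

theorem toWord_phn (j : ℕ) (h : F) : (phn j h).toWord = sbn j h.toWord := by
  induction j with
  | zero => rfl
  | succ j ih =>
    have h1 : phn (j + 1) h = phi (phn j h) := by
      unfold phn
      rw [Function.iterate_succ_apply']
    rw [h1, toWord_phi, ih, sbn_succ]

theorem A1b_sbst_inj : ∀ {u w : Wd X6}, sbst u = sbst w → u = w := by
  intro u
  induction u with
  | nil =>
    intro w h
    cases w with
    | nil => rfl
    | cons z w =>
      have := congrArg List.length h
      rw [length_sbst, length_sbst] at this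
      simp at this
  | cons y u ih =>
    intro w h
    cases w with
    | nil =>
      have := congrArg List.length h
      rw [length_sbst, length_sbst] at this
      simp at this
    | cons z w =>
      rw [A1b_sbst_cons, A1b_sbst_cons] at h
      have hl : (sub y).length = (sub z).length := by rw [sub_len, sub_len]
      obtain ⟨h1, h2⟩ := List.append_inj h hl
      have h3 : (sub y).head? = (sub z).head? := by rw [h1]
      rw [sub_head, sub_head] at h3
      have h4 : y = z := by simpa using h3
      rw [h4, ih h2]

theorem phi_injective : Function.Injective phi := by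
  intro g h hgh
  have h1 : (phi g).toWord = (phi h).toWord := by rw [hgh]
  rw [toWord_phi, toWord_phi] at h1
  exact FreeGroup.toWord_injective (A1b_sbst_inj h1)

theorem phn_succ (j : ℕ) (h : F) : phn (j + 1) h = phi (phn j h) := by
  unfold phn
  rw [Function.iterate_succ_apply']

theorem phn_succ' (j : ℕ) (h : F) : phn (j + 1) h = phn j (phi h) := by
  unfold phn
  rw [Function.iterate_succ_apply]

theorem phn_mul (j : ℕ) (g h : F) : phn j (g * h) = phn j g * phn j h := by
  induction j with
  | zero => rfl
  | succ j ih =>
    rw [phn_succ, phn_succ, phn_succ, ih, map_mul]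

theorem phn_inv (j : ℕ) (g : F) : phn j g⁻¹ = (phn j g)⁻¹ := by
  induction j with
  | zero => rfl
  | succ j ih =>
    rw [phn_succ, phn_succ, ih, map_inv]

end Dae
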