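import Pool.Agent.Lib.MP_dae6d7_al.A1a

/-! Row A1c. (Sections refer to the paper /team-store/dae6d7_paper.md.)

getElem_sbst, take_sbst: induction on w (sub_len). sbst_common: induction on u generalizing w p (or take v the longest common
initial piece of u and w): if u = y :: u', w = y' :: w' and p is not empty then the first letter of p is y and y' (sub_head),
so y = y'; if p.length <= 8 take v = [y], otherwise p = sub y ++ p' with p' an initial piece of sbst u', sbst w'.
If u = [] or w = [] then p = [] and v = [].
-/

namespace Dae

theorem A1c_cons (y : X6 × Bool) (w : Wd X6) : sbst (y :: w) = sub y ++ sbst w := by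
  simp [sbst]

/-- the letter number 8 n + i of sbst w is the letter number i of sub (w[n]) -/
theorem getElem_sbst (w : Wd X6) (n i : ℕ) (hn : n < w.length) (hi : i < 8) :
    (sbst w)[8 * n + i]? = (sub w[n])[i]? := by
  induction w generalizing n with
  | nil => simp at hn
  | cons y w ih =>
    rw [A1c_cons]
    cases n with
    | zero =>
      rw [List.getElem?_append_left (by rw [sub_len]; omega)]
      simp
    | succ n =>
      rw [List.getElem?_append_right (by rw [sub_len]; omega), sub_len]
      have h := ih n (by simpa using hn)
      have e : 8 * (n + 1) + i - 8 = 8 * n + i := by omega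
      rw [e, h]
      simp

theorem take_sbst (w : Wd X6) (n : ℕ) : (sbst w).take (8 * n) = sbst (w.take n) := by
  induction w generalizing n with
  | nil => simp [sbst]
  | cons y w ih =>
    cases n with
    | zero => simp [sbst]
    | succ n =>
      rw [List.take_succ_cons, A1c_cons, A1c_cons, ← ih n, List.take_append, sub_len]
      have e : 8 * (n + 1) - 8 = 8 * n := by omega
      rw [e, List.take_of_length_le (by rw [sub_len]; omega)]

/-- two words with images sharing a common initial piece longer than 8 n share n + 1 letters -/
theorem sbst_common {u w p : Wd X6} (hu : p <+: sbst u) (hw : p <+: sbst w) :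
    ∃ v : Wd X6, v <+: u ∧ v <+: w ∧ p.length ≤ 8 * v.length := by
  induction u generalizing w p with
  | nil =>
    refine ⟨[], List.nil_prefix, List.nil_prefix, ?_⟩
    have : p = [] := by simpa [sbst] using hu
    simp [this]
  | cons y u ih =>
    cases w with
    | nil =>
      refine ⟨[], List.nil_prefix, List.nil_prefix, ?_⟩
      have : p = [] := by simpa [sbst] using hw
      simp [this]
    | cons y' w =>
      rw [A1c_cons] at hu hw
      rcases p with _ | ⟨z, p'⟩
      · exact ⟨[], List.nil_prefix, List.nil_prefix, by simp⟩
      · have h1 : z = y := by
          have h := sub_head y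
          rcases hs : sub y with _ | ⟨a, s⟩
          · rw [hs] at h; simp at h
          · rw [hs] at h hu
            simp only [List.head?_cons, Option.some.injEq] at h
            rw [List.cons_append, List.cons_prefix_cons] at hu
            exact hu.1.trans h
        have h2 : z = y' := by
          have h := sub_head y'
          rcases hs : sub y' with _ | ⟨a, s⟩
          · rw [hs] at h; simp at h
          · rw [hs] at h hw
            simp only [List.head?_cons, Option.some.injEq] at h
            rw [List.cons_append, List.cons_prefix_cons] at hw
            exact hw.1.trans h
        subst h1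
        subst h2
        by_cases hl : (z :: p').length ≤ 8
        · refine ⟨[z], ?_, ?_, by simpa using hl⟩
          · exact ⟨u, rfl⟩
          · exact ⟨w, rfl⟩
        · have hs : sub z <+: z :: p' :=
            List.prefix_of_prefix_length_le (List.prefix_append _ _) hu (by rw [sub_len]; omega)
          obtain ⟨q, hq⟩ := hs
          rw [← hq] at hu hw
          rw [List.prefix_append_right_inj] at hu hw
          obtain ⟨v, hv1, hv2, hv3⟩ := ih hu hw
          refine ⟨z :: v, ?_, ?_, ?_⟩
          · exact List.cons_prefix_cons.2 ⟨rfl, hv1⟩
          · exact List.cons_prefix_cons.2 ⟨rfl, hv2⟩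
          · rw [← hq, List.length_append, sub_len, List.length_cons]
            omega

end Dae
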