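import Pool.Agent.Lib.MP_dae6d7_al.A1a
import Pool.Agent.Lib.MP_dae6d7_al.A1c

/-! Row A2. Heights of initial pieces of phi^m(c). -/

namespace Dae

theorem hts_append (u w : Wd X6) : hts (u ++ w) = hts u + hts w := by
  simp [hts]

theorem A2_hts_nil : hts [] = 0 := by simp [hts]

theorem A2_hts_cons (y : X6 × Bool) (w : Wd X6) : hts (y :: w) = ht1 y + hts w := by
  simp [hts]

theorem hts_sbst (w : Wd X6) : hts (sbst w) = hts w := by
  induction w with
  | nil => simp [sbst]
  | cons y w ih =>
    rw [A1c_cons, hts_append, ih, ht_sub, A2_hts_cons]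

theorem hts_sbn (j : ℕ) (w : Wd X6) : hts (sbn j w) = hts w := by
  induction j with
  | zero => rfl
  | succ j ih => rw [sbn_succ, hts_sbst, ih]

/-- lower bound of the heights -/
def A2_lo (y : X6 × Bool) : ℤ := if isC y.1 then 0 else if y.2 then 0 else -1

/-- upper bound of the heights -/
def A2_up (m : ℕ) (y : X6 × Bool) : ℤ := if isC y.1 then m else max (m : ℤ) 1 + A2_lo y

theorem A2_step (m : ℕ) (ih : ∀ (y : X6 × Bool) (n : ℕ), A2_lo y ≤ hts ((sbn m [y]).take n) ∧
    hts ((sbn m [y]).take n) ≤ A2_up m y) (L U s : ℤ) (z : X6 × Bool) (v : Wd X6)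
    (h1 : L ≤ s + A2_lo z) (h2 : s + A2_up m z ≤ U)
    (h3 : ∀ n, L ≤ s + ht1 z + hts ((sbn m v).take n) ∧ s + ht1 z + hts ((sbn m v).take n) ≤ U) :
    ∀ n, L ≤ s + hts ((sbn m (z :: v)).take n) ∧ s + hts ((sbn m (z :: v)).take n) ≤ U := by
  intro n
  have e : sbn m (z :: v) = sbn m [z] ++ sbn m v := by rw [← sbn_append]; rfl
  rw [e, List.take_append]
  by_cases hn : n ≤ (sbn m [z]).length
  · have h0 : n - (sbn m [z]).length = 0 := by omega
    rw [h0, List.take_zero, List.append_nil]
    have := ih z n
    constructor <;> linarith [this.1, this.2]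
  · rw [List.take_of_length_le (le_of_lt (not_le.mp hn)), hts_append, hts_sbn, A2_hts_cons, A2_hts_nil]
    have := h3 (n - (sbn m [z]).length)
    constructor <;> linarith [this.1, this.2]

theorem A2_all (m : ℕ) : ∀ (y : X6 × Bool) (n : ℕ), A2_lo y ≤ hts ((sbn m [y]).take n) ∧
    hts ((sbn m [y]).take n) ≤ A2_up m y := by
  induction m with
  | zero =>
    intro y n
    have e : sbn 0 [y] = [y] := rfl
    rw [e]
    rcases n with _ | n
    · rcases y with ⟨x, b⟩
      cases x <;> cases b <;> simp [A2_lo, A2_up, isC, hts]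
    · rcases y with ⟨x, b⟩
      cases x <;> cases b <;> simp [A2_lo, A2_up, isC, hts, ht1]
  | succ m ih =>
    intro y n
    have hmax : (max (m : ℤ) 1 ≤ m + 1) ∧ (1 : ℤ) ≤ max (m : ℤ) 1 := by
      constructor
      · apply max_le <;> omega
      · exact le_max_right _ _
    have hmax2 : max ((m : ℤ) + 1) 1 = m + 1 := max_eq_left (by omega)
    obtain ⟨hm1, hm2⟩ := hmax
    have e : sbn (m + 1) [y] = sbn m (sub y) := by
      rw [sbn_succ', A1c_cons]
      simp [sbst]
    have key : ∀ n, A2_lo y ≤ 0 + hts ((sbn m (sub y)).take n) ∧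
        0 + hts ((sbn m (sub y)).take n) ≤ A2_up (m + 1) y := by
      have nil : ∀ (L U s : ℤ), L ≤ s → s ≤ U → ∀ n, L ≤ s + hts ((sbn m []).take n) ∧
          s + hts ((sbn m []).take n) ≤ U := by
        intro L U s h1 h2 n
        have : sbn m [] = [] := by
          have := length_sbn m []
          simpa using this
        rw [this]; simp [A2_hts_nil, h1, h2]
      rcases y with ⟨x, b⟩
      cases x <;> cases b <;>
      · simp only [sub, base, FreeGroup.invRev, List.map, List.reverse_cons, List.reverse_nil,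
          List.nil_append, List.cons_append, Bool.not_true, Bool.not_false, if_true, if_false,
          Bool.false_eq_true]
        repeat' (first
          | apply nil
          | apply A2_step m ih)
        all_goals (simp [A2_lo, A2_up, isC, ht1, hmax2]; try omega)
    have := key n
    rw [zero_add] at this
    rw [e]; exact this

/-- initial pieces of phi^m(y): lower bound lo = (-1 if ht1 y = -1, 0 otherwise), upper bound
m if isC y, max m 1 + lo otherwise. Induction on m: an initial piece of phi^{m+1}(y) = sbn m (sub y) is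
sbn m ((sub y).take r) ++ p' with p' an initial piece of sbn m [(sub y)[r]]; use sub_range. -/
theorem hts_take_sbn (m : ℕ) (n : ℕ) : 0 ≤ hts ((sbn m [(X6.c, true)]).take n) ∧
    hts ((sbn m [(X6.c, true)]).take n) ≤ m := by
  have := A2_all m (X6.c, true) n
  simpa [A2_lo, A2_up, isC] using this

end Dae
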