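import Pool.Agent.Lib.MP_dae6d7_al.Ifx
import Pool.Agent.Lib.MP_dae6d7_al.A1a

/-! Row A3. (Sections refer to the paper /team-store/dae6d7_paper.md.)

mul_decomp: x.toWord reduced; let v be the longest common initial piece of x.toWord and (x*h).toWord, x.toWord = v ++ x1,
(x*h).toWord = v ++ x2. Then h = x^{-1} (x h) = mk (invRev x1 ++ x2) and invRev x1 ++ x2 is reduced: each part is reduced and at the
junction the first letters of x1 and x2 differ (maximality of v), so the last letter of invRev x1 is not inverse to the first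
letter of x2. (Alternative: induction on x.toWord from the right.)
mul_piece: apply mul_decomp to x = u, h = w: u.toWord = v ++ x1, (u w).toWord = v ++ x2, w.toWord = invRev x1 ++ x2. If
p.toWord is an initial piece of v ++ x2 of length <= v.length it is an initial piece of u.toWord. Otherwise p.toWord = v ++ x2',
x2' an initial piece of x2, and q = mk (invRev x1 ++ x2') (reduced, as an initial piece of w.toWord), u q = mk (v ++ x2') = p.
-/

namespace Dae

theorem A3_invRev_red {α : Type} [DecidableEq α] {u : List (α × Bool)} (h : FreeGroup.IsReduced u) :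
    FreeGroup.IsReduced (FreeGroup.invRev u) := by
  have h1 : FreeGroup.reduce (FreeGroup.invRev u) = FreeGroup.invRev u := by
    rw [FreeGroup.reduce_invRev, h.reduce_eq]
  exact FreeGroup.IsReduced.of_reduce_eq h1

theorem A3_aux {α : Type} [DecidableEq α] (u : List (α × Bool)) : ∀ w : List (α × Bool),
    FreeGroup.IsReduced u → FreeGroup.IsReduced w → ∃ v x1 x2 : List (α × Bool),
    u = v ++ x1 ∧ w = v ++ x2 ∧ FreeGroup.IsReduced (FreeGroup.invRev x1 ++ x2) := by
  induction u with
  | nil =>
    intro w _ hw
    exact ⟨[], [], w, rfl, rfl, by simpa using hw⟩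
  | cons a u ih =>
    intro w hu hw
    cases w with
    | nil => exact ⟨[], a :: u, [], rfl, rfl, by simpa using A3_invRev_red hu⟩
    | cons b w =>
      by_cases hab : a = b
      · subst hab
        obtain ⟨v, x1, x2, h1, h2, h3⟩ := ih w (red_ifx hu ⟨[a], [], by simp⟩) (red_ifx hw ⟨[a], [], by simp⟩)
        exact ⟨a :: v, x1, x2, by simp [h1], by simp [h2], h3⟩
      · refine ⟨[], a :: u, b :: w, rfl, rfl, ?_⟩
        have hu' := A3_invRev_red hu
        unfold FreeGroup.IsReduced at *
        rw [List.isChain_append]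
        refine ⟨hu', hw, ?_⟩
        intro x hx y hy h12
        have hx' : x = (a.1, !a.2) := by
          rw [FreeGroup.invRev_cons] at hx
          simp [FreeGroup.invRev] at hx
          exact hx.symm
        have hy' : y = b := by
          simp at hy
          exact hy.symm
        subst hx' hy'
        simp only at h12 ⊢
        rcases a with ⟨a1, a2⟩
        rcases y with ⟨b1, b2⟩
        simp only at h12 ⊢
        subst h12
        cases a2 <;> cases b2 <;> simp_all

/-- v is the longest common initial piece of x and x h (equivalently: cancel as much as possible) -/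
theorem mul_decomp {α : Type} [DecidableEq α] (x h : FreeGroup α) : ∃ v x1 x2 : List (α × Bool),
    x.toWord = v ++ x1 ∧ (x * h).toWord = v ++ x2 ∧ h.toWord = FreeGroup.invRev x1 ++ x2 := by
  obtain ⟨v, x1, x2, h1, h2, h3⟩ := A3_aux x.toWord (x * h).toWord FreeGroup.isReduced_toWord
    FreeGroup.isReduced_toWord
  refine ⟨v, x1, x2, h1, h2, ?_⟩
  have e : h = FreeGroup.mk (FreeGroup.invRev x1 ++ x2) := by
    have e1 : h = x⁻¹ * (x * h) := by group
    have e2 : x⁻¹ = FreeGroup.mk (FreeGroup.invRev x1) * (FreeGroup.mk v)⁻¹ := by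
      rw [← FreeGroup.mk_toWord (x := x), h1, FreeGroup.inv_mk, FreeGroup.invRev_append, FreeGroup.inv_mk,
        FreeGroup.mul_mk]
    have e3 : x * h = FreeGroup.mk v * FreeGroup.mk x2 := by
      rw [← FreeGroup.mk_toWord (x := x * h), h2, FreeGroup.mul_mk]
    rw [← FreeGroup.mul_mk, e1, e3, e2]
    group
  rw [e, FreeGroup.toWord_mk, h3.reduce_eq]

/-- an initial piece of u w is an initial piece of u, or u times an initial piece of w -/
theorem mul_piece {α : Type} [DecidableEq α] (u w p : FreeGroup α) (h : p.toWord <+: (u * w).toWord) :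
    p.toWord <+: u.toWord ∨ ∃ q : FreeGroup α, q.toWord <+: w.toWord ∧ p = u * q := by
  obtain ⟨v, x1, x2, h1, h2, h3⟩ := mul_decomp u w
  rw [h2] at h
  obtain ⟨t, ht⟩ := h
  rcases List.append_eq_append_iff.1 ht with ⟨y, h4, _⟩ | ⟨y, h4, h5'⟩
  · left
    rw [h1, h4, List.append_assoc]
    exact List.prefix_append _ _
  · right
    have h5 : y <+: x2 := ⟨t, h5'.symm⟩
    have hpre : FreeGroup.invRev x1 ++ y <+: w.toWord := by
      rw [h3]
      exact (List.prefix_append_right_inj _).2 h5
    have hred : FreeGroup.IsReduced (FreeGroup.invRev x1 ++ y) :=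
      red_ifx (FreeGroup.isReduced_toWord (x := w)) hpre.isInfix
    refine ⟨FreeGroup.mk (FreeGroup.invRev x1 ++ y), ?_, ?_⟩
    · rw [FreeGroup.toWord_mk, hred.reduce_eq]
      exact hpre
    · have e2 : u = FreeGroup.mk v * FreeGroup.mk x1 := by
        rw [FreeGroup.mul_mk, ← h1, FreeGroup.mk_toWord]
      have e3 : p = FreeGroup.mk v * FreeGroup.mk y := by
        rw [FreeGroup.mul_mk, ← h4, FreeGroup.mk_toWord]
      rw [e3, e2, ← FreeGroup.mul_mk, ← FreeGroup.inv_mk]
      group

end Dae
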