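import Pool.Agent.Lib.MP_dae6d7_al.A1b
import Pool.Agent.Lib.MP_dae6d7_al.A1c

/-! Row A4a. (Sections refer to the paper /team-store/dae6d7_paper.md.)

Direct from the definitions: TT j w : w is an initial piece of sbn j g, g reduced. TT_succ: sbn (j+1) g = sbn j (sbst g), sbst g
reduced. Nat.findGreatest API (findGreatest_le, findGreatest_spec, le_findGreatest); the predicate holds at 0.
-/

namespace Dae

theorem TT_piece {j : ℕ} {u w : Wd X6} (h : TT j w) (hu : u <+: w) : TT j u := by
  obtain ⟨g, hg, hw⟩ := h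
  exact ⟨g, hg, hu.trans hw⟩

theorem TT_nil (j : ℕ) : TT j [] := by
  refine ⟨[], ?_, List.nil_prefix⟩
  rw [FreeGroup.isReduced_iff_reduce_eq]
  rfl

theorem TT_succ {j : ℕ} {w : Wd X6} (h : TT (j + 1) w) : TT j w := by
  obtain ⟨g, hg, hw⟩ := h
  rw [sbn_succ'] at hw
  exact ⟨sbst g, red_sbst hg, hw⟩

theorem TT_mono {i j : ℕ} (hij : i ≤ j) {w : Wd X6} (h : TT j w) : TT i w := by
  induction hij with
  | refl => exact h
  | step _ ih => exact ih (TT_succ h)

theorem TT_zero {w : Wd X6} (h : FreeGroup.IsReduced w) : TT 0 w := by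
  exact ⟨w, h, List.prefix_rfl⟩

theorem TT_toWord_phn (j : ℕ) (g : F) : TT j (phn j g).toWord := by
  rw [toWord_phn]
  exact ⟨g.toWord, FreeGroup.isReduced_toWord, List.prefix_rfl⟩

theorem lamL_le (j : ℕ) (w : Wd X6) : lamL j w ≤ w.length := by
  classical
  exact Nat.findGreatest_le _

theorem TT_take_lamL (j : ℕ) (w : Wd X6) : TT j (w.take (lamL j w)) := by
  classical
  unfold lamL
  exact Nat.findGreatest_spec (P := fun n => TT j (w.take n)) (Nat.zero_le _) (by
    simpa using TT_nil j)

theorem le_lamL {j n : ℕ} {w : Wd X6} (hn : n ≤ w.length) (h : TT j (w.take n)) : n ≤ lamL j w := by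
  classical
  exact Nat.le_findGreatest (P := fun n => TT j (w.take n)) hn h

theorem TT_take_iff {j n : ℕ} {w : Wd X6} (hn : n ≤ w.length) : TT j (w.take n) ↔ n ≤ lamL j w := by
  refine ⟨le_lamL hn, fun h => ?_⟩
  exact TT_piece (TT_take_lamL j w) (List.take_prefix_take_left h)

theorem lam_one (j : ℕ) : lam j 1 = 0 := by
  have h := lamL_le j ((1 : F).toWord)
  rw [FreeGroup.toWord_one] at h
  unfold lam
  rw [FreeGroup.toWord_one]
  exact Nat.le_zero.mp h

theorem lam_zero (x : F) : lam 0 x = x.toWord.length := by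
  refine le_antisymm (lamL_le 0 _) (le_lamL le_rfl ?_)
  rw [List.take_length]
  exact TT_zero FreeGroup.isReduced_toWord

theorem lam_succ_le (j : ℕ) (x : F) : lam (j + 1) x ≤ lam j x := by
  exact le_lamL (lamL_le _ _) (TT_succ (TT_take_lamL (j + 1) x.toWord))

/-- if two reduced words agree on their first n letters and lamL j u < n then lamL j w = lamL j u -/
theorem lamL_congr {j n : ℕ} {u w : Wd X6} (h : u.take n = w.take n) (hn : n ≤ u.length) (hn' : n ≤ w.length)
    (hl : lamL j u < n) : lamL j w = lamL j u := by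
  have key : ∀ m ≤ n, u.take m = w.take m := by
    intro m hm
    have h1 : (u.take n).take m = (w.take n).take m := by rw [h]
    rwa [List.take_take, List.take_take, min_eq_left hm] at h1
  apply le_antisymm
  · by_contra hc
    push Not at hc
    have h1 : lamL j u + 1 ≤ n := hl
    have h2 : TT j (w.take (lamL j u + 1)) := (TT_take_iff (h1.trans hn')).mpr hc
    rw [← key _ h1] at h2
    have h3 := le_lamL (h1.trans hn) h2
    omega
  · apply le_lamL ((hl.le).trans hn')
    rw [← key _ hl.le]
    exact TT_take_lamL j u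

end Dae
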