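import Pool.Agent.Lib.MP_dae6d7_al.A4a

/-! Row A4b. (Sections refer to the paper /team-store/dae6d7_paper.md.)

(2.1) lam_{j+1}(phi x) = 8 lam_j(x). >=: the initial piece p of x.toWord of length lam_j(x) is an initial piece of sbn j g, so
sbst p (length 8 lam) is an initial piece of sbst (sbn j g) = sbn (j+1) g and of sbst x.toWord = (phi x).toWord.
<=: p' = initial piece of length lam_{j+1}(phi x) of sbst x.toWord, also an initial piece of sbst (sbn j g). By sbst_common there
is v, initial piece of x.toWord and of sbn j g, p'.length <= 8 v.length; TT j v, so v.length <= lam_j(x).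
lam_phn: induction on j: lam (j+1) (phn (n+1) x) = lam (j+1) (phi (phn n x)) = 8 lam j (phn n x); lam 0 (phn n x) = 8^n |x|.
-/

namespace Dae

/-- (2.1) -/
theorem lam_phi (j : ℕ) (x : F) : lam (j + 1) (phi x) = 8 * lam j x := by
  unfold lam
  rw [toWord_phi]
  apply le_antisymm
  · obtain ⟨g, hg, hp⟩ := TT_take_lamL (j + 1) (sbst x.toWord)
    rw [sbn_succ] at hp
    obtain ⟨v, hv, hvg, hlen⟩ := sbst_common (List.take_prefix _ _) hp
    have hle := lamL_le (j + 1) (sbst x.toWord)
    rw [List.length_take, min_eq_left hle] at hlen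
    refine hlen.trans (Nat.mul_le_mul_left 8 ?_)
    apply le_lamL hv.length_le
    rw [← List.prefix_iff_eq_take.mp hv]
    exact ⟨g, hg, hvg⟩
  · have hle := lamL_le j x.toWord
    apply le_lamL
    · rw [length_sbst]
      exact Nat.mul_le_mul_left 8 hle
    · rw [take_sbst]
      obtain ⟨g, hg, r, hr⟩ := TT_take_lamL j x.toWord
      refine ⟨g, hg, ?_⟩
      rw [sbn_succ, ← hr, sbst_append]
      exact List.prefix_append _ _

/-- lam_j(phi^n(x)) = 8^j |phi^{n-j}(x)| for j <= n -/
theorem lam_phn (n j : ℕ) (hj : j ≤ n) (x : F) : lam j (phn n x) = 8 ^ n * x.toWord.length := by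
  induction j generalizing n with
  | zero => rw [lam_zero, toWord_phn, length_sbn]
  | succ j ih =>
    obtain ⟨n', rfl⟩ : ∃ n', n = n' + 1 := ⟨n - 1, by omega⟩
    rw [phn_succ, lam_phi, ih n' (by omega), pow_succ]
    ring

end Dae
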