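import Pool.Agent.Lib.MP_dae6d7_al.A4a
import Pool.Agent.Lib.MP_dae6d7_al.A3

/-! Row A4c. (Sections refer to the paper /team-store/dae6d7_paper.md.)

(2.2). Either (x y).toWord = x.toWord ++ [y], or x.toWord = (x y).toWord ++ [inverse of y] (a reduced word times a letter).
By symmetry first case: if TT j (x.toWord ++ [y]) then lam_j(xy) = |x|+1 and lam_j(x) = |x| (TT_piece). If not, TT_take_iff shows
that the two findGreatest agree (initial pieces of length <= |x| are the same; the whole word is not in T_j).
-/

namespace Dae

theorem A4c_aux (j : ℕ) (u : Wd X6) (y : X6 × Bool) :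
    lamL j (u ++ [y]) = lamL j u ∨ (lamL j u = u.length ∧ lamL j (u ++ [y]) = u.length + 1) := by
  have hle := lamL_le j (u ++ [y])
  have hlu := lamL_le j u
  rw [List.length_append, List.length_singleton] at hle
  by_cases h : lamL j (u ++ [y]) = u.length + 1
  · right
    refine ⟨le_antisymm hlu ?_, h⟩
    apply le_lamL le_rfl
    rw [List.take_length]
    have h1 := TT_take_lamL j (u ++ [y])
    exact TT_piece h1 (by
      rw [h, List.take_of_length_le (by simp)]
      exact List.prefix_append u [y])
  · left
    have hle' : lamL j (u ++ [y]) ≤ u.length := by omega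
    apply le_antisymm
    · apply le_lamL hle'
      have h1 := TT_take_lamL j (u ++ [y])
      rwa [List.take_append_of_le_length hle'] at h1
    · apply le_lamL
      · rw [List.length_append]; omega
      · have h1 := TT_take_lamL j u
        rw [List.take_append_of_le_length hlu]
        exact h1

theorem A4c_toWord_letter (y : X6 × Bool) : (lv (FreeGroup.of : X6 → F) y).toWord.length = 1 := by
  rcases y with ⟨i, b⟩
  cases b
  · simp [lv, FreeGroup.toWord_inv, FreeGroup.invRev]
  · simp [lv]

/-- (2.2) one letter -/
theorem lam_letter (j : ℕ) (x : F) (y : X6 × Bool) :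
    lam j (x * lv FreeGroup.of y) = lam j x ∨
    (lam j x = x.toWord.length ∧ (x * lv FreeGroup.of y).toWord.length = x.toWord.length + 1 ∧
      lam j (x * lv FreeGroup.of y) = x.toWord.length + 1) ∨
    (lam j x = x.toWord.length ∧ x.toWord.length = (x * lv FreeGroup.of y).toWord.length + 1 ∧
      lam j (x * lv FreeGroup.of y) = (x * lv FreeGroup.of y).toWord.length) := by
  obtain ⟨v, x1, x2, h1, h2, h3⟩ := mul_decomp x (lv (FreeGroup.of : X6 → F) y)
  have h4 := A4c_toWord_letter y
  rw [h3, List.length_append, FreeGroup.invRev_length] at h4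
  unfold lam
  rw [h1, h2]
  rcases x1 with _ | ⟨a, x1⟩
  · -- x2 is a single letter
    rcases x2 with _ | ⟨b, x2⟩
    · simp at h4
    · have hx2 : x2 = [] := by
        apply List.eq_nil_of_length_eq_zero
        simp only [List.length_nil, List.length_cons] at h4
        omega
      subst hx2
      rw [List.append_nil]
      rcases A4c_aux j v b with h | ⟨h, h'⟩
      · exact Or.inl h
      · exact Or.inr (Or.inl ⟨h, by simp, h'⟩)
  · have hx1 : x1 = [] := by
      apply List.eq_nil_of_length_eq_zero
      simp only [List.length_cons] at h4
      omega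
    have hx2 : x2 = [] := by
      apply List.eq_nil_of_length_eq_zero
      simp only [List.length_cons] at h4
      omega
    subst hx1 hx2
    rw [List.append_nil]
    rcases A4c_aux j v a with h | ⟨h, h'⟩
    · exact Or.inl h.symm
    · refine Or.inr (Or.inr ⟨?_, by simp, h⟩)
      rw [h']; simp

end Dae
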