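import Pool.Agent.Lib.MP_dae6d7_al.A4a

/-! Row A5a. (Sections refer to the paper /team-store/dae6d7_paper.md.)

con j h: h.toWord contains sbn j [y], isC y.1. con_succ: sbn (j+1) [y] = sbn j (sub y) contains sbn j [z], z in sub y with isC
(C_in_sub). con_inv: sbn_invRev, toWord_inv. con_of_infix: sbn j g = sbn (J+1) g', g' = sbn (j-J-1) g (sbn_add), which is the
concatenation of the blocks sbn (J+1) [y], y in g', of length 8^(J+1) each; an infix u of length >= 2*8^(J+1) contains a whole
block: u = drop/take of the concatenation from position s; the block number k = ceil(s/8^(J+1)) is inside. The block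
sbn (J+1) [y] = sbn J (sub y) contains sbn J [z] with isC z.1. Infix is transitive.
-/

namespace Dae

theorem A5a_infix_sbn {j : ℕ} {z : X6 × Bool} {w : Wd X6} (hz : z ∈ w) : sbn j [z] <:+: sbn j w := by
  obtain ⟨l1, l2, rfl⟩ := List.append_of_mem hz
  refine ⟨sbn j l1, sbn j l2, ?_⟩
  rw [← sbn_append, ← sbn_append]
  simp

theorem con_succ {j : ℕ} {h : F} (H : con (j + 1) h) : con j h := by
  obtain ⟨y, -, hy⟩ := H
  obtain ⟨z, hz, hz1⟩ := C_in_sub y
  refine ⟨z, hz1, List.IsInfix.trans ?_ hy⟩
  rw [sbn_succ']
  have : sbst [y] = sub y := by simp [sbst]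
  rw [this]
  exact A5a_infix_sbn hz

theorem con_mono {i j : ℕ} (hij : i ≤ j) {h : F} (H : con j h) : con i h := by
  induction j, hij using Nat.le_induction with
  | base => exact H
  | succ n hn ih => exact ih (con_succ H)

theorem con_inv {j : ℕ} {h : F} (H : con j h) : con j h⁻¹ := by
  obtain ⟨y, hy, l1, l2, hl⟩ := H
  refine ⟨(y.1, !y.2), hy, ?_⟩
  have h1 : sbn j [(y.1, !y.2)] = FreeGroup.invRev (sbn j [y]) := by
    rw [← sbn_invRev]
    rfl
  rw [h1, FreeGroup.toWord_inv, ← hl, FreeGroup.invRev_append, FreeGroup.invRev_append]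
  exact ⟨FreeGroup.invRev l2, FreeGroup.invRev l1, by simp⟩

/-- con j h forces 8^j <= |h| -/
theorem con_length {j : ℕ} {h : F} (H : con j h) : 8 ^ j ≤ h.toWord.length := by
  obtain ⟨y, -, hy⟩ := H
  have h1 := hy.length_le
  rw [length_sbn] at h1
  simpa using h1

theorem A5a_block (m : ℕ) (u t : Wd X6) (hl : 2 * 8 ^ m ≤ u.length) : ∀ (g : Wd X6) (s : Wd X6),
    s ++ (u ++ t) = sbn m g → ∃ y ∈ g, sbn m [y] <:+: u := by
  intro g
  have hpos : 0 < 8 ^ m := by positivity
  induction g with
  | nil =>
    intro s hs
    have h1 := congrArg List.length hs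
    rw [length_sbn] at h1
    simp only [List.length_append, List.length_nil, mul_zero] at h1
    omega
  | cons y g ih =>
    intro s hs
    have hc : sbn m (y :: g) = sbn m [y] ++ sbn m g := by rw [← sbn_append]; rfl
    have hlen : (sbn m [y]).length = 8 ^ m := by rw [length_sbn]; simp
    rw [hc] at hs
    rcases List.append_eq_append_iff.1 hs with ⟨a, ha1, ha2⟩ | ⟨a, ha1, ha2⟩
    · -- sbn m [y] = s ++ a, u ++ t = a ++ sbn m g
      have hla : a.length ≤ 8 ^ m := by
        have := congrArg List.length ha1
        rw [List.length_append] at this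
        omega
      rcases List.append_eq_append_iff.1 ha2 with ⟨b, hb1, hb2⟩ | ⟨b, hb1, hb2⟩
      · -- a = u ++ b : impossible
        have := congrArg List.length hb1
        rw [List.length_append] at this
        omega
      · -- u = a ++ b, sbn m g = b ++ t
        have hlb : 8 ^ m ≤ b.length := by
          have := congrArg List.length hb1
          rw [List.length_append] at this
          omega
        rcases g with - | ⟨z, g3⟩
        · have h1 := congrArg List.length hb2
          rw [length_sbn] at h1
          simp only [List.length_append, List.length_nil, mul_zero] at h1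
          omega
        · refine ⟨z, by simp, ?_⟩
          have hz : sbn m (z :: g3) = sbn m [z] ++ sbn m g3 := by rw [← sbn_append]; rfl
          have hlz : (sbn m [z]).length = 8 ^ m := by rw [length_sbn]; simp
          have h1 : sbn m [z] <+: b ++ t := by
            rw [← hb2, hz]; exact List.prefix_append _ _
          have h2 : sbn m [z] <+: b :=
            List.prefix_of_prefix_length_le h1 (List.prefix_append _ _) (by omega)
          rw [hb1]
          exact h2.isInfix.trans (List.suffix_append a b).isInfix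
    · -- s = sbn m [y] ++ a
      obtain ⟨z, hz, hz2⟩ := ih a ha2.symm
      exact ⟨z, List.mem_cons_of_mem _ hz, hz2⟩

/-- a subword of length >= 2 * 8^j' of some phi^j(g), 1 <= j' <= j, contains phi^{j'}(y), hence
phi^{j'-1}(y') with isC y' -/
theorem con_of_infix {j J : ℕ} (hj : J + 1 ≤ j) {u g : Wd X6} {h : F} (hu : u <:+: sbn j g)
    (hl : 2 * 8 ^ (J + 1) ≤ u.length) (hh : u <:+: h.toWord) : con J h := by
  obtain ⟨k, rfl⟩ := Nat.exists_eq_add_of_le hj
  obtain ⟨s, t, hst⟩ := hu
  rw [sbn_add] at hst
  obtain ⟨y, -, hy⟩ := A5a_block (J + 1) u t hl (sbn k g) s (by rw [← List.append_assoc]; exact hst)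
  obtain ⟨z, hz, hz1⟩ := C_in_sub y
  refine ⟨z, hz1, List.IsInfix.trans ?_ (hy.trans hh)⟩
  rw [sbn_succ']
  have : sbst [y] = sub y := by simp [sbst]
  rw [this]
  exact A5a_infix_sbn hz

end Dae
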