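import Pool.Agent.Lib.MP_dae6d7_al.A5a
import Pool.Agent.Lib.MP_dae6d7_al.A3

/-! Row A5b. (Sections refer to the paper /team-store/dae6d7_paper.md.)

mul_decomp: x.toWord = v ++ x1, (xh).toWord = v ++ x2, h.toWord = invRev x1 ++ x2. If lam_j(x) < |v| or lam_j(xh) < |v| then both
are equal (lamL_congr). Otherwise lam_j(x) = |v| + al, lam_j(xh) = |v| + be, v ++ x1.take al and v ++ x2.take be in T_j. So
x1.take al is an infix of sbn j g, invRev (x1.take al) is an infix of sbn j (invRev g) and of h.toWord (it is the end of invRev x1);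
if al >= 2*8^(J+1), con_of_infix gives con J h: contradiction. So al < 2*8^(J+1), in the same way be < 2*8^(J+1).
-/

namespace Dae

theorem A5b_invRev_infix {α : Type} {a b : List (α × Bool)} (h : a <:+: b) :
    FreeGroup.invRev a <:+: FreeGroup.invRev b := by
  unfold FreeGroup.invRev
  exact List.reverse_infix.mpr (h.map _)

/-- the piece of the longest initial piece in T_j after v is short -/
theorem A5b_part {j J : ℕ} {v x1 : Wd X6}
    (hv : v.length ≤ lamL j (v ++ x1))
    (hno : ∀ u g : Wd X6, u <:+: sbn j g → 2 * 8 ^ (J + 1) ≤ u.length → ¬ (u <:+: x1)) :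
    lamL j (v ++ x1) < v.length + 2 * 8 ^ (J + 1) := by
  by_contra hcon
  push Not at hcon
  obtain ⟨g, -, hg⟩ := TT_take_lamL j (v ++ x1)
  have hle := lamL_le j (v ++ x1)
  rw [List.length_append] at hle
  rw [List.take_append, List.take_of_length_le hv] at hg
  refine hno (x1.take (lamL j (v ++ x1) - v.length)) g ?_ ?_ ?_
  · exact (List.suffix_append v _).isInfix.trans hg.isInfix
  · rw [List.length_take]
    omega
  · exact (List.take_prefix _ _).isInfix

/-- (2.3) + (2.4) -/
theorem lam_jump {j J : ℕ} (hj : J + 1 ≤ j) (x h : F) (hc : ¬ con J h) :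
    lam j (x * h) < lam j x + 2 * 8 ^ (J + 1) ∧ lam j x < lam j (x * h) + 2 * 8 ^ (J + 1) := by
  obtain ⟨v, x1, x2, h1, h2, h3⟩ := mul_decomp x h
  have hpos : 0 < 2 * 8 ^ (J + 1) := by positivity
  have hno1 : ∀ u g : Wd X6, u <:+: sbn j g → 2 * 8 ^ (J + 1) ≤ u.length → ¬ (u <:+: x1) := by
    intro u g hu hl hx
    apply hc
    have e1 : FreeGroup.invRev u <:+: sbn j (FreeGroup.invRev g) := by
      rw [sbn_invRev]
      exact A5b_invRev_infix hu
    refine con_of_infix hj e1 ?_ ?_
    · rw [FreeGroup.invRev_length]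
      exact hl
    · rw [h3]
      exact (A5b_invRev_infix hx).trans (List.prefix_append _ _).isInfix
  have hno2 : ∀ u g : Wd X6, u <:+: sbn j g → 2 * 8 ^ (J + 1) ≤ u.length → ¬ (u <:+: x2) := by
    intro u g hu hl hx
    apply hc
    refine con_of_infix hj hu hl ?_
    rw [h3]
    exact hx.trans (List.suffix_append _ _).isInfix
  unfold lam
  rw [h1, h2]
  by_cases c1 : lamL j (v ++ x1) < v.length
  · have := lamL_congr (j := j) (n := v.length) (u := v ++ x1) (w := v ++ x2) (by simp) (by simp) (by simp) c1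
    rw [this]
    omega
  by_cases c2 : lamL j (v ++ x2) < v.length
  · have := lamL_congr (j := j) (n := v.length) (u := v ++ x2) (w := v ++ x1) (by simp) (by simp) (by simp) c2
    rw [this]
    omega
  push Not at c1 c2
  have a1 := A5b_part c1 hno1
  have a2 := A5b_part c2 hno2
  omega

end Dae
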