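import Pool.Agent.Lib.MP_dae6d7_al.A4a
import Pool.Agent.Lib.MP_dae6d7_al.A1c

/-! Row A6a. (Sections refer to the paper /team-store/dae6d7_paper.md.)

Suppose 4 <= al. For 0 < r < al put n = |v| + r; among r = 1,2,3 at most one has 8 | n and at most one has 8 | (|x1| - r); choose
r with neither. Word v ++ x1.take al is an initial piece of sbst g1 (T_1), so (getElem_sbst) its letters number n-1 and n are
the letters number i-1, i (i = n mod 8, 1 <= i <= 7) of sub y, y = g1[n/8], and the initial piece of length n is
sbst (g1.take (n/8)) ++ (sub y).take i.  In (phi h').toWord = sbst h'.toWord = invRev x1 ++ x2 the position |x1| - r separates the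
inverses of x1[r] (before) and x1[r-1] (after): with i' = (|x1|-r) mod 8 and y' = h'.toWord[(|x1|-r)/8] the letters i'-1, i' of
sub y' are (x1[r])^-1, (x1[r-1])^-1, so the letters number 8-i'-1, 8-i' of sub (inverse of y') = invRev (sub y') are
x1[r-1], x1[r]. By dig: y = inverse of y', i = 8 - i'. In the group: let z = mk (v ++ x1.take r). z = phi(g) * mk ((sub y).take i),
g = mk (g1.take (n/8)), and z = x * mk(initial piece of length |x1|-r of (phi h').toWord) = x * phi(g') * mk ((sub y').take i'), and
mk ((sub y').take i') = mk (sub y') * mk ((sub y').drop i')^{-1} = phi(of y') * mk ((sub y).take i) (because (sub y).take (8-i') =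
invRev ((sub y').drop i')). So x = phi(g) * phi(g' * y')^{-1}, contradiction with hx.
-/

namespace Dae

theorem A6a_phi_mk (w : Wd X6) : phi (FreeGroup.mk w) = FreeGroup.mk (sbst w) := by
  induction w with
  | nil => simp [sbst, phi, ← FreeGroup.one_eq_mk]
  | cons y w ih =>
    have h1 : FreeGroup.mk (y :: w) = FreeGroup.mk [y] * FreeGroup.mk w := by
      rw [FreeGroup.mul_mk]; rfl
    have h2 : sbst (y :: w) = sub y ++ sbst w := by simp [sbst]
    rw [h1, map_mul, ih, h2, ← FreeGroup.mul_mk]
    congr 1
    rcases y with ⟨x, b⟩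
    cases b
    · simp [phi, sub, FreeGroup.lift_mk]
    · simp [phi, sub, FreeGroup.lift_mk]

theorem A6a_take (w : Wd X6) (q i : ℕ) (hq : q < w.length) (hi : i ≤ 8) :
    (sbst w).take (8 * q + i) = sbst (w.take q) ++ (sub w[q]).take i := by
  have h1 : w = w.take q ++ (w[q] :: w.drop (q + 1)) := by
    rw [← List.drop_eq_getElem_cons hq, List.take_append_drop]
  have hl : (sbst (w.take q)).length = 8 * q := by
    rw [length_sbst, List.length_take, min_eq_left hq.le]
  have h2 : sbst (w[q] :: w.drop (q + 1)) = sub w[q] ++ sbst (w.drop (q + 1)) := by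
    unfold sbst
    rw [List.flatMap_cons]
  have h3 : sbst w = sbst (w.take q) ++ (sub w[q] ++ sbst (w.drop (q + 1))) := by
    conv_lhs => rw [h1, sbst_append, h2]
  rw [h3, List.take_append, hl, List.take_of_length_le (by rw [hl]; omega),
    Nat.add_sub_cancel_left, List.take_append, sub_len, Nat.sub_eq_zero_of_le hi, List.take_zero, List.append_nil]

theorem A6a_inv (w : Wd X6) (k : ℕ) (hk : k < w.length) :
    (FreeGroup.invRev w)[k]? = (w[w.length - 1 - k]?).map (fun y => (y.1, !y.2)) := by
  unfold FreeGroup.invRev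
  rw [List.getElem?_reverse (by simpa using hk), List.length_map, List.getElem?_map]

/-- one side of (2.5). x = v x1 (as words), phi(h') = x1^{-1} x2 as words, x not in phi(F); the first al
letters of x1 continue v inside T_1. Then al <= 3. -/
theorem overlap_left (x h' : F) (hx : ∀ g : F, x ≠ phi g) (v x1 x2 : Wd X6) (h1 : x.toWord = v ++ x1)
    (h3 : (phi h').toWord = FreeGroup.invRev x1 ++ x2) (al : ℕ) (hal : al ≤ x1.length)
    (hT : TT 1 (v ++ x1.take al)) : al ≤ 3 := by
  by_contra hcon
  push Not at hcon
  obtain ⟨g1, -, hg⟩ := hT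
  have hg' : v ++ x1.take al <+: sbst g1 := hg
  rw [toWord_phi] at h3
  -- choice of r
  obtain ⟨r, hr1, hr3, hr4, hr5⟩ : ∃ r, 1 ≤ r ∧ r ≤ 3 ∧ (v.length + r) % 8 ≠ 0 ∧ (x1.length - r) % 8 ≠ 0 := by
    by_contra hc
    push Not at hc
    have a1 := hc 1 (by omega) (by omega)
    have a2 := hc 2 (by omega) (by omega)
    have a3 := hc 3 (by omega) (by omega)
    omega
  have hr0 : r < al := by omega
  have hrx : r < x1.length := by omega
  -- the first word
  obtain ⟨q, i, hi1, hi2, hn⟩ : ∃ q i, 1 ≤ i ∧ i ≤ 7 ∧ v.length + r = 8 * q + i :=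
    ⟨(v.length + r) / 8, (v.length + r) % 8, by omega, by omega, by omega⟩
  have hlen : (v ++ x1.take al).length = v.length + al := by
    rw [List.length_append, List.length_take, min_eq_left hal]
  have hlen2 : v.length + al ≤ 8 * g1.length := by
    have := hg'.length_le
    rwa [hlen, length_sbst] at this
  have hq : q < g1.length := by omega
  have hget : ∀ k, k < al → (sbst g1)[v.length + k]? = x1[k]? := by
    intro k hk
    obtain ⟨t, ht⟩ := hg'
    rw [← ht, List.append_assoc, List.getElem?_append_right (by omega), Nat.add_sub_cancel_left,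
      List.getElem?_append_left (by rw [List.length_take]; omega), List.getElem?_take_of_lt hk]
  have ha1 : (sub g1[q])[i]? = x1[r]? := by
    rw [← hget r hr0, hn]
    exact (getElem_sbst g1 q i hq (by omega)).symm
  have ha0 : (sub g1[q])[i - 1]? = x1[r - 1]? := by
    rw [← hget (r - 1) (by omega)]
    have : v.length + (r - 1) = 8 * q + (i - 1) := by omega
    rw [this]
    exact (getElem_sbst g1 q (i - 1) hq (by omega)).symm
  -- the second word
  obtain ⟨q', i', hi1', hi2', hn'⟩ : ∃ q' i', 1 ≤ i' ∧ i' ≤ 7 ∧ x1.length - r = 8 * q' + i' :=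
    ⟨(x1.length - r) / 8, (x1.length - r) % 8, by omega, by omega, by omega⟩
  have hil : (FreeGroup.invRev x1).length = x1.length := FreeGroup.invRev_length
  have hlen3 : x1.length ≤ 8 * h'.toWord.length := by
    have := congrArg List.length h3
    rw [length_sbst, List.length_append, hil] at this
    omega
  have hq' : q' < h'.toWord.length := by omega
  obtain ⟨y', hy'⟩ : ∃ y', y' = h'.toWord[q'] := ⟨_, rfl⟩
  obtain ⟨y, hy⟩ : ∃ y, y = g1[q] := ⟨_, rfl⟩
  have hget' : ∀ k, k < x1.length → (sbst h'.toWord)[k]? = (x1[x1.length - 1 - k]?).map (fun y => (y.1, !y.2)) := by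
    intro k hk
    rw [h3, List.getElem?_append_left (by rw [hil]; exact hk), A6a_inv _ _ hk]
  have hb1 : (sub y')[i']? = (x1[r - 1]?).map (fun y => (y.1, !y.2)) := by
    have e1 := hget' (x1.length - r) (by omega)
    rw [show x1.length - 1 - (x1.length - r) = r - 1 by omega, hn', getElem_sbst _ q' i' hq' (by omega), ← hy'] at e1
    exact e1
  have hb0 : (sub y')[i' - 1]? = (x1[r]?).map (fun y => (y.1, !y.2)) := by
    have e1 := hget' (x1.length - r - 1) (by omega)
    rw [show x1.length - 1 - (x1.length - r - 1) = r by omega,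
      show x1.length - r - 1 = 8 * q' + (i' - 1) by omega, getElem_sbst _ q' (i' - 1) hq' (by omega), ← hy'] at e1
    exact e1
  -- the inverse letter
  have hsub : sub (y'.1, !y'.2) = FreeGroup.invRev (sub y') := sub_neg y'.1 y'.2
  have hmm : ∀ o : Option (X6 × Bool), (o.map (fun y => (y.1, !y.2))).map (fun y => (y.1, !y.2)) = o := by
    intro o
    cases o <;> simp
  have hc0 : (sub (y'.1, !y'.2))[7 - i']? = x1[r - 1]? := by
    rw [hsub, A6a_inv _ _ (by rw [sub_len]; omega), sub_len, show 8 - 1 - (7 - i') = i' by omega, hb1, hmm]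
  have hc1 : (sub (y'.1, !y'.2))[7 - i' + 1]? = x1[r]? := by
    rw [hsub, A6a_inv _ _ (by rw [sub_len]; omega), sub_len, show 8 - 1 - (7 - i' + 1) = i' - 1 by omega, hb0, hmm]
  obtain ⟨hyy, hii⟩ := dig y (y'.1, !y'.2) ⟨i - 1, by omega⟩ ⟨7 - i', by omega⟩
    (by rw [hy]; exact ha0.trans hc0.symm)
    (by
      rw [hy]
      show (sub g1[q])[i - 1 + 1]? = _
      rw [show i - 1 + 1 = i by omega]
      exact ha1.trans hc1.symm)
  have hii' : i - 1 = 7 - i' := congrArg Fin.val hii
  have hi8 : i = 8 - i' := by omega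
  -- the group
  have hz1 : FreeGroup.mk (v ++ x1.take r) = phi (FreeGroup.mk (g1.take q)) * FreeGroup.mk ((sub y).take i) := by
    rw [A6a_phi_mk, FreeGroup.mul_mk, hy, ← A6a_take g1 q i hq (by omega), ← hn]
    congr 1
    obtain ⟨t, ht⟩ := hg'
    rw [← ht, List.append_assoc, List.take_append (i := v.length + r) (l₁ := v),
      List.take_of_length_le (Nat.le_add_right _ _), Nat.add_sub_cancel_left,
      List.take_append_of_le_length (by rw [List.length_take, min_eq_left hal]; exact hr0.le), List.take_take, min_eq_left hr0.le]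
  have hxm : x = FreeGroup.mk (v ++ x1) := by rw [← h1, FreeGroup.mk_toWord]
  have hz2 : FreeGroup.mk (v ++ x1.take r) =
      x * (phi (FreeGroup.mk (h'.toWord.take q')) * FreeGroup.mk ((sub y').take i')) := by
    rw [A6a_phi_mk, FreeGroup.mul_mk, hy', ← A6a_take h'.toWord q' i' hq' (by omega), ← hn', h3]
    have e1 : (FreeGroup.invRev x1 ++ x2).take (x1.length - r) = FreeGroup.invRev (x1.drop r) := by
      rw [List.take_append_of_le_length (by rw [hil]; omega)]
      unfold FreeGroup.invRev
      rw [List.take_reverse, List.length_map, show x1.length - (x1.length - r) = r by omega, List.map_drop]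
    rw [e1, ← FreeGroup.inv_mk, hxm]
    have e2 : v ++ x1 = (v ++ x1.take r) ++ x1.drop r := by
      rw [List.append_assoc, List.take_append_drop]
    rw [e2, ← FreeGroup.mul_mk (L₁ := v ++ x1.take r)]
    group
  have hz3 : FreeGroup.mk ((sub y').take i') = phi (FreeGroup.mk [y']) * FreeGroup.mk ((sub y).take i) := by
    have e0 : sbst [y'] = sub y' := by simp [sbst]
    have e1 : (sub y).take i = FreeGroup.invRev ((sub y').drop i') := by
      rw [hyy, hsub, hi8]
      unfold FreeGroup.invRev
      rw [List.take_reverse, List.length_map, sub_len, show 8 - (8 - i') = i' by omega, List.map_drop]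
    rw [A6a_phi_mk, e0, e1, ← FreeGroup.inv_mk]
    have e2 : sub y' = (sub y').take i' ++ (sub y').drop i' := (List.take_append_drop _ _).symm
    conv_rhs => rw [e2]
    rw [← FreeGroup.mul_mk, ← e2]
    group
  rw [hz3] at hz2
  have hfin : x = phi (FreeGroup.mk (g1.take q) * (FreeGroup.mk (h'.toWord.take q') * FreeGroup.mk [y'])⁻¹) := by
    rw [map_mul, map_inv, map_mul, eq_mul_inv_iff_mul_eq]
    have := hz1.symm.trans hz2
    have e5 : phi (FreeGroup.mk (g1.take q)) * FreeGroup.mk ((sub y).take i) =
      (x * (phi (FreeGroup.mk (h'.toWord.take q')) * phi (FreeGroup.mk [y']))) * FreeGroup.mk ((sub y).take i) := by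
      rw [this]; group
    exact (mul_right_cancel e5).symm
  exact hx _ hfin

end Dae
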