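import Pool.Agent.Lib.MP_dae6d7_al.Ifx
import Pool.Agent.Lib.MP_dae6d7_al.A4a
import Pool.Agent.Lib.MP_dae6d7_al.A1c

/-! Row A6b. (Sections refer to the paper /team-store/dae6d7_paper.md.)

Suppose 4 <= be. For 0 < r < be put n = |v| + r; choose r in {1,2,3} with n and |x1| + r both not divisible by 8. The word
v ++ x2.take be is an initial piece of sbst g1, so its letters number n-1, n (which are x2[r-1], x2[r]) are the letters number
i-1, i of sub y, i = n mod 8, y = g1[n/8]. In (phi h').toWord = sbst h'.toWord = invRev x1 ++ x2 they are the letters number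
|x1|+r-1, |x1|+r, i.e. the letters i'-1, i' of sub y', i' = (|x1|+r) mod 8, y' = h'.toWord[(|x1|+r)/8] (getElem_sbst). By dig
y = y', i = i'. In the group, z = mk (v ++ x2.take r) = phi(g) * mk ((sub y).take i) and z = x * mk (initial piece of length
|x1|+r of (phi h').toWord) = x * phi(g') * mk ((sub y).take i), so x = phi(g) phi(g')^{-1}: contradiction with hx.
-/

namespace Dae

theorem A6b_take (w : Wd X6) (q i : ℕ) (hq : q < w.length) (hi : i ≤ 8) :
    (sbst w).take (8 * q + i) = sbst (w.take q) ++ (sub w[q]).take i := by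
  have h1 : w = w.take q ++ ([w[q]] ++ w.drop (q + 1)) := by
    rw [List.singleton_append, List.getElem_cons_drop, List.take_append_drop]
  have h2 : sbst w = sbst (w.take q) ++ (sub w[q] ++ sbst (w.drop (q + 1))) := by
    conv_lhs => rw [h1]
    rw [sbst_append, sbst_append]
    simp [sbst]
  have h3 : (sbst (w.take q)).length = 8 * q := by
    rw [length_sbst, List.length_take, Nat.min_eq_left hq.le]
  rw [h2, List.take_append, h3, List.take_of_length_le (by rw [h3]; omega),
    Nat.add_sub_cancel_left, List.take_append, sub_len, Nat.sub_eq_zero_of_le hi, List.take_zero,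
    List.append_nil]

theorem A6b_mk (w : Wd X6) (hw : FreeGroup.IsReduced w) : phi (FreeGroup.mk w) = FreeGroup.mk (sbst w) := by
  have h1 := toWord_phi (FreeGroup.mk w)
  rw [FreeGroup.toWord_mk, hw.reduce_eq] at h1
  rw [← h1, FreeGroup.mk_toWord]

/-- the letters of a piece, and the piece in the group -/
theorem A6b_piece (w p : Wd X6) (hw : FreeGroup.IsReduced w) (hp : p <+: sbst w) (n : ℕ) (h8 : n % 8 ≠ 0)
    (hn : n < p.length) : ∃ y : X6 × Bool, ∃ g : F,
      p[n - 1]? = (sub y)[n % 8 - 1]? ∧ p[n]? = (sub y)[n % 8]? ∧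
      FreeGroup.mk (p.take n) = phi g * FreeGroup.mk ((sub y).take (n % 8)) := by
  obtain ⟨t, ht⟩ := hp
  have hlen : p.length + t.length = 8 * w.length := by
    rw [← length_sbst, ← ht, List.length_append]
  have hdiv : 8 * (n / 8) + n % 8 = n := Nat.div_add_mod n 8
  have hmod : n % 8 < 8 := Nat.mod_lt _ (by norm_num)
  have hq : n / 8 < w.length := by omega
  refine ⟨w[n / 8], FreeGroup.mk (w.take (n / 8)), ?_, ?_, ?_⟩
  · rw [← getElem_sbst w (n / 8) (n % 8 - 1) hq (by omega)]
    have : 8 * (n / 8) + (n % 8 - 1) = n - 1 := by omega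
    rw [this, ← ht, List.getElem?_append_left (by omega)]
  · rw [← getElem_sbst w (n / 8) (n % 8) hq hmod, hdiv, ← ht, List.getElem?_append_left hn]
  · have hr : FreeGroup.IsReduced (w.take (n / 8)) := red_ifx hw (List.take_prefix _ _).isInfix
    rw [A6b_mk _ hr, FreeGroup.mul_mk, ← A6b_take w (n / 8) (n % 8) hq hmod.le, hdiv, ← ht,
      List.take_append_of_le_length hn.le]

/-- the other side -/
theorem overlap_right (x h' : F) (hx : ∀ g : F, x ≠ phi g) (v x1 x2 : Wd X6) (h1 : x.toWord = v ++ x1)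
    (h2 : (x * phi h').toWord = v ++ x2)
    (h3 : (phi h').toWord = FreeGroup.invRev x1 ++ x2) (be : ℕ) (hbe : be ≤ x2.length)
    (hT : TT 1 (v ++ x2.take be)) : be ≤ 3 := by
  by_contra hcon
  have hbe4 : 4 ≤ be := by omega
  obtain ⟨g1, hg1, hp1⟩ := hT
  have hp1' : v ++ x2.take be <+: sbst g1 := hp1
  have hp2 : FreeGroup.invRev x1 ++ x2 <+: sbst h'.toWord := by
    rw [← h3, toWord_phi]
  have hl1 : (v ++ x2.take be).length = v.length + be := by
    rw [List.length_append, List.length_take, Nat.min_eq_left hbe]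
  have hl2 : (FreeGroup.invRev x1 ++ x2).length = x1.length + x2.length := by
    rw [List.length_append, FreeGroup.invRev_length]
  obtain ⟨r, hr1, hr3, hrv, hrx⟩ : ∃ r, 1 ≤ r ∧ r ≤ 3 ∧ (v.length + r) % 8 ≠ 0 ∧
      (x1.length + r) % 8 ≠ 0 := by
    by_cases c1 : (v.length + 1) % 8 ≠ 0 ∧ (x1.length + 1) % 8 ≠ 0
    · exact ⟨1, le_rfl, by norm_num, c1⟩
    by_cases c2 : (v.length + 2) % 8 ≠ 0 ∧ (x1.length + 2) % 8 ≠ 0
    · exact ⟨2, by norm_num, by norm_num, c2⟩
    exact ⟨3, by norm_num, by norm_num, by omega, by omega⟩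
  obtain ⟨y, g, e1, e2, e3⟩ := A6b_piece g1 _ hg1 hp1' (v.length + r) hrv (by rw [hl1]; omega)
  obtain ⟨y', g', e1', e2', e3'⟩ := A6b_piece h'.toWord _ FreeGroup.isReduced_toWord hp2
    (x1.length + r) hrx (by rw [hl2]; omega)
  have a1 : (v ++ x2.take be)[v.length + r - 1]? = x2[r - 1]? := by
    rw [List.getElem?_append_right (by omega), List.getElem?_take_of_lt (by omega)]
    congr 1; omega
  have a2 : (v ++ x2.take be)[v.length + r]? = x2[r]? := by
    rw [List.getElem?_append_right (by omega), List.getElem?_take_of_lt (by omega)]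
    congr 1; omega
  have b1 : (FreeGroup.invRev x1 ++ x2)[x1.length + r - 1]? = x2[r - 1]? := by
    rw [List.getElem?_append_right (by rw [FreeGroup.invRev_length]; omega), FreeGroup.invRev_length]
    congr 1; omega
  have b2 : (FreeGroup.invRev x1 ++ x2)[x1.length + r]? = x2[r]? := by
    rw [List.getElem?_append_right (by rw [FreeGroup.invRev_length]; omega), FreeGroup.invRev_length]
    congr 1; omega
  rw [a1] at e1
  rw [a2] at e2
  rw [b1] at e1'
  rw [b2] at e2'
  have hm1 : (v.length + r) % 8 < 8 := Nat.mod_lt _ (by norm_num)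
  have hm2 : (x1.length + r) % 8 < 8 := Nat.mod_lt _ (by norm_num)
  have hd := dig y y' ⟨(v.length + r) % 8 - 1, by omega⟩ ⟨(x1.length + r) % 8 - 1, by omega⟩
    (by rw [← e1, ← e1']) (by
      have q1 : (v.length + r) % 8 - 1 + 1 = (v.length + r) % 8 := by omega
      have q2 : (x1.length + r) % 8 - 1 + 1 = (x1.length + r) % 8 := by omega
      simp only [q1, q2]
      rw [← e2, ← e2'])
  obtain ⟨rfl, hi⟩ := hd
  have hi' : (v.length + r) % 8 = (x1.length + r) % 8 := by
    have := congrArg Fin.val hi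
    simp only at this
    omega
  rw [← hi'] at e3'
  have t1 : (v ++ x2.take be).take (v.length + r) = v ++ x2.take r := by
    rw [List.take_append, List.take_of_length_le (by omega), Nat.add_sub_cancel_left, List.take_take,
      Nat.min_eq_left (by omega)]
  have t2 : (FreeGroup.invRev x1 ++ x2).take (x1.length + r) = FreeGroup.invRev x1 ++ x2.take r := by
    rw [List.take_append, List.take_of_length_le (by rw [FreeGroup.invRev_length]; omega),
      FreeGroup.invRev_length, Nat.add_sub_cancel_left]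
  rw [t1, ← FreeGroup.mul_mk] at e3
  rw [t2, ← FreeGroup.mul_mk, ← FreeGroup.inv_mk] at e3'
  have hxm : x = FreeGroup.mk v * FreeGroup.mk x1 := by
    rw [FreeGroup.mul_mk, ← h1, FreeGroup.mk_toWord]
  apply hx (g * g'⁻¹)
  rw [map_mul, map_inv, hxm]
  have c1 : phi g = FreeGroup.mk v * FreeGroup.mk (x2.take r) *
      (FreeGroup.mk ((sub y).take ((v.length + r) % 8)))⁻¹ := by
    rw [e3]; group
  have c2 : phi g' = (FreeGroup.mk x1)⁻¹ * FreeGroup.mk (x2.take r) *
      (FreeGroup.mk ((sub y).take ((v.length + r) % 8)))⁻¹ := by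
    rw [e3']; group
  rw [c1, c2]
  group

end Dae
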