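import Pool.Agent.Lib.MP_dae6d7_al.A4b

/-! Row B1. (Sections refer to the paper /team-store/dae6d7_paper.md.)

(2.6) of the paper. A m i x = max i 0 + sum over j in Icc (1 + (-i).toNat) ((m-i).toNat) of min 1 (lam j x / 8^(j-1)).
A_phi_neg: reindex j = j'+1 and lam (j'+1) (phi x) = 8 lam j' x (lam_phi), 8^j' / 8^(j'-1) = 8. A_phi_pos: the term j = 1 is
min 1 (8 lam 0 x) = 1 since lam 0 x = |x| >= 1; the others are the terms of A m (i+1) x; max i 0 + 1 = max (i+1) 0.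
A_le: number of terms: m - i for i >= 0, and m for i < 0. A_block: lam j (phn (m-i) y) = 8^(m-i) for j <= m-i (lam_phn), so all
terms are 1.
-/

namespace Dae

theorem B1_shift (f : ℕ → ℝ) (a b : ℕ) :
    ∑ j ∈ Finset.Icc (a + 1) (b + 1), f j = ∑ j ∈ Finset.Icc a b, f (j + 1) := by
  rw [← Finset.map_add_right_Icc, Finset.sum_map]
  rfl

theorem B1_term (j : ℕ) (hj : 1 ≤ j) (x : F) :
    min 1 ((lam (j + 1) (phi x) : ℝ) / 8 ^ (j + 1 - 1)) = min 1 ((lam j x : ℝ) / 8 ^ (j - 1)) := by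
  rw [lam_phi]
  obtain ⟨k, rfl⟩ : ∃ k, j = k + 1 := ⟨j - 1, by omega⟩
  congr 1
  push_cast
  rw [pow_succ]
  field_simp

/-- (2.6), negative level -/
theorem A_phi_neg (m : ℕ) (i : ℤ) (hi : i < 0) (x : F) : A m i (phi x) = A m (i + 1) x := by
  unfold A
  obtain ⟨a, rfl⟩ : ∃ a : ℕ, i = -((a : ℤ) + 1) := ⟨(-i - 1).toNat, by omega⟩
  have e1 : 1 + (-(-((a : ℤ) + 1))).toNat = (a + 1) + 1 := by omega
  have e2 : ((m : ℤ) - -((a : ℤ) + 1)).toNat = (m + a) + 1 := by omega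
  have e3 : 1 + (-(-((a : ℤ) + 1) + 1)).toNat = a + 1 := by omega
  have e4 : ((m : ℤ) - (-((a : ℤ) + 1) + 1)).toNat = m + a := by omega
  rw [e1, e2, e3, e4, B1_shift]
  have h1 : max ((-((a : ℤ) + 1) : ℤ) : ℝ) 0 = 0 := by
    apply max_eq_right
    push_cast
    have : (0 : ℝ) ≤ a := Nat.cast_nonneg a
    linarith
  have h2 : max ((-((a : ℤ) + 1) + 1 : ℤ) : ℝ) 0 = 0 := by
    apply max_eq_right
    push_cast
    have : (0 : ℝ) ≤ a := Nat.cast_nonneg a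
    linarith
  rw [h1, h2]
  congr 1
  refine Finset.sum_congr rfl fun j hj => ?_
  rw [Finset.mem_Icc] at hj
  exact B1_term j (by omega) x

theorem B1_len {x : F} (hx : x ≠ 1) : 1 ≤ x.toWord.length := by
  rw [Nat.one_le_iff_ne_zero]
  intro h
  apply hx
  rw [← FreeGroup.toWord_eq_nil_iff]
  exact List.length_eq_zero_iff.1 h

/-- (2.6), nonnegative level -/
theorem A_phi_pos (m : ℕ) (i : ℤ) (hi : 0 ≤ i) (him : i < m) (x : F) (hx : x ≠ 1) :
    A m i (phi x) = A m (i + 1) x := by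
  unfold A
  obtain ⟨a, rfl⟩ : ∃ a : ℕ, i = (a : ℤ) := ⟨i.toNat, by omega⟩
  obtain ⟨b, rfl⟩ : ∃ b : ℕ, m = a + b + 1 := ⟨m - a - 1, by omega⟩
  have e1 : 1 + (-(a : ℤ)).toNat = 0 + 1 := by omega
  have e2 : (((a + b + 1 : ℕ) : ℤ) - (a : ℤ)).toNat = b + 1 := by omega
  have e3 : 1 + (-((a : ℤ) + 1)).toNat = 1 := by omega
  have e4 : (((a + b + 1 : ℕ) : ℤ) - ((a : ℤ) + 1)).toNat = b := by omega
  rw [e1, e2, e3, e4, B1_shift, ← Finset.add_sum_Ioc_eq_sum_Icc (Nat.zero_le b)]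
  have h3 : Finset.Ioc 0 b = Finset.Icc 1 b := by
    ext j
    rw [Finset.mem_Ioc, Finset.mem_Icc]
    omega
  rw [h3]
  have h4 : min 1 ((lam (0 + 1) (phi x) : ℝ) / 8 ^ (0 + 1 - 1)) = 1 := by
    apply min_eq_left
    rw [lam_phi, lam_zero]
    have h5 := B1_len hx
    have h6 : (1 : ℝ) ≤ (x.toWord.length : ℝ) := by exact_mod_cast h5
    push_cast
    rw [pow_zero, div_one]
    linarith
  have h7 : ∑ j ∈ Finset.Icc 1 b, min 1 ((lam (j + 1) (phi x) : ℝ) / 8 ^ (j + 1 - 1)) =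
      ∑ j ∈ Finset.Icc 1 b, min 1 ((lam j x : ℝ) / 8 ^ (j - 1)) := by
    refine Finset.sum_congr rfl fun j hj => ?_
    rw [Finset.mem_Icc] at hj
    exact B1_term j hj.1 x
  rw [h4, h7]
  have h8 : max (((a : ℤ)) : ℝ) 0 = (a : ℝ) := by
    rw [Int.cast_natCast]
    exact max_eq_left (Nat.cast_nonneg a)
  have h9 : max (((a : ℤ) + 1 : ℤ) : ℝ) 0 = (a : ℝ) + 1 := by
    push_cast
    exact max_eq_left (by positivity)
  rw [h8, h9]
  ring

theorem A_one (m : ℕ) (i : ℤ) : A m i 1 = max (i : ℝ) 0 := by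
  unfold A
  rw [Finset.sum_eq_zero, add_zero]
  intro j _
  rw [lam_one, Nat.cast_zero, zero_div]
  exact min_eq_right zero_le_one

theorem A_nonneg (m : ℕ) (i : ℤ) (x : F) : 0 ≤ A m i x := by
  unfold A
  refine add_nonneg (le_max_right _ _) (Finset.sum_nonneg fun j _ => ?_)
  exact le_min zero_le_one (by positivity)

theorem A_le (m : ℕ) (i : ℤ) (him : i ≤ m) (x : F) : A m i x ≤ m := by
  unfold A
  have h1 : ∑ j ∈ Finset.Icc (1 + (-i).toNat) ((m : ℤ) - i).toNat, min 1 ((lam j x : ℝ) / 8 ^ (j - 1)) ≤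
      (((m : ℤ) - i).toNat + 1 - (1 + (-i).toNat) : ℕ) := by
    have h2 := Finset.sum_le_card_nsmul (Finset.Icc (1 + (-i).toNat) ((m : ℤ) - i).toNat)
      (fun j => min 1 ((lam j x : ℝ) / 8 ^ (j - 1))) 1 (fun j _ => min_le_left _ _)
    rw [Nat.card_Icc, nsmul_eq_mul, mul_one] at h2
    exact h2
  rcases le_or_gt 0 i with hi | hi
  · obtain ⟨a, rfl⟩ : ∃ a : ℕ, i = (a : ℤ) := ⟨i.toNat, by omega⟩
    have e1 : ((m : ℤ) - (a : ℤ)).toNat + 1 - (1 + (-(a : ℤ)).toNat) = m - a := by omega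
    rw [e1] at h1
    have h3 : a ≤ m := by omega
    rw [Nat.cast_sub h3] at h1
    have h8 : max (((a : ℤ)) : ℝ) 0 = (a : ℝ) := by
      rw [Int.cast_natCast]
      exact max_eq_left (Nat.cast_nonneg a)
    rw [h8]
    linarith
  · have e1 : ((m : ℤ) - i).toNat + 1 - (1 + (-i).toNat) = m := by omega
    rw [e1] at h1
    have h8 : max (i : ℝ) 0 = 0 := by
      apply max_eq_right
      exact_mod_cast hi.le
    rw [h8]
    linarith

theorem A_top (m : ℕ) (x : F) : A m m x = m := by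
  unfold A
  have e1 : 1 + (-(m : ℤ)).toNat = 1 := by omega
  have e2 : ((m : ℤ) - (m : ℤ)).toNat = 0 := by omega
  rw [e1, e2, Finset.Icc_eq_empty (by omega), Finset.sum_empty, add_zero, Int.cast_natCast]
  exact max_eq_left (Nat.cast_nonneg m)

/-- A_i(phi^{m-i}(y)) = m for a letter y, 0 <= i <= m -/
theorem A_block (m : ℕ) (i : ℤ) (hi : 0 ≤ i) (him : i ≤ m) (y : X6 × Bool) :
    A m i (phn ((m : ℤ) - i).toNat (lv FreeGroup.of y)) = m := by
  obtain ⟨a, rfl⟩ : ∃ a : ℕ, i = (a : ℤ) := ⟨i.toNat, by omega⟩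
  obtain ⟨b, rfl⟩ : ∃ b : ℕ, m = a + b := ⟨m - a, by omega⟩
  have e1 : 1 + (-(a : ℤ)).toNat = 1 := by omega
  have e2 : (((a + b : ℕ) : ℤ) - (a : ℤ)).toNat = b := by omega
  unfold A
  rw [e1, e2]
  have hlen : (lv FreeGroup.of y : F).toWord.length = 1 := by
    rcases y with ⟨z, t⟩
    cases t
    · rw [lv_false, FreeGroup.toWord_inv, FreeGroup.toWord_of]
      simp [FreeGroup.invRev]
    · rw [lv_true, FreeGroup.toWord_of]
      rfl
  have h1 : ∀ j ∈ Finset.Icc 1 b, min 1 ((lam j (phn b (lv FreeGroup.of y)) : ℝ) / 8 ^ (j - 1)) = 1 := by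
    intro j hj
    rw [Finset.mem_Icc] at hj
    rw [lam_phn b j hj.2, hlen, mul_one]
    apply min_eq_left
    rw [one_le_div (by positivity)]
    push_cast
    exact pow_le_pow_right₀ (by norm_num) (by omega)
  rw [Finset.sum_congr rfl h1, Finset.sum_const, Nat.card_Icc, nsmul_eq_mul, mul_one]
  have h8 : max (((a : ℤ)) : ℝ) 0 = (a : ℝ) := by
    rw [Int.cast_natCast]
    exact max_eq_left (Nat.cast_nonneg a)
  rw [h8]
  have e3 : b + 1 - 1 = b := by omega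
  rw [e3]
  push_cast
  ring

end Dae
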