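import Pool.Agent.Lib.MP_dae6d7_al.A4c

/-! Row B2. (Sections refer to the paper /team-store/dae6d7_paper.md.) -/

namespace Dae

theorem B2_geom (k0 d : ℕ) : ∑ k ∈ Finset.Ico k0 (k0 + d), (1 / 8 : ℝ) ^ k =
    8 / 7 * ((1 / 8 : ℝ) ^ k0 - (1 / 8 : ℝ) ^ (k0 + d)) := by
  induction d with
  | zero => simp
  | succ d ih =>
    rw [← add_assoc, Finset.sum_Ico_succ_top (by omega), ih]
    rw [pow_succ]
    ring

theorem B2_geom_le (k0 : ℕ) (s : Finset ℕ) (hs : ∀ k ∈ s, k0 ≤ k) :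
    ∑ k ∈ s, (1 / 8 : ℝ) ^ k ≤ 8 / 7 * (1 / 8 : ℝ) ^ k0 := by
  have hsub : s ⊆ Finset.Ico k0 (k0 + (s.sup id + 1)) := by
    intro k hk
    rw [Finset.mem_Ico]
    have h1 := hs k hk
    have h2 : k ≤ s.sup id := Finset.le_sup (f := id) hk
    omega
  calc ∑ k ∈ s, (1 / 8 : ℝ) ^ k
      ≤ ∑ k ∈ Finset.Ico k0 (k0 + (s.sup id + 1)), (1 / 8 : ℝ) ^ k :=
        Finset.sum_le_sum_of_subset_of_nonneg hsub (fun _ _ _ => by positivity)
    _ = 8 / 7 * ((1 / 8 : ℝ) ^ k0 - (1 / 8 : ℝ) ^ (k0 + (s.sup id + 1))) := B2_geom _ _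
    _ ≤ 8 / 7 * (1 / 8 : ℝ) ^ k0 := by
        have : (0 : ℝ) ≤ (1 / 8 : ℝ) ^ (k0 + (s.sup id + 1)) := by positivity
        linarith

/-- one term -/
theorem B2_term (q : ℝ) (hq : 0 < q) (n L : ℕ) (hn : n ≤ L) :
    |min 1 (((L + 1 : ℕ) : ℝ) / q) - min 1 ((L : ℝ) / q)| ≤ if q ≤ (n : ℝ) then 0 else 1 / q := by
  have hL : (n : ℝ) ≤ (L : ℝ) := by exact_mod_cast hn
  split_ifs with h
  · have h1 : 1 ≤ (L : ℝ) / q := by
      rw [le_div_iff₀ hq]; linarith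
    have h2 : 1 ≤ ((L + 1 : ℕ) : ℝ) / q := by
      rw [le_div_iff₀ hq]; push_cast; linarith
    rw [min_eq_left h1, min_eq_left h2]
    simp
  · have h3 : ((L + 1 : ℕ) : ℝ) / q = (L : ℝ) / q + 1 / q := by
      push_cast; rw [add_div]
    have hp : 0 ≤ 1 / q := by positivity
    rw [h3, abs_le]
    constructor
    · have : min 1 ((L : ℝ) / q) ≤ min 1 ((L : ℝ) / q + 1 / q) := min_le_min_left _ (by linarith)
      linarith
    · have : min 1 ((L : ℝ) / q + 1 / q) ≤ min 1 ((L : ℝ) / q) + 1 / q := by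
        rw [← min_add_add_right]
        exact min_le_min (by linarith) le_rfl
      linarith

theorem B2_diff (j : ℕ) (x : F) (y : X6 × Bool) (n : ℕ)
    (hn : n ≤ x.toWord.length) (hn' : n ≤ (x * lv FreeGroup.of y).toWord.length) :
    |min 1 ((lam j (x * lv FreeGroup.of y) : ℝ) / 8 ^ (j - 1)) - min 1 ((lam j x : ℝ) / 8 ^ (j - 1))| ≤
      if (8 : ℝ) ^ (j - 1) ≤ (n : ℝ) then 0 else 1 / 8 ^ (j - 1) := by
  have hq : (0 : ℝ) < 8 ^ (j - 1) := by positivity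
  rcases lam_letter j x y with h | ⟨h1, h2, h3⟩ | ⟨h1, h2, h3⟩
  · rw [h, sub_self, abs_zero]
    split_ifs <;> positivity
  · rw [h1, h3]
    exact B2_term _ hq n _ hn
  · rw [h1, h3, h2, abs_sub_comm]
    exact B2_term _ hq n _ hn'

/-- (2.7): one letter. Only the terms j with 8^(j-1) >= n+1 change (n the smaller of the two lengths),
each by at most 1/8^(j-1); also j >= 1 + i^-. Geometric series, 8^k >= k+1. -/
theorem A_letter (m : ℕ) (i : ℤ) (x : F) (y : X6 × Bool) (n : ℕ)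
    (hn : n ≤ x.toWord.length) (hn' : n ≤ (x * lv FreeGroup.of y).toWord.length) :
    |A m i (x * lv FreeGroup.of y) - A m i x| ≤ 2 / (1 + max (n : ℝ) (-(i : ℝ))) := by
  classical
  set s := Finset.Icc (1 + (-i).toNat) ((m : ℤ) - i).toNat with hs
  have h1 : |A m i (x * lv FreeGroup.of y) - A m i x| ≤
      ∑ j ∈ s, (if (8 : ℝ) ^ (j - 1) ≤ (n : ℝ) then 0 else 1 / 8 ^ (j - 1)) := by
    have : A m i (x * lv FreeGroup.of y) - A m i x =
        ∑ j ∈ s, (min 1 ((lam j (x * lv FreeGroup.of y) : ℝ) / 8 ^ (j - 1)) -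
          min 1 ((lam j x : ℝ) / 8 ^ (j - 1))) := by
      rw [Finset.sum_sub_distrib]
      unfold A
      rw [← hs]
      ring
    rw [this]
    exact (Finset.abs_sum_le_sum_abs _ _).trans (Finset.sum_le_sum (fun j _ => B2_diff j x y n hn hn'))
  have hex : ∃ k : ℕ, (-i).toNat ≤ k ∧ n < 8 ^ k :=
    ⟨max (-i).toNat n, le_max_left _ _,
      (Nat.lt_pow_self (by norm_num)).trans_le (Nat.pow_le_pow_right (by norm_num) (le_max_right _ _))⟩
  set k0 := Nat.find hex with hk0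
  obtain ⟨hk1, hk2⟩ := Nat.find_spec hex
  have h2 : ∑ j ∈ s, (if (8 : ℝ) ^ (j - 1) ≤ (n : ℝ) then 0 else 1 / 8 ^ (j - 1)) =
      ∑ k ∈ (s.filter (fun j => ¬ (8 : ℝ) ^ (j - 1) ≤ (n : ℝ))).image (fun j => j - 1), (1 / 8 : ℝ) ^ k := by
    rw [Finset.sum_image, Finset.sum_filter]
    · refine Finset.sum_congr rfl (fun j _ => ?_)
      split_ifs with h
      · rfl
      · rw [one_div, one_div, inv_pow]
    · intro a ha b hb hab
      simp only [hs, Finset.coe_filter, Finset.mem_Icc, Set.mem_ofPred_eq] at ha hb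
      simp only at hab
      omega
  have h3 : ∀ k ∈ (s.filter (fun j => ¬ (8 : ℝ) ^ (j - 1) ≤ (n : ℝ))).image (fun j => j - 1), k0 ≤ k := by
    intro k hk
    rw [Finset.mem_image] at hk
    obtain ⟨j, hj, rfl⟩ := hk
    rw [Finset.mem_filter, hs, Finset.mem_Icc] at hj
    obtain ⟨⟨ha, _⟩, hb⟩ := hj
    apply Nat.find_min' hex
    refine ⟨by omega, ?_⟩
    rw [not_le] at hb
    exact_mod_cast hb
  have h4 := B2_geom_le k0 _ h3
  rw [← h2] at h4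
  have h5 : (1 + max (n : ℝ) (-(i : ℝ))) ≤ 8 ^ k0 := by
    have h6 : (n : ℝ) + 1 ≤ 8 ^ k0 := by
      have : n + 1 ≤ 8 ^ k0 := hk2
      exact_mod_cast this
    have h7 : -(i : ℝ) + 1 ≤ 8 ^ k0 := by
      have h8 : k0 + 1 ≤ 8 ^ k0 := Nat.lt_pow_self (by norm_num)
      have h9 : (-i).toNat + 1 ≤ 8 ^ k0 := by omega
      have h10 : -i + 1 ≤ (8 : ℤ) ^ k0 := by
        have : ((( -i).toNat + 1 : ℕ) : ℤ) ≤ ((8 ^ k0 : ℕ) : ℤ) := by exact_mod_cast h9
        push_cast at this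
        have h11 : -i ≤ ((-i).toNat : ℤ) := Int.self_le_toNat _
        linarith
      exact_mod_cast h10
    rcases le_total (n : ℝ) (-(i : ℝ)) with h | h
    · rw [max_eq_right h]; linarith
    · rw [max_eq_left h]; linarith
  have h12 : 0 < 1 + max (n : ℝ) (-(i : ℝ)) := by
    have : (0 : ℝ) ≤ max (n : ℝ) (-(i : ℝ)) := le_trans (Nat.cast_nonneg n) (le_max_left _ _)
    linarith
  refine (h1.trans h4).trans ?_
  have h13 : (1 / 8 : ℝ) ^ k0 ≤ 1 / (1 + max (n : ℝ) (-(i : ℝ))) := by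
    rw [one_div, inv_pow, one_div]
    exact inv_anti₀ h12 h5
  have h14 : 0 ≤ 1 / (1 + max (n : ℝ) (-(i : ℝ))) := by positivity
  calc 8 / 7 * (1 / 8 : ℝ) ^ k0 ≤ 8 / 7 * (1 / (1 + max (n : ℝ) (-(i : ℝ)))) := by gcongr
    _ ≤ 2 * (1 / (1 + max (n : ℝ) (-(i : ℝ)))) := by gcongr; norm_num
    _ = 2 / (1 + max (n : ℝ) (-(i : ℝ))) := by ring

theorem A_letter' (m : ℕ) (i : ℤ) (x : F) (y : X6 × Bool) :
    |A m i (x * lv FreeGroup.of y) - A m i x| ≤ 2 := by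
  have h := A_letter m i x y 0 (Nat.zero_le _) (Nat.zero_le _)
  refine h.trans ?_
  have h0 : (0 : ℝ) ≤ max ((0 : ℕ) : ℝ) (-(i : ℝ)) := le_trans (by simp) (le_max_left _ _)
  rw [div_le_iff₀ (by linarith)]
  linarith

end Dae
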