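import Pool.Agent.Lib.MP_dae6d7_al.A5b

/-! Row B3. (Sections refer to the paper /team-store/dae6d7_paper.md.)

(2.8). Each term changes by at most min 1 (|lam j (xh) - lam j x|/8^(j-1)). The terms with j <= J+2 are at most J+2 in number
(j >= 1). For j >= J+3: lam_jump gives |difference| < 2*8^(J+1), so the change is <= 2*8^(J+1)/8^(j-1) = 2/8^(j-J-2), and the sum over
j >= J+3 is <= 2*(1/8+1/64+..) = 2/7 <= 1.
-/

namespace Dae

/-- the bound of a term -/
noncomputable def B3_g (J : ℕ) (k : ℕ) : ℝ := if k < J + 2 then 1 else 2 / 8 ^ (k - J - 1)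

theorem B3_g_nonneg (J k : ℕ) : 0 ≤ B3_g J k := by
  unfold B3_g
  split_ifs <;> positivity

theorem B3_sum (J M : ℕ) : ∑ k ∈ Finset.range (J + 2 + M), B3_g J k ≤ (J + 2) + 2 / 7 * (1 - 1 / 8 ^ M) := by
  induction M with
  | zero =>
    have h : ∀ k ∈ Finset.range (J + 2 + 0), B3_g J k = 1 := by
      intro k hk
      rw [Finset.mem_range] at hk
      unfold B3_g
      rw [if_pos (by omega)]
    rw [Finset.sum_congr rfl h]
    simp
  | succ M ih =>
    rw [← add_assoc, Finset.sum_range_succ]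
    have h : B3_g J (J + 2 + M) = 2 / 8 ^ (M + 1) := by
      unfold B3_g
      rw [if_neg (by omega)]
      congr 2
      omega
    rw [h]
    have h8 : (0 : ℝ) < 8 ^ M := by positivity
    have e : (2 : ℝ) / 8 ^ (M + 1) = 2 / 7 * (1 / 8 ^ M) - 2 / 7 * (1 / 8 ^ (M + 1)) := by
      rw [pow_succ]
      field_simp
      norm_num
    rw [e]
    linarith

theorem B3_sum_le (J : ℕ) (S : Finset ℕ) (hS : ∀ j ∈ S, 1 ≤ j) :
    ∑ j ∈ S, B3_g J (j - 1) ≤ J + 3 := by
  obtain ⟨N, hN⟩ : ∃ N, ∀ j ∈ S, j ≤ N := ⟨S.sup id, fun j hj => Finset.le_sup (f := id) hj⟩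
  have h1 : ∑ j ∈ S, B3_g J (j - 1) = ∑ k ∈ S.image (fun j => j - 1), B3_g J k := by
    rw [Finset.sum_image]
    intro x hx y hy hxy
    have := hS x hx
    have := hS y hy
    simp only at hxy
    omega
  rw [h1]
  have h2 : S.image (fun j => j - 1) ⊆ Finset.range (J + 2 + N) := by
    intro k hk
    rw [Finset.mem_image] at hk
    obtain ⟨j, hj, rfl⟩ := hk
    rw [Finset.mem_range]
    have := hN j hj
    omega
  have h3 := Finset.sum_le_sum_of_subset_of_nonneg h2 (fun k _ _ => B3_g_nonneg J k)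
  have h4 := B3_sum J N
  have h8 : (0 : ℝ) < 1 / 8 ^ N := by positivity
  linarith

theorem B3_min (p q : ℝ) : |min 1 p - min 1 q| ≤ |p - q| := by
  rw [min_comm 1 p, min_comm 1 q]
  have := abs_min_sub_min_le_max p 1 q 1
  simpa using this

theorem B3_term (j J : ℕ) (x h : F) (hj1 : 1 ≤ j) (hc : ¬ con J h) :
    |min 1 ((lam j (x * h) : ℝ) / 8 ^ (j - 1)) - min 1 ((lam j x : ℝ) / 8 ^ (j - 1))| ≤ B3_g J (j - 1) := by
  unfold B3_g
  split_ifs with hk
  · have a0 : (0 : ℝ) ≤ min 1 ((lam j (x * h) : ℝ) / 8 ^ (j - 1)) := le_min zero_le_one (by positivity)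
    have a1 : min 1 ((lam j (x * h) : ℝ) / 8 ^ (j - 1)) ≤ 1 := min_le_left _ _
    have b0 : (0 : ℝ) ≤ min 1 ((lam j x : ℝ) / 8 ^ (j - 1)) := le_min zero_le_one (by positivity)
    have b1 : min 1 ((lam j x : ℝ) / 8 ^ (j - 1)) ≤ 1 := min_le_left _ _
    rw [abs_le]
    constructor <;> linarith
  · refine (B3_min _ _).trans ?_
    obtain ⟨h1, h2⟩ := lam_jump (j := j) (J := J) (by omega) x h hc
    have h1' : (lam j (x * h) : ℝ) ≤ lam j x + 2 * 8 ^ (J + 1) := by exact_mod_cast h1.le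
    have h2' : (lam j x : ℝ) ≤ lam j (x * h) + 2 * 8 ^ (J + 1) := by exact_mod_cast h2.le
    rw [← sub_div, abs_div]
    have h3 : |(lam j (x * h) : ℝ) - lam j x| ≤ 2 * 8 ^ (J + 1) := by
      rw [abs_le]; constructor <;> linarith
    have h4 : |(8 : ℝ) ^ (j - 1)| = 8 ^ (j - 1) := abs_of_pos (by positivity)
    rw [h4]
    have h5 : (8 : ℝ) ^ (j - 1) = 8 ^ (J + 1) * 8 ^ (j - 1 - J - 1) := by
      rw [← pow_add]
      congr 1
      omega
    rw [h5, div_le_div_iff₀ (by positivity) (by positivity)]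
    have h6 : (0 : ℝ) < 8 ^ (j - 1 - J - 1) := by positivity
    nlinarith

/-- (2.8): if h does not contain phi^J(y), y of height 0, then A changes by at most J + 3 -/
theorem A_jump (m : ℕ) (i : ℤ) (x h : F) (J : ℕ) (hc : ¬ con J h) :
    |A m i (x * h) - A m i x| ≤ J + 3 := by
  unfold A
  rw [add_sub_add_left_eq_sub, ← Finset.sum_sub_distrib]
  refine (Finset.abs_sum_le_sum_abs _ _).trans ?_
  refine le_trans (Finset.sum_le_sum fun j hj => B3_term j J x h ?_ hc) ?_
  · rw [Finset.mem_Icc] at hj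
    omega
  · refine B3_sum_le J _ ?_
    intro j hj
    rw [Finset.mem_Icc] at hj
    omega

end Dae
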