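import Pool.Agent.Lib.MP_dae6d7_al.Ifx
import Pool.Agent.Lib.MP_dae6d7_al.B2
import Pool.Agent.Lib.MP_dae6d7_al.A6a
import Pool.Agent.Lib.MP_dae6d7_al.A6b

/-! Row B4. (Sections refer to the paper /team-store/dae6d7_paper.md.)

(2.9). mul_decomp for x and phi h': x.toWord = v ++ x1, (x phi h').toWord = v ++ x2, (phi h').toWord = invRev x1 ++ x2. For j >= 1
lam j x depends only on the longest initial piece o of x.toWord in T_1 (T_j in T_1: TT_mono), so A m i x = A m i (mk o) (all j in the sum
are >= 1), same for x phi h' and o'. If lam 1 x < |v| or lam 1 (x phi h') < |v| then o = o' (lamL_congr) and A is equal. Otherwise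
o = v ++ x1.take al, o' = v ++ x2.take be, al <= 3, be <= 3 (overlap_left, overlap_right). Go from o to v to o' letter by letter:
at most 6 steps, each changes A by <= 2/(1+max |v| (-i)) (A_letter with n = |v|), |v| >= |o| - 3 and |v| >= 0. q = x^{-1} o has
word invRev (x1.drop al), an initial piece of invRev x1, hence of (phi h').toWord.
-/

namespace Dae

theorem B4_red {u w : Wd X6} (h : FreeGroup.IsReduced w) (hu : u <:+: w) : FreeGroup.IsReduced u :=
  chain_ifx h hu

theorem B4_toWord {u : Wd X6} (h : FreeGroup.IsReduced u) : (FreeGroup.mk u : F).toWord = u := by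
  rw [FreeGroup.toWord_mk, h.reduce_eq]

theorem B4_mono {i j : ℕ} (hij : i ≤ j) (w : Wd X6) : lamL j w ≤ lamL i w :=
  le_lamL (lamL_le j w) (TT_mono hij (TT_take_lamL j w))

/-- the lengths of w and of its longest initial piece in T_1 agree -/
theorem B4_take {j : ℕ} (hj : 1 ≤ j) (w : Wd X6) : lamL j (w.take (lamL 1 w)) = lamL j w := by
  have h1 : lamL j w ≤ lamL 1 w := B4_mono hj w
  have h2 : (w.take (lamL 1 w)).length = lamL 1 w := by
    rw [List.length_take]; exact min_eq_left (lamL_le 1 w)
  apply le_antisymm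
  · have h3 : lamL j (w.take (lamL 1 w)) ≤ lamL 1 w := (lamL_le _ _).trans_eq h2
    have h4 := TT_take_lamL j (w.take (lamL 1 w))
    rw [List.take_take, min_eq_left h3] at h4
    exact le_lamL (h3.trans (lamL_le 1 w)) h4
  · apply le_lamL
    · rw [h2]; exact h1
    · rw [List.take_take, min_eq_left h1]
      exact TT_take_lamL j w

theorem B4_A_congr (m : ℕ) (i : ℤ) (x y : F) (h : ∀ j, 1 ≤ j → lam j x = lam j y) : A m i x = A m i y := by
  unfold A
  congr 1
  apply Finset.sum_congr rfl
  intro j hj
  rw [Finset.mem_Icc] at hj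
  rw [h j (by omega)]

/-- from v to v ++ z.take k -/
theorem B4_path (m : ℕ) (i : ℤ) (v z : Wd X6) (hr : FreeGroup.IsReduced (v ++ z)) (k : ℕ) (hk : k ≤ z.length) :
    |A m i (FreeGroup.mk (v ++ z.take k)) - A m i (FreeGroup.mk v)| ≤
      k * (2 / (1 + max (v.length : ℝ) (-(i : ℝ)))) := by
  induction k with
  | zero => simp
  | succ k ih =>
    have ih' := ih (by omega)
    have hk' : k < z.length := by omega
    have e : z.take (k + 1) = z.take k ++ [z[k]] := by
      rw [List.take_succ_eq_append_getElem hk']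
    have r1 : FreeGroup.IsReduced (v ++ z.take k) := B4_red hr
      ((List.prefix_append_right_inj v).mpr (List.take_prefix k z)).isInfix
    have r2 : FreeGroup.IsReduced (v ++ z.take (k + 1)) := B4_red hr
      ((List.prefix_append_right_inj v).mpr (List.take_prefix (k + 1) z)).isInfix
    have e2 : (FreeGroup.mk (v ++ z.take (k + 1)) : F) =
        FreeGroup.mk (v ++ z.take k) * lv FreeGroup.of z[k] := by
      rw [e, ← List.append_assoc, ← FreeGroup.mul_mk]
      congr 1
      rcases z[k] with ⟨y, b⟩
      cases b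
      · simp [FreeGroup.of, FreeGroup.inv_mk, FreeGroup.invRev]
      · simp [FreeGroup.of]
    have hA := A_letter m i (FreeGroup.mk (v ++ z.take k)) z[k] v.length
      (by rw [B4_toWord r1]; simp) (by rw [← e2, B4_toWord r2]; simp)
    rw [← e2] at hA
    have h3 := abs_sub_le (A m i (FreeGroup.mk (v ++ z.take (k + 1)))) (A m i (FreeGroup.mk (v ++ z.take k)))
      (A m i (FreeGroup.mk v))
    push_cast
    linarith

/-- (2.9) non-main child jump. o is the longest initial piece of x in T_1. Either A does not change, or the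
word q = x^{-1} o is an initial piece of phi h', and the change is at most 12/(1+max(|o|-3, i^-)). -/
theorem A_child (m : ℕ) (i : ℤ) (x h' : F) (hx : ∀ g : F, x ≠ phi g) :
    A m i (x * phi h') = A m i x ∨ ∃ o q : F, o.toWord.length = lam 1 x ∧ o.toWord <+: x.toWord ∧ x * q = o ∧
      q.toWord <+: (phi h').toWord ∧
      |A m i (x * phi h') - A m i x| ≤ 12 / (1 + max ((o.toWord.length : ℝ) - 3) (max 0 (-(i : ℝ)))) := by
  obtain ⟨v, x1, x2, h1, h2, h3⟩ := mul_decomp x (phi h')
  have hr1 : FreeGroup.IsReduced (v ++ x1) := by rw [← h1]; exact FreeGroup.isReduced_toWord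
  have hr2 : FreeGroup.IsReduced (v ++ x2) := by rw [← h2]; exact FreeGroup.isReduced_toWord
  have htk : x.toWord.take v.length = (x * phi h').toWord.take v.length := by
    rw [h1, h2, List.take_left, List.take_left]
  have hl1 : v.length ≤ x.toWord.length := by rw [h1]; simp
  have hl2 : v.length ≤ (x * phi h').toWord.length := by rw [h2]; simp
  by_cases c1 : lamL 1 x.toWord < v.length
  · left
    apply B4_A_congr
    intro j hj
    exact lamL_congr htk hl1 hl2 ((B4_mono hj _).trans_lt c1)
  by_cases c2 : lamL 1 (x * phi h').toWord < v.length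
  · left
    apply B4_A_congr
    intro j hj
    exact (lamL_congr htk.symm hl2 hl1 ((B4_mono hj _).trans_lt c2)).symm
  right
  obtain ⟨al, hal⟩ := Nat.exists_eq_add_of_le (not_lt.mp c1)
  obtain ⟨be, hbe⟩ := Nat.exists_eq_add_of_le (not_lt.mp c2)
  have hal1 : al ≤ x1.length := by
    have := lamL_le 1 x.toWord
    rw [hal, h1, List.length_append] at this
    omega
  have hbe1 : be ≤ x2.length := by
    have := lamL_le 1 (x * phi h').toWord
    rw [hbe, h2, List.length_append] at this
    omega
  have ta : x.toWord.take (lamL 1 x.toWord) = v ++ x1.take al := by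
    rw [hal, h1, List.take_length_add_append]
  have tb : (x * phi h').toWord.take (lamL 1 (x * phi h').toWord) = v ++ x2.take be := by
    rw [hbe, h2, List.take_length_add_append]
  have hTa : TT 1 (v ++ x1.take al) := by rw [← ta]; exact TT_take_lamL _ _
  have hTb : TT 1 (v ++ x2.take be) := by rw [← tb]; exact TT_take_lamL _ _
  have al3 : al ≤ 3 := overlap_left x h' hx v x1 x2 h1 h3 al hal1 hTa
  have be3 : be ≤ 3 := overlap_right x h' hx v x1 x2 h1 h2 h3 be hbe1 hTb
  have ra : FreeGroup.IsReduced (v ++ x1.take al) := B4_red hr1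
    ((List.prefix_append_right_inj v).mpr (List.take_prefix al x1)).isInfix
  have rb : FreeGroup.IsReduced (v ++ x2.take be) := B4_red hr2
    ((List.prefix_append_right_inj v).mpr (List.take_prefix be x2)).isInfix
  have Aa : A m i x = A m i (FreeGroup.mk (v ++ x1.take al)) := by
    apply B4_A_congr
    intro j hj
    unfold lam
    rw [B4_toWord ra, ← ta, B4_take hj]
  have Ab : A m i (x * phi h') = A m i (FreeGroup.mk (v ++ x2.take be)) := by
    apply B4_A_congr
    intro j hj
    unfold lam
    rw [B4_toWord rb, ← tb, B4_take hj]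
  have rq : FreeGroup.IsReduced (FreeGroup.invRev (x1.drop al)) := by
    have : FreeGroup.IsReduced (phi h').toWord := FreeGroup.isReduced_toWord
    rw [h3] at this
    apply B4_red this
    have e : FreeGroup.invRev x1 = FreeGroup.invRev (x1.drop al) ++ FreeGroup.invRev (x1.take al) := by
      rw [← FreeGroup.invRev_append, List.take_append_drop]
    rw [e, List.append_assoc]
    exact (List.prefix_append _ _).isInfix
  refine ⟨FreeGroup.mk (v ++ x1.take al), FreeGroup.mk (FreeGroup.invRev (x1.drop al)), ?_, ?_, ?_, ?_, ?_⟩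
  · rw [B4_toWord ra, ← ta, List.length_take]
    exact min_eq_left (lamL_le _ _)
  · rw [B4_toWord ra, ← ta]
    exact List.take_prefix _ _
  · rw [← FreeGroup.inv_mk, mul_inv_eq_iff_eq_mul, FreeGroup.mul_mk, List.append_assoc,
      List.take_append_drop, ← h1, FreeGroup.mk_toWord]
  · rw [B4_toWord rq, h3]
    have e : FreeGroup.invRev x1 = FreeGroup.invRev (x1.drop al) ++ FreeGroup.invRev (x1.take al) := by
      rw [← FreeGroup.invRev_append, List.take_append_drop]
    rw [e, List.append_assoc]
    exact List.prefix_append _ _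
  · have p1 := B4_path m i v x1 hr1 al hal1
    have p2 := B4_path m i v x2 hr2 be hbe1
    rw [← Aa] at p1
    rw [← Ab] at p2
    rw [B4_toWord ra, List.length_append, List.length_take, min_eq_left hal1]
    push_cast
    have hM : (0 : ℝ) ≤ max (v.length : ℝ) (-(i : ℝ)) := le_max_of_le_left (Nat.cast_nonneg _)
    have hM' : (0 : ℝ) ≤ max ((v.length : ℝ) + al - 3) (max 0 (-(i : ℝ))) :=
      le_max_of_le_right (le_max_left _ _)
    have al3' : (al : ℝ) ≤ 3 := by exact_mod_cast al3
    have be3' : (be : ℝ) ≤ 3 := by exact_mod_cast be3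
    have hv0 : (0 : ℝ) ≤ (v.length : ℝ) := Nat.cast_nonneg _
    have hle : max ((v.length : ℝ) + al - 3) (max 0 (-(i : ℝ))) ≤ max (v.length : ℝ) (-(i : ℝ)) := by
      apply max_le
      · exact le_max_of_le_left (by linarith)
      · exact max_le hM (le_max_right _ _)
    have hd : 2 / (1 + max (v.length : ℝ) (-(i : ℝ))) ≤
        2 / (1 + max ((v.length : ℝ) + al - 3) (max 0 (-(i : ℝ)))) :=
      div_le_div_of_nonneg_left (by norm_num) (by linarith) (by linarith)
    have hd0 : 0 ≤ 2 / (1 + max (v.length : ℝ) (-(i : ℝ))) := by positivity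
    have t1 : (al : ℝ) * (2 / (1 + max (v.length : ℝ) (-(i : ℝ)))) ≤
        3 * (2 / (1 + max ((v.length : ℝ) + al - 3) (max 0 (-(i : ℝ))))) :=
      mul_le_mul al3' hd hd0 (by norm_num)
    have t2 : (be : ℝ) * (2 / (1 + max (v.length : ℝ) (-(i : ℝ)))) ≤
        3 * (2 / (1 + max ((v.length : ℝ) + al - 3) (max 0 (-(i : ℝ))))) :=
      mul_le_mul be3' hd hd0 (by norm_num)
    have t3 := abs_sub_le (A m i (x * phi h')) (A m i (FreeGroup.mk v)) (A m i x)
    rw [abs_sub_comm (A m i (FreeGroup.mk v)) (A m i x)] at t3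
    have t4 : (12 : ℝ) / (1 + max ((v.length : ℝ) + al - 3) (max 0 (-(i : ℝ)))) =
        6 * (2 / (1 + max ((v.length : ℝ) + al - 3) (max 0 (-(i : ℝ))))) := by ring
    rw [t4]
    linarith

end Dae
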