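import Pool.Agent.Lib.MP_dae6d7_al.KDefs
import Pool.Agent.Lib.MP_dae6d7_al.A1b

/-! Row C1a. (Sections refer to the paper /team-store/dae6d7_paper.md.)

Let e : (⊤ : Subgroup F) ≃* phi.range be given by the injective phi (MonoidHom.ofInjective, Subgroup.topEquiv). Hom from K to
HNNExtension F ⊤ phi.range e: PG.lift with tau -> HNNExtension.t, x y -> HNNExtension.of (of y); relators by relK_val:
t * of y * t^{-1} = of (e y) = of (phi y) (HNNExtension.equiv_eq_conj), and val of (base y) = of (mk (base y)). Its composition
with iK is HNNExtension.of (check on generators), injective by HNNExtension.of_injective.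
-/

namespace Dae

/-- Use HNNExtension F ⊤ (phi.range) e with e : ⊤ ≃* phi.range given by the injective phi: the map
K -> HNNExtension (tau -> t, x -> of x) composed with iK is HNNExtension.of, which is injective. -/
theorem iK_injective : Function.Injective iK := by
  let e : (⊤ : Subgroup F) ≃* phi.range := Subgroup.topEquiv.trans (MonoidHom.ofInjective phi_injective)
  have he : ∀ x : F, ((e ⟨x, Subgroup.mem_top x⟩ : phi.range) : F) = phi x := fun x => rfl
  let f : KG → HNNExtension F ⊤ phi.range e := fun g => match g with
    | KG.tau => HNNExtension.t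
    | KG.x y => HNNExtension.of (FreeGroup.of y)
  have hf : ∀ w ∈ relK KG.tau KG.x, val f w = 1 := by
    refine relK_val _ _ f ?_
    intro y
    have h1 : val (f ∘ KG.x) (base y) = HNNExtension.of (phi (FreeGroup.of y)) := by
      have h2 : phi (FreeGroup.of y) = val (FreeGroup.of) (base y) := by
        rw [phi, FreeGroup.lift_apply_of, val_eq_lift, FreeGroup.lift_of_eq_id]
        rfl
      rw [h2, map_val]
      rfl
    rw [h1, ← he]
    exact (HNNExtension.equiv_eq_conj (φ := e) ⟨FreeGroup.of y, Subgroup.mem_top _⟩).symm
  let Ψ : K →* HNNExtension F ⊤ phi.range e := PG.lift f hf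
  have hc : Ψ.comp iK = HNNExtension.of := by
    ext y
    simp only [MonoidHom.coe_comp, Function.comp_apply, iK, FreeGroup.lift_apply_of]
    exact PG.lift_of f hf (KG.x y)
  have hinj : Function.Injective (Ψ.comp iK) := by
    rw [hc]; exact HNNExtension.of_injective e
  exact Function.Injective.of_comp (f := Ψ) hinj

end Dae
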