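import Pool.Agent.Lib.MP_dae6d7_al.Words

/-! Row N1. (Sections refer to the paper /team-store/dae6d7_paper.md.)

nrm g x = least length of a word with value x (Nat.sInf_le, Nat.sInf_mem). nrm_inv: invRev. nrm_map: from a word for x build a word
for f x by dropping the letters sent to 1. nrm_path: the value of (w.take j).drop i. nrm_geod: triangle inequality.
-/

namespace Dae
variable {ι Γ : Type} [Group Γ]

theorem gens_PG {R : Set (Wd ι)} : Gens (PG.of : ι → PG R) := PG.exists_val

theorem nrm_le {g : ι → Γ} (w : Wd ι) : nrm g (val g w) ≤ w.length :=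
  Nat.sInf_le ⟨w, rfl, rfl⟩

theorem nrm_spec {g : ι → Γ} (hg : Gens g) (x : Γ) : ∃ w : Wd ι, w.length = nrm g x ∧ val g w = x := by
  obtain ⟨w, hw⟩ := hg x
  have h : {n | ∃ w : Wd ι, w.length = n ∧ val g w = x}.Nonempty := ⟨w.length, w, rfl, hw⟩
  exact Nat.sInf_mem h

theorem nrm_one (g : ι → Γ) : nrm g 1 = 0 := by
  have := nrm_le (g := g) []
  simpa using this

theorem nrm_eq_zero {g : ι → Γ} (hg : Gens g) {x : Γ} (h : nrm g x = 0) : x = 1 := by
  obtain ⟨w, hw, hv⟩ := nrm_spec hg x
  rw [h] at hw
  rw [List.length_eq_zero_iff.mp hw] at hv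
  simpa using hv.symm

theorem nrm_mul {g : ι → Γ} (hg : Gens g) (x y : Γ) : nrm g (x * y) ≤ nrm g x + nrm g y := by
  obtain ⟨w, hw, hv⟩ := nrm_spec hg x
  obtain ⟨w', hw', hv'⟩ := nrm_spec hg y
  have := nrm_le (g := g) (w ++ w')
  rw [val_append, hv, hv', List.length_append, hw, hw'] at this
  exact this

theorem nrm_inv {g : ι → Γ} (hg : Gens g) (x : Γ) : nrm g x⁻¹ = nrm g x := by
  have key : ∀ y : Γ, nrm g y⁻¹ ≤ nrm g y := by
    intro y
    obtain ⟨w, hw, hv⟩ := nrm_spec hg y
    have := nrm_le (g := g) (FreeGroup.invRev w)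
    rw [val_invRev, hv, FreeGroup.invRev_length, hw] at this
    exact this
  refine le_antisymm (key x) ?_
  have := key x⁻¹
  rwa [inv_inv] at this

theorem nrm_letter (g : ι → Γ) (y : ι × Bool) : nrm g (lv g y) ≤ 1 := by
  have := nrm_le (g := g) [y]
  simpa using this

/-- homomorphisms which send generators to generators or to 1 do not increase the norm -/
theorem nrm_map {ι' Γ' : Type} [Group Γ'] {g : ι → Γ} (hg : Gens g) (g' : ι' → Γ') (f : Γ →* Γ')
    (hf : ∀ i, f (g i) = 1 ∨ ∃ j, f (g i) = g' j) (x : Γ) : nrm g' (f x) ≤ nrm g x := by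
  have key : ∀ w : Wd ι, ∃ w' : Wd ι', w'.length ≤ w.length ∧ val g' w' = f (val g w) := by
    intro w
    induction w with
    | nil => exact ⟨[], le_rfl, by simp⟩
    | cons y w ih =>
      obtain ⟨w', hl, hv⟩ := ih
      rcases y with ⟨i, b⟩
      rcases hf i with h | ⟨j, h⟩
      · refine ⟨w', by simp; omega, ?_⟩
        rw [val_cons, map_mul, hv]
        cases b <;> simp [h]
      · refine ⟨(j, b) :: w', by simp; omega, ?_⟩
        rw [val_cons, val_cons, map_mul, hv]
        cases b <;> simp [h]
  obtain ⟨w, hw, hv⟩ := nrm_spec hg x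
  obtain ⟨w', hl, hv'⟩ := key w
  rw [← hw, ← hv, ← hv']
  exact (nrm_le w').trans hl

/-- the points of a path are at distance at most the number of steps -/
theorem nrm_path {g : ι → Γ} (w : Wd ι) (i j : ℕ) (hij : i ≤ j) :
    nrm g ((val g (w.take i))⁻¹ * val g (w.take j)) ≤ j - i := by
  have h : w.take j = w.take i ++ (w.take j).drop i := by
    have := List.take_append_drop i (w.take j)
    rw [List.take_take, min_eq_left hij] at this
    exact this.symm
  have h2 : (val g (w.take i))⁻¹ * val g (w.take j) = val g ((w.take j).drop i) := by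
    conv_lhs => rw [h, val_append]
    simp
  rw [h2]
  refine (nrm_le _).trans ?_
  rw [List.length_drop, List.length_take]
  omega

/-- points of a word of length nrm g x (geodesic word) -/
theorem nrm_geod {g : ι → Γ} (hg : Gens g) (w : Wd ι) (hw : w.length = nrm g (val g w)) (i j : ℕ)
    (hij : i ≤ j) (hj : j ≤ w.length) : nrm g ((val g (w.take i))⁻¹ * val g (w.take j)) = j - i := by
  refine le_antisymm (nrm_path w i j hij) ?_
  have h1 : val g w = val g (w.take i) * (((val g (w.take i))⁻¹ * val g (w.take j)) *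
      ((val g (w.take j))⁻¹ * val g (w.take w.length))) := by
    rw [List.take_length]; group
  have h2 : nrm g (val g (w.take i)) ≤ i := by
    have := nrm_path (g := g) w 0 i (Nat.zero_le _)
    simpa using this
  have h3 := nrm_path (g := g) w j w.length hj
  have h4 : nrm g (val g w) ≤ nrm g (val g (w.take i)) + (nrm g ((val g (w.take i))⁻¹ * val g (w.take j)) +
      nrm g ((val g (w.take j))⁻¹ * val g (w.take w.length))) := by
    conv_lhs => rw [h1]
    exact (nrm_mul hg _ _).trans (Nat.add_le_add_left (nrm_mul hg _ _) _)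
  omega

end Dae
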