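import Pool.Agent.Lib.MP_dae6d7_al.C1a
import Pool.Agent.Lib.MP_dae6d7_al.N1

/-! Row C1b. (Sections refer to the paper /team-store/dae6d7_paper.md.)

hp i x = kt^i * iK x. hp_tau: iK (phi x) * kt = kt * iK x (kt_conj). hp_inj: NK gives i = j, then iK_injective.
hp_dual: first kt^n * iK h * kt^(-n) = iK (phn n h) for n : ℕ (induction, kt_conj). For 0 <= i <= m: phn m c = phn i (phn (m-i) c)
= kt^i (..) kt^(-i); for i < 0: phn (m-i) c = phn (-i) (phn m c). So kt^(-i) iK(wm m) kt^i = iK (phn (m-i) c) in both cases.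
-/

namespace Dae

theorem C1b_kt_iK (h : F) : kt * iK h = iK (phi h) * kt := by
  rw [← kt_conj h]; group

theorem C1b_phn_succ (n : ℕ) (h : F) : phn (n + 1) h = phi (phn n h) := by
  unfold phn
  rw [Function.iterate_succ_apply']

theorem C1b_phn_add (m n : ℕ) (h : F) : phn (m + n) h = phn m (phn n h) := by
  unfold phn
  rw [Function.iterate_add_apply]

theorem C1b_conj (n : ℕ) (h : F) : kt ^ n * iK h = iK (phn n h) * kt ^ n := by
  induction n with
  | zero => simp [phn]
  | succ n ih =>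
    rw [C1b_phn_succ, pow_succ', mul_assoc, ih, ← mul_assoc, C1b_kt_iK, mul_assoc]

/-- Laws of the hull points -/
theorem hp_mul (i : ℤ) (x h : F) : hp i x * iK h = hp i (x * h) := by
  unfold hp
  rw [map_mul, mul_assoc]

theorem hp_tau (i : ℤ) (x : F) : hp i (phi x) * kt = hp (i + 1) x := by
  unfold hp
  rw [mul_assoc, ← C1b_kt_iK, zpow_add_one, mul_assoc]

theorem hp_tau_inv (i : ℤ) (x : F) : hp i x * kt⁻¹ = hp (i - 1) (phi x) := by
  have h := hp_tau (i - 1) x
  rw [sub_add_cancel] at h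
  rw [← h]; group

theorem NK_hp (i : ℤ) (x : F) : NK (hp i x) = i := by
  unfold hp
  rw [NK_mul, NK_iK, add_zero]
  have h : NKh kt = Multiplicative.ofAdd 1 := by
    have := NK_kt
    unfold NK at this
    rw [← this]; rfl
  unfold NK
  rw [map_zpow, h, ← ofAdd_zsmul]
  simp

theorem hp_inj {i j : ℤ} {x y : F} (h : hp i x = hp j y) : i = j ∧ x = y := by
  have hij : i = j := by
    have := congrArg NK h
    rwa [NK_hp, NK_hp] at this
  subst hij
  exact ⟨rfl, iK_injective (mul_left_cancel h)⟩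

/-- w_m^{-1} tau^i x = tau^i phi^{m-i}(c)^{-1} x -/
theorem hp_dual (m : ℕ) (i : ℤ) (hi : i ≤ m) (x : F) :
    (iK (wm m))⁻¹ * hp i x = hp i ((phn ((m : ℤ) - i).toNat (FreeGroup.of X6.c))⁻¹ * x) := by
  have key : kt ^ i * iK (phn ((m : ℤ) - i).toNat (FreeGroup.of X6.c)) = iK (wm m) * kt ^ i := by
    rcases le_or_gt 0 i with h0 | h0
    · obtain ⟨n, rfl⟩ := Int.eq_ofNat_of_zero_le h0
      have h1 : ((m : ℤ) - (n : ℤ)).toNat = m - n := by omega
      have h2 : m = n + (m - n) := by omega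
      rw [h1, zpow_natCast, C1b_conj, ← C1b_phn_add, ← h2]
      rfl
    · obtain ⟨n, hn⟩ := Int.eq_ofNat_of_zero_le (show 0 ≤ -i by omega)
      have hi' : i = -(n : ℤ) := by omega
      subst hi'
      have h1 : ((m : ℤ) - -(n : ℤ)).toNat = n + m := by omega
      rw [h1, C1b_phn_add, zpow_neg, zpow_natCast]
      have h2 := C1b_conj n (phn m (FreeGroup.of X6.c))
      rw [eq_mul_inv_iff_mul_eq, mul_assoc, ← h2]
      unfold wm
      group
  unfold hp
  have key2 : (iK (wm m))⁻¹ * kt ^ i = kt ^ i * (iK (phn ((m : ℤ) - i).toNat (FreeGroup.of X6.c)))⁻¹ := by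
    rw [inv_mul_eq_iff_eq_mul, ← mul_assoc, ← key, mul_assoc, mul_inv_cancel, mul_one]
  rw [map_mul, map_inv, ← mul_assoc, key2, mul_assoc]

end Dae
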