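import Pool.Agent.Lib.MP_dae6d7_al.C1b

/-! Row C2. (Sections refer to the paper /team-store/dae6d7_paper.md.)

dyck: induction on w from the right (List.reverseRecOn / snoc): val (w ++ [y]) = iK f * kt^(lvl w) * letter. X-letter y at level
k = lvl w >= 0: kt^k * iK y = iK (phn k y) * kt^k. tau: fine. tau^{-1}: level k-1 >= 0 by hypothesis for the whole word.
dyck_return: w = tau :: w', w' not empty (level 0), the last letter lowers the level from >= 1 to 0 so it is (tau,false); u = the middle;
its partial levels are >= 0, total 0; dyck gives val u = iK h'; val w = kt * iK h' * kt^{-1} = iK (phi h').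
-/

namespace Dae

theorem lvl_cons (y : KG × Bool) (w : Wd KG) : lvl (y :: w) = lvl [y] + lvl w := by
  simp [lvl, NK_mul]

theorem lvl_append (u w : Wd KG) : lvl (u ++ w) = lvl u + lvl w := by
  simp [lvl, NK_mul]

theorem C2_lvl_tau (b : Bool) : lvl [(KG.tau, b)] = if b then 1 else -1 := by
  cases b
  · have : lvl [(KG.tau, false)] = NK kt⁻¹ := by simp [lvl, kt]
    rw [this, NK_inv, NK_kt]; simp
  · have : lvl [(KG.tau, true)] = NK kt := by simp [lvl, kt]
    rw [this, NK_kt]; simp

theorem C2_lv_x (z : X6) (b : Bool) : ∃ g : F, lv kg (KG.x z, b) = iK g := by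
  cases b
  · exact ⟨(FreeGroup.of z)⁻¹, by simp [iK]⟩
  · exact ⟨FreeGroup.of z, by simp [iK]⟩

theorem C2_lvl_x (z : X6) (b : Bool) : lvl [(KG.x z, b)] = 0 := by
  obtain ⟨g, hg⟩ := C2_lv_x z b
  simp only [lvl, val_singleton, hg, NK_iK]

theorem C2_conj (k : ℕ) (g : F) : kt ^ k * iK g = iK (phn k g) * kt ^ k := by
  induction k with
  | zero => simp [phn]
  | succ k ih =>
    have e : phn (k + 1) g = phi (phn k g) := by
      simp only [phn]
      exact Function.iterate_succ_apply' _ _ _
    rw [e, ← kt_conj, pow_succ', mul_assoc kt, ih]
    group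

/-- (3.0) -/
theorem dyck (w : Wd KG) (h : ∀ n, 0 ≤ lvl (w.take n)) :
    ∃ f : F, val kg w = iK f * kt ^ (lvl w) := by
  induction w using List.reverseRecOn with
  | nil => exact ⟨1, by simp [lvl, NK_one]⟩
  | append_singleton w y ih =>
    have hw : ∀ n, 0 ≤ lvl (w.take n) := by
      intro n
      rcases le_total n w.length with hn | hn
      · have h1 := h n
        rwa [List.take_append_of_le_length hn] at h1
      · have h1 := h w.length
        rw [List.take_append_of_le_length le_rfl, List.take_length] at h1
        rw [List.take_of_length_le hn]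
        exact h1
    obtain ⟨f, hf⟩ := ih hw
    have h0 : 0 ≤ lvl w := by simpa using hw w.length
    rw [lvl_append, val_append, val_singleton, hf]
    rcases y with ⟨y, b⟩
    cases y with
    | tau =>
      refine ⟨f, ?_⟩
      rw [C2_lvl_tau, mul_assoc, zpow_add]
      cases b <;> simp [kt]
    | x z =>
      obtain ⟨g, hg⟩ := C2_lv_x z b
      refine ⟨f * phn (lvl w).toNat g, ?_⟩
      have e : lvl w = ((lvl w).toNat : ℤ) := (Int.toNat_of_nonneg h0).symm
      rw [hg, C2_lvl_x, add_zero, e, zpow_natCast, mul_assoc, C2_conj, map_mul, Int.toNat_natCast,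
        mul_assoc]

/-- (3.0), first return form: a word starting with tau, of total level 0, whose proper nonempty initial
pieces have level >= 1, has value iK (phi h') -/
theorem dyck_return (w : Wd KG) (h0 : w.head? = some (KG.tau, true)) (h1 : lvl w = 0)
    (h : ∀ n, 0 < n → n < w.length → 1 ≤ lvl (w.take n)) :
    ∃ u : Wd KG, ∃ h' : F, w = (KG.tau, true) :: (u ++ [(KG.tau, false)]) ∧ val kg u = iK h' ∧
      val kg w = iK (phi h') := by
  rcases w with _ | ⟨y, w'⟩
  · simp at h0
  · simp only [List.head?_cons, Option.some.injEq] at h0
    subst h0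
    rcases List.eq_nil_or_concat' w' with rfl | ⟨u, z, rfl⟩
    · rw [C2_lvl_tau] at h1
      simp at h1
    · have hlen : ((KG.tau, true) :: (u ++ [z]) : Wd KG).length = u.length + 2 := by simp
      have hp : ∀ n, n ≤ u.length → 0 ≤ lvl (u.take n) := by
        intro n hn
        have h2 := h (n + 1) (by omega) (by rw [hlen]; omega)
        rw [List.take_succ_cons, List.take_append_of_le_length hn, lvl_cons, C2_lvl_tau] at h2
        simp only [if_true] at h2
        linarith
      have hu : ∀ n, 0 ≤ lvl (u.take n) := by
        intro n
        rcases le_total n u.length with hn | hn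
        · exact hp n hn
        · have h2 := hp u.length le_rfl
          rw [List.take_length] at h2
          rw [List.take_of_length_le hn]
          exact h2
      have hu0 : 0 ≤ lvl u := by simpa using hu u.length
      have h3 := h1
      rw [lvl_cons, lvl_append, C2_lvl_tau] at h3
      simp only [if_true] at h3
      have hz : z = (KG.tau, false) := by
        rcases z with ⟨z, b⟩
        cases z with
        | tau =>
          cases b
          · rfl
          · exfalso
            rw [C2_lvl_tau] at h3
            simp only [if_true] at h3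
            linarith
        | x z =>
          exfalso
          rw [C2_lvl_x] at h3
          linarith
      subst hz
      rw [C2_lvl_tau] at h3
      have hl : lvl u = 0 := by
        simp at h3
        linarith
      obtain ⟨f, hf⟩ := dyck u hu
      rw [hl, zpow_zero, mul_one] at hf
      refine ⟨u, f, rfl, hf, ?_⟩
      rw [val_cons, val_append, hf, ← kt_conj]
      simp [kt, mul_assoc]

end Dae
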