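import Pool.Agent.Lib.MP_dae6d7_al.C2
import Pool.Agent.Lib.MP_dae6d7_al.A1b

/-! Row C3. (Sections refer to the paper /team-store/dae6d7_paper.md.)

For a K-word w with all partial levels >= 0 (start level 0) and value iK f * kt^(lvl w) (dyck): |f| <= sum over the positions of
X-letters of 8^(level before the letter). [Induction from the right: f changes by the factor phn k (y), of length 8^k (toWord_phn,
length_sbn), FreeGroup.norm_mul_le.] General w with value iK f: let r be minus the minimal partial level; apply it to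
replicate r tau ++ w ++ replicate r tau^{-1}, which has value iK (phn r f), |phn r f| = 8^r |f|: so |f| <= sum 8^(level) as real
numbers. Let Q >= 0 be the maximal partial level of w and n the number of X-letters: 8^m = |phn m y| <= n 8^Q; w contains at
least Q letters tau and Q letters tau^{-1} (it goes from 0 to Q and back to 0). Length >= 2Q + n. If Q >= m: n >= 1 because the value
is not a power of tau (8^m > 0). If Q < m: n >= 8^(m-Q) >= 2(m-Q)+1.
-/

namespace Dae

/-- sum of 8^(level) over the X-letters, from the start level k -/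
noncomputable def C3_cst : ℤ → Wd KG → ℝ
  | _, [] => 0
  | k, (KG.tau, b) :: w => C3_cst (if b then k + 1 else k - 1) w
  | k, (KG.x _, _) :: w => (8 : ℝ) ^ k + C3_cst k w

/-- number of tau letters -/
def C3_nt : Wd KG → ℕ
  | [] => 0
  | (KG.tau, _) :: w => C3_nt w + 1
  | (KG.x _, _) :: w => C3_nt w

/-- number of X-letters -/
def C3_nx : Wd KG → ℕ
  | [] => 0
  | (KG.tau, _) :: w => C3_nx w
  | (KG.x _, _) :: w => C3_nx w + 1

theorem C3_len (w : Wd KG) : w.length = C3_nt w + C3_nx w := by
  induction w with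
  | nil => rfl
  | cons y w ih =>
    rcases y with ⟨_ | x, b⟩ <;> simp only [C3_nt, C3_nx, List.length_cons, ih] <;> omega

theorem C3_lvl_nil : lvl [] = 0 := by simp [lvl, NK_one]

theorem C3_lvl_tau (b : Bool) : lvl [(KG.tau, b)] = if b then 1 else -1 := by
  cases b
  · simp only [lvl, val_singleton, lv_false, NK_inv]
    have : NK (kg KG.tau) = 1 := NK_kt
    rw [this]; rfl
  · simp only [lvl, val_singleton, lv_true]
    have : NK (kg KG.tau) = 1 := NK_kt
    rw [this]; rfl

theorem C3_lv_x (x : X6) (b : Bool) : lv kg (KG.x x, b) = iK (lv FreeGroup.of (x, b)) := by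
  cases b <;> simp [iK]

theorem C3_lvl_x (x : X6) (b : Bool) : lvl [(KG.x x, b)] = 0 := by
  simp only [lvl, val_singleton, C3_lv_x, NK_iK]

theorem C3_conj (n : ℕ) (h : F) : kt ^ n * iK h = iK (phn n h) * kt ^ n := by
  induction n generalizing h with
  | zero => simp [phn]
  | succ n ih =>
    have h1 : kt * iK h = iK (phi h) * kt := by
      have := kt_conj h
      rw [← this]; group
    rw [pow_succ, mul_assoc, h1, ← mul_assoc, ih, phn_succ', mul_assoc]

theorem C3_norm_phn (n : ℕ) (h : F) : (phn n h).norm = 8 ^ n * h.norm := by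
  unfold FreeGroup.norm
  rw [toWord_phn, length_sbn]

theorem C3_norm_lv (y : X6 × Bool) : (lv FreeGroup.of y : F).norm = 1 := by
  rcases y with ⟨x, b⟩
  cases b
  · rw [lv_false, FreeGroup.norm_inv_eq, FreeGroup.norm_of]
  · rw [lv_true, FreeGroup.norm_of]

theorem C3_dyck (w : Wd KG) : ∀ k : ℤ, (∀ n, 0 ≤ k + lvl (w.take n)) →
    ∃ f : F, kt ^ k * val kg w = iK f * kt ^ (k + lvl w) ∧ (f.norm : ℝ) ≤ C3_cst k w := by
  induction w with
  | nil =>
    intro k _
    refine ⟨1, ?_, ?_⟩
    · simp [C3_lvl_nil]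
    · simp [C3_cst]
  | cons y w ih =>
    intro k hk
    rcases y with ⟨_ | x, b⟩
    · have hk' : ∀ n, 0 ≤ (if b then k + 1 else k - 1) + lvl (w.take n) := by
        intro n
        have := hk (n + 1)
        rw [List.take_succ_cons, lvl_cons, C3_lvl_tau] at this
        cases b <;> simp at this ⊢ <;> omega
      obtain ⟨f, hf1, hf2⟩ := ih _ hk'
      refine ⟨f, ?_, ?_⟩
      · rw [lvl_cons, C3_lvl_tau, val_cons, ← mul_assoc]
        have e1 : kt ^ k * lv kg (KG.tau, b) = kt ^ (if b then k + 1 else k - 1) := by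
          cases b
          · simp only [lv_false, Bool.false_eq_true, if_false]
            change kt ^ k * kt⁻¹ = _
            rw [zpow_sub_one]
          · simp only [lv_true, if_true]
            change kt ^ k * kt = _
            rw [zpow_add_one]
        rw [e1, hf1]
        congr 2
        cases b <;> simp <;> ring
      · simpa [C3_cst] using hf2
    · have hk0 : 0 ≤ k := by
        have := hk 0
        simpa [C3_lvl_nil] using this
      have hk' : ∀ n, 0 ≤ k + lvl (w.take n) := by
        intro n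
        have := hk (n + 1)
        rw [List.take_succ_cons, lvl_cons, C3_lvl_x] at this
        omega
      obtain ⟨f, hf1, hf2⟩ := ih _ hk'
      obtain ⟨n, rfl⟩ := Int.eq_ofNat_of_zero_le hk0
      refine ⟨phn n (lv FreeGroup.of (x, b)) * f, ?_, ?_⟩
      · rw [lvl_cons, C3_lvl_x, zero_add, val_cons, C3_lv_x, ← mul_assoc]
        have e1 : kt ^ (n : ℤ) * iK (lv FreeGroup.of (x, b)) =
            iK (phn n (lv FreeGroup.of (x, b))) * kt ^ (n : ℤ) := by
          rw [zpow_natCast]; exact C3_conj n _
        rw [e1, mul_assoc, hf1, map_mul, mul_assoc]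
      · have h1 := FreeGroup.norm_mul_le (phn n (lv FreeGroup.of (x, b))) f
        rw [C3_norm_phn, C3_norm_lv, mul_one] at h1
        have h2 : ((phn n (lv FreeGroup.of (x, b)) * f).norm : ℝ) ≤ (8 : ℝ) ^ n + f.norm := by
          exact_mod_cast h1
        simp only [C3_cst, zpow_natCast]
        linarith

theorem C3_cst_shift (w : Wd KG) : ∀ (k r : ℤ), C3_cst (r + k) w = (8 : ℝ) ^ r * C3_cst k w := by
  induction w with
  | nil => intro k r; simp [C3_cst]
  | cons y w ih =>
    intro k r
    rcases y with ⟨_ | x, b⟩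
    · simp only [C3_cst]
      rw [← ih]
      congr 1
      cases b <;> simp <;> ring
    · simp only [C3_cst]
      rw [ih, mul_add, zpow_add₀ (by norm_num : (8 : ℝ) ≠ 0)]

theorem C3_lvl_abs (w : Wd KG) : |lvl w| ≤ C3_nt w := by
  induction w with
  | nil => simp [C3_lvl_nil, C3_nt]
  | cons y w ih =>
    rw [lvl_cons]
    rw [abs_le] at ih ⊢
    rcases y with ⟨_ | x, b⟩
    · rw [C3_lvl_tau]
      simp only [C3_nt]
      push_cast
      cases b <;> simp <;> omega
    · rw [C3_lvl_x]
      simp only [C3_nt]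
      omega

theorem C3_norm_le (w : Wd KG) (f : F) (hw : val kg w = iK f) : (f.norm : ℝ) ≤ C3_cst 0 w := by
  have hl : lvl w = 0 := by unfold lvl; rw [hw, NK_iK]
  have hk : ∀ n, 0 ≤ (w.length : ℤ) + lvl (w.take n) := by
    intro n
    have h1 := C3_lvl_abs (w.take n)
    rw [abs_le] at h1
    have h2 := C3_len (w.take n)
    have h3 : (w.take n).length ≤ w.length := by
      rw [List.length_take]; exact min_le_right _ _
    omega
  obtain ⟨g, hg1, hg2⟩ := C3_dyck w _ hk
  rw [hw, hl, add_zero, zpow_natCast, C3_conj] at hg1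
  have hg3 : g = phn w.length f := iK_injective (mul_right_cancel hg1).symm
  rw [hg3, C3_norm_phn] at hg2
  have h4 := C3_cst_shift w 0 w.length
  rw [add_zero] at h4
  rw [h4, zpow_natCast] at hg2
  push_cast at hg2
  have h8 : (0 : ℝ) < 8 ^ w.length := by positivity
  exact le_of_mul_le_mul_left hg2 h8

theorem C3_cst_le (w : Wd KG) : ∀ (k : ℤ) (p : ℕ), k ≤ p → k + lvl w = 0 →
    C3_cst k w ≤ C3_nx w * (8 : ℝ) ^ ((p + C3_nt w) / 2) := by
  induction w with
  | nil => intro k p _ _; simp [C3_cst, C3_nx]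
  | cons y w ih =>
    intro k p hk h0
    rw [lvl_cons] at h0
    rcases y with ⟨_ | x, b⟩
    · rw [C3_lvl_tau] at h0
      simp only [C3_cst, C3_nx, C3_nt]
      have e : p + (C3_nt w + 1) = (p + 1) + C3_nt w := by ring
      rw [e]
      apply ih
      · cases b <;> simp <;> omega
      · cases b <;> simp at h0 ⊢ <;> omega
    · rw [C3_lvl_x, zero_add] at h0
      simp only [C3_cst, C3_nx, C3_nt]
      have h1 := ih k p hk h0
      have h2 := C3_lvl_abs w
      rw [abs_le] at h2
      have h3 : (8 : ℝ) ^ k ≤ (8 : ℝ) ^ ((p + C3_nt w) / 2) := by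
        rw [← zpow_natCast]
        apply zpow_le_zpow_right₀ (by norm_num)
        omega
      push_cast
      linarith

theorem C3_pow_aux (n : ℕ) : 2 * n + 2 < 8 ^ (n + 1) := by
  induction n with
  | zero => norm_num
  | succ n ih => rw [pow_succ]; omega

/-- slow length of a word whose level stays nonnegative: |value| <= sum over the X-letters of 8^level;
after conjugation by tau^r this applies to every word with value in F. Q = maximal level: at least Q letters
tau and Q letters tau^{-1}; number of X letters >= 8^{m-Q} if Q < m, >= 1 if Q >= m. -/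
theorem block_length (m : ℕ) (y : X6 × Bool) (w : Wd KG)
    (hw : val kg w = iK (phn m (lv FreeGroup.of y))) : 2 * m + 1 ≤ w.length := by
  have h1 := C3_norm_le w _ hw
  rw [C3_norm_phn, C3_norm_lv, mul_one] at h1
  have hl : lvl w = 0 := by unfold lvl; rw [hw, NK_iK]
  have h2 := C3_cst_le w 0 0 (by simp) (by rw [hl]; rfl)
  rw [zero_add] at h2
  have h3 : (8 : ℕ) ^ m ≤ C3_nx w * 8 ^ (C3_nt w / 2) := by
    have : ((8 ^ m : ℕ) : ℝ) ≤ ((C3_nx w * 8 ^ (C3_nt w / 2) : ℕ) : ℝ) := by
      push_cast
      push_cast at h1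
      exact h1.trans h2
    exact_mod_cast this
  have hlen := C3_len w
  by_contra hc
  push Not at hc
  have hn : 1 ≤ C3_nx w := by
    by_contra h0
    have : C3_nx w = 0 := by omega
    rw [this, zero_mul] at h3
    have : 0 < 8 ^ m := by positivity
    omega
  have hT : C3_nt w / 2 + (C3_nx w + 1) / 2 ≤ m := by omega
  obtain ⟨s, hs⟩ : ∃ s, (C3_nx w + 1) / 2 = s + 1 := ⟨(C3_nx w + 1) / 2 - 1, by omega⟩
  have h4 : C3_nx w < 8 ^ ((C3_nx w + 1) / 2) := by
    rw [hs]
    have := C3_pow_aux s
    omega
  have h5 : C3_nx w * 8 ^ (C3_nt w / 2) < 8 ^ ((C3_nx w + 1) / 2) * 8 ^ (C3_nt w / 2) :=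
    Nat.mul_lt_mul_of_pos_right h4 (by positivity)
  rw [← pow_add] at h5
  have h6 : 8 ^ ((C3_nx w + 1) / 2 + C3_nt w / 2) ≤ 8 ^ m := Nat.pow_le_pow_right (by norm_num) (by omega)
  omega

end Dae
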