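import Pool.Agent.Lib.MP_dae6d7_al.Ifx
import Pool.Agent.Lib.MP_dae6d7_al.C2
import Pool.Agent.Lib.MP_dae6d7_al.A3
import Pool.Agent.Lib.MP_dae6d7_al.A1c

/-! Row C4: initial pieces of h have K-norm at most 8 times that of h. -/

namespace Dae

theorem C4_kn_le (p : F) : kn (iK p) ≤ p.toWord.length := by
  have h1 : iK p = val kg (p.toWord.map (fun y => (KG.x y.1, y.2))) := by
    rw [val_map, ← iK_eq_val, FreeGroup.mk_toWord]
  have h2 := nrm_le (g := kg) (p.toWord.map (fun y => (KG.x y.1, y.2)))
  rw [← h1, List.length_map] at h2
  exact h2

theorem C4_mul (x y : K) : kn (x * y) ≤ kn x + kn y := nrm_mul gens_PG x y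

theorem C4_kt : kn kt ≤ 1 := by
  have := nrm_letter kg (KG.tau, true)
  simpa [kt, kn] using this

theorem C4_kt' : kn kt⁻¹ ≤ 1 := by
  have := nrm_letter kg (KG.tau, false)
  simpa [kt, kn] using this

theorem C4_phi_le (p : F) : kn (iK (phi p)) ≤ kn (iK p) + 2 := by
  rw [← kt_conj]
  have h1 := C4_mul (kt * iK p) kt⁻¹
  have h2 := C4_mul kt (iK p)
  have h3 := C4_kt
  have h4 := C4_kt'
  omega

theorem C4_le_phi (p : F) : kn (iK p) ≤ kn (iK (phi p)) + 2 := by
  have e : iK p = kt⁻¹ * iK (phi p) * kt := by
    rw [← kt_conj]; group
  have h1 := C4_mul (kt⁻¹ * iK (phi p)) kt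
  have h2 := C4_mul kt⁻¹ (iK (phi p))
  have h3 := C4_kt
  have h4 := C4_kt'
  rw [← e] at h1
  omega

theorem C4_red_prefix {u w : Wd X6} (h : u <+: w) (hw : FreeGroup.IsReduced w) :
    FreeGroup.IsReduced u := by
  obtain ⟨t, rfl⟩ := h
  exact red_ifx hw ⟨[], t, by simp⟩

theorem C4_phi_prefix {h p : F} (hp : p.toWord <+: h.toWord) : (phi p).toWord <+: (phi h).toWord := by
  rw [toWord_phi, toWord_phi]
  obtain ⟨t, ht⟩ := hp
  rw [← ht, sbst_append]
  exact List.prefix_append _ _

theorem C4_split {h p : F} (hp : p.toWord <+: (phi h).toWord) :
    ∃ p1 r : F, p = phi p1 * r ∧ r.toWord.length < 8 ∧ p1.toWord <+: h.toWord := by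
  rw [toWord_phi] at hp
  have e0 : p.toWord = (sbst h.toWord).take p.toWord.length := List.prefix_iff_eq_take.1 hp
  have hred : FreeGroup.IsReduced p.toWord := FreeGroup.isReduced_toWord
  have h1 : p.toWord.take (8 * (p.toWord.length / 8)) = sbst (h.toWord.take (p.toWord.length / 8)) := by
    rw [← take_sbst]
    have e1 : p.toWord.take (8 * (p.toWord.length / 8)) =
        ((sbst h.toWord).take p.toWord.length).take (8 * (p.toWord.length / 8)) :=
      congrArg (List.take (8 * (p.toWord.length / 8))) e0
    rw [e1, List.take_take, min_eq_left (by omega)]
  have hp1 : h.toWord.take (p.toWord.length / 8) <+: h.toWord := List.take_prefix _ _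
  have hr1 : FreeGroup.IsReduced (h.toWord.take (p.toWord.length / 8)) :=
    C4_red_prefix hp1 FreeGroup.isReduced_toWord
  have t1 : (FreeGroup.mk (h.toWord.take (p.toWord.length / 8))).toWord =
      h.toWord.take (p.toWord.length / 8) := by
    rw [FreeGroup.toWord_mk, hr1.reduce_eq]
  have hr2 : FreeGroup.IsReduced (p.toWord.drop (8 * (p.toWord.length / 8))) :=
    red_ifx hred (List.drop_suffix _ _).isInfix
  have t2 : (FreeGroup.mk (p.toWord.drop (8 * (p.toWord.length / 8)))).toWord =
      p.toWord.drop (8 * (p.toWord.length / 8)) := by
    rw [FreeGroup.toWord_mk, hr2.reduce_eq]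
  refine ⟨FreeGroup.mk (h.toWord.take (p.toWord.length / 8)),
    FreeGroup.mk (p.toWord.drop (8 * (p.toWord.length / 8))), ?_, ?_, ?_⟩
  · have : phi (FreeGroup.mk (h.toWord.take (p.toWord.length / 8))) =
        FreeGroup.mk (p.toWord.take (8 * (p.toWord.length / 8))) := by
      rw [h1]
      apply FreeGroup.toWord_injective
      rw [toWord_phi, t1, FreeGroup.toWord_mk, (red_sbst hr1).reduce_eq]
    rw [this, FreeGroup.mul_mk, List.take_append_drop, FreeGroup.mk_toWord]
  · rw [t2, List.length_drop]; omega
  · rw [t1]; exact hp1

theorem C4_last (f : ℕ → ℤ) (hf : ∀ n, f (n + 1) ≤ f n + 1) (h1 : f 1 < 0) (k : ℕ)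
    (hk : 0 < f (1 + k)) : ∃ l, 1 ≤ l ∧ l < 1 + k ∧ f l = 0 ∧ ∀ n, l < n → n ≤ 1 + k → 1 ≤ f n := by
  induction k with
  | zero => simp at hk; omega
  | succ k ih =>
    have h2 := hf (1 + k)
    by_cases h3 : f (1 + k) = 0
    · refine ⟨1 + k, by omega, by omega, h3, ?_⟩
      intro n hn hn'
      have : n = 1 + (k + 1) := by omega
      subst this; omega
    · have h4 : 0 < f (1 + k) := by
        have e : 1 + (k + 1) = 1 + k + 1 := by omega
        rw [e] at hk
        omega
      obtain ⟨l, hl1, hl2, hl3, hl4⟩ := ih h4
      refine ⟨l, hl1, by omega, hl3, ?_⟩
      intro n hn hn'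
      by_cases h5 : n ≤ 1 + k
      · exact hl4 n hn h5
      · have : n = 1 + (k + 1) := by omega
        subst this; omega

theorem C4_step (w : Wd KG) (n : ℕ) : lvl (w.take (n + 1)) ≤ lvl (w.take n) + 1 ∧
    lvl (w.take n) - 1 ≤ lvl (w.take (n + 1)) := by
  by_cases hn : n < w.length
  · have e : w.take (n + 1) = w.take n ++ [w[n]] := by rw [List.take_append_getElem hn]
    rw [e, lvl_append]
    generalize w[n] = y
    rcases y with ⟨y, b⟩
    cases y with
    | tau => rw [C2_lvl_tau]; cases b <;> constructor <;> simp <;> omega
    | x z => rw [C2_lvl_x]; constructor <;> omega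
  · rw [List.take_of_length_le (by omega), List.take_of_length_le (by omega)]
    constructor <;> omega

theorem C4_lvl_val {w : Wd KG} {h : F} (hw : val kg w = iK h) : lvl w = 0 := by
  simp only [lvl, hw, NK_iK]

theorem piece_lemma_aux (n : ℕ) : ∀ (w : Wd KG) (h p : F), w.length = n → val kg w = iK h →
    p.toWord <+: h.toWord → kn (iK p) ≤ 8 * w.length := by
  induction n using Nat.strong_induction_on with
  | _ n IH =>
  intro w h p hn hw hp
  have IH' : ∀ (w' : Wd KG) (h p : F), w'.length < w.length → val kg w' = iK h →
      p.toWord <+: h.toWord → kn (iK p) ≤ 8 * w'.length := by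
    intro w' h p hl hv hp
    exact IH w'.length (by omega) w' h p rfl hv hp
  have hlv : lvl w = 0 := C4_lvl_val hw
  rcases w with _ | ⟨y, w'⟩
  · have h1 : h = 1 := iK_injective (by rw [← hw, val_nil, map_one])
    subst h1
    have h2 : p.toWord = [] := by simpa using hp
    have := C4_kn_le p
    rw [h2] at this
    simpa using this
  · set w : Wd KG := y :: w' with hwdef
    have hlen : w.length = w'.length + 1 := by simp [hwdef]
    rcases y with ⟨y, b⟩
    cases y with
    | x z =>
      obtain ⟨g, hg, hg1⟩ : ∃ g : F, lv kg (KG.x z, b) = iK g ∧ g.toWord.length ≤ 1 := by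
        cases b
        · exact ⟨(FreeGroup.of z)⁻¹, by simp [iK], by simp⟩
        · exact ⟨FreeGroup.of z, by simp [iK], by simp⟩
      have hv : val kg w' = iK (g⁻¹ * h) := by
        rw [map_mul, map_inv, ← hw, hwdef, val_cons, hg]; group
      have hp2 : p.toWord <+: (g * (g⁻¹ * h)).toWord := by
        have : g * (g⁻¹ * h) = h := by group
        rw [this]; exact hp
      rcases mul_piece g (g⁻¹ * h) p hp2 with h3 | ⟨q, hq, rfl⟩
      · have := C4_kn_le p
        have := h3.length_le
        omega
      · have h4 := IH' w' (g⁻¹ * h) q (by omega) hv hq
        have h5 := C4_kn_le g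
        have h6 := C4_mul (iK g) (iK q)
        rw [← map_mul] at h6
        omega
    | tau =>
      cases b with
      | true =>
        have hex : ∃ l, 0 < l ∧ lvl (w.take l) = 0 := ⟨w.length, by omega, by rw [List.take_length]; exact hlv⟩
        classical
        have hl0 : 0 < Nat.find hex ∧ lvl (w.take (Nat.find hex)) = 0 := Nat.find_spec hex
        have hlmin : ∀ m, 0 < m → m < Nat.find hex → lvl (w.take m) ≠ 0 := by
          intro m hm hm' h0
          exact Nat.find_min hex hm' ⟨hm, h0⟩
        have hle : Nat.find hex ≤ w.length := Nat.find_min' hex ⟨by omega, by rw [List.take_length]; exact hlv⟩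
        generalize Nat.find hex = l at hl0 hlmin hle
        obtain ⟨hl1, hl2⟩ := hl0
        have hpos : ∀ m, 0 < m → m < l → 1 ≤ lvl (w.take m) := by
          intro m hm hml
          induction m with
          | zero => omega
          | succ m ihm =>
            rcases Nat.eq_zero_or_pos m with rfl | hm0
            · rw [hwdef, List.take_succ_cons, List.take_zero, C2_lvl_tau]; simp
            · have h1 := ihm hm0 (by omega)
              have h2 := (C4_step w m).2
              have h3 := hlmin (m + 1) hm hml
              omega
        have hltake : (w.take l).length = l := by rw [List.length_take]; omega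
        obtain ⟨u, h1, hu1, hu2, hu3⟩ := dyck_return (w.take l) (by
            rw [hwdef]
            obtain ⟨l', rfl⟩ : ∃ l', l = l' + 1 := ⟨l - 1, by omega⟩
            simp) hl2 (by
            intro m hm hm'
            rw [hltake] at hm'
            rw [List.take_take, min_eq_left (by omega)]
            exact hpos m hm hm')
        have hlu : l = u.length + 2 := by
          have := congrArg List.length hu1
          rw [hltake] at this
          simpa using this
        have hsplit : val kg w = val kg (w.take l) * val kg (w.drop l) := by
          rw [← val_append, List.take_append_drop]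
        have hd : val kg (w.drop l) = iK ((phi h1)⁻¹ * h) := by
          rw [map_mul, map_inv, ← hw, hsplit, hu3]; group
        have hp2 : p.toWord <+: (phi h1 * ((phi h1)⁻¹ * h)).toWord := by
          have : phi h1 * ((phi h1)⁻¹ * h) = h := by group
          rw [this]; exact hp
        have hld : (w.drop l).length = w.length - l := List.length_drop
        rcases mul_piece _ _ p hp2 with h3 | ⟨q, hq, rfl⟩
        · obtain ⟨p1, r, rfl, hr, hp1⟩ := C4_split h3
          have h4 := IH' u h1 p1 (by omega) hu2 hp1
          have h5 := C4_kn_le r
          have h6 := C4_mul (iK (phi p1)) (iK r)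
          rw [← map_mul] at h6
          have h7 := C4_phi_le p1
          omega
        · have h4 := IH' (w.drop l) _ q (by omega) hd hq
          have h5 : kn (iK (phi h1)) ≤ l := by
            rw [← hu3]
            have := nrm_le (g := kg) (w.take l)
            rw [hltake] at this
            exact this
          have h6 := C4_mul (iK (phi h1)) (iK q)
          rw [← map_mul] at h6
          omega
      | false =>
        classical
        have hex : ∃ l, 0 < l ∧ ∃ g : F, val kg (w.take l) = iK g :=
          ⟨w.length, by omega, h, by rw [List.take_length]; exact hw⟩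
        have hl0 := Nat.find_spec hex
        have hlmin : ∀ m, 0 < m → m < Nat.find hex → ¬ ∃ g : F, val kg (w.take m) = iK g := by
          intro m hm hm' h0
          exact Nat.find_min hex hm' ⟨hm, h0⟩
        have hle : Nat.find hex ≤ w.length := Nat.find_min' hex ⟨by omega, h, by rw [List.take_length]; exact hw⟩
        generalize Nat.find hex = l at hl0 hlmin hle
        obtain ⟨hl1, h1, hl2⟩ := hl0
        have hone : lvl (w.take 1) = -1 := by
          rw [hwdef, List.take_succ_cons, List.take_zero, C2_lvl_tau]; simp
        have hlvl : lvl (w.take l) = 0 := C4_lvl_val hl2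
        have hl3 : 2 ≤ l := by
          rcases Nat.lt_or_ge l 2 with h2 | h2
          · have : l = 1 := by omega
            subst this
            omega
          · exact h2
        obtain ⟨k, rfl⟩ : ∃ k, l = 1 + k + 1 := ⟨l - 2, by omega⟩
        have hk : 1 + k < w.length := by omega
        have e : w.take (1 + k + 1) = w.take (1 + k) ++ [w[1 + k]] := by rw [List.take_append_getElem hk]
        have hlast : w[1 + k] = (KG.tau, true) := by
          rcases hz : w[1 + k] with ⟨z, b⟩
          rw [hz] at e
          cases z with
          | x z =>
            exfalso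
            obtain ⟨g, hg⟩ := C2_lv_x z b
            apply hlmin (1 + k) (by omega) (by omega)
            refine ⟨h1 * g⁻¹, ?_⟩
            rw [map_mul, map_inv, ← hl2, e, val_append, val_singleton, hg]; group
          | tau =>
            cases b with
            | true => rfl
            | false =>
              exfalso
              have hk1 : lvl (w.take (1 + k)) = 1 := by
                rw [e, lvl_append, C2_lvl_tau] at hlvl
                simp only [Bool.false_eq_true, if_false] at hlvl
                omega
              obtain ⟨l', hl'1, hl'2, hl'3, hl'4⟩ := C4_last (fun n => lvl (w.take n))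
                (fun n => (C4_step w n).1) (by simp only [hone]; omega) k (by simp only [hk1]; omega)
              have hsp : w.take (1 + k + 1) = w.take l' ++ (w.take (1 + k + 1)).drop l' := by
                have := List.take_append_drop l' (w.take (1 + k + 1))
                rw [List.take_take, min_eq_left (by omega)] at this
                exact this.symm
              set v := (w.take (1 + k + 1)).drop l' with hv
              have hvlen : v.length = 1 + k + 1 - l' := by
                rw [hv, List.length_drop, List.length_take]; omega
              have hvt : ∀ m, m ≤ v.length → lvl (w.take (l' + m)) = lvl (v.take m) := by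
                intro m hm
                have : w.take (l' + m) = w.take l' ++ v.take m := by
                  have h9 : w.take (l' + m) = (w.take (1 + k + 1)).take (l' + m) := by
                    rw [List.take_take, min_eq_left (by omega)]
                  rw [h9, hsp, List.take_append]
                  have h10 : (w.take l').length = l' := by rw [List.length_take]; omega
                  rw [h10, List.take_of_length_le (by omega)]
                  congr 2
                  omega
                rw [this, lvl_append, hl'3, zero_add]
              have hvh : v.head? = some (KG.tau, true) := by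
                have h9 := hvt 1 (by omega)
                have h10 := hl'4 (l' + 1) (by omega) (by omega)
                rcases hvv : v with _ | ⟨⟨z', b'⟩, v'⟩
                · rw [hvv] at hvlen; simp at hvlen; omega
                · rw [hvv] at h9
                  have h11 : ((z', b') :: v').take 1 = [(z', b')] := rfl
                  rw [h9, h11] at h10
                  cases z' with
                  | tau =>
                    cases b' with
                    | true => rfl
                    | false => rw [C2_lvl_tau] at h10; simp at h10
                  | x z' => rw [C2_lvl_x] at h10; omega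
              obtain ⟨u, h2, _, _, hu3⟩ := dyck_return v hvh (by
                  have := hvt v.length le_rfl
                  rw [List.take_length] at this
                  rw [← this]
                  have h9 : l' + v.length = 1 + k + 1 := by omega
                  rw [h9]; exact hlvl) (by
                  intro m hm hm'
                  rw [← hvt m (by omega)]
                  exact hl'4 (l' + m) (by omega) (by omega))
              apply hlmin l' (by omega) (by omega)
              refine ⟨h1 * (phi h2)⁻¹, ?_⟩
              rw [map_mul, map_inv, ← hl2, ← hu3, hsp, val_append]; group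
        rw [hlast] at e
        obtain ⟨u, hu⟩ : ∃ u, w.take (1 + k) = (KG.tau, false) :: u := by
          refine ⟨w'.take k, ?_⟩
          rw [hwdef, add_comm 1 k, List.take_succ_cons]
        have hulen : u.length = k := by
          have := congrArg List.length hu
          rw [List.length_take] at this
          simp at this
          omega
        have hval : val kg (w.take (1 + k + 1)) = kt⁻¹ * val kg u * kt := by
          rw [e, hu, val_append, val_cons]
          simp [kt]
        have hvu : val kg u = iK (phi h1) := by
          rw [← kt_conj, ← hl2, hval]; group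
        have hsplit : val kg w = val kg (w.take (1 + k + 1)) * val kg (w.drop (1 + k + 1)) := by
          rw [← val_append, List.take_append_drop]
        have hd : val kg (w.drop (1 + k + 1)) = iK (h1⁻¹ * h) := by
          rw [map_mul, map_inv, ← hw, hsplit, hl2]; group
        have hp2 : p.toWord <+: (h1 * (h1⁻¹ * h)).toWord := by
          have : h1 * (h1⁻¹ * h) = h := by group
          rw [this]; exact hp
        have hld : (w.drop (1 + k + 1)).length = w.length - (1 + k + 1) := List.length_drop
        rcases mul_piece _ _ p hp2 with h3 | ⟨q, hq, rfl⟩
        · have h4 := IH' u (phi h1) (phi p) (by omega) hvu (C4_phi_prefix h3)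
          have h5 := C4_le_phi p
          omega
        · have h4 := IH' (w.drop (1 + k + 1)) _ q (by omega) hd hq
          have h5 : kn (iK h1) ≤ 1 + k + 1 := by
            rw [← hl2]
            have := nrm_le (g := kg) (w.take (1 + k + 1))
            rw [List.length_take] at this
            exact this.trans (min_le_left _ _)
          have h6 := C4_mul (iK h1) (iK q)
          rw [← map_mul] at h6
          omega

/-- (3.2) -/
theorem piece_lemma (h p : F) (hp : p.toWord <+: h.toWord) : kn (iK p) ≤ 8 * kn (iK h) := by
  obtain ⟨w, hw, hv⟩ := nrm_spec (g := kg) gens_PG (iK h)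
  have := piece_lemma_aux w.length w h p rfl hv hp
  rw [hw] at this
  exact this

end Dae
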