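import Pool.Agent.Lib.MP_dae6d7_al.B1
import Pool.Agent.Lib.MP_dae6d7_al.B3
import Pool.Agent.Lib.MP_dae6d7_al.B4
import Pool.Agent.Lib.MP_dae6d7_al.C1b

/-! Row C5a. (Sections refer to the paper /team-store/dae6d7_paper.md.)

PF m i x = A m i x + m - A m i (x*), x* = (phn (m-i) c)^{-1} x. PF_tau: A m i 1 = i, A m i (phn (m-i) c)^{-1} = m: note
(phn n c)^{-1} = phn n (c^{-1}) (A_block with the letter (c,false)). PF_child': if i = m use A_top. Otherwise x* is not in the image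
of phi either (phn (m-i) c = phi (..) since m-i >= 1). A_child gives <= 12 for each A.  PF_jump: A_jump twice, x* h.
-/

namespace Dae

theorem C5a_toNat (m i : ℕ) (hi : i ≤ m) : ((m : ℤ) - (i : ℤ)).toNat = m - i := by omega

theorem PF_tau (m : ℕ) (i : ℕ) (hi : i ≤ m) : PF m i 1 = i := by
  have h1 := A_one m (i : ℤ)
  have h2 := A_block m (i : ℤ) (by omega) (by omega) (X6.c, false)
  rw [lv_false, phn_inv] at h2
  unfold PF
  rw [mul_one, h2, h1, Int.cast_natCast, max_eq_left (Nat.cast_nonneg i)]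
  ring

/-- value at w_m tau^i = tau^i phi^{m-i}(c) -/
theorem PF_tau' (m : ℕ) (i : ℕ) (hi : i ≤ m) : PF m i (phn (m - i) (FreeGroup.of X6.c)) = 2 * m - i := by
  have h1 := A_one m (i : ℤ)
  have h2 := A_block m (i : ℤ) (by omega) (by omega) (X6.c, true)
  rw [lv_true, C5a_toNat m i hi] at h2
  unfold PF
  rw [C5a_toNat m i hi, h2, inv_mul_cancel, h1, Int.cast_natCast, max_eq_left (Nat.cast_nonneg i)]
  ring

theorem PF_nonneg (m : ℕ) (i : ℤ) (hi : i ≤ m) (x : F) : 0 ≤ PF m i x := by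
  have h1 := A_nonneg m i x
  have h2 := A_le m i hi ((phn ((m : ℤ) - i).toNat (FreeGroup.of X6.c))⁻¹ * x)
  unfold PF
  linarith

theorem PF_le (m : ℕ) (i : ℤ) (hi : i ≤ m) (x : F) : PF m i x ≤ 2 * m := by
  have h1 := A_le m i hi x
  have h2 := A_nonneg m i ((phn ((m : ℤ) - i).toNat (FreeGroup.of X6.c))⁻¹ * x)
  unfold PF
  linarith

theorem C5a_diff (m : ℕ) (i : ℤ) (x h : F) (B : ℝ) (h1 : |A m i (x * h) - A m i x| ≤ B)
    (h2 : |A m i ((phn ((m : ℤ) - i).toNat (FreeGroup.of X6.c))⁻¹ * x * h) -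
      A m i ((phn ((m : ℤ) - i).toNat (FreeGroup.of X6.c))⁻¹ * x)| ≤ B) :
    |PF m i (x * h) - PF m i x| ≤ 2 * B := by
  unfold PF
  rw [← mul_assoc]
  rw [abs_le] at h1 h2 ⊢
  constructor <;> linarith [h1.1, h1.2, h2.1, h2.2]

theorem PF_letter' (m : ℕ) (i : ℤ) (x : F) (y : X6 × Bool) :
    |PF m i (x * lv FreeGroup.of y) - PF m i x| ≤ 4 := by
  have h := C5a_diff m i x (lv FreeGroup.of y) 2 (A_letter' m i x y) (A_letter' m i _ y)
  linarith

theorem PF_jump (m : ℕ) (i : ℤ) (x h : F) (J : ℕ) (hc : ¬ con J h) :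
    |PF m i (x * h) - PF m i x| ≤ 2 * (J + 3) :=
  C5a_diff m i x h (J + 3) (A_jump m i x h J hc) (A_jump m i _ h J hc)

theorem C5a_child (m : ℕ) (i : ℤ) (x h' : F) (hx : ∀ g : F, x ≠ phi g) :
    |A m i (x * phi h') - A m i x| ≤ 12 := by
  rcases A_child m i x h' hx with h | ⟨o, q, -, -, -, -, h⟩
  · rw [h, sub_self, abs_zero]; norm_num
  · refine h.trans ?_
    have h1 : (0 : ℝ) ≤ max ((o.toWord.length : ℝ) - 3) (max 0 (-(i : ℝ))) :=
      le_max_of_le_right (le_max_left _ _)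
    rw [div_le_iff₀ (by linarith)]
    linarith

theorem PF_child' (m : ℕ) (i : ℤ) (hi : i ≤ m) (x h' : F) (hx : i = m ∨ ∀ g : F, x ≠ phi g) :
    |PF m i (x * phi h') - PF m i x| ≤ 24 := by
  rcases eq_or_lt_of_le hi with h | h
  · subst h
    unfold PF
    simp only [A_top, sub_self, abs_zero]
    norm_num
  · rcases hx with hx | hx
    · omega
    · have hc : ∀ g : F, (phn ((m : ℤ) - i).toNat (FreeGroup.of X6.c))⁻¹ * x ≠ phi g := by
        intro g hg
        obtain ⟨n, hn⟩ : ∃ n : ℕ, ((m : ℤ) - i).toNat = n + 1 := ⟨((m : ℤ) - i).toNat - 1, by omega⟩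
        rw [hn, phn_succ] at hg
        apply hx (phn n (FreeGroup.of X6.c) * g)
        rw [map_mul, ← hg]
        group
      have h2 := C5a_diff m i x (phi h') 12 (C5a_child m i x h' hx) (C5a_child m i _ h' hc)
      linarith

end Dae
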