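import Pool.Agent.Lib.MP_dae6d7_al.B1
import Pool.Agent.Lib.MP_dae6d7_al.B3
import Pool.Agent.Lib.MP_dae6d7_al.B4
import Pool.Agent.Lib.MP_dae6d7_al.C1b

/-! Row C5b. (Sections refer to the paper /team-store/dae6d7_paper.md.)

phn (m-i) c = phi (phn (m-(i+1)) c) for i < m, so (phi x)* = phi (x*). For i < 0: A_phi_neg twice: equality. For 0 <= i < m and
x, x* different from 1: A_phi_pos twice. x = 1: A m i 1 = i, A m (i+1) 1 = i+1; same for x* = 1 (x = phn (m-(i+1)) c).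
-/

namespace Dae

theorem C5b_phn (m : ℕ) (i : ℤ) (hi : i < m) (u : F) :
    phn ((m : ℤ) - i).toNat u = phi (phn ((m : ℤ) - (i + 1)).toNat u) := by
  have h : ((m : ℤ) - i).toNat = ((m : ℤ) - (i + 1)).toNat + 1 := by omega
  rw [h]
  unfold phn
  rw [Function.iterate_succ_apply']

theorem C5b_A (m : ℕ) (i : ℤ) (hi : i < m) (x : F) : |A m (i + 1) x - A m i (phi x)| ≤ 1 := by
  rcases lt_or_ge i 0 with h0 | h0
  · rw [A_phi_neg m i h0]
    simp
  · by_cases hx : x = 1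
    · subst hx
      rw [map_one, A_one, A_one]
      have h1 : max (i : ℝ) 0 = i := max_eq_left (by exact_mod_cast h0)
      have h2 : max (((i + 1 : ℤ)) : ℝ) 0 = i + 1 := by
        rw [max_eq_left]
        · push_cast; ring
        · exact_mod_cast (by omega : (0 : ℤ) ≤ i + 1)
      rw [h1, h2]
      simp
    · rw [A_phi_pos m i h0 hi x hx]
      simp

theorem C5b_star (m : ℕ) (i : ℤ) (hi : i < m) (x : F) :
    (phn ((m : ℤ) - i).toNat (FreeGroup.of X6.c))⁻¹ * phi x =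
      phi ((phn ((m : ℤ) - (i + 1)).toNat (FreeGroup.of X6.c))⁻¹ * x) := by
  rw [C5b_phn m i hi, map_mul, map_inv]

/-- main tau move between tau^i phi(x) and tau^{i+1} x -/
theorem PF_tau_move (m : ℕ) (i : ℤ) (hi : i < m) (x : F) :
    |PF m (i + 1) x - PF m i (phi x)| ≤ 2 := by
  unfold PF
  rw [C5b_star m i hi]
  have h1 := C5b_A m i hi x
  have h2 := C5b_A m i hi ((phn ((m : ℤ) - (i + 1)).toNat (FreeGroup.of X6.c))⁻¹ * x)
  rw [abs_le] at *
  constructor <;> linarith [h1.1, h1.2, h2.1, h2.2]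

/-- if moreover tau^i phi(x) is not on the block path, nothing changes -/
theorem PF_tau_move_eq (m : ℕ) (i : ℤ) (hi : i < m) (x : F)
    (h : i < 0 ∨ (x ≠ 1 ∧ x ≠ phn ((m : ℤ) - (i + 1)).toNat (FreeGroup.of X6.c))) :
    PF m (i + 1) x = PF m i (phi x) := by
  unfold PF
  rw [C5b_star m i hi]
  rcases h with h | ⟨h1, h2⟩
  · rw [A_phi_neg m i h, A_phi_neg m i h]
  · rcases lt_or_ge i 0 with h0 | h0
    · rw [A_phi_neg m i h0, A_phi_neg m i h0]
    · rw [A_phi_pos m i h0 hi x h1, A_phi_pos m i h0 hi _ ?_]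
      intro h3
      exact h2 (inv_mul_eq_one.mp h3).symm

end Dae
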