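import Pool.Agent.Lib.MP_dae6d7_al.C4
import Pool.Agent.Lib.MP_dae6d7_al.C5a
import Pool.Agent.Lib.MP_dae6d7_al.C5b

/-! Row C6a. (Sections refer to the paper /team-store/dae6d7_paper.md.)

good m D (hp i x): for i >= 0: kt^i and iK(wm m) kt^i are at distance >= D from kt^i iK x, i.e. kn(iK x) >= D and kn(iK x*) >= D
(hp_dual); for i < 0 use 1 and iK (wm m): kn(kt^i iK x) >= D, and kn <= |i| + |x| (and same for x*). kn(iK x) <= |x| (word length:
nrm_le with the word of x). So |x| + max 0 (-i) >= D, same for x*. The smaller of |x|, |x y| is >= |x| - 1. A_letter: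
2/(1+max (|x|-1) (-i)) <= 2/(D/2) (since 1 + max(..) >= D/2).
PF_tau_good: PF_tau_move_eq; if i >= 0 and x = 1 then hp i (phi x) = kt^i is on the block path (kn 1 = 0 < D); if x = phn (m-(i+1)) c
then hp i (phi x) = kt^i iK (phn (m-i) c) = iK (wm m) kt^i.
-/

namespace Dae

theorem C6a_kn_iK (x : F) : kn (iK x) ≤ x.toWord.length := by
  have h1 : iK x = val kg (x.toWord.map (fun y => (KG.x y.1, y.2))) := by
    rw [val_map, ← iK_eq_val, FreeGroup.mk_toWord]
  rw [h1]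
  refine (nrm_le _).trans ?_
  simp

theorem C6a_kn_pow (n : ℕ) : kn (kt ^ n) ≤ n := by
  induction n with
  | zero => simp [kn, nrm_one]
  | succ n ih =>
    rw [pow_succ]
    have h1 : kn (kt ^ n * kt) ≤ kn (kt ^ n) + kn kt := nrm_mul gens_PG _ _
    have h2 : kn kt ≤ 1 := by
      have := nrm_letter kg (KG.tau, true)
      simpa [kn, kt] using this
    omega

theorem C6a_kn_zpow (i : ℤ) : kn (kt ^ i) ≤ i.natAbs := by
  rcases Int.natAbs_eq i with h | h
  · have h1 : kt ^ i = kt ^ i.natAbs := by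
      conv_lhs => rw [h]
      rw [zpow_natCast]
    rw [h1]
    exact C6a_kn_pow i.natAbs
  · have h1 : kt ^ i = (kt ^ i.natAbs)⁻¹ := by
      conv_lhs => rw [h]
      rw [zpow_neg, zpow_natCast]
    have : kn (kt ^ i.natAbs)⁻¹ = kn (kt ^ i.natAbs) := nrm_inv gens_PG _
    rw [h1, this]
    exact C6a_kn_pow i.natAbs

theorem C6a_kn_hp (i : ℤ) (x : F) :
    (kn ((kt ^ i.toNat)⁻¹ * hp i x) : ℝ) ≤ x.toWord.length + max 0 (-(i : ℝ)) := by
  have h1 : (kt ^ i.toNat)⁻¹ * hp i x = kt ^ (i - i.toNat) * iK x := by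
    unfold hp
    rw [← zpow_natCast, ← mul_assoc, ← zpow_neg, ← zpow_add]
    congr 2
    ring
  rw [h1]
  have h2 : kn (kt ^ (i - i.toNat) * iK x) ≤ kn (kt ^ (i - i.toNat)) + kn (iK x) := nrm_mul gens_PG _ _
  have h3 := C6a_kn_zpow (i - i.toNat)
  have h4 := C6a_kn_iK x
  have h5 : kn (kt ^ (i - i.toNat) * iK x) ≤ x.toWord.length + (i - i.toNat).natAbs := by omega
  have h6 : ((i - i.toNat).natAbs : ℝ) ≤ max 0 (-(i : ℝ)) := by
    rcases le_total 0 i with h | h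
    · have : (i - i.toNat).natAbs = 0 := by omega
      rw [this]
      simp
    · have h7 : (((i - i.toNat).natAbs : ℤ)) = -i := by omega
      have h8 : (((i - i.toNat).natAbs : ℤ) : ℝ) = ((-i : ℤ) : ℝ) := by rw [h7]
      rw [Int.cast_natCast, Int.cast_neg] at h8
      rw [h8]
      exact le_max_right _ _
  have h9 : (kn (kt ^ (i - i.toNat) * iK x) : ℝ) ≤ x.toWord.length + ((i - i.toNat).natAbs : ℝ) := by
    exact_mod_cast h5
  linarith

theorem C6a_dual (m : ℕ) (i : ℤ) (hi : i ≤ m) (x : F) :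
    (iK (wm m) * kt ^ i.toNat)⁻¹ * hp i x =
      (kt ^ i.toNat)⁻¹ * hp i ((phn ((m : ℤ) - i).toNat (FreeGroup.of X6.c))⁻¹ * x) := by
  rw [← hp_dual m i hi, mul_inv_rev, mul_assoc]

theorem C6a_low (m : ℕ) (i : ℤ) (hi : i ≤ m) (x : F) (D : ℝ) (hg : good m D (hp i x)) :
    D ≤ x.toWord.length + max 0 (-(i : ℝ)) ∧
    D ≤ ((phn ((m : ℤ) - i).toNat (FreeGroup.of X6.c))⁻¹ * x).toWord.length + max 0 (-(i : ℝ)) := by
  obtain ⟨h1, h2⟩ := hg i.toNat (by omega)
  rw [C6a_dual m i hi] at h2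
  exact ⟨h1.trans (C6a_kn_hp i _), h2.trans (C6a_kn_hp i _)⟩

theorem C6a_norm_lv (y : X6 × Bool) : (lv FreeGroup.of y : F).norm = 1 := by
  rcases y with ⟨y, b⟩
  cases b
  · simp [FreeGroup.norm_inv_eq]
  · simp

theorem C6a_len (x : F) (y : X6 × Bool) : x.toWord.length ≤ (x * lv FreeGroup.of y).toWord.length + 1 := by
  have h := FreeGroup.norm_mul_le (x * lv FreeGroup.of y) (lv FreeGroup.of y)⁻¹
  rw [mul_inv_cancel_right, FreeGroup.norm_inv_eq, C6a_norm_lv] at h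
  exact h

theorem C6a_A (m : ℕ) (i : ℤ) (x : F) (y : X6 × Bool) (D : ℝ) (hD : 32 ≤ D)
    (h : D ≤ x.toWord.length + max 0 (-(i : ℝ))) :
    |A m i (x * lv FreeGroup.of y) - A m i x| ≤ 8 / D := by
  have h1 := A_letter m i x y (x.toWord.length - 1) (by omega) (by have := C6a_len x y; omega)
  refine h1.trans ?_
  have h2 : D / 4 ≤ 1 + max ((x.toWord.length - 1 : ℕ) : ℝ) (-(i : ℝ)) := by
    have h3 : (x.toWord.length : ℝ) ≤ 1 + ((x.toWord.length - 1 : ℕ) : ℝ) := by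
      have : x.toWord.length ≤ 1 + (x.toWord.length - 1) := by omega
      exact_mod_cast this
    have h4 := le_max_left ((x.toWord.length - 1 : ℕ) : ℝ) (-(i : ℝ))
    have h5 := le_max_right ((x.toWord.length - 1 : ℕ) : ℝ) (-(i : ℝ))
    rcases max_cases 0 (-(i : ℝ)) with h6 | h6
    · rw [h6.1] at h
      linarith
    · rw [h6.1] at h
      linarith
  have h7 : (2 : ℝ) / (1 + max ((x.toWord.length - 1 : ℕ) : ℝ) (-(i : ℝ))) ≤ 2 / (D / 4) :=
    div_le_div_of_nonneg_left (by norm_num) (by linarith) h2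
  refine h7.trans (le_of_eq ?_)
  field_simp
  norm_num

theorem PF_letter_good (m : ℕ) (i : ℤ) (hi : i ≤ m) (x : F) (y : X6 × Bool) (D : ℝ) (hD : 32 ≤ D)
    (hg : good m D (hp i x)) :
    |PF m i (x * lv FreeGroup.of y) - PF m i x| ≤ 16 / D := by
  obtain ⟨h1, h2⟩ := C6a_low m i hi x D hg
  have h3 := C6a_A m i x y D hD h1
  have h4 := C6a_A m i _ y D hD h2
  unfold PF
  rw [← mul_assoc]
  have h5 : (16 : ℝ) / D = 8 / D + 8 / D := by ring
  rw [h5]
  rw [abs_le] at *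
  constructor <;> linarith [h3.1, h3.2, h4.1, h4.2]

theorem C6a_ne (m : ℕ) (j : ℤ) (hj : 0 ≤ j) (hjm : j ≤ m) (z : F) (D : ℝ) (hD : 1 ≤ D)
    (hg : good m D (hp j z)) : z ≠ 1 ∧ z ≠ phn ((m : ℤ) - j).toNat (FreeGroup.of X6.c) := by
  obtain ⟨h1, h2⟩ := hg j.toNat (by omega)
  rw [C6a_dual m j hjm] at h2
  have h3 : (kn ((kt ^ j.toNat)⁻¹ * hp j 1) : ℝ) = 0 := by
    have : (kt ^ j.toNat)⁻¹ * hp j 1 = 1 := by
      unfold hp
      rw [map_one, mul_one, ← zpow_natCast, Int.toNat_of_nonneg hj, inv_mul_cancel]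
    rw [this]
    unfold kn
    rw [nrm_one]
    simp
  constructor
  · rintro rfl
    rw [h3] at h1
    linarith
  · rintro rfl
    rw [inv_mul_cancel, h3] at h2
    linarith

theorem PF_tau_good (m : ℕ) (i : ℤ) (hi : i < m) (x : F) (D : ℝ) (hD : 1 ≤ D)
    (hg : good m D (hp i (phi x))) : PF m (i + 1) x = PF m i (phi x) := by
  apply PF_tau_move_eq m i hi
  rcases lt_or_ge i 0 with h | h
  · exact Or.inl h
  · right
    obtain ⟨h1, h2⟩ := C6a_ne m i h hi.le _ D hD hg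
    constructor
    · rintro rfl
      exact h1 (map_one _)
    · rintro rfl
      exact h2 (C5b_phn m i hi _).symm

theorem PF_tau_good' (m : ℕ) (i : ℤ) (hi : i < m) (x : F) (D : ℝ) (hD : 1 ≤ D)
    (hg : good m D (hp (i + 1) x)) : PF m (i + 1) x = PF m i (phi x) := by
  apply PF_tau_move_eq m i hi
  rcases lt_or_ge i 0 with h | h
  · exact Or.inl h
  · right
    exact C6a_ne m (i + 1) (by omega) (by omega) _ D hD hg

end Dae
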