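import Pool.Agent.Lib.MP_dae6d7_al.C4
import Pool.Agent.Lib.MP_dae6d7_al.C5a
import Pool.Agent.Lib.MP_dae6d7_al.C5b

/-! Row C6b. (Sections refer to the paper /team-store/dae6d7_paper.md.)

(3.4). h' = 1: nothing changes. i = m: A_top. i < m: x and x* are not in the image of phi. A_child for x: either no change or
o, q with |o| = lam 1 x, x q = o, q an initial piece of phi h', change <= 12/(1 + max (|o|-3) (max 0 (-i))). piece_lemma:
kn(iK q) <= 8 c', c' = kn (iK (phi h')) (>= 1 as phi h' <> 1: nrm_eq_zero, iK_injective). Goodness: D <= distance from hp i x to kt^i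
(i >= 0) or to 1 (i < 0) <= kn(iK q) + kn (iK o) + max 0 (-i) <= 8c' + |o| + max 0 (-i). If 8c' >= D/2 the change is <= 12 <=
192 c'/D. Otherwise |o| + max 0 (-i) > D/2, so max(|o|-3, -i) >= D/4 - 3 and the change is <= 12/(D/4-2) <= 96/D <= 96 c'/D (D >= 32).
Same for x* with iK(wm m)kt^i, iK (wm m) (hp_dual). Total <= 384 c'/D.
-/

namespace Dae

theorem C6b_gens : Gens kg := gens_PG

theorem C6b_kn_iK (o : F) : kn (iK o) ≤ o.toWord.length := by
  have h := nrm_le (g := kg) (o.toWord.map (fun y => (KG.x y.1, y.2)))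
  rw [val_map, ← iK_eq_val, FreeGroup.mk_toWord, List.length_map] at h
  exact h

theorem C6b_kn_zpow (i : ℤ) : kn (kt ^ i) ≤ i.natAbs := by
  have hn : ∀ n : ℕ, kn (kt ^ n) ≤ n := by
    intro n
    induction n with
    | zero => rw [pow_zero]; exact (nrm_one kg).le
    | succ n ih =>
      rw [pow_succ]
      refine (nrm_mul C6b_gens _ _).trans ?_
      have := nrm_letter kg (KG.tau, true)
      rw [lv_true] at this
      exact Nat.add_le_add ih this
  obtain ⟨n, rfl | rfl⟩ := Int.eq_nat_or_neg i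
  · rw [zpow_natCast]
    simpa using hn n
  · rw [zpow_neg, zpow_natCast]
    unfold kn
    rw [nrm_inv C6b_gens, Int.natAbs_neg, Int.natAbs_natCast]
    exact hn n

/-- the goodness inequality at tau^i x, from the points kt^i' -/
theorem C6b_far (m : ℕ) (i : ℤ) (hi : i ≤ m) (x : F) (D : ℝ)
    (hg : ∀ n : ℕ, n ≤ m → D ≤ kn ((kt ^ n)⁻¹ * hp i x)) :
    D ≤ kn (iK x) + max 0 (-(i : ℝ)) := by
  rcases le_or_gt 0 i with h0 | h0
  · obtain ⟨n, rfl⟩ := Int.eq_ofNat_of_zero_le h0
    have h := hg n (by exact_mod_cast hi)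
    have e : (kt ^ n)⁻¹ * hp (n : ℤ) x = iK x := by
      unfold hp
      rw [zpow_natCast, inv_mul_cancel_left]
    rw [e] at h
    exact h.trans (le_add_of_nonneg_right (le_max_left _ _))
  · have h := hg 0 (Nat.zero_le _)
    rw [pow_zero, inv_one, one_mul] at h
    have h2 : kn (hp i x) ≤ kn (kt ^ i) + kn (iK x) := nrm_mul C6b_gens _ _
    have h3 := C6b_kn_zpow i
    have h4 : (kn (hp i x) : ℝ) ≤ (i.natAbs : ℝ) + kn (iK x) := by
      exact_mod_cast h2.trans (Nat.add_le_add_right h3 _)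
    have h5 : ((i.natAbs : ℕ) : ℝ) = -(i : ℝ) := by
      have : (i.natAbs : ℤ) = -i := by omega
      rw [← Int.cast_natCast, this, Int.cast_neg]
    have h6 := le_max_right (0 : ℝ) (-(i : ℝ))
    rw [h5] at h4
    linarith

/-- one potential -/
theorem C6b_A (m : ℕ) (i : ℤ) (hi : i ≤ m) (x h' : F) (hx : ∀ g : F, x ≠ phi g)
    (D : ℝ) (hD : 32 ≤ D) (hg : ∀ n : ℕ, n ≤ m → D ≤ kn ((kt ^ n)⁻¹ * hp i x)) :
    |A m i (x * phi h') - A m i x| ≤ 192 / D * kn (iK (phi h')) := by
  have hD0 : (0 : ℝ) < D := by linarith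
  have hrhs : (0 : ℝ) ≤ 192 / D * kn (iK (phi h')) := by positivity
  by_cases h1 : phi h' = 1
  · rw [h1, mul_one, sub_self, abs_zero, ← h1]; exact hrhs
  have hc1 : 1 ≤ kn (iK (phi h')) := by
    by_contra hcon
    have h0 : kn (iK (phi h')) = 0 := by omega
    have h2 := nrm_eq_zero C6b_gens h0
    apply h1
    apply iK_injective
    rw [h2, map_one]
  rcases A_child m i x h' hx with h | ⟨o, q, -, -, hq, hqp, hch⟩
  · rw [h, sub_self, abs_zero]; exact hrhs
  · refine hch.trans ?_
    have hkq : kn (iK q) ≤ 8 * kn (iK (phi h')) := piece_lemma (phi h') q hqp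
    have hko := C6b_kn_iK o
    have hkx : kn (iK x) ≤ kn (iK o) + kn (iK q) := by
      have e : iK x = iK o * (iK q)⁻¹ := by rw [← hq, map_mul]; group
      rw [e]
      refine (nrm_mul C6b_gens _ _).trans ?_
      rw [nrm_inv C6b_gens]
      exact le_rfl
    have hfar := C6b_far m i hi x D hg
    have h8 : (kn (iK x) : ℝ) ≤ o.toWord.length + 8 * kn (iK (phi h')) := by
      exact_mod_cast hkx.trans (Nat.add_le_add hko hkq)
    have hc1' : (1 : ℝ) ≤ kn (iK (phi h')) := by exact_mod_cast hc1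
    set c : ℝ := (kn (iK (phi h')) : ℝ) with hc
    set n : ℝ := (o.toWord.length : ℝ) with hn
    set j : ℝ := max 0 (-(i : ℝ)) with hj
    have hj0 : 0 ≤ j := le_max_left _ _
    set M : ℝ := max (n - 3) j with hM
    have hM1 : n - 3 ≤ M := le_max_left _ _
    have hM2 : j ≤ M := le_max_right _ _
    have hM0 : 0 ≤ M := hj0.trans hM2
    have key : D ≤ 16 * c * (1 + M) := by
      have : 0 ≤ (c - 1) * M := mul_nonneg (by linarith) hM0
      nlinarith
    rw [div_mul_eq_mul_div, div_le_div_iff₀ (by linarith) hD0]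
    nlinarith

/-- non-main child move -/
theorem PF_child_good (m : ℕ) (i : ℤ) (hi : i ≤ m) (x h' : F) (hx : i = m ∨ ∀ g : F, x ≠ phi g)
    (D : ℝ) (hD : 32 ≤ D) (hg : good m D (hp i x)) :
    |PF m i (x * phi h') - PF m i x| ≤ 1000 / D * kn (iK (phi h')) := by
  have hD0 : (0 : ℝ) < D := by linarith
  rcases eq_or_lt_of_le hi with him | him
  · subst him
    unfold PF
    rw [A_top, A_top, A_top, A_top, sub_self, abs_zero]
    positivity
  · have hx' : ∀ g : F, x ≠ phi g := by
      rcases hx with h | h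
      · exact absurd h him.ne
      · exact h
    obtain ⟨n, hn⟩ : ∃ n : ℕ, ((m : ℤ) - i).toNat = n + 1 := ⟨((m : ℤ) - i).toNat - 1, by omega⟩
    set e : F := phn ((m : ℤ) - i).toNat (FreeGroup.of X6.c) with he
    have he' : e = phi (phn n (FreeGroup.of X6.c)) := by rw [he, hn, phn_succ]
    have hxs : ∀ g : F, e⁻¹ * x ≠ phi g := by
      intro g hgg
      apply hx' (phn n (FreeGroup.of X6.c) * g)
      rw [map_mul, ← he', ← hgg, mul_inv_cancel_left]
    have h1 := C6b_A m i hi x h' hx' D hD (fun k hk => (hg k hk).1)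
    have h2 := C6b_A m i hi (e⁻¹ * x) h' hxs D hD (fun k hk => by
      have := (hg k hk).2
      rw [mul_inv_rev, mul_assoc, hp_dual m i hi x] at this
      exact this)
    have e1 : PF m i (x * phi h') - PF m i x =
        (A m i (x * phi h') - A m i x) - (A m i (e⁻¹ * x * phi h') - A m i (e⁻¹ * x)) := by
      unfold PF
      rw [← he, mul_assoc]
      ring
    rw [e1]
    refine (abs_sub _ _).trans ?_
    have h3 : (0 : ℝ) ≤ kn (iK (phi h')) := by positivity
    have h4 : 192 / D * (kn (iK (phi h')) : ℝ) + 192 / D * kn (iK (phi h')) ≤ 1000 / D * kn (iK (phi h')) := by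
      rw [← add_mul, ← add_div]
      apply mul_le_mul_of_nonneg_right _ h3
      apply div_le_div_of_nonneg_right _ hD0.le
      norm_num
    linarith

end Dae
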