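import Pool.Agent.Lib.MP_dae6d7_al.C6a
import Pool.Agent.Lib.MP_dae6d7_al.C6b

/-! Row C7a. (Sections refer to the paper /team-store/dae6d7_paper.md.)

First letter y of w. X-letter: l = 1, PF_letter_good. tau^{-1}: l = 1, hp i x kt^{-1} = hp (i-1) (phi x), PF_tau_good' with i-1.
tau, i < m and x = phi y': l = 1, hp (i+1) y', PF_tau_good. tau otherwise (i = m or x not in the image of phi): claim: there is l > 0 with
lvl (w.take l) = 0. If not, all partial levels (from 1 on) are >= 1 (levels move by steps of at most 1), write w = tau :: u, the partial
levels of u are >= 0, dyck: val u = iK f kt^r, r >= 0: hp j x' = hp i x * kt * iK f * kt^r = kt^i iK(x phi f) kt^(r+1); levels: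
j = i + r + 1 <= m so i < m, and kt^(r+1) iK x' = iK (phn (r+1) x') kt^(r+1) gives x phi f = phn (r+1) x', x in the image of phi:
contradiction. Take the first such l: dyck_return: val (w.take l) = iK (phi h'); new point hp i (x phi h'), PF_child_good with
kn (iK (phi h')) <= l.
-/

namespace Dae

theorem C7a_iK_letter (a : X6) (b : Bool) : lv kg (KG.x a, b) = iK (lv FreeGroup.of (a, b)) := by
  cases b
  · simp [iK]
  · simp [iK]

theorem C7a_lvl_one (y : KG × Bool) : -1 ≤ lvl [y] := by
  rcases y with ⟨i, b⟩
  rw [lvl, val_singleton]
  cases i with
  | tau =>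
    cases b
    · rw [lv_false, NK_inv]
      have : NK (kg KG.tau) = 1 := NK_kt
      rw [this]
    · rw [lv_true]
      have : NK (kg KG.tau) = 1 := NK_kt
      rw [this]; norm_num
  | x a => rw [C7a_iK_letter, NK_iK]; norm_num

theorem C7a_lvl_tau : lvl [(KG.tau, true)] = 1 := by
  rw [lvl, val_singleton, lv_true]; exact NK_kt

/-- a word starting with tau which has no return to level 0 up to time N stays at level at least 1 -/
theorem C7a_levels (u : Wd KG) (N : ℕ)
    (h : ∀ n, 0 < n → n ≤ N → lvl (((KG.tau, true) :: u).take n) ≠ 0) (n : ℕ) (h0 : 0 < n) (hn : n ≤ N) :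
    1 ≤ lvl (((KG.tau, true) :: u).take n) := by
  induction n with
  | zero => omega
  | succ n ih =>
    rcases Nat.eq_zero_or_pos n with rfl | hpos
    · rw [zero_add, List.take_succ_cons, List.take_zero, C7a_lvl_tau]
    · have h1 := ih hpos (by omega)
      have h2 := h (n + 1) (by omega) hn
      rcases lt_or_ge n ((KG.tau, true) :: u).length with hl | hl
      · have e : ((KG.tau, true) :: u).take (n + 1) = ((KG.tau, true) :: u).take n ++
            [((KG.tau, true) :: u)[n]] := (List.take_append_getElem hl).symm
        rw [e, lvl_append] at h2 ⊢
        have h3 := C7a_lvl_one (((KG.tau, true) :: u)[n])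
        omega
      · rw [List.take_of_length_le (by omega)]
        rw [List.take_of_length_le hl] at h1
        exact h1

theorem C7a_kt_pow (r : ℕ) (x : F) : kt ^ r * iK x = iK (phn r x) * kt ^ r := by
  induction r generalizing x with
  | zero => simp [phn]
  | succ r ih =>
    have h1 : kt * iK x = iK (phi x) * kt := by rw [← kt_conj]; group
    rw [pow_succ, mul_assoc, h1, ← mul_assoc, ih, mul_assoc]
    rw [show phn (r + 1) x = phn r (phi x) from Function.iterate_succ_apply _ _ _]

/-- Step: a nonempty K-word starting at a hull point and ending at a hull point has an initial piece ending at a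
hull point, given by one macro move. -/
theorem K_step (m : ℕ) (i j : ℤ) (hi : i ≤ m) (hj : j ≤ m) (x x' : F) (w : Wd KG) (hw : w ≠ [])
    (h : hp i x * val kg w = hp j x') (D : ℝ) (hD : 32 ≤ D) (hg : good m D (hp i x)) :
    ∃ l : ℕ, 0 < l ∧ l ≤ w.length ∧ ∃ i' : ℤ, ∃ y : F, i' ≤ m ∧ hp i x * val kg (w.take l) = hp i' y ∧
      |PF m i' y - PF m i x| ≤ 1000 / D * l := by
  have hD0 : 0 < D := by linarith
  rcases w with _ | ⟨⟨g, b⟩, u⟩
  · exact absurd rfl hw
  have hlen : 1 ≤ (((g, b) :: u : Wd KG)).length := by simp
  have htake : ((g, b) :: u : Wd KG).take 1 = [(g, b)] := by simp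
  cases g with
  | x a =>
    refine ⟨1, one_pos, hlen, i, x * lv FreeGroup.of (a, b), hi, ?_, ?_⟩
    · rw [htake, val_singleton, C7a_iK_letter, hp_mul]
    · refine (PF_letter_good m i hi x (a, b) D hD hg).trans ?_
      rw [Nat.cast_one, mul_one]
      exact div_le_div_of_nonneg_right (by norm_num) hD0.le
  | tau =>
    cases b with
    | false =>
      refine ⟨1, one_pos, hlen, i - 1, phi x, by omega, ?_, ?_⟩
      · rw [htake, val_singleton, lv_false]
        exact hp_tau_inv i x
      · have h1 := PF_tau_good' m (i - 1) (by omega) x D (by linarith) (by rwa [sub_add_cancel])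
        rw [sub_add_cancel] at h1
        rw [h1, sub_self, abs_zero]
        positivity
    | true =>
      by_cases hx : i < m ∧ ∃ g : F, x = phi g
      · obtain ⟨him, g, rfl⟩ := hx
        refine ⟨1, one_pos, hlen, i + 1, g, by omega, ?_, ?_⟩
        · rw [htake, val_singleton, lv_true]
          exact hp_tau i g
        · rw [PF_tau_good m i him g D (by linarith) hg, sub_self, abs_zero]
          positivity
      · have hx' : i = m ∨ ∀ g : F, x ≠ phi g := by
          by_contra hcon
          push Not at hcon
          exact hx ⟨lt_of_le_of_ne hi hcon.1, hcon.2⟩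
        have hret : ∃ l, 0 < l ∧ l ≤ ((KG.tau, true) :: u : Wd KG).length ∧
            lvl (((KG.tau, true) :: u).take l) = 0 := by
          by_contra hcon
          push Not at hcon
          have hlv := C7a_levels u ((KG.tau, true) :: u : Wd KG).length hcon
          have hu : ∀ n, n ≤ u.length → 0 ≤ lvl (u.take n) := by
            intro n hn
            have h1 := hlv (n + 1) (by omega) (by simpa using hn)
            rw [List.take_succ_cons, lvl_cons, C7a_lvl_tau] at h1
            omega
          have hu' : ∀ n, 0 ≤ lvl (u.take n) := by
            intro n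
            rcases le_total n u.length with h1 | h1
            · exact hu n h1
            · rw [List.take_of_length_le h1]
              have := hu u.length le_rfl
              rwa [List.take_length] at this
          obtain ⟨f, hf⟩ := dyck u hu'
          have hr : 0 ≤ lvl u := by
            have := hu u.length le_rfl
            rwa [List.take_length] at this
          obtain ⟨r, hr'⟩ := Int.eq_ofNat_of_zero_le hr
          rw [hr', zpow_natCast] at hf
          rw [val_cons, lv_true, hf] at h
          have hNK := congrArg NK h
          have hkr : NK (kt ^ r) = r := by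
            have := NK_hp r 1
            rw [hp, map_one, mul_one, zpow_natCast] at this
            exact this
          rw [NK_mul, NK_mul, NK_mul, NK_hp, NK_hp, NK_iK, hkr] at hNK
          have hNK' : NK (kg KG.tau) = 1 := NK_kt
          rw [hNK'] at hNK
          have him : i < m := by omega
          have hxx : ∀ g : F, x ≠ phi g := by
            rcases hx' with h1 | h1
            · omega
            · exact h1
          have hj' : j = i + (r + 1 : ℕ) := by push_cast; omega
          rw [hj', hp, hp, zpow_add, zpow_natCast, mul_assoc, mul_assoc (kt ^ i)] at h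
          have h2 := mul_left_cancel h
          rw [C7a_kt_pow] at h2
          have h3 : kg KG.tau * (iK f * kt ^ r) = iK (phi f) * kt ^ (r + 1) := by
            have h1 : kt * iK f = iK (phi f) * kt := by rw [← kt_conj]; group
            rw [← mul_assoc, show kg KG.tau = kt from rfl, h1, pow_succ', mul_assoc]
          rw [h3, ← mul_assoc, ← map_mul] at h2
          have h4 := iK_injective (mul_right_cancel h2)
          rw [show phn (r + 1) x' = phi (phn r x') from Function.iterate_succ_apply' _ _ _] at h4
          refine hxx (phn r x' * f⁻¹) ?_
          rw [map_mul, map_inv, ← h4]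
          group
        classical
        set l := Nat.find hret with hl
        obtain ⟨h1, h2, h3⟩ := Nat.find_spec hret
        rw [← hl] at h1 h2 h3
        have hmin : ∀ n, 0 < n → n ≤ l - 1 → lvl (((KG.tau, true) :: u).take n) ≠ 0 := by
          intro n hn hn' h0
          exact Nat.find_min hret (m := n) (by omega) ⟨hn, by omega, h0⟩
        have hlv := C7a_levels u (l - 1) hmin
        have hwl : (((KG.tau, true) :: u : Wd KG).take l).length = l := by
          rw [List.length_take, min_eq_left h2]
        obtain ⟨v, h', e1, e2, e3⟩ := dyck_return (((KG.tau, true) :: u).take l) (by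
          obtain ⟨l', hl'⟩ : ∃ l', l = l' + 1 := ⟨l - 1, by omega⟩
          rw [hl', List.take_succ_cons]; rfl) h3 (by
          intro n hn hn'
          rw [hwl] at hn'
          rw [List.take_take, min_eq_left hn'.le]
          exact hlv n hn (by omega))
        refine ⟨l, h1, h2, i, x * phi h', hi, ?_, ?_⟩
        · rw [e3, hp_mul]
        · refine (PF_child_good m i hi x h' hx' D hD hg).trans ?_
          have h5 : kn (iK (phi h')) ≤ l := by
            rw [← e3]
            have := nrm_le (g := kg) (((KG.tau, true) :: u).take l)
            rw [hwl] at this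
            exact this
          have h6 : (kn (iK (phi h')) : ℝ) ≤ l := by exact_mod_cast h5
          exact mul_le_mul_of_nonneg_left h6 (by positivity)

end Dae
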