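import Pool.Agent.Lib.MP_dae6d7_al.C7a

/-! Row C7b. (Sections refer to the paper /team-store/dae6d7_paper.md.)

Strong induction on w.length: w = []: hp_inj. Otherwise K_step gives l, i', y; the rest w.drop l goes from hp i' y to hp j x' and its
points are points of the old path. Add the two estimates.
-/

namespace Dae

theorem C7b_aux (m : ℕ) (j : ℤ) (hj : j ≤ m) (x' : F) (D : ℝ) (hD : 32 ≤ D) (n : ℕ) :
    ∀ (i : ℤ) (_ : i ≤ m) (x : F) (w : Wd KG), w.length = n →
    hp i x * val kg w = hp j x' →
    (∀ l, l ≤ w.length → good m D (hp i x * val kg (w.take l))) →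
    |PF m j x' - PF m i x| ≤ 1000 / D * w.length := by
  induction n using Nat.strong_induction_on with
  | _ n ih =>
    intro i hi x w hn h hg
    by_cases hw : w = []
    · subst hw
      rw [val_nil, mul_one] at h
      obtain ⟨h1, h2⟩ := hp_inj h
      subst h1; subst h2
      simp
    · have hg0 : good m D (hp i x) := by
        have := hg 0 (Nat.zero_le _)
        simpa using this
      obtain ⟨l, hl0, hl, i', y, hi', hy, hb⟩ := K_step m i j hi hj x x' w hw h D hD hg0
      have hlen : (w.drop l).length = w.length - l := List.length_drop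
      have hrest : hp i' y * val kg (w.drop l) = hp j x' := by
        rw [← hy, mul_assoc, ← val_append, List.take_append_drop, h]
      have hgood : ∀ l', l' ≤ (w.drop l).length → good m D (hp i' y * val kg ((w.drop l).take l')) := by
        intro l' hl'
        have := hg (l + l') (by omega)
        rw [List.take_add, val_append, ← mul_assoc, hy] at this
        exact this
      have h2 := ih (w.drop l).length (by omega) i' hi' y (w.drop l) rfl hrest hgood
      have h3 : |PF m j x' - PF m i x| ≤ |PF m j x' - PF m i' y| + |PF m i' y - PF m i x| := abs_sub_le _ _ _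
      have h4 : ((w.drop l).length : ℝ) = (w.length : ℝ) - l := by
        rw [hlen, Nat.cast_sub hl]
      rw [h4] at h2
      calc |PF m j x' - PF m i x| ≤ |PF m j x' - PF m i' y| + |PF m i' y - PF m i x| := h3
        _ ≤ 1000 / D * ((w.length : ℝ) - l) + 1000 / D * l := add_le_add h2 hb
        _ = 1000 / D * w.length := by ring

/-- (3.5) -/
theorem K_path (m : ℕ) (i j : ℤ) (hi : i ≤ m) (hj : j ≤ m) (x x' : F) (w : Wd KG)
    (h : hp i x * val kg w = hp j x') (D : ℝ) (hD : 32 ≤ D)
    (hg : ∀ l, l ≤ w.length → good m D (hp i x * val kg (w.take l))) :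
    |PF m j x' - PF m i x| ≤ 1000 / D * w.length :=
  C7b_aux m j hj x' D hD w.length i hi x w rfl h hg

end Dae
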