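import Pool.Agent.Lib.MP_dae6d7_al.C7b

/-! Row C8. (Sections refer to the paper /team-store/dae6d7_paper.md.)

good_move: triangle inequality (nrm_mul, nrm_inv). PF_jump_cost: let J be the least natural number with not con J h (exists by
con_length). PF_jump: change <= 2(J+3). If J >= 1, con (J-1) h so (sqrt 5)^(J-1)/5 <= c. Since (sqrt 5)^(J-1)/(5 Lam) - 2(J+3) tends to
infinity there is C0 with 2(J+3) <= (sqrt 5)^(J-1)/(5 Lam) + C0 for all J >= 1 and 6 <= C0: first claim. Second: choose J1 with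
2(J+3) <= (sqrt 5)^(J-1)/(5 Lam) for J > J1, D0 >= max (4 Lam (J1+3)) (2000 Lam) 64. If D >= D0 and good m D (hp i x):
if kn(iK h) <= D/2: take a word w of length kn (iK h) with value iK h; all points hp i x * val (w.take l) are (D/2)-good (good_move,
kn (val (w.take l)) <= l <= D/2); K_path: change <= (1000/(D/2)) kn(iK h) <= (2000/D) c <= c/Lam. If kn(iK h) > D/2: c > D/2;
J > J1: change <= 2(J+3) <= c/Lam; J <= J1: change <= 2(J1+3) <= D/(2 Lam) <= c/Lam.
-/

namespace Dae

/-- good is a distance condition -/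
theorem good_move (m : ℕ) (D : ℝ) (k h : K) (hg : good m D k) : good m (D - kn h) (k * h) := by
  have key : ∀ y : K, D ≤ kn y → D - kn h ≤ kn (y * h) := by
    intro y hy
    have h1 : kn y ≤ kn (y * h) + kn h := by
      have h2 : nrm kg (y * h * h⁻¹) ≤ nrm kg (y * h) + nrm kg h⁻¹ := nrm_mul gens_PG _ _
      have h3 : nrm kg h⁻¹ = nrm kg h := nrm_inv gens_PG _
      rw [mul_inv_cancel_right, h3] at h2
      exact h2
    have h4 : (kn y : ℝ) ≤ kn (y * h) + kn h := by exact_mod_cast h1
    linarith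
  intro i hi
  obtain ⟨h1, h2⟩ := hg i hi
  refine ⟨?_, ?_⟩
  · rw [← mul_assoc]; exact key _ h1
  · rw [← mul_assoc]; exact key _ h2

theorem C8_growth (Lam : ℝ) (hL : 1 ≤ Lam) : ∃ N : ℕ, 1 ≤ N ∧ ∀ n : ℕ, N ≤ n →
    2 * ((n : ℝ) + 4) ≤ Real.sqrt 5 ^ n / 5 / Lam := by
  have h5 : (1 : ℝ) < Real.sqrt 5 := by
    rw [Real.lt_sqrt (by norm_num)]; norm_num
  have h1 := tendsto_pow_const_div_const_pow_of_one_lt 1 h5
  have hε : (0 : ℝ) < 1 / (50 * Lam) := by positivity
  have h2 := (h1.eventually_lt_const hε)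
  obtain ⟨N, hN⟩ := Filter.eventually_atTop.mp h2
  refine ⟨max N 1, le_max_right _ _, ?_⟩
  intro n hn
  have h3 := hN n ((le_max_left _ _).trans hn)
  have hn1 : (1 : ℝ) ≤ n := by exact_mod_cast (le_max_right _ _).trans hn
  have hp : (0 : ℝ) < Real.sqrt 5 ^ n := by positivity
  rw [pow_one, div_lt_div_iff₀ hp (by positivity)] at h3
  rw [le_div_iff₀ (by positivity), le_div_iff₀ (by norm_num)]
  nlinarith

theorem C8_find (h : F) : ∃ J : ℕ, ¬ con J h ∧ (J = 0 ∨ con (J - 1) h) := by
  classical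
  have hex : ∃ J : ℕ, ¬ con J h := by
    refine ⟨h.toWord.length, ?_⟩
    intro hc
    have h1 := con_length hc
    have h2 : h.toWord.length < 8 ^ h.toWord.length := Nat.lt_pow_self (by norm_num)
    omega
  refine ⟨Nat.find hex, Nat.find_spec hex, ?_⟩
  rcases Nat.eq_zero_or_pos (Nat.find hex) with h0 | h0
  · exact Or.inl h0
  · right
    have := Nat.find_min hex (m := Nat.find hex - 1) (by omega)
    exact not_not.mp this

theorem C8_hp (i : ℤ) (x h : F) : hp i (x * h) = hp i x * iK h := by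
  unfold hp
  rw [map_mul, mul_assoc]

theorem C8_good_mono {m : ℕ} {D D' : ℝ} {k : K} (hD : D' ≤ D) (hg : good m D k) : good m D' k :=
  fun i hi => ⟨hD.trans (hg i hi).1, hD.trans (hg i hi).2⟩

/-- (3.6) -/
theorem PF_jump_cost (Lam : ℝ) (hL : 1 ≤ Lam) : ∃ D0 C0 : ℝ, 32 ≤ D0 ∧ 0 ≤ C0 ∧
    ∀ (m : ℕ) (i : ℤ), i ≤ m → ∀ (x h : F) (c : ℝ), 1 ≤ c → (kn (iK h) : ℝ) ≤ c →
      (∀ J : ℕ, con J h → Real.sqrt 5 ^ J / 5 ≤ c) →
      |PF m i (x * h) - PF m i x| ≤ c / Lam + C0 ∧
      (∀ D : ℝ, D0 ≤ D → good m D (hp i x) → |PF m i (x * h) - PF m i x| ≤ c / Lam) := by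
  obtain ⟨N, hN1, hN⟩ := C8_growth Lam hL
  have hL0 : 0 < Lam := by linarith
  refine ⟨max (max (4 * Lam * (N + 3)) (2000 * Lam)) 64, 2 * ((N : ℝ) + 4),
    le_trans (by norm_num) (le_max_right _ _), by positivity, ?_⟩
  intro m i hi x h c hc hk hcon
  obtain ⟨J, hJ, hJ2⟩ := C8_find h
  have hjump := PF_jump m i x h J hJ
  have hc0 : 0 ≤ c / Lam := by positivity
  -- the two cases for J
  have hcase : (2 * ((J : ℝ) + 3) ≤ c / Lam) ∨ (J : ℝ) ≤ N := by
    rcases hJ2 with h0 | h1
    · right
      rw [h0]; simp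
    · by_cases hb : J ≤ N
      · right; exact_mod_cast hb
      · left
        push Not at hb
        have h2 := hN (J - 1) (by omega)
        have h3 := hcon (J - 1) h1
        have h4 : ((J - 1 : ℕ) : ℝ) + 4 = (J : ℝ) + 3 := by
          rw [Nat.cast_sub (by omega)]; push_cast; ring
        rw [h4] at h2
        exact h2.trans (div_le_div_of_nonneg_right h3 hL0.le)
  refine ⟨?_, ?_⟩
  · rcases hcase with h1 | h1
    · refine (hjump.trans h1).trans ?_
      have : (0 : ℝ) ≤ 2 * ((N : ℝ) + 4) := by positivity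
      linarith
    · refine hjump.trans ?_
      linarith
  · intro D hD hg
    have hD1 : 4 * Lam * (N + 3) ≤ D := ((le_max_left _ _).trans (le_max_left _ _)).trans hD
    have hD2 : 2000 * Lam ≤ D := ((le_max_right _ _).trans (le_max_left _ _)).trans hD
    have hD3 : 64 ≤ D := (le_max_right _ _).trans hD
    have hD0 : 0 < D := by linarith
    by_cases hb : (kn (iK h) : ℝ) ≤ D / 2
    · obtain ⟨w, hw1, hw2⟩ := nrm_spec (g := kg) gens_PG (iK h)
      have hw1' : (w.length : ℝ) ≤ D / 2 := by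
        rw [hw1]; exact hb
      have hp1 : hp i x * val kg w = hp i (x * h) := by rw [hw2, C8_hp]
      have hp2 := K_path m i i hi hi x (x * h) w hp1 (D / 2) (by linarith) (by
        intro l hl
        have h1 := good_move m D (hp i x) (val kg (w.take l)) hg
        refine C8_good_mono ?_ h1
        have h2 : kn (val kg (w.take l)) ≤ (w.take l).length := nrm_le _
        have h3 : (w.take l).length ≤ w.length := by
          rw [List.length_take]; omega
        have h4 : (kn (val kg (w.take l)) : ℝ) ≤ w.length := by exact_mod_cast h2.trans h3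
        linarith)
      refine hp2.trans ?_
      have h5 : (w.length : ℝ) ≤ c := by rw [hw1]; exact hk
      have h6 : 1000 / (D / 2) ≤ 1 / Lam := by
        rw [div_le_div_iff₀ (by positivity) hL0]
        linarith
      have h7 : (0 : ℝ) ≤ w.length := by positivity
      calc 1000 / (D / 2) * (w.length : ℝ) ≤ 1 / Lam * w.length := by
            exact mul_le_mul_of_nonneg_right h6 h7
        _ ≤ 1 / Lam * c := by
            exact mul_le_mul_of_nonneg_left h5 (by positivity)
        _ = c / Lam := by ring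
    · push Not at hb
      have hcD : D / 2 ≤ c := by linarith
      rcases hcase with h1 | h1
      · exact hjump.trans h1
      · refine hjump.trans ?_
        rw [le_div_iff₀ hL0]
        nlinarith

end Dae
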