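import Mathlib

/-! Public definitions: word metric, Cayley graph, geodesic rays, Morse gauges, the Morse boundary. -/

namespace Dae

section cayley
variable {G : Type} [Group G]

/-- word length of x with respect to S (length of a shortest product of elements of S and inverses) -/
noncomputable def wlen (S : Set G) (x : G) : ℕ :=
  sInf {n | ∃ w : List G, w.length = n ∧ (∀ y ∈ w, y ∈ S ∨ y⁻¹ ∈ S) ∧ w.prod = x}

/-- a finite generating set -/
structure GenSet (G : Type) [Group G] where
  S : Set G
  fin : S.Finite
  gen : Subgroup.closure S = ⊤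

/-- points of the Cayley graph: the vertices g, and the points at distance t from g on the edge from g to g s,
s in S, 0 <= t <= 1 (before identification of the ends of the edges with the vertices) -/
inductive PreCay (T : GenSet G) : Type
  | vert (g : G)
  | edge (g : G) (s : T.S) (t : unitInterval)

namespace PreCay
variable {T : GenSet G}

/-- first end of the edge containing a point -/
def v0 : PreCay T → G
  | vert g => g
  | edge g _ _ => g

/-- second end -/
def v1 : PreCay T → G
  | vert g => g
  | edge g s _ => g * s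

/-- distance to the first end along the edge -/
def r0 : PreCay T → ℝ
  | vert _ => 0
  | edge _ _ t => t

/-- distance to the second end along the edge -/
def r1 : PreCay T → ℝ
  | vert _ => 0
  | edge _ _ t => 1 - t

/-- distance of a point to a vertex -/
noncomputable def vd (p : PreCay T) (x : G) : ℝ :=
  min (p.r0 + wlen T.S (p.v0⁻¹ * x)) (p.r1 + wlen T.S (p.v1⁻¹ * x))

/-- length of a shortest path which passes through a vertex -/
noncomputable def thru (p q : PreCay T) : ℝ := min (p.vd q.v0 + q.r0) (p.vd q.v1 + q.r1)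

open Classical in
/-- path distance: through vertices or inside one edge -/
noncomputable def pd : PreCay T → PreCay T → ℝ
  | edge g s t, edge g' s' t' => if g = g' ∧ s = s' then
      min |(t : ℝ) - t'| (thru (edge g s t) (edge g' s' t')) else thru (edge g s t) (edge g' s' t')
  | p, q => thru p q

end PreCay
end cayley

section morse
open scoped NNReal

/-- geodesic rays starting at e -/
structure GRay (X : Type) [PseudoMetricSpace X] (e : X) where
  toFun : ℝ≥0 → X
  iso : Isometry toFun
  start : toFun 0 = e

/-- f : [a,b] -> X is a (lam,eps)-quasi-geodesic -/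
def IsQG {X : Type} [PseudoMetricSpace X] (lam eps a b : ℝ) (f : ℝ → X) : Prop :=
  ∀ s ∈ Set.Icc a b, ∀ t ∈ Set.Icc a b,
    lam⁻¹ * |s - t| - eps ≤ dist (f s) (f t) ∧ dist (f s) (f t) ≤ lam * |s - t| + eps

/-- Morse gauges (only the values for lam >= 1, eps >= 0 are used) -/
abbrev Gauge : Type := ℝ → ℝ → ℝ≥0

variable {X : Type} [MetricSpace X] {e : X}

/-- the ray is N-Morse -/
def IsMorse (N : Gauge) (γ : GRay X e) : Prop :=
  ∀ lam eps a b : ℝ, 1 ≤ lam → 0 ≤ eps → a ≤ b → ∀ f : ℝ → X, IsQG lam eps a b f →
    f a ∈ Set.range γ.toFun → f b ∈ Set.range γ.toFun →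
    ∀ s ∈ Set.Icc a b, ∃ t : ℝ≥0, dist (f s) (γ.toFun t) ≤ N lam eps

/-- topology of uniform convergence on compact sets -/
instance : TopologicalSpace (GRay X e) :=
  TopologicalSpace.induced (fun γ => (⟨γ.toFun, γ.iso.continuous⟩ : C(ℝ≥0, X))) inferInstance

/-- bounded Hausdorff distance -/
def Asym (γ γ' : GRay X e) : Prop := ∃ C : ℝ,
  (∀ t, ∃ t', dist (γ.toFun t) (γ'.toFun t') ≤ C) ∧ (∀ t', ∃ t, dist (γ.toFun t) (γ'.toFun t') ≤ C)

/-- Morse rays starting at e, up to bounded Hausdorff distance -/
def asymSetoid (X : Type) [MetricSpace X] (e : X) : Setoid {γ : GRay X e // ∃ N, IsMorse N γ} where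
  r γ γ' := Asym γ.1 γ'.1
  iseqv := by
    refine ⟨fun γ => ⟨0, fun t => ⟨t, by simp⟩, fun t => ⟨t, by simp⟩⟩, ?_, ?_⟩
    · rintro γ γ' ⟨C, h1, h2⟩
      refine ⟨C, fun t => ?_, fun t => ?_⟩
      · obtain ⟨t', h⟩ := h2 t
        exact ⟨t', by rw [dist_comm]; exact h⟩
      · obtain ⟨t', h⟩ := h1 t
        exact ⟨t', by rw [dist_comm]; exact h⟩
    · rintro γ γ' γ'' ⟨C, h1, h2⟩ ⟨C', h1', h2'⟩
      refine ⟨C + C', fun t => ?_, fun t => ?_⟩
      · obtain ⟨t', h⟩ := h1 t
        obtain ⟨t'', h'⟩ := h1' t'
        exact ⟨t'', (dist_triangle _ _ _).trans (add_le_add h h')⟩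
      · obtain ⟨t', h⟩ := h2' t
        obtain ⟨t'', h'⟩ := h2 t'
        exact ⟨t'', (dist_triangle _ _ _).trans (add_le_add h' h)⟩

/-- the Morse boundary (as a set) -/
def MorseBoundary (X : Type) [MetricSpace X] (e : X) : Type := Quotient (asymSetoid X e)

/-- the map from N-Morse rays onto the stratum of N -/
def stratumMap (N : Gauge) (γ : {γ : GRay X e // IsMorse N γ}) : MorseBoundary X e :=
  Quotient.mk (asymSetoid X e) ⟨γ.1, N, γ.2⟩

/-- the direct limit topology: a set is open (closed) iff its preimage in the space of N-Morse rays is open (closed)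
for all N; equivalently iff its intersection with each stratum (with the quotient topology) is open (closed) -/
instance : TopologicalSpace (MorseBoundary X e) :=
  ⨆ N : Gauge, TopologicalSpace.coinduced (stratumMap N) inferInstance

end morse

end Dae
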