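import Pool.Agent.Lib.MP_dae6d7_al.G1b

/-! The Cayley graph as a metric space. -/

namespace Dae
variable {G : Type} [Group G]

noncomputable instance (T : GenSet G) : PseudoMetricSpace (PreCay T) where
  dist := PreCay.pd
  dist_self := PreCay.pd_self
  dist_comm := PreCay.pd_comm
  dist_triangle := PreCay.pd_triangle

/-- the Cayley graph of G with respect to T (geometric realisation with edges of length 1) -/
def Cay (T : GenSet G) : Type := SeparationQuotient (PreCay T)

noncomputable instance (T : GenSet G) : MetricSpace (Cay T) :=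
  inferInstanceAs (MetricSpace (SeparationQuotient (PreCay T)))

/-- the vertex g of the Cayley graph -/
noncomputable def Cay.vert (T : GenSet G) (g : G) : Cay T := SeparationQuotient.mk (PreCay.vert g)

/-- the point at distance t from g on the edge from g to g s -/
noncomputable def Cay.edge (T : GenSet G) (g : G) (s : T.S) (t : unitInterval) : Cay T := SeparationQuotient.mk (PreCay.edge g s t)

theorem Cay.dist_vert (T : GenSet G) (g h : G) : dist (Cay.vert T g) (Cay.vert T h) = wlen T.S (g⁻¹ * h) :=
  PreCay.pd_vert g h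

/-- coarsely geodesic spaces -/
def CG (X : Type) [PseudoMetricSpace X] (κ : ℝ) : Prop := ∀ x y : X, ∃ f : ℝ → X, f 0 = x ∧ f (dist x y) = y ∧
  ∀ s ∈ Set.Icc 0 (dist x y), ∀ t ∈ Set.Icc 0 (dist x y), abs (dist (f s) (f t) - abs (s - t)) ≤ κ

/-- distance constant of a gauge -/
noncomputable def dl (κ : ℝ) (N : Gauge) : ℝ := 2 * N 3 (4 * κ + 4) + 4 * κ + 4

/-- transfer of the gauge -/
noncomputable def Ntr (κ : ℝ) (N : Gauge) : Gauge := fun lam eps =>
  N lam (eps + 2 * dl κ N) + Real.toNNReal (dl κ N)

end Dae
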