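import Pool.Agent.Lib.MP_dae6d7_al.Words

/-! Row D1. (Sections refer to the paper /team-store/dae6d7_paper.md.)

fox: for i let E i : Equiv.Perm (PG R × B) be (g,n) -> (g * of i, n + D i g), inverse (g,n) -> (g * (of i)^{-1}, n - D i (g (of i)^{-1})).
To turn the right action into a homomorphism use the group (Equiv.Perm (PG R × B))ᵐᵒᵖ, or the letters acting by inverses. Words act by
(g,n) -> (g * val w, n + Dw g w) (induction on w). A relator acts trivially (val_rel and h), so PG.lift gives Psi : PG R ->* (Perm ..)ᵐᵒᵖ; put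
sigma x = second component of Psi x applied to (1,0); the first component is x (check on words, PG.exists_val).
-/

namespace Dae

theorem Dw_append {ι Γ B : Type} [Group Γ] [AddCommGroup B] (gen : ι → Γ) (D : ι → Γ → B) (g : Γ) (u w : Wd ι) :
    Dw gen D g (u ++ w) = Dw gen D g u + Dw gen D (g * val gen u) w := by
  induction u generalizing g with
  | nil => simp [Dw]
  | cons y u ih =>
    simp only [List.cons_append, Dw, val_cons]
    rw [ih, mul_assoc, add_assoc]

/-- the permutation of a generator -/
def D1_perm {ι B : Type} [AddCommGroup B] {R : Set (Wd ι)} (D : ι → PG R → B) (i : ι) :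
    Equiv.Perm (PG R × B) where
  toFun z := (z.1 * PG.of i, z.2 + D i z.1)
  invFun z := (z.1 * (PG.of i)⁻¹, z.2 - D i (z.1 * (PG.of i)⁻¹))
  left_inv z := by
    ext <;> simp
  right_inv z := by
    ext <;> simp

/-- values of words act by increments -/
theorem D1_act {ι B : Type} [AddCommGroup B] {R : Set (Wd ι)} (D : ι → PG R → B) (w : Wd ι) (z : PG R × B) :
    (val (fun i => MulOpposite.op (D1_perm D i)) w).unop z = (z.1 * val PG.of w, z.2 + Dw PG.of D z.1 w) := by
  induction w generalizing z with
  | nil => simp [Dw]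
  | cons y w ih =>
    rcases y with ⟨i, b⟩
    rw [val_cons, MulOpposite.unop_mul, Equiv.Perm.mul_apply]
    cases b
    · simp only [lv_false, MulOpposite.unop_inv, MulOpposite.unop_op, val_cons, Dw, Bool.false_eq_true, if_false]
      have h1 : ((D1_perm D i)⁻¹ : Equiv.Perm (PG R × B)) z = (z.1 * (PG.of i)⁻¹, z.2 - D i (z.1 * (PG.of i)⁻¹)) := rfl
      rw [h1, ih]
      ext
      · simp [mul_assoc]
      · simp only []
        abel
    · simp only [lv_true, MulOpposite.unop_op, val_cons, Dw, if_true]
      have h1 : (D1_perm D i) z = (z.1 * PG.of i, z.2 + D i z.1) := rfl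
      rw [h1, ih]
      ext
      · simp [mul_assoc]
      · simp only []
        abel

/-- Lemma 1. Let PG R act on PG R × B by (g,n) -> (g * of i, n + D i g) (permutations, words act by
(g,n) -> (g * val w, n + Dw g w)), so the relators act trivially; σ(x) = second component of x acting on (1,0). -/
theorem fox {ι B : Type} [AddCommGroup B] {R : Set (Wd ι)} (D : ι → PG R → B)
    (h : ∀ w ∈ R, ∀ g, Dw PG.of D g w = 0) :
    ∃ σ : PG R → B, σ 1 = 0 ∧ ∀ g i, σ (g * PG.of i) = σ g + D i g := by
  have hrel : ∀ w ∈ R, val (fun i => MulOpposite.op (D1_perm D i)) w = 1 := by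
    intro w hw
    apply MulOpposite.unop_injective
    apply Equiv.ext
    intro z
    rw [D1_act, PG.val_rel hw, h w hw]
    simp
  let Psi := PG.lift (R := R) (fun i => MulOpposite.op (D1_perm D i)) hrel
  have hP : ∀ w : Wd ι, ∀ z, (Psi (val PG.of w)).unop z = (z.1 * val PG.of w, z.2 + Dw PG.of D z.1 w) := by
    intro w z
    have h1 : Psi (val PG.of w) = val (fun i => MulOpposite.op (D1_perm D i)) w := PG.lift_val _ hrel w
    rw [h1]
    exact D1_act D w z
  refine ⟨fun x => ((Psi x).unop (1, 0)).2, ?_, ?_⟩
  · simp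
  · intro g i
    obtain ⟨w, rfl⟩ := PG.exists_val g
    have h1 : val (PG.of : ι → PG R) w * PG.of i = val PG.of (w ++ [(i, true)]) := by simp
    rw [h1]
    simp only [hP]
    rw [Dw_append]
    simp [Dw]

/-- consequence: increments along words -/
theorem fox_word {ι Γ B : Type} [Group Γ] [AddCommGroup B] (gen : ι → Γ) (D : ι → Γ → B) (σ : Γ → B)
    (hσ : ∀ g i, σ (g * gen i) = σ g + D i g) (g : Γ) (w : Wd ι) : σ (g * val gen w) = σ g + Dw gen D g w := by
  induction w generalizing g with
  | nil => simp [Dw]
  | cons y w ih =>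
    rcases y with ⟨i, b⟩
    rw [val_cons, ← mul_assoc, ih]
    cases b
    · simp only [lv_false, Dw, Bool.false_eq_true, if_false]
      have := hσ (g * (gen i)⁻¹) i
      rw [inv_mul_cancel_right] at this
      rw [this]; abel
    · simp only [lv_true, Dw, if_true]
      rw [hσ]; abel

end Dae
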