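import Pool.Agent.Lib.MP_dae6d7_al.GHoms
import Pool.Agent.Lib.MP_dae6d7_al.C1a

/-! Row D2a. (Sections refer to the paper /team-store/dae6d7_paper.md.)

All by PG.hom_ext / FreeGroup.ext_hom on generators (write the two sides as compositions of homomorphisms, then DFunLike.congr_fun).
tau_conj: apply KtoG to kt_conj.
-/

namespace Dae

theorem rhoK_KtoG (k : K) : rhoK (KtoG k) = k := by
  have h : rhoK.comp KtoG = MonoidHom.id K := by
    apply PG.hom_ext
    intro i
    rcases i with _ | y
    · simp [rhoK, KtoG, gg, fK, kt, kg]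
    · simp [rhoK, KtoG, gg, fK, kg]
  exact DFunLike.congr_fun h k

theorem KtoG_injective : Function.Injective KtoG := by
  intro a b h
  rw [← rhoK_KtoG a, ← rhoK_KtoG b, h]

theorem rhoM_MtoG (k : M) : rhoM (MtoG k) = k := by
  have h : rhoM.comp MtoG = MonoidHom.id M := by
    apply PG.hom_ext
    intro i
    rcases i with _ | _ | _ | y <;> simp [rhoM, MtoG, gg, fM, mg]
  exact DFunLike.congr_fun h k

theorem MtoK_KtoM (k : K) : MtoK (KtoM k) = k := by
  have h : MtoK.comp KtoM = MonoidHom.id K := by
    apply PG.hom_ext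
    intro i
    rcases i with _ | y
    · simp [MtoK, KtoM, mg, kt, kg]
    · simp [MtoK, KtoM, mg, kg]
  exact DFunLike.congr_fun h k

theorem MtoK_rhoM (g : G) : MtoK (rhoM g) = rhoK g := by
  have h : MtoK.comp rhoM = rhoK := by
    apply PG.hom_ext
    intro i
    rcases i with _ | _ | _ | _ | _ | y <;> simp [MtoK, rhoM, rhoK, fM, fK, mg]
  exact DFunLike.congr_fun h g

theorem MtoG_KtoM (k : K) : MtoG (KtoM k) = KtoG k := by
  have h : MtoG.comp KtoM = KtoG := by
    apply PG.hom_ext
    intro i
    rcases i with _ | y <;> simp [MtoG, KtoM, KtoG, mg]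
  exact DFunLike.congr_fun h k

theorem iG_injective : Function.Injective iG := by
  intro a b h
  exact iK_injective (KtoG_injective h)

theorem rF_iL (f : F') : rF (iL f) = f := by
  have h : rF.comp iL = MonoidHom.id F' := by
    apply FreeGroup.ext_hom
    intro i
    rcases i with _ | _ | y <;> simp [rF, iL, lg]
  exact DFunLike.congr_fun h f

theorem iL_injective : Function.Injective iL := by
  intro a b h
  rw [← rF_iL a, ← rF_iL b, h]

theorem LtoG_iL_iF (h : F) : LtoG (iL (iF h)) = iG h := by
  have h1 : (LtoG.comp iL).comp iF = iG := by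
    apply FreeGroup.ext_hom
    intro i
    simp [LtoG, iL, iF, iG, KtoG, iK, lg, kg]
  exact DFunLike.congr_fun h1 h

theorem tau_conj (h : F) : gg GG.tau * iG h * (gg GG.tau)⁻¹ = iG (phi h) := by
  have h1 : KtoG kt = gg GG.tau := by simp [KtoG, kt, kg]
  have h2 := congrArg KtoG (kt_conj h)
  rw [map_mul, map_mul, map_inv, h1] at h2
  exact h2

end Dae
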