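import Pool.Agent.Lib.MP_dae6d7_al.D2a
import Pool.Agent.Lib.MP_dae6d7_al.N1

/-! Row D2b. (Sections refer to the paper /team-store/dae6d7_paper.md.)

kn_le_gn: nrm_map with f = rhoK. gn_KtoG: <= by nrm_map for KtoG, >= by kn_le_gn and rhoK_KtoG. The others: two homomorphisms agree on
generators. eta_iG: h = mk w, both sides are sums over the letters (hts = sum of ht1).
-/

namespace Dae

theorem kn_le_gn (g : G) : kn (rhoK g) ≤ gn g := by
  apply nrm_map (gens_PG) kg rhoK
  intro i
  rcases i with _ | _ | _ | _ | _ | y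
  · left; simp [rhoK, fK]
  · left; simp [rhoK, fK]
  · left; simp [rhoK, fK]
  · left; simp [rhoK, fK]
  · right; exact ⟨KG.tau, by simp [rhoK, fK, kt]⟩
  · right; exact ⟨KG.x y, by simp [rhoK, fK]⟩

theorem gn_KtoG (k : K) : gn (KtoG k) = kn k := by
  apply le_antisymm
  · apply nrm_map (gens_PG) gg KtoG
    intro i
    rcases i with _ | y
    · right; exact ⟨GG.tau, by simp [KtoG]⟩
    · right; exact ⟨GG.x y, by simp [KtoG]⟩
  · have := kn_le_gn (KtoG k)
    rwa [rhoK_KtoG] at this

theorem NG_KtoG (k : K) : NG (KtoG k) = NK k := by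
  unfold NG NGh NK
  rw [MonoidHom.comp_apply, rhoK_KtoG]

theorem chi_KtoG (k : K) : chi (KtoG k) = 0 := by
  have h : chih.comp KtoG = 1 := by
    apply PG.hom_ext
    intro i
    rcases i with _ | y <;> simp [chih, KtoG, gg]
  have h2 := DFunLike.congr_fun h k
  simp only [MonoidHom.comp_apply, MonoidHom.one_apply] at h2
  simp [chi, h2]

theorem NG_LtoG (u : L) : NG (LtoG u) = 0 := by
  have h : NGh.comp LtoG = 1 := by
    apply PG.hom_ext
    intro i
    rcases i with _ | _ | _ | _ | y <;> simp [NGh, LtoG, gg, rhoK, fK, NKh, kg]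
  have h2 := DFunLike.congr_fun h u
  simp only [MonoidHom.comp_apply, MonoidHom.one_apply] at h2
  simp [NG, h2]

theorem D2b_eta_val (w : Wd X6) : eta (iG (FreeGroup.mk w)) = hts w := by
  have h0 : ∀ y, eta (gg (GG.x y)) = if isC y then 0 else 1 := by
    intro y
    simp only [eta, etah, gg, PG.lift_of]
    cases isC y <;> simp
  have h1 : iG (FreeGroup.mk w) = val (fun y => gg (GG.x y)) w := by
    unfold iG
    rw [MonoidHom.comp_apply, iK_eq_val, map_val]
    congr 1
  rw [h1]
  induction w with
  | nil => simp [hts, eta_one]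
  | cons y w ih =>
    have ih' := ih (by
      unfold iG
      rw [MonoidHom.comp_apply, iK_eq_val, map_val]
      congr 1)
    rw [val_cons, eta_mul, ih']
    rcases y with ⟨i, b⟩
    unfold hts
    rw [List.map_cons, List.sum_cons]
    congr 1
    cases b
    · simp only [lv_false, eta_inv, h0, ht1]
      cases isC i <;> simp
    · simp only [lv_true, h0, ht1]
      cases isC i <;> simp

theorem eta_iG (h : F) : eta (iG h) = hts h.toWord := by
  rw [← D2b_eta_val, FreeGroup.mk_toWord]

end Dae
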