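import Pool.Agent.Lib.MP_dae6d7_al.D2b
import Pool.Agent.Lib.MP_dae6d7_al.A1b

/-! Row D3. (Sections refer to the paper /team-store/dae6d7_paper.md.)

H = range of (iL.comp iF) (injective: iL_injective, iF = FreeGroup.map of the injective FG.x), H' = range of (iL.comp iF).comp phi, e : H ≃* H' with
e (iL (iF h)) = iL (iF (phi h)) (compose MonoidHom.ofInjective equivalences). Hom G -> HNNExtension L H H' e: PG.lift with the letters of L
sent to HNNExtension.of (lg ..) and tau -> t; relators: relL_val (from relL_rel in L, mapped by of) and relK_val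
(t * of (iL (iF y)) * t^{-1} = of (iL (iF (phi y))), equiv_eq_conj; val of the word base y). The composition with LtoG is HNNExtension.of
(PG.hom_ext), injective by HNNExtension.of_injective.
-/

namespace Dae

/-- Let H = range (iL ∘ iF) in L (free, iL and iF are injective), H' = range (iL ∘ iF ∘ phi), e : H ≃* H'
given by phi. Map G -> HNNExtension L H H' e by LG-letters -> of, tau -> t (check the relators:
t * of h = of (e h) * t). Its composition with LtoG is HNNExtension.of, which is injective. -/
theorem LtoG_injective : Function.Injective LtoG := by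
  let j : F →* L := iL.comp iF
  have hiF : Function.Injective iF := FreeGroup.map_injective (fun u v h => by injection h)
  have hj : Function.Injective j := iL_injective.comp hiF
  have hjp : Function.Injective (j.comp phi) := hj.comp phi_injective
  let e : j.range ≃* (j.comp phi).range := (MonoidHom.ofInjective hj).symm.trans (MonoidHom.ofInjective hjp)
  have he : ∀ h : F, ((e ⟨j h, ⟨h, rfl⟩⟩ : (j.comp phi).range) : L) = j (phi h) := by
    intro h
    have h1 : (MonoidHom.ofInjective hj).symm ⟨j h, ⟨h, rfl⟩⟩ = h := by
      rw [MulEquiv.symm_apply_eq]; rfl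
    change (((MonoidHom.ofInjective hjp) ((MonoidHom.ofInjective hj).symm ⟨j h, ⟨h, rfl⟩⟩) : (j.comp phi).range) : L) = _
    rw [h1]; rfl
  let E := HNNExtension L j.range (j.comp phi).range e
  have hc : ∀ h : F, (HNNExtension.t : E) * HNNExtension.of (j h) * HNNExtension.t⁻¹ = HNNExtension.of (j (phi h)) := by
    intro h
    rw [← he h]
    exact (HNNExtension.equiv_eq_conj (φ := e) ⟨j h, ⟨h, rfl⟩⟩).symm
  let f : GG → E := fun g => match g with
    | .p => HNNExtension.of (lg .p) | .q => HNNExtension.of (lg .q) | .s => HNNExtension.of (lg .s)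
    | .t => HNNExtension.of (lg .t) | .tau => HNNExtension.t | .x y => HNNExtension.of (lg (.x y))
  have hjx : ∀ y, j (FreeGroup.of y) = lg (LG.x y) := by
    intro y
    simp [j, iL, iF]
  have hf : ∀ w ∈ relL GG.p GG.q GG.s GG.x ∪ relK GG.tau GG.x, val f w = 1 := by
    rintro w (hw | hw)
    · obtain ⟨h1, h2, h3, h4, h5, h6, h7⟩ := relL_rel (R := relL LG.p LG.q LG.s LG.x) LG.p LG.q LG.s LG.x (le_refl _)
      refine relL_val _ _ _ _ f ?_ ?_ ?_ ?_ ?_ ?_ ?_ w hw
      · simpa [f, lg] using congrArg (HNNExtension.of : L →* E) h1
      · simpa [f, lg] using congrArg (HNNExtension.of : L →* E) h2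
      · simpa [f, lg] using congrArg (HNNExtension.of : L →* E) h3
      · intro y hy
        simpa [f, lg] using congrArg (HNNExtension.of : L →* E) (h4 y hy)
      · intro y hy
        simpa [f, lg] using congrArg (HNNExtension.of : L →* E) (h5 y hy)
      · intro y hy
        simpa [f, lg] using congrArg (HNNExtension.of : L →* E) (h6 y hy)
      · intro y hy
        simpa [f, lg] using congrArg (HNNExtension.of : L →* E) (h7 y hy)
    · refine relK_val _ _ f ?_ w hw
      intro y
      have h1 := hc (FreeGroup.of y)
      rw [hjx] at h1
      have h2 : phi (FreeGroup.of y) = FreeGroup.mk (base y) := by simp [phi]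
      rw [h2] at h1
      have h3 : (HNNExtension.of (j (FreeGroup.mk (base y))) : E) = val (f ∘ GG.x) (base y) := by
        have h4 : (HNNExtension.of (j (FreeGroup.mk (base y))) : E) =
            ((HNNExtension.of : L →* E).comp j) (FreeGroup.mk (base y)) := rfl
        rw [h4, val_eq_lift]
        congr 1
        ext z
        simp only [FreeGroup.lift_apply_of, MonoidHom.coe_comp, Function.comp_apply, hjx, f]
      rw [← h3]
      exact h1
  let Φ : G →* E := PG.lift f hf
  have hcomp : Φ.comp LtoG = (HNNExtension.of : L →* E) := by
    apply PG.hom_ext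
    intro i
    cases i <;> simp [Φ, LtoG, f, gg, lg]
  have hinj : Function.Injective (Φ.comp LtoG) := by
    rw [hcomp]; exact HNNExtension.of_injective _
  exact Function.Injective.of_comp hinj

end Dae
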