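import Pool.Agent.Lib.MP_dae6d7_al.D1
import Pool.Agent.Lib.MP_dae6d7_al.D3

/-! Row D4a. (Sections refer to the paper /team-store/dae6d7_paper.md.)

fox with B = ℤ, D tau g = 1 if g in iG(phi F), D x g = 0 for the other letters. Relators of L: no tau, Dw = 0. Relator
tau x tau^{-1} phi(x)^{-1}: Dw g = 1[g] - 1[g tau x tau^{-1}] = 1[g in iG phi F] - 1[g iG (phi x) in iG phi F] = 0 (tau_conj).
-/

namespace Dae

/-- words whose letters have increment 0 have total increment 0 -/
theorem D4a_Dw_zero {ι Γ B : Type} [Group Γ] [AddCommGroup B] (gen : ι → Γ) (D : ι → Γ → B) (w : Wd ι)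
    (hw : ∀ y ∈ w, ∀ g, D y.1 g = 0) (g : Γ) : Dw gen D g w = 0 := by
  induction w generalizing g with
  | nil => rfl
  | cons y w ih =>
    have h1 := hw y (List.mem_cons_self ..)
    rw [Dw, ih (fun z hz => hw z (List.mem_cons_of_mem _ hz)), h1, h1]
    simp

theorem D4a_invRev_mem {ι : Type} {w : Wd ι} {y : ι × Bool} (h : y ∈ FreeGroup.invRev w) :
    ∃ z ∈ w, z.1 = y.1 := by
  unfold FreeGroup.invRev at h
  rw [List.mem_reverse, List.mem_map] at h
  obtain ⟨z, hz, rfl⟩ := h
  exact ⟨z, hz, rfl⟩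

theorem D4a_iG_of (y : X6) : iG (FreeGroup.of y) = gg (GG.x y) := by
  simp [iG, iK, KtoG, kg]

open Classical in
/-- (W1) -/
theorem wall_tau : ∃ σ : G → ℤ, σ 1 = 0 ∧
    (∀ g, σ (g * gg GG.tau) = σ g + if (∃ h : F, g = iG (phi h)) then 1 else 0) ∧
    (∀ g i, i ≠ GG.tau → σ (g * gg i) = σ g) := by
  obtain ⟨σ, h1, h2⟩ := fox (R := relL GG.p GG.q GG.s GG.x ∪ relK GG.tau GG.x)
    (fun (i : GG) (g : G) => if i = GG.tau then (if (∃ h : F, g = iG (phi h)) then (1 : ℤ) else 0) else 0) (by
      rintro w (hw | hw) g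
      · apply D4a_Dw_zero
        rcases hw with rfl | rfl | rfl | ⟨y, hy, rfl⟩ | ⟨y, hy, rfl⟩ | ⟨y, hy, rfl⟩ | ⟨y, hy, rfl⟩ <;>
          simp
      · obtain ⟨y, rfl⟩ := hw
        rw [Dw, Dw, Dw, D4a_Dw_zero]
        · have e : g * lv PG.of (GG.tau, true) * lv PG.of (GG.x y, true) * (PG.of GG.tau)⁻¹
              = g * iG (phi (FreeGroup.of y)) := by
            rw [← tau_conj, D4a_iG_of]
            simp only [lv_true, gg, mul_assoc]
          have e2 : (∃ h : F, g = iG (phi h)) ↔ (∃ h : F, g * iG (phi (FreeGroup.of y)) = iG (phi h)) := by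
            constructor
            · rintro ⟨h, rfl⟩
              exact ⟨h * FreeGroup.of y, by rw [map_mul, map_mul]⟩
            · rintro ⟨h, hh⟩
              refine ⟨h * (FreeGroup.of y)⁻¹, ?_⟩
              rw [map_mul, map_mul, ← hh, map_inv, map_inv]
              group
          simp only [if_true, e, Bool.false_eq_true, if_false, reduceCtorEq, if_true]
          by_cases h : ∃ h : F, g = iG (phi h)
          · rw [if_pos h, if_pos (e2.mp h)]; simp
          · rw [if_neg h, if_neg (fun h' => h (e2.mpr h'))]; simp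
        · intro z hz g
          obtain ⟨z', hz', he⟩ := D4a_invRev_mem hz
          rw [List.mem_map] at hz'
          obtain ⟨z'', _, rfl⟩ := hz'
          rw [← he]
          simp)
  refine ⟨σ, h1, ?_, ?_⟩
  · intro g
    rw [gg, h2]
    simp
  · intro g i hi
    rw [gg, h2]
    simp [hi]

end Dae
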