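import Pool.Agent.Lib.MP_dae6d7_al.D1
import Pool.Agent.Lib.MP_dae6d7_al.D3

/-! Row D4b. (Sections refer to the paper /team-store/dae6d7_paper.md.)

fox with B = ℂ, D p g = 1_L(g) Rc^(eta g), D q g = 1_L(g) Rc^(eta g) I, D = 0 on the other letters; 1_L(g) = 1 iff g in range LtoG.
Relators: membership in L is not changed by letters of L; eta unchanged by p, q, s, isC letters. [p,q]: cancels. [s,p] etc: cancels.
p^2 q x q p^{-2} x^{-1} (x = a,b): increments Rc^h (2 + I) before x and, after x, at height h+1: (I - 2) Rc^(h+1): Rc (2 - I) = 2 + I.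
p^{-1} q^2 x q^{-2} p^{-1} x^{-1}: Rc^h(-1 + 2 I) and Rc^(h+1)(-2 I - 1): Rc (1 + 2 I) = Rc I (2 - I) = I (2+I) = 2 I - 1. OK.
Relators with tau: no p, q.
-/

set_option linter.unusedSimpArgs false

namespace Dae

/-- a word whose letters all have zero increments has zero total increment -/
theorem D4b_Dw_zero {ι Γ B : Type} [Group Γ] [AddCommGroup B] (gen : ι → Γ) (D : ι → Γ → B) (w : Wd ι)
    (h : ∀ y ∈ w, ∀ g, D y.1 g = 0) : ∀ g, Dw gen D g w = 0 := by
  induction w with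
  | nil => intro g; rfl
  | cons y w ih =>
    intro g
    have h1 : ∀ g, D y.1 g = 0 := h y (List.mem_cons_self)
    have h2 := ih (fun z hz => h z (List.mem_cons_of_mem _ hz)) (g * lv gen y)
    simp only [Dw, h1, h2]
    simp

open Classical in
/-- the increment -/
noncomputable def D4b_c (g : G) : ℂ := if (∃ u : L, g = LtoG u) then Rc ^ (eta g) else 0

theorem D4b_mem (g : G) (l : L) : (∃ u : L, g * LtoG l = LtoG u) ↔ (∃ u : L, g = LtoG u) := by
  constructor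
  · rintro ⟨u, hu⟩
    exact ⟨u * l⁻¹, by rw [map_mul, map_inv, ← hu]; group⟩
  · rintro ⟨u, hu⟩
    exact ⟨u * l, by rw [map_mul, hu]⟩

theorem D4b_c_mul (g : G) (l : L) (h : eta (LtoG l) = 0) : D4b_c (g * LtoG l) = D4b_c g := by
  unfold D4b_c
  rw [eta_mul, h, add_zero]
  by_cases hg : ∃ u : L, g = LtoG u
  · rw [if_pos hg, if_pos ((D4b_mem g l).2 hg)]
  · rw [if_neg hg, if_neg (fun h' => hg ((D4b_mem g l).1 h'))]

theorem D4b_Rc_ne : Rc ≠ 0 := by
  unfold Rc
  refine div_ne_zero ?_ ?_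
  · intro h
    have := congrArg Complex.re h
    simp at this
  · intro h
    have := congrArg Complex.re h
    simp at this

theorem D4b_c_mul1 (g : G) (l : L) (h : eta (LtoG l) = 1) : D4b_c (g * LtoG l) = Rc * D4b_c g := by
  unfold D4b_c
  rw [eta_mul, h]
  by_cases hg : ∃ u : L, g = LtoG u
  · rw [if_pos hg, if_pos ((D4b_mem g l).2 hg), zpow_add₀ D4b_Rc_ne, zpow_one, mul_comm]
  · rw [if_neg hg, if_neg (fun h' => hg ((D4b_mem g l).1 h')), mul_zero]

theorem D4b_LtoG_p : LtoG (lg LG.p) = PG.of GG.p := by simp [LtoG, lg, gg]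
theorem D4b_LtoG_q : LtoG (lg LG.q) = PG.of GG.q := by simp [LtoG, lg, gg]
theorem D4b_LtoG_s : LtoG (lg LG.s) = PG.of GG.s := by simp [LtoG, lg, gg]
theorem D4b_LtoG_x (y : X6) : LtoG (lg (LG.x y)) = PG.of (GG.x y) := by simp [LtoG, lg, gg]

theorem D4b_c_p (g : G) : D4b_c (g * PG.of GG.p) = D4b_c g := by
  rw [← D4b_LtoG_p]; exact D4b_c_mul g _ (by simp [D4b_LtoG_p, eta, etah])
theorem D4b_c_q (g : G) : D4b_c (g * PG.of GG.q) = D4b_c g := by
  rw [← D4b_LtoG_q]; exact D4b_c_mul g _ (by simp [D4b_LtoG_q, eta, etah])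
theorem D4b_c_s (g : G) : D4b_c (g * PG.of GG.s) = D4b_c g := by
  rw [← D4b_LtoG_s]; exact D4b_c_mul g _ (by simp [D4b_LtoG_s, eta, etah])
theorem D4b_c_x (g : G) (y : X6) (hy : isC y = true) : D4b_c (g * PG.of (GG.x y)) = D4b_c g := by
  rw [← D4b_LtoG_x]; exact D4b_c_mul g _ (by simp [D4b_LtoG_x, eta, etah, hy])
theorem D4b_c_x1 (g : G) (y : X6) (hy : isC y = false) : D4b_c (g * PG.of (GG.x y)) = Rc * D4b_c g := by
  rw [← D4b_LtoG_x]; exact D4b_c_mul1 g _ (by simp [D4b_LtoG_x, eta, etah, hy])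
theorem D4b_c_pi (g : G) : D4b_c (g * (PG.of GG.p)⁻¹) = D4b_c g := by
  rw [← D4b_c_p (g * (PG.of GG.p)⁻¹), inv_mul_cancel_right]
theorem D4b_c_qi (g : G) : D4b_c (g * (PG.of GG.q)⁻¹) = D4b_c g := by
  rw [← D4b_c_q (g * (PG.of GG.q)⁻¹), inv_mul_cancel_right]
theorem D4b_c_si (g : G) : D4b_c (g * (PG.of GG.s)⁻¹) = D4b_c g := by
  rw [← D4b_c_s (g * (PG.of GG.s)⁻¹), inv_mul_cancel_right]
theorem D4b_c_xi (g : G) (y : X6) (hy : isC y = true) : D4b_c (g * (PG.of (GG.x y))⁻¹) = D4b_c g := by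
  rw [← D4b_c_x (g * (PG.of (GG.x y))⁻¹) y hy, inv_mul_cancel_right]

/-- the increments of all letters -/
noncomputable def D4b_D : GG → G → ℂ
  | .p => fun g => D4b_c g
  | .q => fun g => D4b_c g * Complex.I
  | _ => fun _ => 0

theorem D4b_D_other (i : GG) (hp : i ≠ GG.p) (hq : i ≠ GG.q) (g : G) : D4b_D i g = 0 := by
  cases i <;> first | exact absurd rfl hp | exact absurd rfl hq | rfl

theorem D4b_Rc1 : Rc * (2 - Complex.I) = 2 + Complex.I := by
  unfold Rc
  have : (2 - Complex.I) ≠ 0 := by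
    intro h
    have := congrArg Complex.re h
    simp at this
  field_simp

theorem D4b_Rc2 : Rc * (1 + 2 * Complex.I) = 2 * Complex.I - 1 := by
  have h : (1 + 2 * Complex.I) = Complex.I * (2 - Complex.I) := by
    linear_combination Complex.I_mul_I
  rw [h]
  linear_combination Complex.I * D4b_Rc1 + Complex.I_mul_I

theorem D4b_rel : ∀ w ∈ (relL GG.p GG.q GG.s GG.x ∪ relK GG.tau GG.x), ∀ g : G,
    Dw PG.of D4b_D g w = 0 := by
  rintro w (hw | hw) g
  · rcases hw with rfl | rfl | rfl | ⟨y, hy, rfl⟩ | ⟨y, hy, rfl⟩ | ⟨y, hy, rfl⟩ | ⟨y, hy, rfl⟩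
    · simp only [Dw, lv_true, lv_false, if_true, D4b_D, D4b_c_p, D4b_c_q, D4b_c_pi, D4b_c_qi,
        Bool.false_eq_true, if_false]
      ring
    · simp only [Dw, lv_true, lv_false, if_true, D4b_D, D4b_c_p, D4b_c_q, D4b_c_pi, D4b_c_qi,
        D4b_c_s, D4b_c_si, Bool.false_eq_true, if_false]
      ring
    · simp only [Dw, lv_true, lv_false, if_true, D4b_D, D4b_c_p, D4b_c_q, D4b_c_pi, D4b_c_qi,
        D4b_c_s, D4b_c_si, Bool.false_eq_true, if_false]
      ring
    · simp only [Dw, lv_true, lv_false, if_true, D4b_D, D4b_c_p, D4b_c_q, D4b_c_pi, D4b_c_qi,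
        D4b_c_x _ y hy, D4b_c_xi _ y hy, Bool.false_eq_true, if_false]
      ring
    · simp only [Dw, lv_true, lv_false, if_true, D4b_D, D4b_c_p, D4b_c_q, D4b_c_pi, D4b_c_qi,
        D4b_c_x _ y hy, D4b_c_xi _ y hy, Bool.false_eq_true, if_false]
      ring
    · simp only [Dw, lv_true, lv_false, if_true, D4b_D, D4b_c_p, D4b_c_q, D4b_c_pi, D4b_c_qi,
        D4b_c_x1 _ y hy, Bool.false_eq_true, if_false]
      linear_combination (-D4b_c g) * D4b_Rc1
    · simp only [Dw, lv_true, lv_false, if_true, D4b_D, D4b_c_p, D4b_c_q, D4b_c_pi, D4b_c_qi,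
        D4b_c_x1 _ y hy, Bool.false_eq_true, if_false]
      linear_combination (-D4b_c g) * D4b_Rc2
  · obtain ⟨y, rfl⟩ := hw
    apply D4b_Dw_zero
    intro z hz g
    simp only [List.mem_cons] at hz
    rcases hz with rfl | rfl | rfl | hz
    · rfl
    · rfl
    · rfl
    · rw [FreeGroup.invRev, List.mem_reverse, List.mem_map] at hz
      obtain ⟨v, hv, rfl⟩ := hz
      rw [List.mem_map] at hv
      obtain ⟨u, _, rfl⟩ := hv
      rfl

open Classical in
/-- (W3) -/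
theorem exists_P : ∃ P : G → ℂ, P 1 = 0 ∧
    (∀ g, P (g * gg GG.p) = P g + if (∃ u : L, g = LtoG u) then Rc ^ (eta g) else 0) ∧
    (∀ g, P (g * gg GG.q) = P g + if (∃ u : L, g = LtoG u) then Rc ^ (eta g) * Complex.I else 0) ∧
    (∀ g i, i ≠ GG.p → i ≠ GG.q → P (g * gg i) = P g) := by
  obtain ⟨σ, h1, h2⟩ := fox (R := relL GG.p GG.q GG.s GG.x ∪ relK GG.tau GG.x) D4b_D D4b_rel
  refine ⟨σ, h1, ?_, ?_, ?_⟩
  · intro g
    refine (h2 g GG.p).trans ?_
    rfl
  · intro g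
    refine (h2 g GG.q).trans ?_
    change σ g + D4b_c g * Complex.I = _
    unfold D4b_c
    rw [ite_mul, zero_mul]
  · intro g i hp hq
    refine (h2 g i).trans ?_
    rw [D4b_D_other i hp hq, add_zero]

end Dae
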