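import Pool.Agent.Lib.MP_dae6d7_al.EDefs
import Pool.Agent.Lib.MP_dae6d7_al.D2b

/-! Row D5a. (Sections refer to the paper /team-store/dae6d7_paper.md.)

lg p and lg q commute (relL_rel for L), so ee is a homomorphism from (ℤ[i],+). ee_cross_ab: for w = 1 and w = i the relators:
p^2 q x = x p^2 q^{-1}, p^{-1} q^2 x = x p q^2; so x^{-1} ee(pG w) x = ee (qG w) for w = 1, i, and both sides are additive in w. For isC letters
and s: lg (emb y) commutes with p and q. t: z = 0.
-/

namespace Dae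

theorem D5a_pq : Commute (lg LG.p) (lg LG.q) :=
  (relL_rel (R := relL LG.p LG.q LG.s LG.x) LG.p LG.q LG.s LG.x (le_refl _)).1

theorem ee_zero : ee 0 = 1 := by
  simp [ee]

theorem ee_mul (z w : GaussianInt) : ee z * ee w = ee (z + w) := by
  unfold ee
  have h1 : lg LG.q ^ z.im * lg LG.p ^ w.re = lg LG.p ^ w.re * lg LG.q ^ z.im :=
    ((D5a_pq.symm.zpow_left _).zpow_right _).eq
  rw [mul_assoc, ← mul_assoc (lg LG.q ^ z.im), h1, mul_assoc (lg LG.p ^ w.re), ← mul_assoc (lg LG.p ^ z.re),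
    ← zpow_add, ← zpow_add, Zsqrtd.re_add, Zsqrtd.im_add]

theorem ee_inv (z : GaussianInt) : (ee z)⁻¹ = ee (-z) := by
  rw [inv_eq_iff_mul_eq_one, ee_mul, add_neg_cancel, ee_zero]

theorem rF_ee (z : GaussianInt) : rF (ee z) = 1 := by
  unfold ee lg rF
  rw [map_mul, map_zpow, map_zpow, PG.lift_of, PG.lift_of]
  simp

/-- ee as a homomorphism -/
noncomputable def D5a_hom : Multiplicative GaussianInt →* L where
  toFun z := ee (Multiplicative.toAdd z)
  map_one' := ee_zero
  map_mul' _ _ := (ee_mul _ _).symm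

theorem D5a_zpow (z : GaussianInt) (n : ℤ) : ee z ^ n = ee (n • z) := by
  have := map_zpow D5a_hom (Multiplicative.ofAdd z) n
  simpa [D5a_hom] using this.symm

theorem D5a_split (u w : GaussianInt) : ee (u * w) = ee u ^ w.re * ee (u * ⟨0, 1⟩) ^ w.im := by
  rw [D5a_zpow, D5a_zpow, ee_mul]
  congr 1
  ext <;> simp [Zsqrtd.re_mul, Zsqrtd.im_mul] <;> ring

theorem D5a_conj (y : X6) (hy : isC y = false) (w : GaussianInt) :
    (lg (LG.x y))⁻¹ * ee (pG * w) * lg (LG.x y) = ee (qG * w) := by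
  obtain ⟨-, -, -, -, -, h6, h7⟩ := relL_rel (R := relL LG.p LG.q LG.s LG.x) LG.p LG.q LG.s LG.x (le_refl _)
  have h1 : (lg (LG.x y))⁻¹ * ee pG * lg (LG.x y) = ee qG := by
    have h := h6 y hy
    have e1 : ee pG = lg LG.p * lg LG.p * lg LG.q := by
      simp [ee, pG, pow_two]
    have e2 : ee qG = lg LG.p * lg LG.p * (lg LG.q)⁻¹ := by
      simp [ee, qG, pow_two]
    rw [e1, e2, mul_assoc, inv_mul_eq_iff_eq_mul]
    exact h
  have h2 : (lg (LG.x y))⁻¹ * ee (pG * ⟨0, 1⟩) * lg (LG.x y) = ee (qG * ⟨0, 1⟩) := by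
    have h := h7 y hy
    have e1 : ee (pG * ⟨0, 1⟩) = (lg LG.p)⁻¹ * lg LG.q * lg LG.q := by
      have : (pG * ⟨0, 1⟩ : GaussianInt) = ⟨-1, 2⟩ := by
        ext <;> simp [pG]
      rw [this]
      simp [ee, pow_two, mul_assoc]
    have e2 : ee (qG * ⟨0, 1⟩) = lg LG.p * lg LG.q * lg LG.q := by
      have : (qG * ⟨0, 1⟩ : GaussianInt) = ⟨1, 2⟩ := by
        ext <;> simp [qG]
      rw [this]
      simp [ee, pow_two, mul_assoc]
    rw [e1, e2, mul_assoc, inv_mul_eq_iff_eq_mul]
    exact h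
  rw [D5a_split pG w, D5a_split qG w, ← h1, ← h2]
  have hc : ∀ (X A : L) (n : ℤ), (X⁻¹ * A * X) ^ n = X⁻¹ * A ^ n * X := by
    intro X A n
    have := conj_zpow (i := n) (a := X⁻¹) (b := A)
    rwa [inv_inv] at this
  rw [hc, hc]
  group

/-- explicit form for a, b: (pi w) a = a (pibar w) -/
theorem ee_cross_ab (y : X6) (hy : isC y = false) (w : GaussianInt) :
    ee (pG * w) * lf (FG.x y) = lf (FG.x y) * ee (qG * w) := by
  rw [← D5a_conj y hy w]
  simp only [lf, emb]
  group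

theorem D5a_comm (u : L) (h1 : Commute u (lg LG.p)) (h2 : Commute u (lg LG.q)) (z : GaussianInt) :
    Commute (ee z) u := by
  unfold ee
  exact ((h1.zpow_right _).mul_right (h2.zpow_right _)).symm

theorem D5a_cross_comm (y : FG) (b : Bool) (h1 : Commute (lf y) (lg LG.p)) (h2 : Commute (lf y) (lg LG.q))
    (z : GaussianInt) : ee z * lv lf (y, b) = lv lf (y, b) * ee z := by
  have h := D5a_comm (lf y) h1 h2 z
  cases b
  · exact h.inv_right.eq
  · exact h.eq

/-- crossing a letter: ee z y = y ee z' -/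
theorem ee_cross (y : FG × Bool) (z : GaussianInt) (h : EY y z) :
    ∃ z' : GaussianInt, EY (y.1, !y.2) z' ∧ ee z * lv lf y = lv lf y * ee z' := by
  obtain ⟨-, h2, h3, h4, h5, -, -⟩ := relL_rel (R := relL LG.p LG.q LG.s LG.x) LG.p LG.q LG.s LG.x (le_refl _)
  rcases y with ⟨y, b⟩
  cases y with
  | s => exact ⟨z, trivial, D5a_cross_comm FG.s b h2 h3 z⟩
  | t =>
    have hz : z = 0 := h
    subst hz
    refine ⟨0, ?_, ?_⟩
    · show (0 : GaussianInt) = 0
      rfl
    · rw [ee_zero, one_mul, mul_one]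
  | x w =>
    by_cases hw : isC w = true
    · refine ⟨z, ?_, D5a_cross_comm (FG.x w) b (h4 w hw) (h5 w hw) z⟩
      simp [EY, hw]
    · have hw' : isC w = false := by simpa using hw
      cases b
      · have hz : qG ∣ z := by simpa [EY, hw'] using h
        obtain ⟨v, rfl⟩ := hz
        refine ⟨pG * v, ?_, ?_⟩
        · simp [EY, hw']
        · have := ee_cross_ab w hw' v
          rw [lv_false]
          rw [eq_inv_mul_iff_mul_eq, ← mul_assoc, ← this, mul_assoc, mul_inv_cancel, mul_one]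
      · have hz : pG ∣ z := by simpa [EY, hw'] using h
        obtain ⟨v, rfl⟩ := hz
        refine ⟨qG * v, ?_, ?_⟩
        · simp [EY, hw']
        · rw [lv_true]
          exact ee_cross_ab w hw' v

end Dae
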