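import Pool.Agent.Lib.MP_dae6d7_al.D1
import Pool.Agent.Lib.MP_dae6d7_al.D5a

/-! Row D5b. (Sections refer to the paper /team-store/dae6d7_paper.md.)

fox for L, B = ℤ, D (emb y) g = 1 if g = ee z with EY (y,true) z, 0 on other letters. Relators (y = the letter with nonzero D):
[y,p] (y = s or isC): 1[g in E] - 1[g p in E] = 0 (value of y p y^{-1} = p); p^2 q x q p^{-2} x^{-1} for x = a or b:
1[g p^2 q in pi E] - 1[g in pi E] = 0 (the last letter x^{-1} is read at the point g x, the increment is - D at g x x^{-1} = g, because the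
whole relator has value 1); the second one similarly with p^{-1} q^2 = ee (pG * i). Relators not containing emb y: 0. t occurs in no relator.
-/

namespace Dae

theorem D5b_ind (y : FG) (w : GaussianInt) (hw : ∀ z, EY (y, true) (z + w) ↔ EY (y, true) z) (g : L) :
    (∃ z : GaussianInt, EY (y, true) z ∧ g * ee w = ee z) ↔
      (∃ z : GaussianInt, EY (y, true) z ∧ g = ee z) := by
  constructor
  · rintro ⟨z, hz, h⟩
    refine ⟨z - w, ?_, ?_⟩
    · rw [← hw, sub_add_cancel]; exact hz
    · rw [sub_eq_add_neg, ← ee_mul, ← ee_inv, ← h]; group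
  · rintro ⟨z, hz, h⟩
    exact ⟨z + w, (hw z).mpr hz, by rw [h, ee_mul]⟩

theorem D5b_p : ee ⟨1, 0⟩ = lg LG.p := by simp [ee]
theorem D5b_q : ee ⟨0, 1⟩ = lg LG.q := by simp [ee]
theorem D5b_1 : ee pG = lg LG.p * (lg LG.p * lg LG.q) := by
  simp [ee, pG, zpow_ofNat, pow_two, mul_assoc]
theorem D5b_2 : ee (pG * ⟨0, 1⟩) = (lg LG.p)⁻¹ * (lg LG.q * lg LG.q) := by
  have : pG * ⟨0, 1⟩ = (⟨-1, 2⟩ : GaussianInt) := by
    rw [Zsqrtd.ext_iff]; simp [pG]
  rw [this]
  simp [ee, zpow_ofNat, pow_two]

open Classical in
theorem D5b_Dw (y : FG) : ∀ w ∈ relL LG.p LG.q LG.s LG.x, ∀ g : L,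
    Dw (PG.of : LG → L) (fun (i : LG) (g : L) => if i = emb y then
      (if (∃ z : GaussianInt, EY (y, true) z ∧ g = ee z) then (1 : ℤ) else 0) else 0) g w = 0 := by
  intro w hw g
  have hval : val (PG.of : LG → L) w = 1 := PG.val_rel hw
  have hpe : LG.p ≠ emb y := by cases y <;> simp [emb]
  have hqe : LG.q ≠ emb y := by cases y <;> simp [emb]
  rcases hw with (rfl | rfl | rfl | ⟨y', hy', rfl⟩ | ⟨y', hy', rfl⟩ | ⟨y', hy', rfl⟩ | ⟨y', hy', rfl⟩)
  · simp [Dw, hpe, hqe]
  · simp only [Dw, lv_true, lv_false, if_neg hpe, if_neg hqe, Bool.false_eq_true, if_true, if_false]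
    by_cases h : LG.s = emb y
    · simp only [if_pos h]
      have hy : y = FG.s := by
        cases y with
        | s => rfl
        | t => exact absurd h (by simp [emb])
        | x w => exact absurd h (by simp [emb])
      subst hy
      have e : g * PG.of LG.s * PG.of LG.p * (PG.of LG.s)⁻¹ = g * ee ⟨1, 0⟩ := by
        rw [D5b_p]
        simp only [val_cons, lv_true, lv_false, val_nil, mul_one] at hval
        have : PG.of LG.s * PG.of LG.p * (PG.of LG.s)⁻¹ = (lg LG.p : L) := by
          rw [← mul_inv_eq_one, ← hval]; unfold lg; group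
        rw [← this]; group
      rw [e]
      have := D5b_ind FG.s ⟨1, 0⟩ (by intro z; simp [EY]) g
      simp only [this]
      ring
    · simp [if_neg h]
  · simp only [Dw, lv_true, lv_false, if_neg hpe, if_neg hqe, Bool.false_eq_true, if_true, if_false]
    by_cases h : LG.s = emb y
    · simp only [if_pos h]
      have hy : y = FG.s := by
        cases y with
        | s => rfl
        | t => exact absurd h (by simp [emb])
        | x w => exact absurd h (by simp [emb])
      subst hy
      have e : g * PG.of LG.s * PG.of LG.q * (PG.of LG.s)⁻¹ = g * ee ⟨0, 1⟩ := by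
        rw [D5b_q]
        simp only [val_cons, lv_true, lv_false, val_nil, mul_one] at hval
        have : PG.of LG.s * PG.of LG.q * (PG.of LG.s)⁻¹ = (lg LG.q : L) := by
          rw [← mul_inv_eq_one, ← hval]; unfold lg; group
        rw [← this]; group
      rw [e]
      have := D5b_ind FG.s ⟨0, 1⟩ (by intro z; simp [EY]) g
      simp only [this]
      ring
    · simp [if_neg h]
  · simp only [Dw, lv_true, lv_false, if_neg hpe, if_neg hqe, Bool.false_eq_true, if_true, if_false]
    by_cases h : LG.x y' = emb y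
    · simp only [if_pos h]
      have hy : y = FG.x y' := by cases y <;> simp_all [emb]
      subst hy
      have e : g * PG.of (LG.x y') * PG.of LG.p * (PG.of (LG.x y'))⁻¹ = g * ee ⟨1, 0⟩ := by
        rw [D5b_p]
        simp only [val_cons, lv_true, lv_false, val_nil, mul_one] at hval
        have : PG.of (LG.x y') * PG.of LG.p * (PG.of (LG.x y'))⁻¹ = (lg LG.p : L) := by
          rw [← mul_inv_eq_one, ← hval]; unfold lg; group
        rw [← this]; group
      rw [e]
      have := D5b_ind (FG.x y') ⟨1, 0⟩ (by intro z; simp [EY, hy']) g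
      simp only [this]
      ring
    · simp [if_neg h]
  · simp only [Dw, lv_true, lv_false, if_neg hpe, if_neg hqe, Bool.false_eq_true, if_true, if_false]
    by_cases h : LG.x y' = emb y
    · simp only [if_pos h]
      have hy : y = FG.x y' := by cases y <;> simp_all [emb]
      subst hy
      have e : g * PG.of (LG.x y') * PG.of LG.q * (PG.of (LG.x y'))⁻¹ = g * ee ⟨0, 1⟩ := by
        rw [D5b_q]
        simp only [val_cons, lv_true, lv_false, val_nil, mul_one] at hval
        have : PG.of (LG.x y') * PG.of LG.q * (PG.of (LG.x y'))⁻¹ = (lg LG.q : L) := by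
          rw [← mul_inv_eq_one, ← hval]; unfold lg; group
        rw [← this]; group
      rw [e]
      have := D5b_ind (FG.x y') ⟨0, 1⟩ (by intro z; simp [EY, hy']) g
      simp only [this]
      ring
    · simp [if_neg h]
  · simp only [Dw, lv_true, lv_false, if_neg hpe, if_neg hqe, Bool.false_eq_true, if_true, if_false]
    by_cases h : LG.x y' = emb y
    · simp only [if_pos h]
      have hy : y = FG.x y' := by cases y <;> simp_all [emb]
      subst hy
      have e1 : g * PG.of LG.p * PG.of LG.p * PG.of LG.q = g * ee pG := by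
        rw [D5b_1]; unfold lg; group
      have e2 : g * PG.of LG.p * PG.of LG.p * PG.of LG.q * PG.of (LG.x y') * PG.of LG.q * (PG.of LG.p)⁻¹ *
          (PG.of LG.p)⁻¹ * (PG.of (LG.x y'))⁻¹ = g := by
        simp only [val_cons, lv_true, lv_false, val_nil, mul_one] at hval
        simp only [mul_assoc] at hval ⊢
        rw [hval, mul_one]
      rw [e2, e1]
      have := D5b_ind (FG.x y') pG (by intro z; simp [EY, hy']) g
      simp only [this]
      ring
    · simp [if_neg h]
  · simp only [Dw, lv_true, lv_false, if_neg hpe, if_neg hqe, Bool.false_eq_true, if_true, if_false]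
    by_cases h : LG.x y' = emb y
    · simp only [if_pos h]
      have hy : y = FG.x y' := by cases y <;> simp_all [emb]
      subst hy
      have e1 : g * (PG.of LG.p)⁻¹ * PG.of LG.q * PG.of LG.q = g * ee (pG * ⟨0, 1⟩) := by
        rw [D5b_2]; unfold lg; group
      have e2 : g * (PG.of LG.p)⁻¹ * PG.of LG.q * PG.of LG.q * PG.of (LG.x y') * (PG.of LG.q)⁻¹ *
          (PG.of LG.q)⁻¹ * (PG.of LG.p)⁻¹ * (PG.of (LG.x y'))⁻¹ = g := by
        simp only [val_cons, lv_true, lv_false, val_nil, mul_one] at hval
        simp only [mul_assoc] at hval ⊢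
        rw [hval, mul_one]
      rw [e2, e1]
      have := D5b_ind (FG.x y') (pG * ⟨0, 1⟩) (by
        intro z
        simp only [EY, hy', Bool.false_eq_true, if_false, if_true]
        exact dvd_add_left (Dvd.intro _ rfl)) g
      simp only [this]
      ring
    · simp [if_neg h]

open Classical in
/-- (W2) -/
theorem wall_L (y : FG) : ∃ σ : L → ℤ, σ 1 = 0 ∧
    (∀ g, σ (g * lg (emb y)) = σ g + if (∃ z : GaussianInt, EY (y, true) z ∧ g = ee z) then 1 else 0) ∧
    (∀ g i, i ≠ emb y → σ (g * lg i) = σ g) := by
  obtain ⟨σ, h1, h2⟩ := fox (R := relL LG.p LG.q LG.s LG.x) (fun (i : LG) (g : L) => if i = emb y then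
      (if (∃ z : GaussianInt, EY (y, true) z ∧ g = ee z) then (1 : ℤ) else 0) else 0) (D5b_Dw y)
  refine ⟨σ, h1, ?_, ?_⟩
  · intro g
    have := h2 g (emb y)
    simpa [lg] using this
  · intro g i hi
    have := h2 g i
    simpa [lg, hi] using this

end Dae
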