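import Pool.Agent.Lib.MP_dae6d7_al.Ifx
import Pool.Agent.Lib.MP_dae6d7_al.D5b

/-! Row D6a. (Sections refer to the paper /team-store/dae6d7_paper.md.)

Lemma 4, one letter. y = (y0,true): sigma = wall_L y0. sigma (ee z0) = 0 (p, q letters do not change sigma); sigma (val lf (y::f) * ee z1)
= 1: sigma (lf y0) = sigma 1 + 1 = 1 (1 = ee 0, EY ok), and along the letters of f the increments are 0: an increment at a point
lf y0 * val lf (f.take n) (or before an inverse letter) in E requires rF of it = 1 in F', i.e. the reduced word y :: f.take n (resp. with the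
next letter) is trivial: impossible, except cancelling pairs excluded by reducedness; ee z1: no change. The value at ee z0 * val lg w is
the same; so along w there is a step where sigma goes up by one: w = w1 ++ (emb y0, true) :: w2 with ee z0 * val lg w1 = ee z, EY (y0,true) z
(a step (emb y0,false) changes by -1 or 0, other letters by 0; if sigma never increased it would be <= 0 at the end).
Then ee_cross gives z'. y = (y0,false): use V(g) = 1 - sigma (lf y0 * g): V(ee z0) = 1 - sigma (lf y0 ee z0) = 0, V(lf y0^{-1} ..) = 1 - sigma(val f ee z1)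
= 1, since sigma along f is 0 (f does not start with y0); an increase of V happens at a letter (emb y0,false) from a point g with
lf y0 * g * lf y0^{-1} = ee z2, EY (y0,true) z2, so g = lf y0^{-1} ee z2 lf y0 = ee z with EY (y0,false) z (ee_cross).
-/

namespace Dae

theorem D6a_emb_inj {a b : FG} (h : emb a = emb b) : a = b := by
  cases a <;> cases b <;> simp_all [emb]

theorem D6a_emb_p (a : FG) : LG.p ≠ emb a := by cases a <;> simp [emb]
theorem D6a_emb_q (a : FG) : LG.q ≠ emb a := by cases a <;> simp [emb]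

/-- elements which do not change sigma -/
def D6a_sub (σ : L → ℤ) : Subgroup L where
  carrier := {u | ∀ g, σ (g * u) = σ g}
  one_mem' := by intro g; rw [mul_one]
  mul_mem' := by
    intro u v hu hv g
    rw [← mul_assoc, hv, hu]
  inv_mem' := by
    intro u hu g
    have h := hu (g * u⁻¹)
    rw [inv_mul_cancel_right] at h
    exact h.symm

theorem D6a_ee (σ : L → ℤ) (hp : ∀ g, σ (g * lg LG.p) = σ g) (hq : ∀ g, σ (g * lg LG.q) = σ g)
    (z : GaussianInt) (g : L) : σ (g * ee z) = σ g := by
  have h1 : lg LG.p ∈ D6a_sub σ := hp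
  have h2 : lg LG.q ∈ D6a_sub σ := hq
  have h3 : ee z ∈ D6a_sub σ := by
    unfold ee
    exact (D6a_sub σ).mul_mem ((D6a_sub σ).zpow_mem h1 _) ((D6a_sub σ).zpow_mem h2 _)
  exact h3 g

theorem D6a_rF_lf (y : FG × Bool) : rF (lv lf y) = FreeGroup.mk [y] := by
  have h : ∀ a : FG, rF (lf a) = FreeGroup.of a := by
    intro a
    cases a <;> exact PG.lift_of _ _ _
  rcases y with ⟨a, b⟩
  cases b
  · rw [lv_false, map_inv, h]
    simp [FreeGroup.of, FreeGroup.inv_mk, FreeGroup.invRev]
  · rw [lv_true, h]; rfl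

theorem D6a_rF_val (w : Wd FG) : rF (val lf w) = FreeGroup.mk w := by
  induction w with
  | nil => rw [val_nil, map_one]; rfl
  | cons y w ih =>
    rw [val_cons, map_mul, ih, D6a_rF_lf, FreeGroup.mul_mk]
    rfl

theorem D6a_mk_one {w : Wd FG} (h : FreeGroup.IsReduced w) (h1 : (FreeGroup.mk w : FreeGroup FG) = 1) :
    w = [] := by
  classical
  have h2 : (FreeGroup.mk w : FreeGroup FG).toWord = w := by
    rw [FreeGroup.toWord_mk]; exact h.reduce_eq
  rw [h1, FreeGroup.toWord_one] at h2
  exact h2.symm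

/-- a nontrivial reduced word has its value outside E -/
theorem D6a_notE {w : Wd FG} (h : FreeGroup.IsReduced w) (hw : w ≠ []) (z : GaussianInt) :
    val lf w ≠ ee z := by
  intro h1
  apply hw
  apply D6a_mk_one h
  rw [← D6a_rF_val, h1, rF_ee]

theorem D6a_lv (y : FG × Bool) : lv lg (embs y) = lv lf y := rfl

/-- the walls along a letter -/
theorem D6a_letter (y0 : FG) (σ : L → ℤ)
    (h1 : ∀ g, σ (g * lg (emb y0)) = σ g ∨ (σ (g * lg (emb y0)) = σ g + 1 ∧
      ∃ z : GaussianInt, EY (y0, true) z ∧ g = ee z))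
    (h2 : ∀ g i, i ≠ emb y0 → σ (g * lg i) = σ g) (g : L) (c : LG × Bool)
    (hc : σ g < σ (g * lv lg c)) :
    c = (emb y0, true) ∧ ∃ z : GaussianInt, EY (y0, true) z ∧ g = ee z := by
  rcases c with ⟨i, b⟩
  by_cases hi : i = emb y0
  · subst hi
    cases b
    · exfalso
      rw [lv_false] at hc
      have h := h1 (g * (lg (emb y0))⁻¹)
      rw [inv_mul_cancel_right] at h
      omega
    · rw [lv_true] at hc
      rcases h1 g with h | ⟨_, h⟩
      · omega
      · exact ⟨rfl, h⟩
  · exfalso
    cases b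
    · rw [lv_false] at hc
      have h := h2 (g * (lg i)⁻¹) i hi
      rw [inv_mul_cancel_right] at h
      omega
    · rw [lv_true] at hc
      have h := h2 g i hi
      omega

theorem D6a_letter' (y0 : FG) (σ : L → ℤ)
    (h1 : ∀ g, σ (g * lg (emb y0)) = σ g ∨ (σ (g * lg (emb y0)) = σ g + 1 ∧
      ∃ z : GaussianInt, EY (y0, true) z ∧ g = ee z))
    (h2 : ∀ g i, i ≠ emb y0 → σ (g * lg i) = σ g) (g : L) (c : LG × Bool)
    (hc : σ (g * lv lg c) < σ g) :
    c = (emb y0, false) ∧ ∃ z : GaussianInt, EY (y0, true) z ∧ g * (lg (emb y0))⁻¹ = ee z := by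
  rcases c with ⟨i, b⟩
  by_cases hi : i = emb y0
  · subst hi
    cases b
    · rw [lv_false] at hc
      have h := h1 (g * (lg (emb y0))⁻¹)
      rw [inv_mul_cancel_right] at h
      rcases h with h | ⟨_, h⟩
      · omega
      · exact ⟨rfl, h⟩
    · exfalso
      rw [lv_true] at hc
      rcases h1 g with h | ⟨h, _⟩ <;> omega
  · exfalso
    cases b
    · rw [lv_false] at hc
      have h := h2 (g * (lg i)⁻¹) i hi
      rw [inv_mul_cancel_right] at h
      omega
    · rw [lv_true] at hc
      have h := h2 g i hi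
      omega

/-- discrete intermediate value -/
theorem D6a_ivt (V : L → ℤ) (w : Wd LG) : ∀ g : L, V g < V (g * val lg w) →
    ∃ w1 : Wd LG, ∃ c : LG × Bool, ∃ w2 : Wd LG, w = w1 ++ c :: w2 ∧
      V (g * val lg w1) < V (g * val lg w1 * lv lg c) := by
  induction w with
  | nil => intro g h; simp at h
  | cons c w ih =>
    intro g h
    by_cases h1 : V g < V (g * lv lg c)
    · exact ⟨[], c, w, rfl, by simpa using h1⟩
    · obtain ⟨w1, c', w2, e, h2⟩ := ih (g * lv lg c) (by
        rw [val_cons, ← mul_assoc] at h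
        omega)
      refine ⟨c :: w1, c', w2, by rw [e]; rfl, ?_⟩
      rw [val_cons, ← mul_assoc g (lv lg c)]
      exact h2

/-- sigma is constant along the rest of a reduced word -/
theorem D6a_const (y0 : FG) (σ : L → ℤ)
    (h1 : ∀ g, σ (g * lg (emb y0)) = σ g ∨ (σ (g * lg (emb y0)) = σ g + 1 ∧
      ∃ z : GaussianInt, EY (y0, true) z ∧ g = ee z))
    (h2 : ∀ g i, i ≠ emb y0 → σ (g * lg i) = σ g) (P : Wd FG) (hP : P ≠ []) :
    ∀ f : Wd FG, FreeGroup.IsReduced (P ++ f) → σ (val lf (P ++ f)) = σ (val lf P) := by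
  intro f
  induction f using List.reverseRecOn with
  | nil => intro _; rw [List.append_nil]
  | append_singleton f c ih =>
    intro hr
    have hr1 : FreeGroup.IsReduced (P ++ f) := red_ifx hr ⟨[], [c], by simp⟩
    rw [← ih hr1, ← List.append_assoc, val_append, val_cons, val_nil, mul_one]
    have e : lv lf c = lv lg (embs c) := rfl
    rw [e]
    rcases lt_trichotomy (σ (val lf (P ++ f) * lv lg (embs c))) (σ (val lf (P ++ f))) with h | h | h
    · exfalso
      obtain ⟨hc, z, _, hz⟩ := D6a_letter' y0 σ h1 h2 _ _ h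
      apply D6a_notE (w := P ++ (f ++ [c])) hr (by simp) z
      rw [← hz, ← List.append_assoc, val_append, val_cons, val_nil, mul_one, e, hc, lv_false]
    · exact h
    · exfalso
      obtain ⟨_, z, _, hz⟩ := D6a_letter y0 σ h1 h2 _ _ h
      exact D6a_notE hr1 (by simp [hP]) z hz

theorem crossing_one (w : Wd LG) (z0 z1 : GaussianInt) (y : FG × Bool) (f : Wd FG)
    (hf : FreeGroup.IsReduced (y :: f)) (h : ee z0 * val lg w = val lf (y :: f) * ee z1) :
    ∃ w1 w2 : Wd LG, ∃ z z' : GaussianInt, w = w1 ++ embs y :: w2 ∧ EY y z ∧ ee z0 * val lg w1 = ee z ∧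
      ee z * lv lf y = lv lf y * ee z' ∧ ee z' * val lg w2 = val lf f * ee z1 := by
  obtain ⟨y0, b⟩ := y
  obtain ⟨σ, h0, h1', h2⟩ := wall_L y0
  have h1 : ∀ g, σ (g * lg (emb y0)) = σ g ∨ (σ (g * lg (emb y0)) = σ g + 1 ∧
      ∃ z : GaussianInt, EY (y0, true) z ∧ g = ee z) := by
    intro g
    rw [h1' g]
    by_cases hg : ∃ z : GaussianInt, EY (y0, true) z ∧ g = ee z
    · right; rw [if_pos hg]; exact ⟨rfl, hg⟩
    · left; rw [if_neg hg, add_zero]
  have hE : ∀ z g, σ (g * ee z) = σ g := fun z g =>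
    D6a_ee σ (fun g => h2 g _ (D6a_emb_p y0)) (fun g => h2 g _ (D6a_emb_q y0)) z g
  have hlf : σ (lf y0) = 1 := by
    have hin : ∃ z : GaussianInt, EY (y0, true) z ∧ (1 : L) = ee z := by
      refine ⟨0, ?_, ee_zero.symm⟩
      unfold EY
      cases y0 with
      | s => trivial
      | t => rfl
      | x v =>
        show if isC v then True else if true then pG ∣ 0 else qG ∣ 0
        split
        · trivial
        · simp
    have h3 := h1' 1
    rw [one_mul, h0, if_pos hin, zero_add] at h3
    exact h3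
  have fin : ∀ (w1 w2 : Wd LG) (z : GaussianInt), w = w1 ++ embs (y0, b) :: w2 → EY (y0, b) z →
      ee z0 * val lg w1 = ee z →
      ∃ w1 w2 : Wd LG, ∃ z z' : GaussianInt, w = w1 ++ embs (y0, b) :: w2 ∧ EY (y0, b) z ∧
      ee z0 * val lg w1 = ee z ∧
      ee z * lv lf (y0, b) = lv lf (y0, b) * ee z' ∧ ee z' * val lg w2 = val lf f * ee z1 := by
    intro w1 w2 z hw hz hv
    obtain ⟨z', _, hz'⟩ := ee_cross (y0, b) z hz
    refine ⟨w1, w2, z, z', hw, hz, hv, hz', ?_⟩
    apply mul_left_cancel (a := lv lf (y0, b))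
    rw [← mul_assoc, ← hz', ← hv, ← mul_assoc, ← val_cons lf (y0, b) f, ← h, hw, val_append, val_cons,
      D6a_lv]
    simp only [mul_assoc]
  cases b
  · -- negative letter
    have hV0 : σ (lf y0 * ee z0) = 1 := by rw [hE, hlf]
    have hV1 : σ (lf y0 * (ee z0 * val lg w)) = 0 := by
      rw [h, val_cons, lv_false, ← mul_assoc, ← mul_assoc, mul_inv_cancel, one_mul, hE]
      cases f with
      | nil => rw [val_nil, h0]
      | cons c f =>
        have hr : FreeGroup.IsReduced (c :: f) := red_ifx hf ⟨[(y0, false)], [], by simp⟩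
        have h3 := D6a_const y0 σ h1 h2 [c] (by simp) f hr
        rw [List.singleton_append] at h3
        rw [h3, val_cons, val_nil, mul_one]
        have e : lv lf c = lv lg (embs c) := rfl
        rw [e]
        rcases lt_trichotomy (σ (1 * lv lg (embs c))) (σ 1) with h4 | h4 | h4
        · exfalso
          obtain ⟨hc, z, _, hz⟩ := D6a_letter' y0 σ h1 h2 _ _ h4
          apply D6a_notE (w := [c]) (red_ifx hr ⟨[], f, by simp⟩) (by simp) z
          rw [← hz, val_cons, val_nil, mul_one, e, hc, lv_false, one_mul]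
        · rw [one_mul] at h4; rw [h4, h0]
        · exfalso
          obtain ⟨hc, _⟩ := D6a_letter y0 σ h1 h2 _ _ h4
          rw [FreeGroup.isReduced_cons_cons] at hf
          have hc1 : c.1 = y0 := D6a_emb_inj (by have := congrArg Prod.fst hc; exact this)
          have hc2 : c.2 = true := by have := congrArg Prod.snd hc; exact this
          have h5 := hf.1 hc1.symm
          rw [hc2] at h5
          exact Bool.noConfusion h5
    obtain ⟨w1, c, w2, e, h3⟩ := D6a_ivt (fun g => 1 - σ (lf y0 * g)) w (ee z0) (by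
      show 1 - σ (lf y0 * ee z0) < 1 - σ (lf y0 * (ee z0 * val lg w))
      rw [hV0, hV1]; norm_num)
    have h4 : σ (lf y0 * (ee z0 * val lg w1) * lv lg c) < σ (lf y0 * (ee z0 * val lg w1)) := by
      have h5 : 1 - σ (lf y0 * (ee z0 * val lg w1)) < 1 - σ (lf y0 * (ee z0 * val lg w1 * lv lg c)) := h3
      rw [← mul_assoc (lf y0) _ (lv lg c)] at h5
      omega
    obtain ⟨hc, z2, hz2, hz⟩ := D6a_letter' y0 σ h1 h2 _ _ h4
    obtain ⟨z, hz3, hz4⟩ := ee_cross (y0, true) z2 hz2
    refine fin w1 w2 z (by rw [e, hc]; rfl) hz3 ?_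
    have h6 : lf y0 * (ee z0 * val lg w1) = lf y0 * ee z := by
      rw [← show lv lf (y0, true) = lf y0 from lv_true lf y0, ← hz4]
      rw [show lv lf (y0, true) = lf y0 from lv_true lf y0, ← hz]
      exact (inv_mul_cancel_right _ _).symm
    exact mul_left_cancel h6
  · -- positive letter
    have hV0 : σ (ee z0) = 0 := by
      have h3 := hE z0 1
      rw [one_mul, h0] at h3
      exact h3
    have hV1 : σ (ee z0 * val lg w) = 1 := by
      rw [h, hE]
      have h3 := D6a_const y0 σ h1 h2 [(y0, true)] (by simp) f hf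
      rw [List.singleton_append] at h3
      rw [h3, val_cons, val_nil, mul_one, lv_true, hlf]
    obtain ⟨w1, c, w2, e, h3⟩ := D6a_ivt σ w (ee z0) (by rw [hV0, hV1]; norm_num)
    obtain ⟨hc, z, hz, hz2⟩ := D6a_letter y0 σ h1 h2 _ _ h3
    exact fin w1 w2 z (by rw [e, hc]; rfl) hz hz2

end Dae
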