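import Pool.Agent.Lib.MP_dae6d7_al.Ifx
import Pool.Agent.Lib.MP_dae6d7_al.D6a

/-! Row D6b. (Sections refer to the paper /team-store/dae6d7_paper.md.)

Induction on f with crossing_one: w = w1 ++ embs y :: w2, T 0 = w1.length, Z 0 = z, and T (u+1) = w1.length + 1 + T' u, Z (u+1) = Z' u for
the induction hypothesis applied to w2, z', f.
-/

namespace Dae

theorem crossing_all (w : Wd LG) (z0 z1 : GaussianInt) (f : Wd FG) (hf : FreeGroup.IsReduced f)
    (h : ee z0 * val lg w = val lf f * ee z1) :
    ∃ T : ℕ → ℕ, ∃ Z : ℕ → GaussianInt,
      (∀ u, (hu : u < f.length) → T u < w.length ∧ w[T u]? = some (embs f[u]) ∧ EY f[u] (Z u) ∧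
        ee z0 * val lg (w.take (T u)) = val lf (f.take u) * ee (Z u)) ∧
      (∀ u, u + 1 < f.length → T u < T (u + 1)) := by
  induction f generalizing w z0 with
  | nil =>
    exact ⟨fun _ => 0, fun _ => 0, fun u hu => absurd hu (Nat.not_lt_zero u),
      fun u hu => absurd hu (Nat.not_lt_zero _)⟩
  | cons y f ih =>
    obtain ⟨w1, w2, z, z', hw, hE, h1, h2, h3⟩ := crossing_one w z0 z1 y f hf h
    have hf' : FreeGroup.IsReduced f := red_ifx hf ⟨[y], [], by simp⟩
    obtain ⟨T', Z', hT, hT2⟩ := ih w2 z' hf' h3
    have hval : lv lg (embs y) = lv lf y := by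
      rcases y with ⟨i, b⟩
      cases b <;> simp [embs, lf]
    refine ⟨fun u => match u with
      | 0 => w1.length
      | u + 1 => w1.length + 1 + T' u,
      fun u => match u with
      | 0 => z
      | u + 1 => Z' u, ?_, ?_⟩
    · intro u hu
      match u, hu with
      | 0, hu =>
        subst hw
        refine ⟨by simp, by simp, by simpa using hE, ?_⟩
        simp [h1]
      | u + 1, hu =>
        have hu' : u < f.length := by simpa using hu
        obtain ⟨a1, a2, a3, a4⟩ := hT u hu'
        subst hw
        refine ⟨by simp; omega, ?_, by simpa using a3, ?_⟩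
        · have e1 : (w1 ++ embs y :: w2)[w1.length + 1 + T' u]? = w2[T' u]? := by
            rw [List.getElem?_append_right (by omega)]
            have : w1.length + 1 + T' u - w1.length = T' u + 1 := by omega
            rw [this, List.getElem?_cons_succ]
          simpa [e1] using a2
        · have e2 : (w1 ++ embs y :: w2).take (w1.length + 1 + T' u) = w1 ++ embs y :: w2.take (T' u) := by
            rw [List.take_append]
            have h5 : w1.length + 1 + T' u - w1.length = T' u + 1 := by omega
            rw [h5, List.take_succ_cons, List.take_of_length_le (by omega)]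
          show ee z0 * val lg ((w1 ++ embs y :: w2).take (w1.length + 1 + T' u)) = val lf ((y :: f).take (u + 1)) * ee (Z' u)
          rw [e2, val_append, val_cons, ← mul_assoc, h1, ← mul_assoc, hval, h2, mul_assoc, a4,
            List.take_succ_cons, val_cons, mul_assoc]
    · intro u hu
      match u, hu with
      | 0, hu => simp only; omega
      | u + 1, hu =>
        have hu' : u + 1 < f.length := by simpa using hu
        have := hT2 u hu'
        simp only
        omega

end Dae
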