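import Pool.Agent.Lib.MP_dae6d7_al.EDefs
import Pool.Agent.Lib.MP_dae6d7_al.A1a

/-! Row D7. (Sections refer to the paper /team-store/dae6d7_paper.md.)

Lam al be = pi^be pib^(-al) Z[i] in ℂ (GaussianInt.toComplex is a ring hom; GaussianInt.toComplex pG = 2 + I). Lam_norm: a nonzero
Gaussian integer has norm >= 1. Lam_mono: multiply w by pG^(be-be') qG^(al'-al). Lam_inter: z = pi^(h+j-1) pib^(-h) w1 = pi^(h+j) pib^(-h-1) w2, so
pib w1 = pi w2 in Z[i]; 1 = pi (pib - 1) - pib, so w1 = pi(pib - 1)w1 - pib w1 = pi ((pib-1) w1 - w2): w1 divisible by pi.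
-/

namespace Dae

theorem norm_two_add_I : ‖(2 + Complex.I : ℂ)‖ = Real.sqrt 5 := by
  rw [Complex.norm_def, Complex.normSq_apply]
  norm_num

theorem norm_two_sub_I : ‖(2 - Complex.I : ℂ)‖ = Real.sqrt 5 := by
  rw [Complex.norm_def, Complex.normSq_apply]
  norm_num

theorem D7_ne1 : (2 + Complex.I : ℂ) ≠ 0 := by
  intro h
  have := norm_two_add_I
  rw [h, norm_zero] at this
  have h5 : (0 : ℝ) < Real.sqrt 5 := Real.sqrt_pos.2 (by norm_num)
  linarith

theorem D7_ne2 : (2 - Complex.I : ℂ) ≠ 0 := by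
  intro h
  have := norm_two_sub_I
  rw [h, norm_zero] at this
  have h5 : (0 : ℝ) < Real.sqrt 5 := Real.sqrt_pos.2 (by norm_num)
  linarith

theorem D7_p : GaussianInt.toComplex pG = 2 + Complex.I := by
  simp [pG, GaussianInt.toComplex_def]

theorem D7_q : GaussianInt.toComplex qG = 2 - Complex.I := by
  simp [qG, GaussianInt.toComplex_def]
  ring

theorem D7_one_le (w : GaussianInt) (hw : w ≠ 0) : 1 ≤ ‖GaussianInt.toComplex w‖ := by
  have h1 : (1 : ℤ) ≤ w.norm := GaussianInt.norm_pos.2 hw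
  have h2 : (1 : ℝ) ≤ Complex.normSq (GaussianInt.toComplex w) := by
    rw [← GaussianInt.intCast_real_norm]
    exact_mod_cast h1
  rw [Complex.normSq_eq_norm_sq] at h2
  nlinarith [norm_nonneg (GaussianInt.toComplex w)]

theorem Lam_norm {al be : ℤ} {z : ℂ} (h : z ∈ Lam al be) (hz : z ≠ 0) : Real.sqrt 5 ^ (be - al) ≤ ‖z‖ := by
  obtain ⟨w, rfl⟩ := h
  have hw : w ≠ 0 := by
    rintro rfl
    apply hz
    rw [map_zero, mul_zero]
  have h5 : (0 : ℝ) < Real.sqrt 5 := Real.sqrt_pos.2 (by norm_num)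
  rw [norm_mul, norm_mul, norm_zpow, norm_zpow, norm_two_add_I, norm_two_sub_I, ← zpow_add₀ h5.ne',
    ← sub_eq_add_neg]
  exact le_mul_of_one_le_right (zpow_pos h5 _).le (D7_one_le w hw)

theorem Lam_sub {al be : ℤ} {z w : ℂ} (h : z ∈ Lam al be) (h' : w ∈ Lam al be) : z - w ∈ Lam al be := by
  obtain ⟨u, rfl⟩ := h
  obtain ⟨v, rfl⟩ := h'
  refine ⟨u - v, ?_⟩
  rw [map_sub]
  ring

theorem Lam_mono {al be al' be' : ℤ} (h1 : al ≤ al') (h2 : be' ≤ be) {z : ℂ} (h : z ∈ Lam al be) :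
    z ∈ Lam al' be' := by
  obtain ⟨w, rfl⟩ := h
  obtain ⟨m, rfl⟩ : ∃ m : ℕ, be = be' + m := ⟨(be - be').toNat, by omega⟩
  obtain ⟨n, rfl⟩ : ∃ n : ℕ, al' = al + n := ⟨(al' - al).toNat, by omega⟩
  refine ⟨pG ^ m * qG ^ n * w, ?_⟩
  rw [map_mul, map_mul, map_pow, map_pow, D7_p, D7_q, zpow_add₀ D7_ne1, zpow_natCast]
  have e : (2 - Complex.I : ℂ) ^ (-al) = (2 - Complex.I) ^ (-(al + n)) * (2 - Complex.I) ^ n := by
    rw [← zpow_natCast, ← zpow_add₀ D7_ne2]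
    congr 1
    ring
  rw [e]
  ring

/-- intersection: pi and pibar are coprime -/
theorem Lam_inter {h j : ℤ} {z : ℂ} (h1 : z ∈ Lam h (h + j - 1)) (h2 : z ∈ Lam (h + 1) (h + j)) :
    z ∈ Lam h (h + j) := by
  obtain ⟨w1, e1⟩ := h1
  obtain ⟨w2, e2⟩ := h2
  have ha := D7_ne1
  have hb := D7_ne2
  have e3 : (2 + Complex.I : ℂ) ^ (h + j) = (2 + Complex.I) ^ (h + j - 1) * (2 + Complex.I) := by
    rw [← zpow_add_one₀ ha]
    congr 1
    ring
  have e4 : (2 - Complex.I : ℂ) ^ (-h) = (2 - Complex.I) ^ (-(h + 1)) * (2 - Complex.I) := by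
    rw [← zpow_add_one₀ hb]
    congr 1
    ring
  have key : qG * w1 = pG * w2 := by
    apply GaussianInt.toComplex_injective
    rw [map_mul, map_mul, D7_p, D7_q]
    have hA : (2 + Complex.I : ℂ) ^ (h + j - 1) ≠ 0 := zpow_ne_zero _ ha
    have hB : (2 - Complex.I : ℂ) ^ (-(h + 1)) ≠ 0 := zpow_ne_zero _ hb
    have e5 : (2 + Complex.I : ℂ) ^ (h + j - 1) * (2 - Complex.I) ^ (-(h + 1)) *
        ((2 - Complex.I) * GaussianInt.toComplex w1) =
        (2 + Complex.I : ℂ) ^ (h + j - 1) * (2 - Complex.I) ^ (-(h + 1)) *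
        ((2 + Complex.I) * GaussianInt.toComplex w2) := by
      have e6 := e1.symm.trans e2
      rw [e3, e4] at e6
      linear_combination e6
    exact mul_left_cancel₀ (mul_ne_zero hA hB) e5
  have hw : w1 = pG * ((qG - 1) * w1 - w2) := by
    have h5 : pG * (qG - 1) - qG = 1 := by decide
    have h6 : pG * ((qG - 1) * w1 - w2) = (pG * (qG - 1) - qG) * w1 + (qG * w1 - pG * w2) := by ring
    rw [h6, h5, key]
    ring
  refine ⟨(qG - 1) * w1 - w2, ?_⟩
  rw [e1, e3]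
  conv_lhs => rw [hw, map_mul, D7_p]
  ring

end Dae
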