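import Pool.Agent.Lib.MP_dae6d7_al.D7
import Pool.Agent.Lib.MP_dae6d7_al.A2

/-! Row D8. (Sections refer to the paper /team-store/dae6d7_paper.md.)

Lemma 5, induction on j generalizing y h ζ. j = 0: u = 0. Step j -> j+1: sbn (j+1) [y] = sbn j (sub y), 8 consecutive blocks of length 8^j; block
number r is sbn j [z_r], z_r = (sub y)[r], starting at height h + hts ((sub y).take r) (hts_sbn). sub_three: three r with isC z_r at height h,
three at height h+1. Apply the induction hypothesis to the shifted sequences u -> ζ(8^j r + u). TV of the whole >= sum of the TV of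
disjoint blocks. If three blocks have TV >= (sqrt 5)^j/5 then TV >= 3 (sqrt 5)^j/5 >= (sqrt 5)^(j+1)/5. Otherwise some ζ_u in
Lam h (h+j) (a block at height h) and some ζ_v in Lam (h+1) (h+1+j). If ζ_u = ζ_v: Lam_inter: in Lam h (h+j+1). Otherwise both are in
Lam (h+1) (h+j) (Lam_mono), so TV >= |ζ_u - ζ_v| >= (sqrt 5)^(j-1) = (sqrt 5)^(j+1)/5 (Lam_norm, Lam_sub).
-/

namespace Dae

theorem D8_TV_nonneg (ζ : ℕ → ℂ) (n : ℕ) : 0 ≤ TV ζ n :=
  Finset.sum_nonneg (fun _ _ => norm_nonneg _)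

theorem D8_TV_dist_aux (ζ : ℕ → ℂ) (n u v : ℕ) (huv : u ≤ v) (hv : v < n) : ‖ζ u - ζ v‖ ≤ TV ζ n := by
  have h1 : dist (ζ u) (ζ v) ≤ ∑ i ∈ Finset.Ico u v, dist (ζ i) (ζ (i + 1)) := dist_le_Ico_sum_dist ζ huv
  have h2 : ∑ i ∈ Finset.Ico u v, dist (ζ i) (ζ (i + 1)) = ∑ i ∈ Finset.Ico u v, ‖ζ (i + 1) - ζ i‖ := by
    apply Finset.sum_congr rfl
    intro i _
    rw [dist_comm, dist_eq_norm]
  rw [dist_eq_norm, h2] at h1
  refine h1.trans ?_
  unfold TV
  apply Finset.sum_le_sum_of_subset_of_nonneg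
  · intro i hi
    rw [Finset.mem_Ico] at hi
    rw [Finset.mem_range]
    omega
  · intro i _ _
    exact norm_nonneg _

theorem D8_TV_dist (ζ : ℕ → ℂ) (n u v : ℕ) (hu : u < n) (hv : v < n) : ‖ζ u - ζ v‖ ≤ TV ζ n := by
  rcases le_total u v with h | h
  · exact D8_TV_dist_aux ζ n u v h hv
  · rw [norm_sub_rev]
    exact D8_TV_dist_aux ζ n v u h hu

theorem D8_TV_blocks (ζ : ℕ → ℂ) (N : ℕ) (hN : 0 < N) (m : ℕ) :
    ∑ r ∈ Finset.range m, TV (fun u => ζ (N * r + u)) N ≤ TV ζ (N * m) := by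
  induction m with
  | zero => simp [TV]
  | succ m ih =>
    rw [Finset.sum_range_succ]
    have h1 : TV ζ (N * m) + TV (fun u => ζ (N * m + u)) N ≤ TV ζ (N * (m + 1)) := by
      unfold TV
      have h2 : ∑ u ∈ Finset.range (N - 1), ‖ζ (N * m + (u + 1)) - ζ (N * m + u)‖
          = ∑ u ∈ Finset.Ico (N * m) (N * m + (N - 1)), ‖ζ (u + 1) - ζ u‖ := by
        rw [Finset.sum_Ico_eq_sum_range]
        have h3 : N * m + (N - 1) - N * m = N - 1 := by omega
        rw [h3]
        rfl
      rw [h2, ← Finset.sum_union]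
      · apply Finset.sum_le_sum_of_subset_of_nonneg
        · intro i hi
          rw [Finset.mem_union, Finset.mem_range, Finset.mem_Ico] at hi
          rw [Finset.mem_range, Nat.mul_succ]
          omega
        · intro i _ _
          exact norm_nonneg _
      · rw [Finset.disjoint_left]
        intro i hi hi2
        rw [Finset.mem_range] at hi
        rw [Finset.mem_Ico] at hi2
        omega
    linarith

theorem D8_three (ζ : ℕ → ℂ) (N : ℕ) (hN : 0 < N) (r0 r1 r2 : Fin 8) (h01 : r0 < r1) (h12 : r1 < r2) :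
    TV (fun u => ζ (N * r0.1 + u)) N + TV (fun u => ζ (N * r1.1 + u)) N + TV (fun u => ζ (N * r2.1 + u)) N
      ≤ TV ζ (N * 8) := by
  refine le_trans ?_ (D8_TV_blocks ζ N hN 8)
  have h0 : r0.1 < r1.1 := h01
  have h1 : r1.1 < r2.1 := h12
  have e : TV (fun u => ζ (N * r0.1 + u)) N + TV (fun u => ζ (N * r1.1 + u)) N + TV (fun u => ζ (N * r2.1 + u)) N
      = ∑ r ∈ ({r0.1, r1.1, r2.1} : Finset ℕ), TV (fun u => ζ (N * r + u)) N := by
    rw [Finset.sum_insert, Finset.sum_insert, Finset.sum_singleton]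
    · ring
    · rw [Finset.mem_singleton]; omega
    · rw [Finset.mem_insert, Finset.mem_singleton]; omega
  rw [e]
  apply Finset.sum_le_sum_of_subset_of_nonneg
  · intro i hi
    rw [Finset.mem_insert, Finset.mem_insert, Finset.mem_singleton] at hi
    rw [Finset.mem_range]
    have := r2.2
    omega
  · intro i _ _
    exact D8_TV_nonneg _ _

theorem D8_sbst_one (y : X6 × Bool) : sbst [y] = sub y := by
  simp [sbst]

theorem D8_split (j : ℕ) (W : Wd X6) (r : ℕ) (z : X6 × Bool) (hz : W[r]? = some z) :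
    sbn j W = sbn j (W.take r) ++ (sbn j [z] ++ sbn j (W.drop (r + 1))) := by
  have hr : r < W.length := by
    by_contra hc
    rw [List.getElem?_eq_none (by omega)] at hz
    cases hz
  have h1 : W = W.take r ++ ([z] ++ W.drop (r + 1)) := by
    conv_lhs => rw [← List.take_append_drop r W]
    rw [List.drop_eq_getElem_cons hr]
    rw [List.getElem?_eq_getElem hr] at hz
    cases hz
    rfl
  conv_lhs => rw [h1]
  rw [sbn_append, sbn_append]

/-- the block number r -/
theorem D8_block (j : ℕ) (y : X6 × Bool) (h : ℤ) (ζ : ℕ → ℂ)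
    (hζ : ∀ u, ∀ z : X6 × Bool, (sbn (j + 1) [y])[u]? = some z → isC z.1 = true →
      ζ u ∈ Lam (h + hts ((sbn (j + 1) [y]).take u)) (h + hts ((sbn (j + 1) [y]).take u)))
    (r : ℕ) (z : X6 × Bool) (hz : (sub y)[r]? = some z) (u : ℕ) (x : X6 × Bool)
    (hx : (sbn j [z])[u]? = some x) (hxC : isC x.1 = true) :
    ζ (8 ^ j * r + u) ∈ Lam (h + hts ((sub y).take r) + hts ((sbn j [z]).take u))
      (h + hts ((sub y).take r) + hts ((sbn j [z]).take u)) := by
  have hr : r < (sub y).length := by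
    by_contra hc
    rw [List.getElem?_eq_none (by omega)] at hz
    cases hz
  have hl1 : (sbn j ((sub y).take r)).length = 8 ^ j * r := by
    rw [length_sbn, List.length_take, min_eq_left hr.le]
  have hl2 : (sbn j [z]).length = 8 ^ j := by
    rw [length_sbn]; simp
  have hu : u < 8 ^ j := by
    by_contra hc
    rw [List.getElem?_eq_none (by omega)] at hx
    cases hx
  have e : sbn (j + 1) [y] = sbn j ((sub y).take r) ++ (sbn j [z] ++ sbn j ((sub y).drop (r + 1))) := by
    rw [sbn_succ', D8_sbst_one]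
    exact D8_split j (sub y) r z hz
  have h1 : (sbn (j + 1) [y])[8 ^ j * r + u]? = some x := by
    rw [e, List.getElem?_append_right (by omega), hl1, Nat.add_sub_cancel_left,
      List.getElem?_append_left (by omega)]
    exact hx
  have h2 : (sbn (j + 1) [y]).take (8 ^ j * r + u) = sbn j ((sub y).take r) ++ (sbn j [z]).take u := by
    rw [e, List.take_append, List.take_of_length_le (by omega), hl1, Nat.add_sub_cancel_left,
      List.take_append_of_le_length (by omega)]
  have h3 := hζ _ _ h1 hxC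
  rw [h2, hts_append, hts_sbn, ← add_assoc] at h3
  exact h3

theorem D8_sqrt : Real.sqrt 5 ≤ 3 := by
  rw [Real.sqrt_le_left (by norm_num)]
  norm_num

/-- Lemma 5 -/
theorem lattice_lemma (j : ℕ) (y : X6 × Bool) (hy : isC y.1 = true) (h : ℤ) (ζ : ℕ → ℂ)
    (hζ : ∀ u, ∀ z : X6 × Bool, (sbn j [y])[u]? = some z → isC z.1 = true →
      ζ u ∈ Lam (h + hts ((sbn j [y]).take u)) (h + hts ((sbn j [y]).take u))) :
    Real.sqrt 5 ^ j / 5 ≤ TV ζ (8 ^ j) ∨ ∃ u, u < 8 ^ j ∧ ζ u ∈ Lam h (h + j) := by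
  induction j generalizing y h ζ with
  | zero =>
    right
    refine ⟨0, by norm_num, ?_⟩
    have h1 : (sbn 0 [y])[0]? = some y := rfl
    have h2 := hζ 0 y h1 hy
    have h3 : hts ((sbn 0 [y]).take 0) = 0 := rfl
    rw [h3] at h2
    simpa using h2
  | succ j ih =>
    have hN : 0 < 8 ^ j := by positivity
    have hblk : ∀ r : ℕ, ∀ z : X6 × Bool, (sub y)[r]? = some z → isC z.1 = true →
        Real.sqrt 5 ^ j / 5 ≤ TV (fun u => ζ (8 ^ j * r + u)) (8 ^ j) ∨
          ∃ u, u < 8 ^ j ∧ ζ (8 ^ j * r + u) ∈ Lam (h + hts ((sub y).take r)) (h + hts ((sub y).take r) + j) := by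
      intro r z hz hzC
      exact ih z hzC (h + hts ((sub y).take r)) (fun u => ζ (8 ^ j * r + u))
        (fun u x hx hxC => D8_block j y h ζ hζ r z hz u x hx hxC)
    have hstep : ∀ c : ℤ, (∃ r0 r1 r2 : Fin 8, r0 < r1 ∧ r1 < r2 ∧ ∀ r ∈ [r0, r1, r2],
        (∃ z, (sub y)[r.1]? = some z ∧ isC z.1 = true) ∧ hts ((sub y).take r.1) = c) →
        Real.sqrt 5 ^ (j + 1) / 5 ≤ TV ζ (8 ^ (j + 1)) ∨ ∃ u, u < 8 ^ (j + 1) ∧ ζ u ∈ Lam (h + c) (h + c + j) := by
      rintro c ⟨r0, r1, r2, h01, h12, hr⟩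
      have hone : ∀ r : Fin 8, r ∈ [r0, r1, r2] → Real.sqrt 5 ^ j / 5 ≤ TV (fun u => ζ (8 ^ j * r.1 + u)) (8 ^ j) ∨
          ∃ u, u < 8 ^ (j + 1) ∧ ζ u ∈ Lam (h + c) (h + c + j) := by
        intro r hrm
        obtain ⟨⟨z, hz, hzC⟩, hc⟩ := hr r hrm
        rcases hblk r.1 z hz hzC with h1 | ⟨u, hu, h1⟩
        · left; exact h1
        · right
          refine ⟨8 ^ j * r.1 + u, ?_, ?_⟩
          · have h2 := r.2
            rw [pow_succ]
            calc 8 ^ j * r.1 + u < 8 ^ j * r.1 + 8 ^ j := by omega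
              _ = 8 ^ j * (r.1 + 1) := by ring
              _ ≤ 8 ^ j * 8 := Nat.mul_le_mul_left _ (by omega)
          · rw [hc] at h1; exact h1
      rcases hone r0 (by simp) with a0 | a0
      · rcases hone r1 (by simp) with a1 | a1
        · rcases hone r2 (by simp) with a2 | a2
          · left
            have h3 := D8_three ζ (8 ^ j) hN r0 r1 r2 h01 h12
            rw [pow_succ 8 j]
            refine le_trans ?_ h3
            have h4 : Real.sqrt 5 ^ (j + 1) / 5 ≤ 3 * (Real.sqrt 5 ^ j / 5) := by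
              rw [pow_succ]
              have h5 : 0 ≤ Real.sqrt 5 ^ j := by positivity
              nlinarith [D8_sqrt, mul_le_mul_of_nonneg_left D8_sqrt h5]
            linarith
          · right; exact a2
        · right; exact a1
      · right; exact a0
    obtain ⟨hA, hB⟩ := sub_three y hy
    rcases hstep 0 hA with h1 | ⟨u, hu, h1⟩
    · left; exact h1
    rcases hstep 1 hB with h2 | ⟨v, hv, h2⟩
    · left; exact h2
    rw [add_zero] at h1
    by_cases huv : ζ u = ζ v
    · right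
      refine ⟨u, hu, ?_⟩
      have h3 : ζ u ∈ Lam h (h + ((j : ℤ) + 1)) := by
        apply Lam_inter
        · have e : h + ((j : ℤ) + 1) - 1 = h + j := by ring
          rw [e]; exact h1
        · have e : h + ((j : ℤ) + 1) = h + 1 + j := by ring
          rw [e, huv]; exact h2
      push_cast
      exact h3
    · left
      have h3 : ζ u ∈ Lam (h + 1) (h + j) := Lam_mono (by omega) le_rfl h1
      have h4 : ζ v ∈ Lam (h + 1) (h + j) := Lam_mono le_rfl (by omega) h2
      have h5 := Lam_norm (Lam_sub h3 h4) (sub_ne_zero.mpr huv)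
      have h6 := D8_TV_dist ζ (8 ^ (j + 1)) u v hu hv
      refine le_trans ?_ (h5.trans h6)
      have e : h + (j : ℤ) - (h + 1) = ((j + 1 : ℕ) : ℤ) - 2 := by push_cast; ring
      rw [e, zpow_sub₀ (by positivity), zpow_natCast]
      have e2 : Real.sqrt 5 ^ (2 : ℤ) = 5 := by
        have : Real.sqrt 5 ^ (2 : ℤ) = Real.sqrt 5 ^ (2 : ℕ) := by norm_cast
        rw [this, Real.sq_sqrt (by norm_num)]
      rw [e2]

end Dae
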