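import Pool.Agent.Lib.MP_dae6d7_al.D4b
import Pool.Agent.Lib.MP_dae6d7_al.D5b

/-! Row D9a. (Sections refer to the paper /team-store/dae6d7_paper.md.)

P := (function of exists_P) ∘ LtoG. For g in L the indicator is 1. ‖Rc‖ = 1. Last claim: P (val lf f) = 0 (letters of F' do not change P),
then ee z = p^re q^im: each letter p adds Rc^(eta), q adds Rc^eta I, eta is not changed by p, q; negative powers: subtract.
-/

namespace Dae

theorem D9a_norm_Rc : ‖Rc‖ = 1 := by
  have h : (2 - Complex.I : ℂ) = (starRingEnd ℂ) (2 + Complex.I) := by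
    apply Complex.ext <;> simp
  have h0 : (2 + Complex.I : ℂ) ≠ 0 := by
    intro h
    have := congrArg Complex.re h
    simp at this
  rw [Rc, norm_div, h, Complex.norm_conj, div_self]
  exact norm_ne_zero_iff.mpr h0

theorem D9a_norm_pow (n : ℤ) : ‖Rc ^ n‖ = 1 := by
  rw [norm_zpow, D9a_norm_Rc, one_zpow]

theorem D9a_LtoG (i : LG) : LtoG (lg i) = gg (LGG i) := by
  unfold LtoG lg
  rw [PG.lift_of]
  cases i <;> rfl

theorem D9a_eta (g : G) (i : GG) (h : i = GG.p ∨ i = GG.q) (n : ℤ) : eta (g * gg i ^ n) = eta g := by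
  have h1 : etah (gg i) = 1 := by
    unfold etah gg
    rw [PG.lift_of]
    rcases h with rfl | rfl <;> rfl
  unfold eta
  rw [map_mul, map_zpow, h1, one_zpow, mul_one]

open Classical in
/-- powers of a letter -/
theorem D9a_zpow (P : G → ℂ) (i : GG) (h : i = GG.p ∨ i = GG.q) (c : ℂ)
    (hP : ∀ g, P (g * gg i) = P g + if (∃ u : L, g = LtoG u) then Rc ^ (eta g) * c else 0)
    (hi : ∃ j : LG, gg i = LtoG (lg j)) (u : L) (n : ℤ) :
    P (LtoG u * gg i ^ n) = P (LtoG u) + n * (Rc ^ (eta (LtoG u)) * c) := by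
  obtain ⟨j, hj⟩ := hi
  have hmem : ∀ n : ℤ, ∃ v : L, LtoG u * gg i ^ n = LtoG v := by
    intro n
    exact ⟨u * lg j ^ n, by rw [map_mul, map_zpow, hj]⟩
  have step : ∀ n : ℤ, P (LtoG u * gg i ^ (n + 1)) = P (LtoG u * gg i ^ n) + Rc ^ (eta (LtoG u)) * c := by
    intro n
    rw [zpow_add_one, ← mul_assoc, hP, if_pos (hmem n), D9a_eta _ i h n]
  induction n with
  | zero => simp
  | succ n ih =>
    rw [step, ih]; push_cast; ring
  | pred n ih =>
    have := step (-(n : ℤ) - 1)
    rw [sub_add_cancel, ih] at this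
    rw [eq_sub_of_add_eq this.symm]; push_cast; ring

/-- a function on L which changes only with the letters p,q, by at most 1 in modulus, and which is
Rc^height z on (letter word of F') * ee z -/
theorem exists_PL : ∃ P : L → ℂ, P 1 = 0 ∧
    (∀ g : L, ∀ i, i ≠ LG.p → i ≠ LG.q → P (g * lg i) = P g) ∧
    (∀ g : L, ∀ y : LG × Bool, ‖P (g * lv lg y) - P g‖ ≤ 1) ∧
    (∀ (f : Wd FG) (z : GaussianInt), P (val lf f * ee z) =
      Rc ^ (eta (LtoG (val lf f))) * GaussianInt.toComplex z) := by
  classical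
  obtain ⟨P, h1, hp, hq, ho⟩ := exists_P
  have hp' : ∀ g, P (g * gg GG.p) = P g + if (∃ u : L, g = LtoG u) then Rc ^ (eta g) * 1 else 0 := by
    intro g; rw [hp, mul_one]
  have hne : ∀ g : L, ∀ i, i ≠ LG.p → i ≠ LG.q → P (LtoG (g * lg i)) = P (LtoG g) := by
    intro g i hip hiq
    rw [map_mul, D9a_LtoG]
    apply ho
    · intro h; apply hip; cases i <;> simp_all [LGG]
    · intro h; apply hiq; cases i <;> simp_all [LGG]
  have hpos : ∀ g : L, ∀ i, ‖P (LtoG (g * lg i)) - P (LtoG g)‖ ≤ 1 := by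
    intro g i
    by_cases hip : i = LG.p
    · subst hip
      rw [map_mul, D9a_LtoG]
      show ‖P (LtoG g * gg GG.p) - _‖ ≤ 1
      rw [hp, if_pos ⟨g, rfl⟩, add_sub_cancel_left, D9a_norm_pow]
    · by_cases hiq : i = LG.q
      · subst hiq
        rw [map_mul, D9a_LtoG]
        show ‖P (LtoG g * gg GG.q) - _‖ ≤ 1
        rw [hq, if_pos ⟨g, rfl⟩, add_sub_cancel_left, norm_mul, D9a_norm_pow, Complex.norm_I, one_mul]
      · rw [hne g i hip hiq, sub_self, norm_zero]; exact zero_le_one
  refine ⟨fun g => P (LtoG g), ?_, hne, ?_, ?_⟩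
  · show P (LtoG 1) = 0
    rw [map_one, h1]
  · rintro g ⟨i, b⟩
    cases b
    · rw [lv_false]
      have := hpos (g * (lg i)⁻¹) i
      rw [inv_mul_cancel_right] at this
      rw [← norm_neg, neg_sub]
      exact this
    · rw [lv_true]; exact hpos g i
  · intro f z
    have hf : ∀ g : L, P (LtoG (g * val lf f)) = P (LtoG g) := by
      induction f with
      | nil => intro g; rw [val_nil, mul_one]
      | cons y f ih =>
        intro g
        rw [val_cons, ← mul_assoc, ih]
        rcases y with ⟨y, b⟩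
        have hy : ∀ g : L, P (LtoG (g * lf y)) = P (LtoG g) := by
          intro g
          apply hne
          · cases y <;> simp [emb]
          · cases y <;> simp [emb]
        cases b
        · rw [lv_false]
          have := hy (g * (lf y)⁻¹)
          rw [inv_mul_cancel_right] at this
          exact this.symm
        · rw [lv_true]; exact hy g
    have hf0 : P (LtoG (val lf f)) = 0 := by
      have := hf 1
      rwa [one_mul, map_one, h1] at this
    show P (LtoG (val lf f * ee z)) = _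
    set u : L := val lf f with hu
    have e1 : LtoG (u * ee z) = LtoG (u * lg LG.p ^ z.re) * gg GG.q ^ z.im := by
      have hq1 : LtoG (lg LG.q) = gg GG.q := D9a_LtoG LG.q
      unfold ee
      rw [← mul_assoc, map_mul, map_zpow, hq1]
    have e2 : LtoG (u * lg LG.p ^ z.re) = LtoG u * gg GG.p ^ z.re := by
      have hp1 : LtoG (lg LG.p) = gg GG.p := D9a_LtoG LG.p
      rw [map_mul, map_zpow, hp1]
    rw [e1, D9a_zpow P GG.q (Or.inr rfl) Complex.I hq ⟨LG.q, (D9a_LtoG LG.q).symm⟩, e2,
      D9a_eta _ GG.p (Or.inl rfl), D9a_zpow P GG.p (Or.inl rfl) 1 hp' ⟨LG.p, (D9a_LtoG LG.p).symm⟩, hf0,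
      GaussianInt.toComplex_def]
    ring

end Dae
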