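import Pool.Agent.Lib.MP_dae6d7_al.D9a
import Pool.Agent.Lib.MP_dae6d7_al.D6b
import Pool.Agent.Lib.MP_dae6d7_al.D8

/-! Row D9b. (Sections refer to the paper /team-store/dae6d7_paper.md.)

Lemma 6. crossing_all with z0 = z1 = 0 and f the whole word. Let n0 = f1.length, ζ n = P (val lg (w.take (T (n0+n)))) for n < 8^j. Since
the partial product is val lf (f.take (n0+n)) * ee (Z (n0+n)), ζ n = Rc^(h + hts (take n)) * Z, h = height of f1, so ζ n in Lam (h+hts) (h+hts)
(Rc^k = pi^k pib^{-k}), and Z <> 0 by hz (the letter w[T ..] is (LG.x z.1, z.2)), so ζ n <> 0. lattice_lemma: TV >= (sqrt 5)^j/5, or some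
ζ n in Lam h (h+j), then |ζ n| >= (sqrt 5)^j >= (sqrt 5)^j/5. P changes by at most 1 at letters p,q and not at others, so
|ζ (n+1) - ζ n| <= number of p,q letters of w between the times T (n0+n) and T (n0+n+1), |ζ n| <= number of them before T (n0+n). T increasing.
-/

namespace Dae

theorem D9b_eta_letter (y : X6 × Bool) : eta (LtoG (lv lf (FG.x y.1, y.2))) = ht1 y := by
  rcases y with ⟨x, b⟩
  have h1 : eta (LtoG (lf (FG.x x))) = if isC x then 0 else 1 := by
    have : LtoG (lf (FG.x x)) = gg (GG.x x) := by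
      simp [LtoG, lf, lg, emb]
    rw [this]
    cases x <;> simp [eta, etah, gg, isC]
  cases b
  · simp only [lv_false, map_inv, eta_inv, h1]
    cases x <;> simp [ht1, isC]
  · simp only [lv_true, h1]
    cases x <;> simp [ht1, isC]

theorem D9b_eta_map (v : Wd X6) : eta (LtoG (val lf (v.map (fun z => (FG.x z.1, z.2))))) = hts v := by
  induction v with
  | nil => simp [hts, eta_one]
  | cons y v ih =>
    rw [List.map_cons, val_cons, map_mul, eta_mul, ih, D9b_eta_letter]
    simp [hts]

theorem D9b_lip (P : L → ℂ) (h1 : ∀ g : L, ∀ i, i ≠ LG.p → i ≠ LG.q → P (g * lg i) = P g)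
    (h2 : ∀ g : L, ∀ y : LG × Bool, ‖P (g * lv lg y) - P g‖ ≤ 1) (v : Wd LG) :
    ∀ g : L, ‖P (g * val lg v) - P g‖ ≤ cntE v := by
  induction v with
  | nil => intro g; simp [cntE]
  | cons y v ih =>
    intro g
    rw [val_cons, ← mul_assoc]
    have e := ih (g * lv lg y)
    have h3 : ‖P (g * lv lg y) - P g‖ ≤ if (y.1 = LG.p ∨ y.1 = LG.q) then 1 else 0 := by
      split_ifs with hc
      · exact h2 g y
      · push Not at hc
        obtain ⟨i, b⟩ := y
        cases b
        · have := h1 (g * (lg i)⁻¹) i hc.1 hc.2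
          rw [inv_mul_cancel_right] at this
          simp [this]
        · simp [h1 g i hc.1 hc.2]
    have h4 : (cntE (y :: v) : ℝ) = (if (y.1 = LG.p ∨ y.1 = LG.q) then 1 else 0) + cntE v := by
      unfold cntE
      rw [List.countP_cons]
      by_cases hc : y.1 = LG.p ∨ y.1 = LG.q
      · simp [hc]; ring
      · simp [hc]
    rw [h4]
    calc ‖P (g * lv lg y * val lg v) - P g‖
        = ‖(P (g * lv lg y) - P g) + (P (g * lv lg y * val lg v) - P (g * lv lg y))‖ := by congr 1; ring
      _ ≤ ‖P (g * lv lg y) - P g‖ + ‖P (g * lv lg y * val lg v) - P (g * lv lg y)‖ := norm_add_le _ _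
      _ ≤ _ := add_le_add h3 e

theorem D9b_cnt_take_mono (w : Wd LG) {a b : ℕ} (h : a ≤ b) : cntE (w.take a) ≤ cntE (w.take b) := by
  unfold cntE
  have : w.take a = (w.take b).take a := by rw [List.take_take, min_eq_left h]
  rw [this]
  exact List.Sublist.countP_le (List.take_sublist _ _)

theorem D9b_cnt_take_le (w : Wd LG) (a : ℕ) : cntE (w.take a) ≤ cntE w := by
  unfold cntE
  exact List.Sublist.countP_le (List.take_sublist _ _)

theorem D9b_diff (P : L → ℂ) (h1 : ∀ g : L, ∀ i, i ≠ LG.p → i ≠ LG.q → P (g * lg i) = P g)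
    (h2 : ∀ g : L, ∀ y : LG × Bool, ‖P (g * lv lg y) - P g‖ ≤ 1) (w : Wd LG) {a b : ℕ} (h : a ≤ b) :
    ‖P (val lg (w.take b)) - P (val lg (w.take a))‖ ≤ (cntE (w.take b) : ℝ) - cntE (w.take a) := by
  have e : w.take b = w.take a ++ (w.drop a).take (b - a) := by
    rw [← List.take_add]; congr 1; omega
  rw [e, val_append]
  have h3 := D9b_lip P h1 h2 ((w.drop a).take (b - a)) (val lg (w.take a))
  have h4 : (cntE (w.take a ++ (w.drop a).take (b - a)) : ℝ) = cntE (w.take a) + cntE ((w.drop a).take (b - a)) := by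
    unfold cntE; rw [List.countP_append]; push_cast; ring
  rw [h4]; linarith

theorem D9b_Rc_ne : Rc ≠ 0 := by
  unfold Rc
  have h1 : (2 + Complex.I : ℂ) ≠ 0 := by
    intro h; have := congrArg Complex.im h; simp at this
  have h2 : (2 - Complex.I : ℂ) ≠ 0 := by
    intro h; have := congrArg Complex.im h; simp at this
  exact div_ne_zero h1 h2

theorem D9b_Rc_mem (k : ℤ) (z : GaussianInt) : Rc ^ k * GaussianInt.toComplex z ∈ Lam k k := by
  refine ⟨z, ?_⟩
  unfold Rc
  rw [div_zpow, zpow_neg, div_eq_mul_inv]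

/-- Lemma 6. f = f1 ++ phi^j(y) ++ f2, w an L-word with the same value; at the times l when w crosses the letters
of phi^j(y) the offset is not zero. Then w has at least (sqrt 5)^j/5 letters p, q. -/
theorem cross_cost (w : Wd LG) (f1 f2 : Wd FG) (j : ℕ) (y : X6 × Bool) (hy : isC y.1 = true)
    (hf : FreeGroup.IsReduced (f1 ++ (sbn j [y]).map (fun z => (FG.x z.1, z.2)) ++ f2))
    (h : val lg w = val lf (f1 ++ (sbn j [y]).map (fun z => (FG.x z.1, z.2)) ++ f2))
    (hz : ∀ l n, ∀ z : X6 × Bool, l < w.length → (sbn j [y])[n]? = some z → w[l]? = some (LG.x z.1, z.2) →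
      val lg (w.take l) ≠ val lf (f1 ++ ((sbn j [y]).map (fun z => (FG.x z.1, z.2))).take n)) :
    Real.sqrt 5 ^ j / 5 ≤ cntE w := by
  obtain ⟨P, hP1, hP2, hP3, hP4⟩ := exists_PL
  have ee0 : ee 0 = 1 := ee_zero
  have hB : (sbn j [y]).length = 8 ^ j := by rw [length_sbn]; simp
  set B := sbn j [y] with hBdef
  set M : Wd FG := B.map (fun z => (FG.x z.1, z.2)) with hM
  have hMl : M.length = 8 ^ j := by rw [hM, List.length_map, hB]
  have h' : ee 0 * val lg w = val lf (f1 ++ M ++ f2) * ee 0 := by rw [ee0, h]; simp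
  obtain ⟨T, Z, hTZ, hT⟩ := crossing_all w 0 0 _ hf h'
  have hlen : (f1 ++ M ++ f2).length = f1.length + 8 ^ j + f2.length := by simp [hMl]; ring
  set ζ : ℕ → ℂ := fun n => P (val lg (w.take (T (f1.length + n)))) with hζ
  set h0 : ℤ := eta (LtoG (val lf f1)) with hh0
  -- facts for n < 8^j
  have key : ∀ n, n < 8 ^ j → ζ n = Rc ^ (h0 + hts (B.take n)) * GaussianInt.toComplex (Z (f1.length + n)) ∧
      Z (f1.length + n) ≠ 0 := by
    intro n hn
    have hu : f1.length + n < (f1 ++ M ++ f2).length := by rw [hlen]; omega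
    obtain ⟨h1, h2, h3, h4⟩ := hTZ (f1.length + n) hu
    rw [ee0, one_mul] at h4
    have htake : (f1 ++ M ++ f2).take (f1.length + n) = f1 ++ M.take n := by
      rw [List.append_assoc, List.take_length_add_append, List.take_append_of_le_length (by omega)]
    rw [htake] at h4
    have hval : val lf (f1 ++ M.take n) = val lf f1 * val lf ((B.take n).map (fun z => (FG.x z.1, z.2))) := by
      rw [val_append, hM, List.map_take]
    constructor
    · rw [hζ]
      show P (val lg (w.take (T (f1.length + n)))) = _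
      rw [h4, hP4, hval, map_mul, eta_mul, D9b_eta_map]
    · intro hz0
      rw [hz0, ee0, mul_one] at h4
      have hnB : n < B.length := by rw [hB]; exact hn
      have hget : (f1 ++ M ++ f2)[f1.length + n] = (FG.x (B[n]).1, (B[n]).2) := by
        rw [List.getElem_append_left (by simp [hMl]; exact hn), List.getElem_append_right (by omega)]
        simp [hM]
      rw [hget] at h2
      refine hz (T (f1.length + n)) n B[n] h1 (by simp [hnB]) ?_ h4
      rw [h2]; rfl
  have hlat := lattice_lemma j y hy h0 ζ (by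
    intro u z hu hzc
    have hlt : u < 8 ^ j := by
      rw [← hB]
      by_contra hcon
      rw [List.getElem?_eq_none (by rw [← hBdef] at *; omega)] at hu
      exact absurd hu (by simp)
    rw [(key u hlt).1]
    exact D9b_Rc_mem _ _)
  rcases hlat with hlat | ⟨u, hu, hmem⟩
  · refine hlat.trans ?_
    unfold TV
    have hstep : ∀ u ∈ Finset.range (8 ^ j - 1), ‖ζ (u + 1) - ζ u‖ ≤
        (cntE (w.take (T (f1.length + (u + 1)))) : ℝ) - cntE (w.take (T (f1.length + u))) := by
      intro u hu
      rw [Finset.mem_range] at hu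
      have hlt : T (f1.length + u) < T (f1.length + u + 1) := hT (f1.length + u) (by rw [hlen]; omega)
      exact D9b_diff P hP2 hP3 w (by rw [← add_assoc]; exact hlt.le)
    refine (Finset.sum_le_sum hstep).trans ?_
    rw [Finset.sum_range_sub (fun u => (cntE (w.take (T (f1.length + u))) : ℝ))]
    have h1 : (cntE (w.take (T (f1.length + (8 ^ j - 1)))) : ℝ) ≤ cntE w := by
      exact_mod_cast D9b_cnt_take_le w _
    have h2 : (0 : ℝ) ≤ cntE (w.take (T (f1.length + 0))) := Nat.cast_nonneg _
    linarith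
  · have hne : ζ u ≠ 0 := by
      rw [(key u hu).1]
      refine mul_ne_zero (zpow_ne_zero _ D9b_Rc_ne) ?_
      intro h0
      exact (key u hu).2 (GaussianInt.toComplex_eq_zero.mp h0)
    have hn := Lam_norm hmem hne
    rw [add_sub_cancel_left, zpow_natCast] at hn
    have hle : ‖ζ u‖ ≤ cntE w := by
      have h1 := D9b_diff P hP2 hP3 w (Nat.zero_le (T (f1.length + u)))
      simp only [List.take_zero, val_nil, hP1, sub_zero] at h1
      have h2 : (cntE (w.take (T (f1.length + u))) : ℝ) ≤ cntE w := by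
        exact_mod_cast D9b_cnt_take_le w _
      have h3 : (0 : ℝ) ≤ cntE ([] : Wd LG) := Nat.cast_nonneg _
      have h4 : ‖ζ u‖ = ‖P (val lg (w.take (T (f1.length + u))))‖ := rfl
      linarith
    have hpos : 0 ≤ Real.sqrt 5 ^ j := by positivity
    linarith

end Dae
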