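import Pool.Agent.Lib.MP_dae6d7_al.EDefs
import Pool.Agent.Lib.MP_dae6d7_al.D4a
import Pool.Agent.Lib.MP_dae6d7_al.D2a

/-! Row E1. (Sections refer to the paper /team-store/dae6d7_paper.md.)

Lemma 2. b = true: V(g) = sigma g with sigma = wall_tau: V(1) = 0, V(value of w.take 1 = tau) = 1, V(val gg w) = V(LtoG u) = 0 (no tau letters in a
word for u). So at some step l -> l+1, 1 <= l < w.length, V goes down: letter (tau,false), val (w.take (l+1)) = iG (phi h') in the image of
L (LtoG_iL_iF); by minimality l+1 = w.length. b = false: V(g) = sigma (gg tau * g): V(1) = 1, V(tau^{-1}) = 0, V(LtoG u) = 1; V goes up at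
a step with letter (tau,true) from g to g tau, tau g = iG (phi h'), so g tau = tau^{-1} iG(phi h') tau = iG h': in L, so it is the last step.
-/

namespace Dae

theorem E1_LtoG_of (i : LG) : LtoG (PG.of i) = gg (LGG i) := by
  unfold LtoG
  rw [PG.lift_of]
  cases i <;> rfl

theorem E1_inv (σ : G → ℤ) (h3 : ∀ g i, i ≠ GG.tau → σ (g * gg i) = σ g) (g : G) (i : GG) (hi : i ≠ GG.tau) :
    σ (g * (gg i)⁻¹) = σ g := by
  have h := h3 (g * (gg i)⁻¹) i hi
  rw [inv_mul_cancel_right] at h
  exact h.symm

/-- sigma does not see the factor LtoG u -/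
theorem E1_LtoG (σ : G → ℤ) (h3 : ∀ g i, i ≠ GG.tau → σ (g * gg i) = σ g) (g : G) (u : L) :
    σ (g * LtoG u) = σ g := by
  obtain ⟨w, rfl⟩ := PG.exists_val u
  induction w generalizing g with
  | nil => simp
  | cons y w ih =>
    rw [val_cons, map_mul, ← mul_assoc, ih]
    rcases y with ⟨i, b⟩
    have hne : LGG i ≠ GG.tau := by cases i <;> simp [LGG]
    cases b
    · rw [lv_false, map_inv, E1_LtoG_of]
      exact E1_inv σ h3 g _ hne
    · rw [lv_true, E1_LtoG_of]
      exact h3 g _ hne

theorem E1_step (f : ℕ → ℤ) (n : ℕ) (hn : 1 ≤ n) (h : f n < f 1) : ∃ l, 1 ≤ l ∧ l < n ∧ f (l + 1) < f l := by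
  by_contra hcon
  push Not at hcon
  have key : ∀ k, 1 ≤ k → k ≤ n → f 1 ≤ f k := by
    intro k hk
    induction k, hk using Nat.le_induction with
    | base => intro _; exact le_refl _
    | succ k hk ih =>
      intro hk2
      exact (ih (by omega)).trans (hcon k hk (by omega))
  have := key n hn (le_refl _)
  omega

theorem E1_take (w : Wd GG) (l : ℕ) (hl : l < w.length) :
    val gg (w.take (l + 1)) = val gg (w.take l) * lv gg (w[l]) := by
  rw [List.take_succ_eq_append_getElem hl, val_append, val_singleton]

/-- Lemma 2. w starts with tau or tau^{-1}, has value in L, and no proper nonempty initial piece of w has value in L.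
Then the value is in H = range iG. Wall W1. -/
theorem first_return (w : Wd GG) (b : Bool) (hw : w.head? = some (GG.tau, b)) (u : L) (hu : val gg w = LtoG u)
    (hmin : ∀ l, 0 < l → l < w.length → ∀ v : L, val gg (w.take l) ≠ LtoG v) : ∃ h : F, val gg w = iG h := by
  obtain ⟨σ, h1, h2, h3⟩ := wall_tau
  obtain ⟨w', rfl⟩ : ∃ w', w = (GG.tau, b) :: w' := by
    cases w with
    | nil => simp at hw
    | cons y w' =>
      simp only [List.head?_cons, Option.some.injEq] at hw
      exact ⟨w', by rw [hw]⟩
  set w : Wd GG := (GG.tau, b) :: w' with hwdef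
  have hlen : 1 ≤ w.length := by simp [hwdef]
  have hfull : w.take w.length = w := List.take_length
  have htau : ∀ g : G, (∃ h : F, g = iG (phi h)) → σ (g * gg GG.tau) = σ g + 1 := by
    intro g hg
    rw [h2, if_pos hg]
  have hnt : ∀ g : G, ¬ (∃ h : F, g = iG (phi h)) → σ (g * gg GG.tau) = σ g := by
    intro g hg
    rw [h2, if_neg hg, add_zero]
  have hone : σ (gg GG.tau) = 1 := by
    have h := htau 1 ⟨1, by simp⟩
    rw [one_mul, h1] at h
    simpa using h
  have hfin : ∀ l, 0 < l → l ≤ w.length → (∃ h : F, val gg (w.take l) = iG h) → ∃ h : F, val gg w = iG h := by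
    rintro l hl0 hl ⟨h, hh⟩
    rcases lt_or_eq_of_le hl with hlt | heq
    · exact absurd (hh.trans (LtoG_iL_iF h).symm) (hmin l hl0 hlt _)
    · rw [heq, hfull] at hh
      exact ⟨h, hh⟩
  cases b
  · -- b = false
    have hfn : σ (gg GG.tau * val gg (w.take w.length)) = 1 := by
      rw [hfull, hu, E1_LtoG σ h3, hone]
    have hf1 : σ (gg GG.tau * val gg (w.take 1)) = 0 := by
      have e : w.take 1 = [(GG.tau, false)] := by simp [hwdef]
      rw [e, val_singleton, lv_false, mul_inv_cancel, h1]
    obtain ⟨l, hl1, hl2, hl3⟩ := E1_step (fun l => - σ (gg GG.tau * val gg (w.take l))) w.length hlen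
      (by simp only [hfn, hf1]; norm_num)
    simp only [neg_lt_neg_iff] at hl3
    have ht := E1_take w l hl2
    rcases hy : w[l] with ⟨i, c⟩
    rw [hy] at ht
    rw [ht, ← mul_assoc] at hl3
    set x : G := val gg (w.take l) with hx
    by_cases hi : i = GG.tau
    · subst hi
      cases c
      · rw [lv_false] at hl3
        exfalso
        by_cases hg : ∃ h : F, gg GG.tau * x * (gg GG.tau)⁻¹ = iG (phi h)
        · have := htau _ hg
          rw [inv_mul_cancel_right] at this
          omega
        · have := hnt _ hg
          rw [inv_mul_cancel_right] at this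
          omega
      · rw [lv_true] at hl3
        by_cases hg : ∃ h : F, gg GG.tau * x = iG (phi h)
        · obtain ⟨h, hh⟩ := hg
          refine hfin (l + 1) (by omega) (by omega) ⟨h, ?_⟩
          rw [ht, lv_true]
          have hc := tau_conj h
          rw [← hh] at hc
          have hc2 : gg GG.tau * iG h * (gg GG.tau)⁻¹ = gg GG.tau * (x * gg GG.tau) * (gg GG.tau)⁻¹ := by
            rw [hc]; group
          exact (mul_left_cancel (mul_right_cancel hc2)).symm
        · have := hnt _ hg
          omega
    · exfalso
      cases c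
      · rw [lv_false, E1_inv σ h3 _ i hi] at hl3
        omega
      · rw [lv_true, h3 _ i hi] at hl3
        omega
  · -- b = true
    have hfn : σ (val gg (w.take w.length)) = 0 := by
      rw [hfull, hu]
      have := E1_LtoG σ h3 1 u
      rw [one_mul, h1] at this
      exact this
    have hf1 : σ (val gg (w.take 1)) = 1 := by
      have e : w.take 1 = [(GG.tau, true)] := by simp [hwdef]
      rw [e, val_singleton, lv_true, hone]
    obtain ⟨l, hl1, hl2, hl3⟩ := E1_step (fun l => σ (val gg (w.take l))) w.length hlen
      (by simp only [hfn, hf1]; norm_num)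
    have ht := E1_take w l hl2
    rcases hy : w[l] with ⟨i, c⟩
    rw [hy] at ht
    rw [ht] at hl3
    set x : G := val gg (w.take l) with hx
    by_cases hi : i = GG.tau
    · subst hi
      cases c
      · rw [lv_false] at hl3
        by_cases hg : ∃ h : F, x * (gg GG.tau)⁻¹ = iG (phi h)
        · obtain ⟨h, hh⟩ := hg
          refine hfin (l + 1) (by omega) (by omega) ⟨phi h, ?_⟩
          rw [ht, lv_false, hh]
        · have := hnt _ hg
          rw [inv_mul_cancel_right] at this
          omega
      · rw [lv_true] at hl3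
        exfalso
        by_cases hg : ∃ h : F, x = iG (phi h)
        · have := htau _ hg
          omega
        · have := hnt _ hg
          omega
    · exfalso
      cases c
      · rw [lv_false, E1_inv σ h3 _ i hi] at hl3
        omega
      · rw [lv_true, h3 _ i hi] at hl3
        omega

end Dae
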