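import Pool.Agent.Lib.MP_dae6d7_al.E1

/-! Row E2a. (Sections refer to the paper /team-store/dae6d7_paper.md.)

Strong induction on n. w = []: w' = []. First letter y of L (not tau): w = y :: w1, val w1 = LtoG (y^{-1} u), w1' by induction, w' = y :: w1',
l' = l'_1 + 1. First letter tau^{+-1}: let r >= 1 be the first time > 0 with val (w.take r) in range LtoG (exists: w.length). first_return:
val (w.take r) = iG h. w' = (word of h in the letters LG.x) ++ w2', w2' for w.drop r. For l inside the word of h: l' = 0 (value 1), the element
iG (mk (h.toWord.take l)); for l >= |h|: l' = r + l'_2. (When w.drop r = [] and l = w'.length use l' = w.length, h = 1.) cntE of the word of h is 0.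
-/

namespace Dae

/-- the word of `h` in the letters `LG.x` -/
def E2a_fw (w : List (X6 × Bool)) : Wd LG := w.map (fun y => (LG.x y.1, y.2))

theorem E2a_val (w : List (X6 × Bool)) : val lg (E2a_fw w) = iL (iF (FreeGroup.mk w)) := by
  unfold E2a_fw
  rw [val_map, val_eq_lift]
  have h : (FreeGroup.lift (lg ∘ LG.x) : F →* L) = iL.comp iF := by
    ext y
    simp [iL, iF]
  rw [h]
  rfl

theorem E2a_cnt (w : List (X6 × Bool)) : cntE (E2a_fw w) = 0 := by
  unfold cntE E2a_fw
  rw [List.countP_eq_zero]
  intro y hy
  obtain ⟨x, _, rfl⟩ := List.mem_map.1 hy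
  simp

theorem E2a_take (w : List (X6 × Bool)) (l : ℕ) : (E2a_fw w).take l = E2a_fw (w.take l) := by
  unfold E2a_fw
  rw [List.map_take]

theorem E2a_letter (y0 : GG × Bool) (h : y0.1 ≠ GG.tau) : ∃ z : LG, lv gg y0 = LtoG (lv lg (z, y0.2)) ∧
    ((z = LG.p ∨ z = LG.q) → (y0.1 = GG.p ∨ y0.1 = GG.q)) := by
  rcases y0 with ⟨i, b⟩
  cases i with
  | p => exact ⟨LG.p, by cases b <;> simp [lv, lg, LtoG], fun _ => Or.inl rfl⟩
  | q => exact ⟨LG.q, by cases b <;> simp [lv, lg, LtoG], fun _ => Or.inr rfl⟩
  | s => exact ⟨LG.s, by cases b <;> simp [lv, lg, LtoG], by simp⟩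
  | t => exact ⟨LG.t, by cases b <;> simp [lv, lg, LtoG], by simp⟩
  | tau => exact absurd rfl h
  | x y => exact ⟨LG.x y, by cases b <;> simp [lv, lg, LtoG], by simp⟩

/-- Lemma 3, general form: start anywhere in L. Induction on the length of w: a letter of L is kept; tau^{+-1}:
take the first return to L (it exists since the value is in L), replace this excursion by the word of h. -/
theorem trace_aux (n : ℕ) : ∀ (w : Wd GG) (u : L), w.length = n → val gg w = LtoG u →
    ∃ w' : Wd LG, val lg w' = u ∧ cntE w' ≤ cntG w ∧
    (∀ l, l ≤ w'.length → ∃ l' h, l' ≤ w.length ∧ LtoG (val lg (w'.take l)) = val gg (w.take l') * iG h ∧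
      (∃ v : L, val gg (w.take l') = LtoG v) ∧ (l < w'.length → l' < w.length)) ∧
    (∀ l, (hl : l < w'.length) → (∀ y, w'[l].1 ≠ LG.x y) → ∃ l', l' < w.length ∧
      LtoG (val lg (w'.take l)) = val gg (w.take l')) := by
  induction n using Nat.strong_induction_on with
  | _ n ih =>
  intro w u hn hu
  rcases w with _ | ⟨y0, w1⟩
  · have hu1 : u = 1 := by
      apply LtoG_injective
      rw [← hu, val_nil, map_one]
    refine ⟨[], by rw [hu1, val_nil], by simp [cntE, cntG], ?_, ?_⟩
    · intro l hl
      refine ⟨0, 1, le_refl _, ?_, ⟨1, ?_⟩, ?_⟩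
      · simp
      · simp
      · intro h
        simp at h
    · intro l hl
      simp at hl
  · by_cases hy : y0.1 = GG.tau
    · -- an excursion
      classical
      set w : Wd GG := y0 :: w1 with hw
      have hlen : 0 < w.length := by rw [hw]; simp
      have hex : ∃ r, 0 < r ∧ r ≤ w.length ∧ ∃ v : L, val gg (w.take r) = LtoG v :=
        ⟨w.length, hlen, le_refl _, u, by rw [List.take_length, hu]⟩
      obtain ⟨hr0, hr1, v, hv⟩ := Nat.find_spec hex
      have hmin : ∀ l, l < Nat.find hex → ¬ (0 < l ∧ l ≤ w.length ∧ ∃ v : L, val gg (w.take l) = LtoG v) :=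
        fun l hl => Nat.find_min hex hl
      generalize Nat.find hex = r at hr0 hr1 hv hmin
      have hlr : (w.take r).length = r := by rw [List.length_take, min_eq_left hr1]
      obtain ⟨h, hh⟩ := first_return (w.take r) y0.2 (by
          obtain ⟨r', rfl⟩ : ∃ r', r = r' + 1 := ⟨r - 1, by omega⟩
          rw [hw, List.take_succ_cons, List.head?_cons, ← hy]) v hv (by
          intro l h0 hl v' hv'
          rw [hlr] at hl
          rw [List.take_take, min_eq_left hl.le] at hv'
          exact hmin l hl ⟨h0, by omega, v', hv'⟩)
      have hsplit : val gg w = iG h * val gg (w.drop r) := by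
        conv_lhs => rw [← List.take_append_drop r w]
        rw [val_append, hh]
      have hv2 : val gg (w.drop r) = LtoG ((iL (iF h))⁻¹ * u) := by
        rw [map_mul, map_inv, LtoG_iL_iF, ← hu, hsplit, inv_mul_cancel_left]
      have hld : (w.drop r).length = w.length - r := List.length_drop
      obtain ⟨w2, a1, a2, a3, a4⟩ := ih (w.drop r).length (by rw [hld]; omega) (w.drop r) _ rfl hv2
      have hfv : val lg (E2a_fw h.toWord) = iL (iF h) := by rw [E2a_val, FreeGroup.mk_toWord]
      have htk : ∀ l', val gg (w.take (r + l')) = iG h * val gg ((w.drop r).take l') := by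
        intro l'
        rw [← hh, ← val_append]
        congr 1
        rw [List.take_add]
      refine ⟨E2a_fw h.toWord ++ w2, ?_, ?_, ?_, ?_⟩
      · rw [val_append, hfv, a1, mul_inv_cancel_left]
      · have e1 : cntE (E2a_fw h.toWord ++ w2) = cntE w2 := by
          unfold cntE
          rw [List.countP_append]
          have := E2a_cnt h.toWord
          unfold cntE at this
          rw [this, zero_add]
        rw [e1]
        refine a2.trans ?_
        unfold cntG
        exact (List.drop_sublist r w).countP_le
      · intro l hl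
        rw [List.length_append] at hl
        by_cases hl2 : l < (E2a_fw h.toWord).length
        · refine ⟨0, FreeGroup.mk (h.toWord.take l), Nat.zero_le _, ?_, ⟨1, by simp⟩, fun _ => hlen⟩
          rw [List.take_append_of_le_length hl2.le, E2a_take, E2a_val, LtoG_iL_iF, List.take_zero, val_nil,
            one_mul]
        · obtain ⟨l2, rfl⟩ : ∃ l2, l = (E2a_fw h.toWord).length + l2 :=
            ⟨l - (E2a_fw h.toWord).length, by omega⟩
          obtain ⟨l', h2, b1, b2, ⟨v2, b3⟩, b4⟩ := a3 l2 (by omega)
          refine ⟨r + l', h2, by omega, ?_, ⟨iL (iF h) * v2, ?_⟩, ?_⟩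
          · rw [List.take_length_add_append, val_append, hfv, map_mul, LtoG_iL_iF, b2, htk, mul_assoc]
          · rw [htk, b3, map_mul, LtoG_iL_iF]
          · intro h3
            rw [List.length_append] at h3
            have := b4 (by omega)
            omega
      · intro l hl hx
        have hl1 : l < (E2a_fw h.toWord).length + w2.length := by rw [List.length_append] at hl; exact hl
        by_cases hl2 : l < (E2a_fw h.toWord).length
        · exfalso
          rw [List.getElem_append_left hl2] at hx
          have h5 : (E2a_fw h.toWord)[l] ∈ E2a_fw h.toWord := List.getElem_mem hl2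
          obtain ⟨x, _, hx2⟩ := List.mem_map.1 h5
          exact hx x.1 (by rw [← hx2])
        · obtain ⟨l2, rfl⟩ : ∃ l2, l = (E2a_fw h.toWord).length + l2 :=
            ⟨l - (E2a_fw h.toWord).length, by omega⟩
          have hl3 : l2 < w2.length := by omega
          obtain ⟨l', b1, b2⟩ := a4 l2 hl3 (by
            intro y
            have h6 := hx y
            rw [List.getElem_append_right (by omega)] at h6
            simpa using h6)
          refine ⟨r + l', by omega, ?_⟩
          rw [List.take_length_add_append, val_append, hfv, map_mul, LtoG_iL_iF, b2, htk]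
    · -- a letter of L
      obtain ⟨z, hz, hz2⟩ := E2a_letter y0 hy
      have hv2 : val gg w1 = LtoG ((lv lg (z, y0.2))⁻¹ * u) := by
        rw [map_mul, map_inv, ← hz, ← hu, val_cons, inv_mul_cancel_left]
      have hn1 : w1.length < n := by rw [← hn, List.length_cons]; omega
      obtain ⟨w2, a1, a2, a3, a4⟩ := ih w1.length hn1 w1 _ rfl hv2
      refine ⟨(z, y0.2) :: w2, ?_, ?_, ?_, ?_⟩
      · rw [val_cons, a1, mul_inv_cancel_left]
      · unfold cntE cntG at *
        rw [List.countP_cons, List.countP_cons]
        by_cases hc : z = LG.p ∨ z = LG.q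
        · have hc2 := hz2 hc
          rw [if_pos (by simpa using hc), if_pos (by simpa using hc2)]
          omega
        · rw [if_neg (by simpa using hc)]
          omega
      · intro l hl
        rcases l with _ | l
        · exact ⟨0, 1, Nat.zero_le _, by simp, ⟨1, by simp⟩, fun _ => by simp⟩
        · rw [List.length_cons] at hl
          obtain ⟨l', h2, b1, b2, ⟨v2, b3⟩, b4⟩ := a3 l (by omega)
          refine ⟨l' + 1, h2, by rw [List.length_cons]; omega, ?_, ⟨lv lg (z, y0.2) * v2, ?_⟩, ?_⟩
          · rw [List.take_succ_cons, List.take_succ_cons, val_cons, val_cons, map_mul, b2, hz, mul_assoc]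
          · rw [List.take_succ_cons, val_cons, b3, map_mul, hz]
          · intro h3
            rw [List.length_cons] at h3 ⊢
            have := b4 (by omega)
            omega
      · intro l hl hx
        rcases l with _ | l
        · exact ⟨0, by simp, by simp⟩
        · rw [List.length_cons] at hl
          obtain ⟨l', b1, b2⟩ := a4 l (by omega) (by
            intro y
            have h6 := hx y
            simpa using h6)
          refine ⟨l' + 1, by rw [List.length_cons]; omega, ?_⟩
          rw [List.take_succ_cons, List.take_succ_cons, val_cons, val_cons, map_mul, b2, hz]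

end Dae
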