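import Pool.Agent.Lib.MP_dae6d7_al.E2a

/-! Row E2b. (Sections refer to the paper /team-store/dae6d7_paper.md.)

w = (LGG y.1, y.2) :: w1; apply trace_aux to w1 with u1 = (lv lg y)^{-1} u; w' = y :: w1'; shift the indices by one.
-/

namespace Dae

theorem E2b_letter (z : LG) (b : Bool) : lv gg (LGG z, b) = LtoG (lv lg (z, b)) := by
  cases z <;> cases b <;> simp [lv, lg, gg, LtoG, LGG]

/-- Lemma 3 -/
theorem trace (w : Wd GG) (u : L) (hu : val gg w = LtoG u) (y : LG × Bool)
    (hy : w.head? = some (LGG y.1, y.2)) :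
    ∃ w' : Wd LG, val lg w' = u ∧ cntE w' ≤ cntG w ∧ w'.head? = some y ∧
    (∀ l, 0 < l → l < w'.length → ∃ l' h, 0 < l' ∧ l' < w.length ∧
      LtoG (val lg (w'.take l)) = val gg (w.take l') * iG h) ∧
    (∀ l, (hl : l < w'.length) → (∀ y, w'[l].1 ≠ LG.x y) → ∃ l', l' < w.length ∧
      LtoG (val lg (w'.take l)) = val gg (w.take l')) := by
  obtain ⟨z, b⟩ := y
  rcases w with _ | ⟨y0, w1⟩
  · simp at hy
  · have hy0 : y0 = (LGG z, b) := by simpa using hy
    subst hy0
    have hz := E2b_letter z b
    have hv2 : val gg w1 = LtoG ((lv lg (z, b))⁻¹ * u) := by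
      rw [map_mul, map_inv, ← hz, ← hu, val_cons, inv_mul_cancel_left]
    obtain ⟨w2, a1, a2, a3, a4⟩ := trace_aux w1.length w1 _ rfl hv2
    refine ⟨(z, b) :: w2, ?_, ?_, by simp, ?_, ?_⟩
    · rw [val_cons, a1, mul_inv_cancel_left]
    · unfold cntE cntG at *
      rw [List.countP_cons, List.countP_cons]
      have hc : ((z = LG.p ∨ z = LG.q) ↔ (LGG z = GG.p ∨ LGG z = GG.q)) := by
        cases z <;> simp [LGG]
      by_cases hc1 : z = LG.p ∨ z = LG.q
      · have hc2 := hc.1 hc1
        rw [if_pos (by simpa using hc1), if_pos (by simpa using hc2)]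
        omega
      · rw [if_neg (by simpa using hc1)]
        omega
    · intro l hl0 hl
      rcases l with _ | l
      · exact absurd hl0 (lt_irrefl _)
      · rw [List.length_cons] at hl
        obtain ⟨l', h2, b1, b2, ⟨v2, b3⟩, b4⟩ := a3 l (by omega)
        refine ⟨l' + 1, h2, by omega, ?_, ?_⟩
        · rw [List.length_cons]
          have := b4 (by omega)
          omega
        · rw [List.take_succ_cons, List.take_succ_cons, val_cons, val_cons, map_mul, b2, hz, mul_assoc]
    · intro l hl hx
      rcases l with _ | l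
      · exact ⟨0, by simp, by simp⟩
      · rw [List.length_cons] at hl
        obtain ⟨l', b1, b2⟩ := a4 l (by omega) (by
          intro y
          have h6 := hx y
          simpa using h6)
        refine ⟨l' + 1, by rw [List.length_cons]; omega, ?_⟩
        rw [List.take_succ_cons, List.take_succ_cons, val_cons, val_cons, map_mul, b2, hz]

end Dae
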