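import Pool.Agent.Lib.MP_dae6d7_al.GHoms

/-! Offsets: the subgroup E = Z[i] of L, edge groups, lattices, counting letters. -/

namespace Dae

/-- the element p^m q^n of L, for z = m + n i -/
def ee (z : GaussianInt) : L := lg LG.p ^ z.re * lg LG.q ^ z.im

def pG : GaussianInt := ⟨2, 1⟩
def qG : GaussianInt := ⟨2, -1⟩

/-- letters of F' as letters of L -/
def emb : FG → LG
  | .s => LG.s | .t => LG.t | .x y => LG.x y

/-- signed version -/
def embs (y : FG × Bool) : LG × Bool := (emb y.1, y.2)

/-- letters of L as letters of G -/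
def LGG : LG → GG
  | .p => GG.p | .q => GG.q | .s => GG.s | .t => GG.t | .x y => GG.x y

/-- values of the letters of F' in L -/
def lf (y : FG) : L := lg (emb y)

/-- offsets which can cross the signed letter y -/
def EY (y : FG × Bool) (z : GaussianInt) : Prop :=
  match y.1 with
  | .s => True
  | .t => z = 0
  | .x w => if isC w then True else if y.2 then pG ∣ z else qG ∣ z

/-- number of letters p, q of a word of L -/
def cntE (w : Wd LG) : ℕ := w.countP (fun y => decide (y.1 = LG.p ∨ y.1 = LG.q))

/-- number of letters p, q of a word of G -/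
def cntG (w : Wd GG) : ℕ := w.countP (fun y => decide (y.1 = GG.p ∨ y.1 = GG.q))

/-- the lattice pi^be pibar^{-al} Z[i] -/
def Lam (al be : ℤ) : Set ℂ :=
  {z | ∃ w : GaussianInt, z = (2 + Complex.I) ^ be * (2 - Complex.I) ^ (-al) * GaussianInt.toComplex w}

/-- total variation of a finite sequence -/
noncomputable def TV (ζ : ℕ → ℂ) (n : ℕ) : ℝ := ∑ u ∈ Finset.range (n - 1), ‖ζ (u + 1) - ζ u‖

end Dae
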