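import Pool.Agent.Lib.MP_dae6d7_al.FDefs
import Pool.Agent.Lib.MP_dae6d7_al.D2b

/-! Row F1a. (Sections refer to the paper /team-store/dae6d7_paper.md.)

pre (b+1) = pre b ++ blk b, blk has length 2 m + 2. gam_eq: for n <= S b, pre n and pre b are comparable (pre a is an initial piece of pre b for
a <= b) and both have length >= n. W_succ: val gg (blk b) = tau^m c tau^{-m} sep, and tau^m iG c tau^{-m} = iG (phn m c) (tau_conj iterated).
-/

namespace Dae
namespace Ray
variable (R : Ray)

theorem F1a_pre_succ (b : ℕ) : R.pre (b + 1) = R.pre b ++ R.blk b := rfl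

theorem F1a_blk_length (b : ℕ) : (R.blk b).length = 2 * R.m b + 2 := by
  unfold blk
  simp only [List.length_append, List.length_replicate, List.length_cons, List.length_nil]
  omega

theorem S_zero : R.S 0 = 0 := rfl

theorem S_succ (b : ℕ) : R.S (b + 1) = R.S b + (2 * R.m b + 2) := by
  unfold S
  rw [F1a_pre_succ, List.length_append, F1a_blk_length]

theorem le_S (n : ℕ) : n ≤ R.S n := by
  induction n with
  | zero => exact Nat.zero_le _
  | succ n ih => rw [S_succ]; omega

theorem S_mono {a b : ℕ} (h : a ≤ b) : R.S a ≤ R.S b := by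
  have : Monotone R.S := monotone_nat_of_le_succ (fun n => by rw [S_succ]; omega)
  exact this h

theorem exists_block (n : ℕ) : ∃ b, R.S b ≤ n ∧ n < R.S (b + 1) := by
  classical
  have hex : ∃ b, n < R.S (b + 1) := ⟨n, by have := R.le_S (n + 1); omega⟩
  refine ⟨Nat.find hex, ?_, Nat.find_spec hex⟩
  rcases Nat.eq_zero_or_pos (Nat.find hex) with h0 | h0
  · rw [h0, S_zero]; exact Nat.zero_le _
  · have h1 := Nat.find_min hex (m := Nat.find hex - 1) (by omega)
    have h2 : Nat.find hex - 1 + 1 = Nat.find hex := by omega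
    rw [h2] at h1
    exact not_lt.mp h1

theorem F1a_pre_prefix {a b : ℕ} (h : a ≤ b) : R.pre a <+: R.pre b := by
  induction b, h using Nat.le_induction with
  | base => exact List.prefix_refl _
  | succ b _ ih =>
    rw [F1a_pre_succ]
    exact ih.trans (List.prefix_append _ _)

theorem F1a_take_eq {a b n : ℕ} (h : a ≤ b) (hn : n ≤ R.S a) : (R.pre b).take n = (R.pre a).take n := by
  obtain ⟨t, ht⟩ := R.F1a_pre_prefix h
  rw [← ht, List.take_append_of_le_length hn]

theorem gam_eq (n b : ℕ) (h : n ≤ R.S b) : R.gam n = val gg ((R.pre b).take n) := by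
  unfold gam
  rcases le_total n b with hnb | hnb
  · rw [R.F1a_take_eq hnb (R.le_S n)]
  · rw [R.F1a_take_eq hnb h]

theorem gam_zero : R.gam 0 = 1 := by
  unfold gam
  simp

theorem gam_S (b : ℕ) : R.gam (R.S b) = R.W b := by
  rw [R.gam_eq _ b (le_refl _)]
  unfold S W
  rw [List.take_length]

theorem W_zero : R.W 0 = 1 := by
  unfold W
  change val gg [] = 1
  simp

theorem F1a_val_replicate {ι Γ : Type} [Group Γ] (g : ι → Γ) (y : ι × Bool) (n : ℕ) :
    val g (List.replicate n y) = lv g y ^ n := by
  induction n with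
  | zero => simp
  | succ n ih => rw [List.replicate_succ, val_cons, ih, pow_succ']

theorem F1a_tau_conj (m : ℕ) (h : F) : gg GG.tau ^ m * iG h * (gg GG.tau ^ m)⁻¹ = iG (phn m h) := by
  induction m generalizing h with
  | zero => simp [phn]
  | succ m ih =>
    have h1 : phn (m + 1) h = phn m (phi h) := by
      unfold phn
      rw [Function.iterate_succ_apply]
    rw [h1, ← ih (phi h), ← tau_conj h, pow_succ]
    group

theorem F1a_iG_of (y : X6) : iG (FreeGroup.of y) = gg (GG.x y) := by
  unfold iG
  simp [iK, kg, KtoG]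

theorem W_succ (b : ℕ) : R.W (b + 1) = R.W b * iG (wm (R.m b)) * lv gg (R.sep b) := by
  unfold W
  rw [F1a_pre_succ, val_append]
  have h1 : val gg (R.blk b) = iG (wm (R.m b)) * lv gg (R.sep b) := by
    unfold blk wm
    rw [← F1a_tau_conj, F1a_iG_of]
    simp only [val_append, F1a_val_replicate, val_singleton, lv_true, lv_false, inv_pow]
  rw [h1, mul_assoc]

theorem gam_succ (n : ℕ) : ∃ y : GG × Bool, R.gam (n + 1) = R.gam n * lv gg y := by
  have h1 := R.le_S (n + 1)
  have h2 : n < (R.pre (n + 1)).length := lt_of_lt_of_le (Nat.lt_succ_self n) h1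
  refine ⟨(R.pre (n + 1))[n], ?_⟩
  rw [R.gam_eq n (n + 1) (by omega), R.gam_eq (n + 1) (n + 1) h1, List.take_succ_eq_append_getElem h2,
    val_append, val_singleton]

end Ray
end Dae
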