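import Pool.Agent.Lib.MP_dae6d7_al.F1a
import Pool.Agent.Lib.MP_dae6d7_al.C1b
import Pool.Agent.Lib.MP_dae6d7_al.A1b

/-! Row F1c. (Sections refer to the paper /team-store/dae6d7_paper.md.)

chi (W b) = b, NG (W b) = 0 from W_succ. pt_inj: chi, then NG, then injectivity (hp_inj, KtoG_injective). pt_*: hp_mul, hp_tau, hp_tau_inv.
W_slow: induction with W_succ (iG (wm m) = LtoG (iL (iF (wm m))), word of wm m = sbn m [c]).
-/

namespace Dae

theorem F1c_val_fx (u : Wd X6) : LtoG (val lf (fx u)) = iG (FreeGroup.mk u) := by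
  have h1 : val lf (fx u) = val (lf ∘ FG.x) u := val_map FG.x lf u
  rw [h1, map_val, iG, MonoidHom.coe_comp, Function.comp_apply, iK_eq_val, map_val]
  congr 1

theorem F1c_NG_iG (h : F) : NG (iG h) = 0 := by
  rw [iG, MonoidHom.coe_comp, Function.comp_apply, NG_KtoG, NK_iK]

theorem F1c_chi_iG (h : F) : chi (iG h) = 0 := by
  rw [iG, MonoidHom.coe_comp, Function.comp_apply, chi_KtoG]

theorem F1c_kt : KtoG kt = gg GG.tau := by
  unfold KtoG kt kg
  exact PG.lift_of _ _ _

namespace Ray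
variable (R : Ray)

theorem F1c_NG_sep (b : ℕ) : NG (lv gg (R.sep b)) = 0 := by
  have h1 : NG (gg GG.s) = 0 := by
    unfold NG NGh
    rw [MonoidHom.coe_comp, Function.comp_apply]
    have : rhoK (gg GG.s) = 1 := by
      unfold rhoK gg
      exact PG.lift_of _ _ _
    rw [this, map_one]
    rfl
  have h2 : NG (gg GG.t) = 0 := by
    unfold NG NGh
    rw [MonoidHom.coe_comp, Function.comp_apply]
    have : rhoK (gg GG.t) = 1 := by
      unfold rhoK gg
      exact PG.lift_of _ _ _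
    rw [this, map_one]
    rfl
  unfold sep
  split_ifs
  · rw [lv_true, h1]
  · rw [lv_true, h2]

theorem F1c_chi_sep (b : ℕ) : chi (lv gg (R.sep b)) = 1 := by
  have h1 : chi (gg GG.s) = 1 := by
    unfold chi chih gg
    rw [PG.lift_of]
    rfl
  have h2 : chi (gg GG.t) = 1 := by
    unfold chi chih gg
    rw [PG.lift_of]
    rfl
  unfold sep
  split_ifs
  · rw [lv_true, h1]
  · rw [lv_true, h2]

theorem chi_W (b : ℕ) : chi (R.W b) = b := by
  induction b with
  | zero => rw [W_zero, chi_one]; rfl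
  | succ b ih =>
    rw [W_succ, chi_mul, chi_mul, ih, F1c_chi_iG, F1c_chi_sep]
    push_cast
    ring

theorem NG_W (b : ℕ) : NG (R.W b) = 0 := by
  induction b with
  | zero => rw [W_zero, NG_one]
  | succ b ih =>
    rw [W_succ, NG_mul, NG_mul, ih, F1c_NG_iG, F1c_NG_sep]
    ring

theorem NG_pt (b : ℕ) (i : ℤ) (x : F) : NG (R.pt b i x) = i := by
  rw [pt, NG_mul, NG_W, NG_KtoG, NK_hp]
  ring

theorem chi_pt (b : ℕ) (i : ℤ) (x : F) : chi (R.pt b i x) = b := by
  rw [pt, chi_mul, chi_W, chi_KtoG]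
  ring

theorem pt_inj {b b' : ℕ} {i i' : ℤ} {x x' : F} (h : R.pt b i x = R.pt b' i' x') : b = b' ∧ i = i' ∧ x = x' := by
  have h1 : b = b' := by
    have h2 := congrArg chi h
    rw [chi_pt, chi_pt] at h2
    exact_mod_cast h2
  subst h1
  have h3 : KtoG (hp i x) = KtoG (hp i' x') := mul_left_cancel h
  have h4 := hp_inj (KtoG_injective h3)
  exact ⟨rfl, h4.1, h4.2⟩

theorem pt_mul (b : ℕ) (i : ℤ) (x h : F) : R.pt b i x * iG h = R.pt b i (x * h) := by
  rw [pt, pt, mul_assoc, iG, MonoidHom.coe_comp, Function.comp_apply, ← map_mul, hp_mul]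

theorem pt_tau (b : ℕ) (i : ℤ) (x : F) : R.pt b i (phi x) * gg GG.tau = R.pt b (i + 1) x := by
  rw [pt, pt, mul_assoc, ← F1c_kt, ← map_mul, hp_tau]

theorem pt_tau_inv (b : ℕ) (i : ℤ) (x : F) : R.pt b i x * (gg GG.tau)⁻¹ = R.pt b (i - 1) (phi x) := by
  rw [pt, pt, mul_assoc, ← F1c_kt, ← map_inv, ← map_mul, hp_tau_inv]

theorem pt_sep (b : ℕ) : R.pt b 0 (wm (R.m b)) * lv gg (R.sep b) = R.pt (b + 1) 0 1 := by
  have h1 : ∀ x : F, hp 0 x = iK x := by
    intro x
    unfold hp
    rw [zpow_zero, one_mul]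
  rw [pt, pt, W_succ, h1, h1, map_one, map_one, mul_one, iG, MonoidHom.coe_comp, Function.comp_apply]

theorem W_slow (b : ℕ) : R.W b = LtoG (val lf (R.slow b)) := by
  induction b with
  | zero => rw [W_zero, slow, val_nil, map_one]
  | succ b ih =>
    have h1 : (wm (R.m b)) = FreeGroup.mk (sbn (R.m b) [(X6.c, true)]) := by
      have h2 : (wm (R.m b)).toWord = sbn (R.m b) [(X6.c, true)] := by
        rw [wm, toWord_phn]
        rfl
      rw [← h2, FreeGroup.mk_toWord]
    have h3 : lv gg (R.sep b) = LtoG (val lf [R.sepF b]) := by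
      unfold sep sepF
      split_ifs
      · rw [val_singleton, lv_true, lv_true]
        unfold LtoG lf lg
        rw [PG.lift_of]
        rfl
      · rw [val_singleton, lv_true, lv_true]
        unfold LtoG lf lg
        rw [PG.lift_of]
        rfl
    rw [W_succ, slow, val_append, val_append, map_mul, map_mul, ← ih, F1c_val_fx, ← h1, h3]

end Ray
end Dae
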