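import Pool.Agent.Lib.MP_dae6d7_al.F1a
import Pool.Agent.Lib.MP_dae6d7_al.F1c
import Pool.Agent.Lib.MP_dae6d7_al.A1b

/-! Row F1b. (Sections refer to the paper /team-store/dae6d7_paper.md.)

gam (S b + i) = W b * tau^i for i <= m; gam (S b + m + 1 + k) = W b * tau^m c tau^{-k} (k <= m) and tau^m c tau^{-k} = tau^{m-k} iG(phn k c)
(k = m - i). pt b i x = W b * KtoG (kt^i * iK x).
-/

namespace Dae
namespace Ray
variable (R : Ray)

/-- the ray inside a block -/
theorem F1b_gam (b r : ℕ) (hr : r ≤ 2 * R.m b + 2) :
    R.gam (R.S b + r) = R.W b * val gg ((R.blk b).take r) := by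
  have h1 : R.S b + r ≤ R.S (b + 1) := by rw [R.S_succ]; omega
  rw [R.gam_eq _ _ h1]
  have h2 : R.pre (b + 1) = R.pre b ++ R.blk b := rfl
  have h3 : (R.pre b).length = R.S b := rfl
  rw [h2, List.take_append, h3, List.take_of_length_le (by rw [h3]; omega),
    show R.S b + r - R.S b = r by omega, val_append]
  rfl

theorem F1b_val_rep (n : ℕ) (y : GG × Bool) : val gg (List.replicate n y) = lv gg y ^ n := by
  induction n with
  | zero => simp
  | succ n ih => rw [List.replicate_succ, val_cons, ih, pow_succ']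

theorem F1b_KtoG_hp (i : ℕ) (x : F) : KtoG (hp i x) = gg GG.tau ^ i * iG x := by
  have h1 : KtoG kt = gg GG.tau := by simp [KtoG, kt, kg]
  unfold hp
  rw [map_mul, zpow_natCast, map_pow, h1]
  rfl

/-- first half of the block -/
theorem gam_up (b i : ℕ) (hi : i ≤ R.m b) : R.gam (R.S b + i) = R.pt b i 1 := by
  rw [R.F1b_gam b i (by omega)]
  unfold pt
  rw [F1b_KtoG_hp, map_one, mul_one]
  congr 1
  unfold blk
  rw [List.append_assoc, List.append_assoc, List.take_append, List.length_replicate,
    show i - R.m b = 0 by omega, List.take_zero, List.append_nil, List.take_replicate,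
    min_eq_left hi, F1b_val_rep, lv_true]

theorem F1b_down (b k : ℕ) : R.pt b (R.m b : ℕ) (FreeGroup.of X6.c) * ((gg GG.tau)⁻¹) ^ k =
    R.pt b ((R.m b : ℤ) - k) (phn k (FreeGroup.of X6.c)) := by
  induction k with
  | zero => simp [phn]
  | succ k ih =>
    rw [pow_succ, ← mul_assoc, ih, R.pt_tau_inv, ← phn_succ]
    congr 1
    push_cast
    ring

/-- second half of the block -/
theorem gam_down (b i : ℕ) (hi : i ≤ R.m b) :
    R.gam (R.S b + 2 * R.m b + 1 - i) = R.pt b i (phn (R.m b - i) (FreeGroup.of X6.c)) := by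
  rw [show R.S b + 2 * R.m b + 1 - i = R.S b + (R.m b + (1 + (R.m b - i))) by omega,
    R.F1b_gam b _ (by omega)]
  have h1 : (R.blk b).take (R.m b + (1 + (R.m b - i))) =
      List.replicate (R.m b) (GG.tau, true) ++ ([(GG.x X6.c, true)] ++ List.replicate (R.m b - i) (GG.tau, false)) := by
    unfold blk
    rw [List.append_assoc, List.append_assoc, List.take_append, List.length_replicate,
      List.take_of_length_le (by simp), Nat.add_sub_cancel_left, List.take_append,
      List.length_singleton, Nat.add_sub_cancel_left, List.take_of_length_le (by simp),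
      List.take_append, List.length_replicate, List.take_replicate, min_eq_left (by omega),
      show R.m b - i - R.m b = 0 by omega, List.take_zero, List.append_nil]
  rw [h1, val_append, val_append, F1b_val_rep, F1b_val_rep, val_singleton, lv_true, lv_true, lv_false]
  have h2 : gg (GG.x X6.c) = iG (FreeGroup.of X6.c) := by
    simp [iG, iK, KtoG, kg]
  have h3 : R.W b * (gg GG.tau ^ R.m b * gg (GG.x X6.c)) = R.pt b (R.m b : ℕ) (FreeGroup.of X6.c) := by
    unfold pt
    rw [F1b_KtoG_hp, h2]
  rw [← mul_assoc (gg GG.tau ^ R.m b), ← mul_assoc (R.W b), h3, R.F1b_down]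
  congr 1
  omega

end Ray
end Dae
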