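import Pool.Agent.Lib.MP_dae6d7_al.F1b
import Pool.Agent.Lib.MP_dae6d7_al.C5a

/-! Row F1d. (Sections refer to the paper /team-store/dae6d7_paper.md.)

gam_pt: exists_block n; n = S b + r, r < 2m+2: r <= m: gam_up, Phi = S b + r (PF_tau); r >= m+1: i = 2m+1-r <= m, gam_down, PF = 2m - i = r - 1 (PF_tau').
good_of_not_bad: for i' <= m the points W b tau^i' = gam (S b + i') and W b iG(wm m) tau^i' = gam (S b + 2m+1-i') are on the ray (gam_up, gam_down, hp i' (phn (m-i') c) =
iK (wm m) kt^i', see hp_dual), left invariance, gn (KtoG k) = kn k.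
-/

namespace Dae
namespace Ray
variable (R : Ray)

/-- every point of the ray is a hull point with coordinate within 1 -/
theorem gam_pt (n : ℕ) : ∃ b i x, i ≤ (R.m b : ℤ) ∧ R.gam n = R.pt b i x ∧ |R.Phi b i x - n| ≤ 1 := by
  obtain ⟨b, hb1, hb2⟩ := R.exists_block n
  rw [R.S_succ] at hb2
  obtain ⟨r, rfl⟩ := Nat.exists_eq_add_of_le hb1
  by_cases hr : r ≤ R.m b
  · refine ⟨b, (r : ℕ), 1, by exact_mod_cast hr, R.gam_up b r hr, ?_⟩
    unfold Phi
    rw [PF_tau _ _ hr]
    push_cast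
    simp
  · have hi : 2 * R.m b + 1 - r ≤ R.m b := by omega
    refine ⟨b, ((2 * R.m b + 1 - r : ℕ) : ℤ), phn (R.m b - (2 * R.m b + 1 - r)) (FreeGroup.of X6.c),
      by exact_mod_cast hi, ?_, ?_⟩
    · rw [← R.gam_down b _ hi]
      congr 1
      omega
    · unfold Phi
      rw [PF_tau' _ _ hi, Nat.cast_sub (by omega)]
      push_cast
      rw [abs_le]
      constructor <;> linarith

theorem F1d_dual (m i : ℕ) (hi : i ≤ m) : hp i (phn (m - i) (FreeGroup.of X6.c)) = iK (wm m) * kt ^ i := by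
  have h1 : ∀ (k : ℕ) (h : F), kt ^ k * iK h = iK (phn k h) * kt ^ k := by
    intro k
    induction k with
    | zero => intro h; simp [phn]
    | succ k ih =>
      intro h
      rw [pow_succ, mul_assoc]
      have h2 : kt * iK h = iK (phi h) * kt := by
        rw [← kt_conj h]; group
      rw [h2, ← mul_assoc, ih, mul_assoc, phn_succ']
  unfold hp
  rw [zpow_natCast, h1]
  congr 2
  unfold wm
  have h3 : ∀ (a c : ℕ) (h : F), phn a (phn c h) = phn (a + c) h := by
    intro a c h
    unfold phn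
    rw [Function.iterate_add_apply]
  rw [h3]
  congr 1
  omega

/-- a point of a block which is not D-bad is D-good in K -/
theorem good_of_not_bad (D : ℝ) (b : ℕ) (i : ℤ) (x : F) (h : ¬ R.bad D (R.pt b i x)) :
    good (R.m b) D (hp i x) := by
  have h1 : ∀ n, D ≤ (gn ((R.gam n)⁻¹ * R.pt b i x) : ℝ) := by
    intro n
    by_contra hn
    exact h ⟨n, lt_of_not_ge hn⟩
  have h2 : ∀ (i' : ℤ) (x' : F), gn ((R.pt b i' x')⁻¹ * R.pt b i x) = kn ((hp i' x')⁻¹ * hp i x) := by
    intro i' x'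
    have : (R.pt b i' x')⁻¹ * R.pt b i x = KtoG ((hp i' x')⁻¹ * hp i x) := by
      unfold pt
      rw [map_mul, map_inv]
      group
    rw [this, gn_KtoG]
  intro i' hi'
  constructor
  · have h3 := h1 (R.S b + i')
    rw [R.gam_up b i' hi', h2] at h3
    have h4 : hp (i' : ℤ) 1 = kt ^ i' := by
      unfold hp
      rw [map_one, mul_one, zpow_natCast]
    rwa [h4] at h3
  · have h3 := h1 (R.S b + 2 * R.m b + 1 - i')
    rw [R.gam_down b i' hi', h2, F1d_dual _ _ hi'] at h3
    exact h3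

end Ray
end Dae
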