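import Pool.Agent.Lib.MP_dae6d7_al.FDefs
import Pool.Agent.Lib.MP_dae6d7_al.D1

/-! Row F2a. (Sections refer to the paper /team-store/dae6d7_paper.md.)

fox for M: D g0 g = 1 if g = 1, other letters 0. The relators of M (relK) do not contain s, t.
-/

namespace Dae
namespace Ray
variable (R : Ray)

theorem F2a_aux {ι Γ : Type} [Group Γ] (gen : ι → Γ) (D : ι → Γ → ℤ) (g0 : ι)
    (hD : ∀ i g, i ≠ g0 → D i g = 0) (w : Wd ι) (hw : ∀ y ∈ w, y.1 ≠ g0) (g : Γ) :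
    Dw gen D g w = 0 := by
  induction w generalizing g with
  | nil => simp [Dw]
  | cons y w ih =>
    rw [Dw, ih (fun z hz => hw z (List.mem_cons_of_mem _ hz))]
    have h1 := hw y List.mem_cons_self
    rw [hD _ _ h1, hD _ _ h1]
    simp

theorem F2a_rel (g0 : MG) (h0 : g0 = MG.s ∨ g0 = MG.t) (w : Wd MG) (hw : w ∈ relK MG.tau MG.x) :
    ∀ y ∈ w, y.1 ≠ g0 := by
  obtain ⟨z, rfl⟩ := hw
  intro y hy
  simp only [List.mem_cons, FreeGroup.invRev, List.mem_reverse, List.mem_map] at hy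
  have hs : MG.tau ≠ g0 := by rcases h0 with rfl | rfl <;> simp
  have hx : ∀ v, MG.x v ≠ g0 := by intro v; rcases h0 with rfl | rfl <;> simp
  rcases hy with rfl | rfl | rfl | ⟨u, ⟨v, _, rfl⟩, rfl⟩
  · exact hs
  · exact hx _
  · exact hs
  · exact hx _

open Classical in
/-- (W4) -/
theorem wall_M (g0 : MG) (h0 : g0 = MG.s ∨ g0 = MG.t) : ∃ σ : M → ℤ, σ 1 = 0 ∧
    (∀ g, σ (g * mg g0) = σ g + if g = 1 then 1 else 0) ∧ (∀ g i, i ≠ g0 → σ (g * mg i) = σ g) := by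
  obtain ⟨σ, h1, h2⟩ := fox (R := relK MG.tau MG.x)
    (fun (i : MG) (g : M) => if i = g0 ∧ g = 1 then (1 : ℤ) else 0)
    (fun w hw g => F2a_aux _ _ g0 (fun i g hi => by simp [hi]) w (F2a_rel g0 h0 w hw) g)
  refine ⟨σ, h1, ?_, ?_⟩
  · intro g
    have h := h2 g g0
    simpa [mg] using h
  · intro g i hi
    have h := h2 g i
    simpa [hi, mg] using h

end Ray
end Dae
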