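import Pool.Agent.Lib.MP_dae6d7_al.F1c
import Pool.Agent.Lib.MP_dae6d7_al.F2a
import Pool.Agent.Lib.MP_dae6d7_al.C3
import Pool.Agent.Lib.MP_dae6d7_al.F1b

/-! Row F2b. (Sections refer to the paper /team-store/dae6d7_paper.md.)

(4.1). Put mW b = rhoM (W b), mW+ b = rhoM (W b * iG (wm m_b)). Claim: every word of M with value mW (b+1) has length >= S (b+1), by
induction on b. The wall sigma of sep letter z_b, V(g) = sigma ((mW+ b)^{-1} g): V(mW (b+1)) = sigma (z_b) = 1 and V(1) = sigma ((mW+ b)^{-1}) = 0: along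
the word from 1 to mW+ b of the ray (inverse path) the wall is crossed only at a point equal to mW+ b with letter z_b: the letters s,t of pre b
are read at points mW+ b', b' < b, different from mW+ b (chi-like exponent on M, or chi of G via MtoG). So the word passes through mW+ b, then
mW (b+1): length >= |mW+ b| + 1. For |mW+ b| >= S b + 2 m_b + 1: for b >= 1 a word with value mW+ b must cross the edge (mW+ (b-1), mW b)
by the same wall (V(mW+ b) = 1: from mW b to mW+ b by tau and x letters no crossing), so it passes through mW b: length >= |mW b| + distance,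
and distance = |phi^m(c)|_M >= |phi^m(c)|_K >= 2m+1 (MtoK, nrm_map, block_length). Then nrm(rhoM (gam (S b))) = S b, and for i <= j <= S b the
triangle inequality gives the claim (upper bound: path).
-/

namespace Dae
namespace Ray
variable (R : Ray)

theorem F2b_gensM : Gens mg := gens_PG
theorem F2b_gensK : Gens kg := gens_PG
theorem F2b_gensG : Gens gg := gens_PG

theorem F2b_MtoK (x : F) : MtoK (rhoM (iG x)) = iK x := by
  have h : MtoK.comp (rhoM.comp iG) = iK := by
    ext y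
    simp only [MonoidHom.coe_comp, Function.comp_apply, iG, iK, FreeGroup.lift_apply_of, KtoG, kg, gg,
      PG.lift_of, rhoM, fM, mg, MtoK]
  exact DFunLike.congr_fun h x

theorem F2b_rhoM_iG (w : Wd X6) : rhoM (iG (FreeGroup.mk w)) = val (mg ∘ MG.x) w := by
  rw [val_eq_lift]
  have h : rhoM.comp iG = FreeGroup.lift (mg ∘ MG.x) := by
    ext y
    simp only [MonoidHom.coe_comp, Function.comp_apply, iG, iK, FreeGroup.lift_apply_of, KtoG, kg, gg,
      PG.lift_of, rhoM, fM, mg]
  exact DFunLike.congr_fun h _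

theorem F2b_chi (g : G) : chi (MtoG (rhoM g)) = chi g := by
  have h : chih.comp (MtoG.comp rhoM) = chih := by
    refine PG.hom_ext ?_
    intro i
    cases i <;> simp [rhoM, fM, mg, MtoG, gg, chih, PG.lift_of]
  unfold chi
  rw [← DFunLike.congr_fun h g]
  rfl

/-- mW b -/
def F2b_a (b : ℕ) : M := rhoM (R.W b)
/-- mW+ b -/
def F2b_p (b : ℕ) : M := rhoM (R.W b * iG (wm (R.m b)))

/-- separator letter in M -/
def F2b_z (b : ℕ) : MG := if R.z b then MG.s else MG.t

theorem F2b_a_zero : R.F2b_a 0 = 1 := by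
  simp [F2b_a, R.W_zero]

theorem F2b_a_succ (b : ℕ) : R.F2b_a (b + 1) = R.F2b_p b * mg (R.F2b_z b) := by
  unfold F2b_a F2b_p F2b_z
  rw [R.W_succ, map_mul rhoM (R.W b * iG (wm (R.m b)))]
  congr 1
  unfold sep
  split_ifs <;> simp [gg, rhoM, fM, PG.lift_of]

theorem F2b_p_eq (b : ℕ) : R.F2b_p b = R.F2b_a b * rhoM (iG (wm (R.m b))) := by
  simp [F2b_a, F2b_p]

theorem F2b_p_inj {b b' : ℕ} (h : R.F2b_p b = R.F2b_p b') : b = b' := by
  have h2 := congrArg (fun g => chi (MtoG g)) h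
  simp only [F2b_p, F2b_chi] at h2
  have h3 : ∀ b, R.W b * iG (wm (R.m b)) = R.pt b 0 (wm (R.m b)) := by
    intro b
    simp [pt, hp, iG]
  rw [h3, h3, R.chi_pt, R.chi_pt] at h2
  exact_mod_cast h2

/-- first crossing of a wall -/
theorem F2b_cross (V : M → ℤ) (gs : M) (z : MG) (h1 : ∀ g, V (g * mg z) = V g + open Classical in if g = gs then 1 else 0)
    (h2 : ∀ g i, i ≠ z → V (g * mg i) = V g) (h3 : V gs = 0) (w : Wd MG) :
    ∀ g, V g = 0 → V (g * val mg w) ≠ 0 → ∃ u v, w = u ++ (z, true) :: v ∧ g * val mg u = gs := by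
  classical
  induction w with
  | nil =>
    intro g h0 h
    simp at h
    exact absurd h0 h
  | cons y w ih =>
    intro g h0 h
    rw [val_cons, ← mul_assoc] at h
    by_cases hV : V (g * lv mg y) = 0
    · obtain ⟨u, v, hw, hg⟩ := ih _ hV h
      refine ⟨y :: u, v, ?_, ?_⟩
      · rw [hw]; rfl
      · rw [val_cons, ← mul_assoc]; exact hg
    · rcases y with ⟨i, e⟩
      by_cases hi : i = z
      · subst hi
        cases e with
        | true =>
          by_cases hg : g = gs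
          · exact ⟨[], w, rfl, by simp [hg]⟩
          · exfalso
            apply hV
            rw [lv_true, h1, if_neg hg, h0]
            rfl
        | false =>
          exfalso
          have h4 := h1 (g * (mg i)⁻¹)
          rw [inv_mul_cancel_right] at h4
          rw [lv_false] at hV
          by_cases hg : g * (mg i)⁻¹ = gs
          · rw [if_pos hg, hg, h3, h0] at h4
            norm_num at h4
          · rw [if_neg hg, h0] at h4
            apply hV
            omega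
      · exfalso
        apply hV
        cases e with
        | true => rw [lv_true, h2 _ _ hi, h0]
        | false =>
          have h4 := h2 (g * (mg i)⁻¹) i hi
          rw [inv_mul_cancel_right, h0] at h4
          rw [lv_false, ← h4]

theorem F2b_const (V : M → ℤ) (z : MG) (hz : z = MG.s ∨ z = MG.t) (h2 : ∀ g i, i ≠ z → V (g * mg i) = V g)
    (x : F) (g : M) : V (g * rhoM (iG x)) = V g := by
  obtain ⟨w, rfl⟩ := Quot.exists_rep x
  change V (g * rhoM (iG (FreeGroup.mk w))) = V g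
  rw [F2b_rhoM_iG]
  induction w generalizing g with
  | nil => simp
  | cons y w ih =>
    rw [val_cons, ← mul_assoc, ih]
    rcases y with ⟨i, e⟩
    have hi : MG.x i ≠ z := by
      rintro rfl
      rcases hz with h | h <;> cases h
    cases e with
    | true => rw [lv_true]; exact h2 _ _ hi
    | false =>
      rw [lv_false]
      have h4 := h2 (g * (mg (MG.x i))⁻¹) _ hi
      rw [inv_mul_cancel_right] at h4
      exact h4.symm

open Classical in
/-- the wall of separator b -/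
theorem F2b_wall (b : ℕ) : ∃ V : M → ℤ, V 1 = 0 ∧ V (R.F2b_p b) = 0 ∧ V (R.F2b_a (b + 1)) = 1 ∧
    V (R.F2b_p (b + 1)) = 1 ∧ (∀ g, V (g * mg (R.F2b_z b)) = V g + if g = R.F2b_p b then 1 else 0) ∧
    (∀ g i, i ≠ R.F2b_z b → V (g * mg i) = V g) := by
  have hz : R.F2b_z b = MG.s ∨ R.F2b_z b = MG.t := by
    unfold F2b_z
    split_ifs
    · exact Or.inl rfl
    · exact Or.inr rfl
  obtain ⟨σ, hσ1, hσ2, hσ3⟩ := wall_M (R.F2b_z b) hz
  have k1 : ∀ g, σ ((R.F2b_p b)⁻¹ * (g * mg (R.F2b_z b))) = σ ((R.F2b_p b)⁻¹ * g) +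
      if g = R.F2b_p b then 1 else 0 := by
    intro g
    rw [← mul_assoc, hσ2]
    congr 1
    by_cases hg : g = R.F2b_p b
    · subst hg; simp
    · rw [if_neg hg, if_neg]
      intro h
      apply hg
      rw [inv_mul_eq_one] at h
      exact h.symm
  have k2 : ∀ g i, i ≠ R.F2b_z b → σ ((R.F2b_p b)⁻¹ * (g * mg i)) = σ ((R.F2b_p b)⁻¹ * g) := by
    intro g i hi
    rw [← mul_assoc, hσ3 _ _ hi]
  have k3 : ∀ x g, σ ((R.F2b_p b)⁻¹ * (g * rhoM (iG x))) = σ ((R.F2b_p b)⁻¹ * g) := by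
    intro x g
    exact F2b_const (fun g => σ ((R.F2b_p b)⁻¹ * g)) (R.F2b_z b) hz k2 x g
  have k4 : σ ((R.F2b_p b)⁻¹ * R.F2b_p b) = 0 := by
    rw [inv_mul_cancel, hσ1]
  have k5 : ∀ n, n ≤ b → σ ((R.F2b_p b)⁻¹ * R.F2b_a n) = σ ((R.F2b_p b)⁻¹ * 1) := by
    intro n
    induction n with
    | zero => intro _; rw [F2b_a_zero]
    | succ n ih =>
      intro hn
      rw [F2b_a_succ]
      have hne : R.F2b_p n ≠ R.F2b_p b := by
        intro h
        have := R.F2b_p_inj h
        omega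
      have h6 : σ ((R.F2b_p b)⁻¹ * (R.F2b_p n * mg (R.F2b_z n))) = σ ((R.F2b_p b)⁻¹ * R.F2b_p n) := by
        by_cases hzz : R.F2b_z n = R.F2b_z b
        · rw [hzz, k1, if_neg hne, add_zero]
        · exact k2 _ _ hzz
      rw [h6, F2b_p_eq R n, k3]
      exact ih (by omega)
  have k6 : σ ((R.F2b_p b)⁻¹ * 1) = 0 := by
    rw [← k5 b le_rfl, ← k3 (wm (R.m b)), ← F2b_p_eq, k4]
  have k7 : σ ((R.F2b_p b)⁻¹ * R.F2b_a (b + 1)) = 1 := by
    rw [F2b_a_succ, k1, if_pos rfl, k4]
    rfl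
  refine ⟨fun g => σ ((R.F2b_p b)⁻¹ * g), k6, k4, k7, ?_, k1, k2⟩
  show σ ((R.F2b_p b)⁻¹ * R.F2b_p (b + 1)) = 1
  rw [F2b_p_eq R (b + 1), k3, k7]

/-- a word with value rhoM (iG (wm m)) has length at least 2m+1 -/
theorem F2b_block (m : ℕ) (v : Wd MG) (hv : val mg v = rhoM (iG (wm m))) : 2 * m + 1 ≤ v.length := by
  have h1 : nrm kg (MtoK (val mg v)) ≤ nrm mg (val mg v) := by
    refine nrm_map F2b_gensM kg MtoK ?_ _
    intro i
    cases i with
    | s => left; simp [mg, MtoK, PG.lift_of]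
    | t => left; simp [mg, MtoK, PG.lift_of]
    | tau => right; exact ⟨KG.tau, by simp [mg, MtoK, PG.lift_of, kt]⟩
    | x y => right; exact ⟨KG.x y, by simp [mg, MtoK, PG.lift_of]⟩
  have h2 := nrm_le (g := mg) v
  rw [hv, F2b_MtoK] at h1
  rw [hv] at h2
  obtain ⟨w, hw, hw2⟩ := nrm_spec F2b_gensK (iK (wm m))
  have h3 := block_length m (X6.c, true) w (by rw [hw2, lv_true]; rfl)
  omega

theorem F2b_main (b : ℕ) : (∀ w : Wd MG, val mg w = R.F2b_a b → R.S b ≤ w.length) ∧
    (∀ w : Wd MG, val mg w = R.F2b_p b → R.S b + 2 * R.m b + 1 ≤ w.length) := by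
  classical
  induction b with
  | zero =>
    refine ⟨fun w _ => by rw [R.S_zero]; exact Nat.zero_le _, ?_⟩
    intro w hw
    rw [F2b_p_eq, F2b_a_zero, one_mul] at hw
    have := F2b_block _ w hw
    rw [R.S_zero]
    omega
  | succ b ih =>
    obtain ⟨V, v1, v2, v3, v4, v5, v6⟩ := R.F2b_wall b
    have A : ∀ w : Wd MG, val mg w = R.F2b_a (b + 1) → R.S (b + 1) ≤ w.length := by
      intro w hw
      obtain ⟨u, v, h1, h2⟩ := F2b_cross V (R.F2b_p b) (R.F2b_z b) v5 v6 v2 w 1 v1 (by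
        rw [one_mul, hw, v3]; exact one_ne_zero)
      rw [one_mul] at h2
      have h3 := ih.2 u h2
      rw [h1, R.S_succ, List.length_append, List.length_cons]
      omega
    refine ⟨A, ?_⟩
    intro w hw
    obtain ⟨u, v, h1, h2⟩ := F2b_cross V (R.F2b_p b) (R.F2b_z b) v5 v6 v2 w 1 v1 (by
      rw [one_mul, hw, v4]; exact one_ne_zero)
    rw [one_mul] at h2
    have h3 : val mg (u ++ [(R.F2b_z b, true)]) = R.F2b_a (b + 1) := by
      rw [val_append, h2, val_singleton, lv_true, F2b_a_succ]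
    have h4 := A _ h3
    have h5 : w = (u ++ [(R.F2b_z b, true)]) ++ v := by
      rw [h1]; simp
    have h6 : val mg v = rhoM (iG (wm (R.m (b + 1)))) := by
      rw [h5, val_append, h3, F2b_p_eq] at hw
      exact mul_left_cancel hw
    have h7 := F2b_block _ v h6
    rw [h5, List.length_append]
    omega

theorem F2b_upper (i j : ℕ) (h : i ≤ j) : nrm mg (rhoM ((R.gam i)⁻¹ * R.gam j)) ≤ j - i := by
  refine le_trans (nrm_map F2b_gensG mg rhoM ?_ _) ?_
  · intro g
    cases g with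
    | p => left; simp [gg, rhoM, fM, PG.lift_of]
    | q => left; simp [gg, rhoM, fM, PG.lift_of]
    | s => right; exact ⟨MG.s, by simp [gg, rhoM, fM, PG.lift_of]⟩
    | t => right; exact ⟨MG.t, by simp [gg, rhoM, fM, PG.lift_of]⟩
    | tau => right; exact ⟨MG.tau, by simp [gg, rhoM, fM, PG.lift_of]⟩
    | x y => right; exact ⟨MG.x y, by simp [gg, rhoM, fM, PG.lift_of]⟩
  · rw [R.gam_eq i j (le_trans h (R.le_S j)), R.gam_eq j j (R.le_S j)]
    exact nrm_path _ i j h

/-- (4.1) in M -/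
theorem gam_geod_M (i j : ℕ) (h : i ≤ j) : nrm mg (rhoM ((R.gam i)⁻¹ * R.gam j)) = j - i := by
  refine le_antisymm (R.F2b_upper i j h) ?_
  obtain ⟨w, hw, hw2⟩ := nrm_spec F2b_gensM (R.F2b_a j)
  have h1 := (R.F2b_main j).1 w hw2
  have h2 : R.F2b_a j = rhoM ((R.gam 0)⁻¹ * R.gam i) * (rhoM ((R.gam i)⁻¹ * R.gam j) *
      rhoM ((R.gam j)⁻¹ * R.gam (R.S j))) := by
    rw [← map_mul, ← map_mul, R.gam_S, R.gam_zero]
    unfold F2b_a
    congr 1
    group
  have h3 := nrm_mul F2b_gensM (rhoM ((R.gam 0)⁻¹ * R.gam i)) (rhoM ((R.gam i)⁻¹ * R.gam j) *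
      rhoM ((R.gam j)⁻¹ * R.gam (R.S j)))
  have h4 := nrm_mul F2b_gensM (rhoM ((R.gam i)⁻¹ * R.gam j)) (rhoM ((R.gam j)⁻¹ * R.gam (R.S j)))
  have h5 := R.F2b_upper 0 i (Nat.zero_le i)
  have h6 := R.F2b_upper j (R.S j) (R.le_S j)
  have h7 := R.le_S j
  rw [← h2] at h3
  omega

end Ray
end Dae
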