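import Pool.Agent.Lib.MP_dae6d7_al.F2b

/-! Row F2c. (Sections refer to the paper /team-store/dae6d7_paper.md.)

Upper bound: the path of letters (gam_succ / gam_eq, nrm_path). Lower bound: nrm_map for rhoM (generators go to generators or 1).
-/

namespace Dae
namespace Ray
variable (R : Ray)

theorem F2c_hf (i : GG) : rhoM (gg i) = 1 ∨ ∃ j, rhoM (gg i) = mg j := by
  have h : rhoM (gg i) = fM i := by
    unfold rhoM gg
    exact PG.lift_of _ _ _
  rw [h]
  cases i with
  | p => exact Or.inl rfl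
  | q => exact Or.inl rfl
  | s => exact Or.inr ⟨_, rfl⟩
  | t => exact Or.inr ⟨_, rfl⟩
  | tau => exact Or.inr ⟨_, rfl⟩
  | x y => exact Or.inr ⟨_, rfl⟩

/-- (4.1) in G -/
theorem gam_geod (i j : ℕ) (h : i ≤ j) : gn ((R.gam i)⁻¹ * R.gam j) = j - i := by
  apply le_antisymm
  · rw [R.gam_eq i j (h.trans (R.le_S j)), R.gam_eq j j (R.le_S j)]
    exact nrm_path (R.pre j) i j h
  · rw [← R.gam_geod_M i j h]
    exact nrm_map gens_PG mg rhoM F2c_hf _

end Ray
end Dae
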