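import Pool.Agent.Lib.MP_dae6d7_al.F1c
import Pool.Agent.Lib.MP_dae6d7_al.EDefs

/-! Row F3a. (Sections refer to the paper /team-store/dae6d7_paper.md.)

hbp_mul: pt_mul. hbp_const: V (pt b i x) = V (pt b i 1) by the X-letters (word of x; V (g * iG h) = V g for all h). V(pt b i 1) = V (pt b 0 1) by
tau steps between pt b i 1 and pt b (i+1) 1 (both HBP, i < m), also for negative i: pt b (i+1) 1 = pt b i (phi 1) tau. V (pt (b+1) 0 1) =
V (pt b 0 (wm m)) (pt_sep, hS, hS') = V (pt b 0 1). Induction on b; pt 0 0 1 = 1.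
-/

namespace Dae
namespace Ray
variable (R : Ray)

theorem F3a_iG_of (y : X6) : iG (FreeGroup.of y) = gg (GG.x y) := by
  unfold iG iK kg KtoG
  rw [MonoidHom.comp_apply, FreeGroup.lift_apply_of, PG.lift_of]

theorem F3a_inv (V : G → ℤ) (hX : ∀ g, ∀ y : X6, V (g * gg (GG.x y)) = V g) (h : F) :
    ∀ g, V (g * iG h) = V g := by
  induction h using FreeGroup.induction_on with
  | C1 => intro g; rw [map_one, mul_one]
  | of y => intro g; rw [F3a_iG_of]; exact hX g y
  | inv_of y ih =>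
    intro g
    have h1 := hX (g * iG (FreeGroup.of y)⁻¹) y
    rw [← h1, map_inv, F3a_iG_of, inv_mul_cancel_right]
  | mul x y hx hy =>
    intro g
    rw [map_mul, ← mul_assoc, hy, hx]

/-- (4.2) a function on G which does not change along the moves inside HBP is constant on HBP -/
theorem hbp_const (V : G → ℤ) (hX : ∀ g, ∀ y : X6, V (g * gg (GG.x y)) = V g)
    (hT : ∀ g, g ∈ R.HBP → g * gg GG.tau ∈ R.HBP → V (g * gg GG.tau) = V g)
    (hS : ∀ g, V (g * gg GG.s) = V g) (hS' : ∀ g, V (g * gg GG.t) = V g) :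
    ∀ g ∈ R.HBP, V g = V 1 := by
  have h1 : ∀ b i x, V (R.pt b i x) = V (R.pt b i 1) := by
    intro b i x
    have := F3a_inv V hX x (R.pt b i 1)
    rw [R.pt_mul, one_mul] at this
    exact this
  have h2 : ∀ b (i : ℤ), i + 1 ≤ R.m b → V (R.pt b (i + 1) 1) = V (R.pt b i 1) := by
    intro b i hi
    have h3 := R.pt_tau b i 1
    rw [map_one] at h3
    rw [← h3]
    apply hT
    · exact ⟨b, i, 1, by omega, rfl⟩
    · rw [h3]; exact ⟨b, i + 1, 1, hi, rfl⟩
  have h3 : ∀ b, ∀ n : ℕ, V (R.pt b ((R.m b : ℤ) - n) 1) = V (R.pt b (R.m b : ℤ) 1) := by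
    intro b n
    induction n with
    | zero => simp
    | succ n ih =>
      rw [← ih]
      have := h2 b ((R.m b : ℤ) - (n + 1 : ℕ)) (by omega)
      rw [show (R.m b : ℤ) - (n + 1 : ℕ) + 1 = (R.m b : ℤ) - n by push_cast; ring] at this
      exact this.symm
  have h4 : ∀ b (i : ℤ), i ≤ R.m b → V (R.pt b i 1) = V (R.pt b 0 1) := by
    intro b i hi
    have e1 := h3 b ((R.m b : ℤ) - i).toNat
    have e2 := h3 b (R.m b)
    rw [sub_self] at e2
    rw [show (R.m b : ℤ) - (((R.m b : ℤ) - i).toNat : ℤ) = i by omega] at e1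
    rw [e1, e2]
  have h5 : ∀ b, V (R.pt (b + 1) 0 1) = V (R.pt b 0 1) := by
    intro b
    rw [← R.pt_sep b, ← h1 b 0 (wm (R.m b))]
    unfold sep
    by_cases hz : R.z b = true
    · rw [if_pos hz, lv_true, hS]
    · rw [if_neg hz, lv_true, hS']
  have h6 : ∀ b, V (R.pt b 0 1) = V 1 := by
    intro b
    induction b with
    | zero =>
      have : R.pt 0 0 1 = 1 := by
        unfold pt hp
        rw [R.W_zero, zpow_zero, map_one, mul_one, map_one, mul_one]
      rw [this]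
    | succ b ih => rw [h5, ih]
  rintro g ⟨b, i, x, hi, rfl⟩
  rw [h1, h4 b i hi, h6]

theorem hbp_mul {g : G} (hg : g ∈ R.HBP) (h : F) : g * iG h ∈ R.HBP := by
  obtain ⟨b, i, x, hi, rfl⟩ := hg
  exact ⟨b, i, x * h, hi, R.pt_mul b i x h⟩

end Ray
end Dae
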