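import Pool.Agent.Lib.MP_dae6d7_al.F3a
import Pool.Agent.Lib.MP_dae6d7_al.D4a

/-! Row F3b. (Sections refer to the paper /team-store/dae6d7_paper.md.)

(4.3). NG: i' = i. Suppose i <> 0, b' <> b. sigma = wall_tau; sigma (g * LtoG u) = sigma g for all g,u. i > 0: V(g) = sigma ((pt b (i-1) 1)^{-1} g).
V (pt b i x) = 1 (pt b (i-1) 1 * tau = pt b i 1: increment 1 as 1 = iG (phi 1)), so V (pt b' i' x') = 1 too. But V = 0 there: V (pt b (i-1) 1) = 0;
go down by tau^{-1} to pt b 0 1: the steps are between pt b k 1 and pt b (k+1) 1, k < i-1, crossing iff (pt b (i-1) 1)^{-1} pt b k 1 in iG phi F: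
NG = k-(i-1) <> 0: no. Then to pt b' 0 1 = W b' by an element of L (W_slow for b and b'): no change. Then up by tau from pt b' k 1, 0 <= k < i:
crossing iff (pt b (i-1) 1)^{-1} pt b' k 1 in iG phi F: chi = b' - b <> 0: no. i < 0: V(g) = sigma ((pt b i 1)^{-1} g): V (pt b i x) = 0 = V(pt b' i' x'),
V (pt b (i+1) 1) = 1, up to W b: 1 (NG excludes), L: 1, down to pt b' i 1: 1 (chi excludes).
-/

namespace Dae

theorem F3b_NG_L (u : L) : NG (LtoG u) = 0 := by
  have h : NGh.comp LtoG = 1 := by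
    refine PG.hom_ext ?_
    intro i
    cases i <;> simp [NGh, LtoG, rhoK, gg, fK, NKh, kg]
  have h2 := DFunLike.congr_fun h u
  simp only [MonoidHom.coe_comp, Function.comp_apply, MonoidHom.one_apply] at h2
  simp [NG, h2]

theorem F3b_iG_of (y : X6) : iG (FreeGroup.of y) = gg (GG.x y) := by
  simp [iG, iK, KtoG, kg]

theorem F3b_NG_iG (x : F) : NG (iG x) = 0 := by
  have h : NGh.comp iG = 1 := by
    ext y
    simp only [MonoidHom.coe_comp, Function.comp_apply, MonoidHom.one_apply, F3b_iG_of]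
    simp [NGh, rhoK, gg, fK, NKh, kg]
  have h2 := DFunLike.congr_fun h x
  simp only [MonoidHom.coe_comp, Function.comp_apply, MonoidHom.one_apply] at h2
  simp [NG, h2]

theorem F3b_chi_iG (x : F) : chi (iG x) = 0 := by
  have h : chih.comp iG = 1 := by
    ext y
    simp only [MonoidHom.coe_comp, Function.comp_apply, MonoidHom.one_apply, F3b_iG_of]
    simp [chih, gg]
  have h2 := DFunLike.congr_fun h x
  simp only [MonoidHom.coe_comp, Function.comp_apply, MonoidHom.one_apply] at h2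
  simp [chi, h2]

/-- a function which does not change along some letters does not change along words in them -/
theorem F3b_word {ι Γ : Type} [Group Γ] (σ : Γ → ℤ) (f : ι → Γ) (h : ∀ g i, σ (g * f i) = σ g) (w : Wd ι) :
    ∀ g, σ (g * val f w) = σ g := by
  induction w with
  | nil => intro g; simp
  | cons y w ih =>
    intro g
    rcases y with ⟨i, b⟩
    rw [val_cons, ← mul_assoc, ih]
    cases b
    · rw [lv_false, ← h (g * (f i)⁻¹) i, inv_mul_cancel_right]
    · rw [lv_true, h]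

theorem F3b_L (σ : G → ℤ) (h : ∀ g i, i ≠ GG.tau → σ (g * gg i) = σ g) (g : G) (u : L) :
    σ (g * LtoG u) = σ g := by
  obtain ⟨w, rfl⟩ := PG.exists_val u
  rw [map_val]
  refine F3b_word σ _ ?_ w g
  intro g i
  have e : (⇑LtoG ∘ (PG.of : LG → L)) i = gg (LGG i) := by
    cases i <;> simp [LtoG, LGG]
  rw [e]
  refine h g _ ?_
  cases i <;> simp [LGG]

theorem F3b_X (σ : G → ℤ) (h : ∀ g i, i ≠ GG.tau → σ (g * gg i) = σ g) (g : G) (x : F) :
    σ (g * iG x) = σ g := by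
  have e : iG x = val (fun y : X6 => gg (GG.x y)) x.toWord := by
    rw [val_eq_lift, FreeGroup.mk_toWord]
    have : iG = FreeGroup.lift (fun y : X6 => gg (GG.x y)) := by
      ext y
      simp [F3b_iG_of]
    rw [this]
  rw [e]
  exact F3b_word σ _ (fun g i => h g _ (by simp)) _ g

namespace Ray
variable (R : Ray)

/-- (4.3) -/
theorem hbp_L {b b' : ℕ} {i i' : ℤ} {x x' : F} (hi : i ≤ R.m b) (hi' : i' ≤ R.m b') (u : L)
    (h : R.pt b' i' x' = R.pt b i x * LtoG u) : i' = i ∧ (i ≠ 0 → b' = b) := by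
  classical
  have hii : i' = i := by
    have := congrArg NG h
    rw [NG_mul, R.NG_pt, R.NG_pt, F3b_NG_L] at this
    omega
  refine ⟨hii, ?_⟩
  subst hii
  intro hne
  by_contra hbb
  obtain ⟨σ, h1, hτ, hl⟩ := wall_tau
  have hL := F3b_L σ hl
  have hX := F3b_X σ hl
  have hτ1 : σ (gg GG.tau) = 1 := by
    have := hτ 1
    rw [one_mul, h1, if_pos ⟨1, by simp⟩] at this
    simpa using this
  have hpt : ∀ (a : ℕ) (k : ℤ), R.pt a (k + 1) 1 = R.pt a k 1 * gg GG.tau := by
    intro a k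
    rw [← R.pt_tau, map_one]
  have hptx : ∀ (a : ℕ) (k : ℤ) (y : F), R.pt a k y = R.pt a k 1 * iG y := by
    intro a k y
    rw [R.pt_mul, one_mul]
  -- going up along a column
  have up : ∀ (g0 : G) (a : ℕ) (k : ℤ) (n : ℕ),
      (∀ j : ℕ, j < n → ¬ ∃ h : F, g0⁻¹ * R.pt a (k + j) 1 = iG (phi h)) →
      σ (g0⁻¹ * R.pt a (k + n) 1) = σ (g0⁻¹ * R.pt a k 1) := by
    intro g0 a k n
    induction n with
    | zero => intro _; simp
    | succ n ih =>
      intro hno
      have e : k + ((n + 1 : ℕ) : ℤ) = (k + n) + 1 := by push_cast; ring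
      rw [e, hpt, ← mul_assoc, hτ, if_neg (hno n (Nat.lt_succ_self n)), add_zero]
      exact ih (fun j hj => hno j (by omega))
  have hW : ∀ (g0 : G), σ (g0⁻¹ * R.pt b' 0 1) = σ (g0⁻¹ * R.pt b 0 1) := by
    intro g0
    have e0 : ∀ a : ℕ, R.pt a 0 1 = R.W a := by
      intro a
      simp [pt, hp]
    rw [e0, e0, R.W_slow b', R.W_slow b]
    have e1 : g0⁻¹ * LtoG (val lf (R.slow b')) =
        g0⁻¹ * LtoG (val lf (R.slow b)) * LtoG ((val lf (R.slow b))⁻¹ * val lf (R.slow b')) := by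
      rw [mul_assoc, ← map_mul, mul_inv_cancel_left]
    rw [e1, hL]
  have hVeq : ∀ g0 : G, σ (g0⁻¹ * R.pt b' i' 1) = σ (g0⁻¹ * R.pt b i' 1) := by
    intro g0
    have e1 : σ (g0⁻¹ * R.pt b' i' x') = σ (g0⁻¹ * R.pt b i' x) := by
      rw [h, ← mul_assoc, hL]
    rw [hptx b' i' x', hptx b i' x, ← mul_assoc, ← mul_assoc, hX, hX] at e1
    exact e1
  rcases lt_or_gt_of_ne hne with hneg | hpos
  · -- i' < 0
    have hV := hVeq (R.pt b i' 1)
    rw [inv_mul_cancel, h1] at hV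
    have s1 : σ ((R.pt b i' 1)⁻¹ * R.pt b (i' + 1) 1) = 1 := by
      rw [hpt, inv_mul_cancel_left, hτ1]
    obtain ⟨n, hn⟩ : ∃ n : ℕ, (n : ℤ) = -(i' + 1) := ⟨(-(i' + 1)).toNat, by omega⟩
    have s2 := up (R.pt b i' 1) b (i' + 1) n (by
      rintro j hj ⟨z, hz⟩
      have := congrArg NG hz
      rw [NG_mul, NG_inv, R.NG_pt, R.NG_pt, F3b_NG_iG] at this
      omega)
    have e2 : i' + 1 + (n : ℤ) = 0 := by omega
    rw [e2, s1] at s2
    have s3 := hW (R.pt b i' 1)
    rw [s2] at s3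
    have s4 := up (R.pt b i' 1) b' i' (n + 1) (by
      rintro j hj ⟨z, hz⟩
      have := congrArg chi hz
      rw [chi_mul, chi_inv, R.chi_pt, R.chi_pt, F3b_chi_iG] at this
      omega)
    have e4 : i' + ((n + 1 : ℕ) : ℤ) = 0 := by push_cast; omega
    rw [e4, s3, hV] at s4
    omega
  · -- 0 < i'
    have hV := hVeq (R.pt b (i' - 1) 1)
    have e0 : i' = (i' - 1) + 1 := by ring
    have s0 : σ ((R.pt b (i' - 1) 1)⁻¹ * R.pt b i' 1) = 1 := by
      have := hpt b (i' - 1)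
      rw [← e0] at this
      rw [this, inv_mul_cancel_left, hτ1]
    rw [s0] at hV
    obtain ⟨n, hn⟩ : ∃ n : ℕ, (n : ℤ) = i' - 1 := ⟨(i' - 1).toNat, by omega⟩
    have s2 := up (R.pt b (i' - 1) 1) b 0 n (by
      rintro j hj ⟨z, hz⟩
      have := congrArg NG hz
      rw [NG_mul, NG_inv, R.NG_pt, R.NG_pt, F3b_NG_iG] at this
      omega)
    have e2 : (0 : ℤ) + n = i' - 1 := by omega
    rw [e2, inv_mul_cancel, h1] at s2
    have s3 := hW (R.pt b (i' - 1) 1)
    rw [← s2] at s3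
    have s4 := up (R.pt b (i' - 1) 1) b' 0 (n + 1) (by
      rintro j hj ⟨z, hz⟩
      have := congrArg chi hz
      rw [chi_mul, chi_inv, R.chi_pt, R.chi_pt, F3b_chi_iG] at this
      omega)
    have e4 : (0 : ℤ) + ((n + 1 : ℕ) : ℤ) = i' := by push_cast; omega
    rw [e4, s3, hV] at s4
    omega

end Ray
end Dae
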