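import Pool.Agent.Lib.MP_dae6d7_al.F3a
import Pool.Agent.Lib.MP_dae6d7_al.D4a

/-! Row F3c. (Sections refer to the paper /team-store/dae6d7_paper.md.)

(4.4). V(u) = sigma (g^{-1} u), sigma = wall_tau. V is constant on HBP: hbp_const: for z, z tau in HBP: V (z tau) = V z unless g^{-1} z = iG (phi h''), but then
z tau = g iG (phi h'') tau = g tau iG h'', so g tau = z tau * iG h''^{-1} in HBP (hbp_mul): contradiction with hn. So V = V g = 0 on HBP. V (g tau) = 1.
Path g * val (w.take l), l = 1 .. w.length: starts at 1, ends at 0, so at some step V decreases: letter (tau,false), new point g * val (w.take l) with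
g^{-1} * that = iG (phi h').
-/

namespace Dae

/-- one step of sigma along a word -/
theorem F3c_step (σ : G → ℤ)
    (h1 : ∀ g, (∃ h : F, g = iG (phi h)) ∨ σ (g * gg GG.tau) = σ g)
    (h1' : ∀ g, σ g ≤ σ (g * gg GG.tau))
    (h2 : ∀ g i, i ≠ GG.tau → σ (g * gg i) = σ g) (w : Wd GG) (l : ℕ) (hl : l < w.length)
    (hd : σ (val gg (w.take (l + 1))) < σ (val gg (w.take l))) :
    ∃ h' : F, val gg (w.take (l + 1)) = iG (phi h') := by
  have e : w.take (l + 1) = w.take l ++ [w[l]] := by
    rw [List.take_succ_eq_append_getElem hl]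
  rw [e, val_append, val_singleton] at hd ⊢
  rcases hw : w[l] with ⟨i, b⟩
  rw [hw] at hd
  cases b with
  | true =>
    rw [lv_true] at hd
    by_cases hi : i = GG.tau
    · subst hi
      exact absurd hd (not_lt.2 (h1' _))
    · rw [h2 _ i hi] at hd
      exact absurd hd (lt_irrefl _)
  | false =>
    rw [lv_false] at hd ⊢
    have h3 : val gg (w.take l) * (gg i)⁻¹ * gg i = val gg (w.take l) := inv_mul_cancel_right _ _
    by_cases hi : i = GG.tau
    · subst hi
      rcases h1 (val gg (w.take l) * (gg GG.tau)⁻¹) with h | h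
      · exact h
      · rw [h3] at h
        rw [h] at hd
        exact absurd hd (lt_irrefl _)
    · have := h2 (val gg (w.take l) * (gg i)⁻¹) i hi
      rw [h3] at this
      rw [this] at hd
      exact absurd hd (lt_irrefl _)

namespace Ray
variable (R : Ray)

/-- (4.4) -/
theorem exc_child {g : G} (hg : g ∈ R.HBP) (hn : g * gg GG.tau ∉ R.HBP) (w : Wd GG)
    (hw : w.head? = some (GG.tau, true)) (he : g * val gg w ∈ R.HBP) :
    ∃ l, 0 < l ∧ l ≤ w.length ∧ ∃ h' : F, val gg (w.take l) = iG (phi h') := by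
  obtain ⟨σ, s1, s2, s3⟩ := wall_tau
  have hc := R.hbp_const (fun u => σ (g⁻¹ * u)) (by
      intro u y
      show σ (g⁻¹ * (u * gg (GG.x y))) = σ (g⁻¹ * u)
      rw [← mul_assoc]
      exact s3 _ _ (by simp)) (by
      intro z hz hzt
      show σ (g⁻¹ * (z * gg GG.tau)) = σ (g⁻¹ * z)
      rw [← mul_assoc, s2]
      by_cases hh : ∃ h : F, g⁻¹ * z = iG (phi h)
      · exfalso
        obtain ⟨h, hh⟩ := hh
        apply hn
        have h1 : g * gg GG.tau = z * gg GG.tau * iG h⁻¹ := by
          have h2 : z = g * iG (phi h) := by rw [← hh, mul_inv_cancel_left]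
          rw [h2, ← tau_conj, map_inv]
          group
        rw [h1]
        exact R.hbp_mul hzt _
      · rw [if_neg hh, add_zero]) (by
      intro u
      show σ (g⁻¹ * (u * gg GG.s)) = σ (g⁻¹ * u)
      rw [← mul_assoc]
      exact s3 _ _ (by simp)) (by
      intro u
      show σ (g⁻¹ * (u * gg GG.t)) = σ (g⁻¹ * u)
      rw [← mul_assoc]
      exact s3 _ _ (by simp))
  have e1 : σ (g⁻¹ * g) = σ (g⁻¹ * 1) := hc g hg
  have e2 : σ (g⁻¹ * (g * val gg w)) = σ (g⁻¹ * 1) := hc _ he
  rw [inv_mul_cancel, s1] at e1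
  rw [← e1, inv_mul_cancel_left] at e2
  -- sigma of the first point
  obtain ⟨w1, rfl⟩ : ∃ w1, w = (GG.tau, true) :: w1 := by
    rcases w with _ | ⟨y, w1⟩
    · simp at hw
    · exact ⟨w1, by simpa using hw⟩
  have e3 : σ (val gg (((GG.tau, true) :: w1 : Wd GG).take 1)) = 1 := by
    have h5 : ((GG.tau, true) :: w1 : Wd GG).take 1 = [(GG.tau, true)] := by simp
    rw [h5, val_singleton, lv_true]
    have := s2 1
    rw [one_mul, s1, if_pos ⟨1, by simp⟩] at this
    rw [this]; norm_num
  by_contra hcon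
  push Not at hcon
  have h1 : ∀ g, (∃ h : F, g = iG (phi h)) ∨ σ (g * gg GG.tau) = σ g := by
    intro g
    by_cases hh : ∃ h : F, g = iG (phi h)
    · exact Or.inl hh
    · right
      rw [s2, if_neg hh, add_zero]
  have h1' : ∀ g, σ g ≤ σ (g * gg GG.tau) := by
    intro g
    rw [s2]
    split_ifs <;> omega
  set w : Wd GG := (GG.tau, true) :: w1 with hw0
  have key : ∀ l, 1 ≤ l → l ≤ w.length → 1 ≤ σ (val gg (w.take l)) := by
    intro l hl
    induction l, hl using Nat.le_induction with
    | base => intro _; exact e3.ge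
    | succ l hl ih =>
      intro hl2
      have h6 := ih (by omega)
      by_contra h7
      obtain ⟨h', hh'⟩ := F3c_step σ h1 h1' s3 w l (by omega) (by omega)
      exact hcon (l + 1) (by omega) hl2 h' hh'
  have := key w.length (by rw [hw0]; simp) le_rfl
  rw [List.take_length, e2] at this
  omega

end Ray
end Dae
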