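import Pool.Agent.Lib.MP_dae6d7_al.F3a
import Pool.Agent.Lib.MP_dae6d7_al.F3b
import Pool.Agent.Lib.MP_dae6d7_al.E1

/-! Row F3d. (Sections refer to the paper /team-store/dae6d7_paper.md.)

(4.5). Strengthen: let r be the last time r < w.length with val (w.take r) in range LtoG (r >= 1 or w.length = 1 ...; time 1 qualifies since the first
letter is in L). If the letter number r of w is not tau^{+-1} then val (w.take (r+1)) in range LtoG: so r + 1 = w.length by maximality: done. If it is
tau: let g' = g * val (w.take r) (0 < r, so g' not in HBP by hf). V(u) = sigma (g'^{-1} u). V is constant on HBP (hbp_const): a step z -> z tau inside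
HBP changes V iff g'^{-1} z = iG (phi h''), then g' = z iG(..) in HBP: no. V(g) = sigma (val (w.take r)^{-1}) = 0 (element of L), so V = 0 at the end
g * val w; V = 1 right after the letter tau. So V decreases at some later step: the new point is g' iG (phi h'), in g * range LtoG, at a time
r' > r + 1; if r' < w.length contradiction with the choice of r; if r' = w.length: the value is in L: done. Letter tau^{-1}: V(u) = sigma (tau g'^{-1} u):
a step z -> z tau inside HBP changes V iff tau g'^{-1} z = iG (phi h''), i.e. z tau = g' iG h'' so g' in HBP: no. V(g) = sigma (tau * L element) = 1,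
V = 0 after the letter tau^{-1}; so V increases at some later step from z to z tau with z tau = g' iG h'': in g * range LtoG. Same conclusion.
-/

namespace Dae

theorem F3d_take_succ (w : Wd GG) (l : ℕ) (hl : l < w.length) :
    val gg (w.take (l + 1)) = val gg (w.take l) * lv gg w[l] := by
  rw [List.take_succ_eq_append_getElem hl, val_append, val_singleton]

theorem F3d_LtoG_lg (i : LG) : ∃ j : GG, j ≠ GG.tau ∧ LtoG (lg i) = gg j := by
  cases i with
  | p => exact ⟨GG.p, by simp, by simp [LtoG, lg]⟩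
  | q => exact ⟨GG.q, by simp, by simp [LtoG, lg]⟩
  | s => exact ⟨GG.s, by simp, by simp [LtoG, lg]⟩
  | t => exact ⟨GG.t, by simp, by simp [LtoG, lg]⟩
  | x y => exact ⟨GG.x y, by simp, by simp [LtoG, lg]⟩

theorem F3d_gg (j : GG) (hj : j ≠ GG.tau) : ∃ i : LG, LtoG (lg i) = gg j := by
  cases j with
  | p => exact ⟨LG.p, by simp [LtoG, lg]⟩
  | q => exact ⟨LG.q, by simp [LtoG, lg]⟩
  | s => exact ⟨LG.s, by simp [LtoG, lg]⟩
  | t => exact ⟨LG.t, by simp [LtoG, lg]⟩
  | x y => exact ⟨LG.x y, by simp [LtoG, lg]⟩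
  | tau => exact absurd rfl hj

theorem F3d_lv (z : GG × Bool) (hz : z.1 ≠ GG.tau) : ∃ u : L, lv gg z = LtoG u := by
  obtain ⟨i, hi⟩ := F3d_gg z.1 hz
  rcases z with ⟨j, b⟩
  cases b with
  | true => exact ⟨lg i, by rw [lv_true]; exact hi.symm⟩
  | false => exact ⟨(lg i)⁻¹, by rw [lv_false, map_inv]; rw [hi]⟩

theorem F3d_sigma (σ : G → ℤ) (hσ : ∀ g i, i ≠ GG.tau → σ (g * gg i) = σ g) (u : L) :
    ∀ g : G, σ (g * LtoG u) = σ g := by
  obtain ⟨w, rfl⟩ := PG.exists_val u
  induction w with
  | nil => intro g; simp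
  | cons y w ih =>
    intro g
    rw [val_cons, map_mul, ← mul_assoc, ih]
    rcases y with ⟨i, b⟩
    obtain ⟨j, hj, hij⟩ := F3d_LtoG_lg i
    cases b with
    | true =>
      rw [lv_true]
      exact (congrArg (fun v => σ (g * v)) hij).trans (hσ g j hj)
    | false =>
      rw [lv_false, map_inv]
      refine (congrArg (fun v => σ (g * v⁻¹)) hij).trans ?_
      have h := hσ (g * (gg j)⁻¹) j hj
      rw [inv_mul_cancel_right] at h
      exact h.symm

theorem F3d_step (f : ℕ → ℤ) (a b : ℕ) (hab : a ≤ b) (h : f b < f a) : ∃ l, a ≤ l ∧ l < b ∧ f (l + 1) < f l := by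
  induction b, hab using Nat.le_induction with
  | base => exact absurd h (lt_irrefl _)
  | succ b hb ih =>
    by_cases h' : f (b + 1) < f b
    · exact ⟨b, hb, Nat.lt_succ_self b, h'⟩
    · obtain ⟨l, h1, h2, h3⟩ := ih (by omega)
      exact ⟨l, h1, by omega, h3⟩

theorem F3d_iG (h : F) : ∃ u : L, iG h = LtoG u := ⟨iL (iF h), (LtoG_iL_iF h).symm⟩

namespace Ray
variable (R : Ray)

/-- (4.5) -/
theorem exc_run {g : G} (hg : g ∈ R.HBP) (w : Wd GG) (y : GG × Bool) (hw : w.head? = some y)
    (hy : y.1 = GG.p ∨ y.1 = GG.q ∨ y.1 = GG.s ∨ y.1 = GG.t) (he : g * val gg w ∈ R.HBP)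
    (hf : ∀ l, 0 < l → l < w.length → g * val gg (w.take l) ∉ R.HBP) : ∃ u : L, val gg w = LtoG u := by
  classical
  have hlen : 0 < w.length := by
    cases w with
    | nil => simp at hw
    | cons a w => simp
  have hw0 : w[0] = y := by
    cases w with
    | nil => simp at hw
    | cons a w => simpa using hw
  obtain ⟨r, hrl, ⟨u, hu⟩, hmax⟩ : ∃ r, r < w.length ∧ (∃ u : L, val gg (w.take r) = LtoG u) ∧
      ∀ l, r < l → l < w.length → ¬ ∃ u : L, val gg (w.take l) = LtoG u := by
    refine ⟨Nat.findGreatest (fun l => ∃ u : L, val gg (w.take l) = LtoG u) (w.length - 1), ?_, ?_, ?_⟩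
    · have := Nat.findGreatest_le (P := fun l => ∃ u : L, val gg (w.take l) = LtoG u) (w.length - 1)
      omega
    · exact Nat.findGreatest_spec (P := fun l => ∃ u : L, val gg (w.take l) = LtoG u) (m := 0)
        (Nat.zero_le _) ⟨1, by simp⟩
    · intro l h1 h2
      exact Nat.findGreatest_is_greatest h1 (by omega)
  have hfin : ∀ l, r < l → l ≤ w.length → (∃ u : L, val gg (w.take l) = LtoG u) →
      ∃ u : L, val gg w = LtoG u := by
    intro l h1 h2 h3
    rcases Nat.lt_or_ge l w.length with h | h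
    · exact absurd h3 (hmax l h1 h)
    · have : l = w.length := le_antisymm h2 h
      rw [this, List.take_length] at h3
      exact h3
  have hstep := F3d_take_succ w r hrl
  by_cases hz : w[r].1 = GG.tau
  swap
  · obtain ⟨v, hv⟩ := F3d_lv w[r] hz
    exact hfin (r + 1) (Nat.lt_succ_self r) hrl ⟨u * v, by rw [hstep, hu, hv, map_mul]⟩
  -- the letter is tau^{±1}
  have hr0 : 0 < r := by
    rcases Nat.eq_zero_or_pos r with h | h
    · subst h
      rw [hw0] at hz
      rcases hy with h | h | h | h <;> rw [h] at hz <;> simp at hz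
    · exact h
  set g' : G := g * val gg (w.take r) with hg'
  have hg'n : g' ∉ R.HBP := hf r hr0 hrl
  have hg'iG : ∀ h : F, g' * iG h ∉ R.HBP := by
    intro h hh
    have := R.hbp_mul hh h⁻¹
    rw [map_inv, mul_inv_cancel_right] at this
    exact hg'n this
  obtain ⟨σ, σ1, στ, σX⟩ := wall_tau
  have hgg' : g'⁻¹ * g = LtoG u⁻¹ := by
    rw [hg', hu, map_inv]; group
  have hout : ∀ l, l < w.length → r + 1 ≤ l → ∀ h : F, g * val gg (w.take (l + 1)) = g' * iG h →
      ∃ u : L, val gg w = LtoG u := by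
    intro l hl hrl' h hh
    refine hfin (l + 1) (by omega) hl ⟨u * iL (iF h), ?_⟩
    rw [hg', mul_assoc] at hh
    rw [mul_left_cancel hh, map_mul, hu, LtoG_iL_iF]
  rcases hb : w[r].2 with _ | _
  · -- tau inverse
    have hlet : w[r] = (GG.tau, false) := Prod.ext hz hb
    set A : G := g' * (gg GG.tau)⁻¹ with hA
    have hcross : ∀ (z : G) (h : F), A⁻¹ * z = iG (phi h) → z * gg GG.tau = g' * iG h := by
      intro z h hh
      have h2 : z = A * iG (phi h) := by rw [← hh]; group
      rw [h2, hA, ← tau_conj]; group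
    have hV : ∀ z ∈ R.HBP, σ (A⁻¹ * z) = σ (A⁻¹ * 1) := by
      refine R.hbp_const (fun z => σ (A⁻¹ * z)) ?_ ?_ ?_ ?_
      · intro z y
        show σ (A⁻¹ * (z * gg (GG.x y))) = _
        rw [← mul_assoc]; exact σX _ _ (by simp)
      · intro z _ hz2
        show σ (A⁻¹ * (z * gg GG.tau)) = _
        rw [← mul_assoc, στ, if_neg, add_zero]
        rintro ⟨h, hh⟩
        rw [hcross z h hh] at hz2
        exact hg'iG h hz2
      · intro z
        show σ (A⁻¹ * (z * gg GG.s)) = _
        rw [← mul_assoc]; exact σX _ _ (by simp)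
      · intro z
        show σ (A⁻¹ * (z * gg GG.t)) = _
        rw [← mul_assoc]; exact σX _ _ (by simp)
    have e1 : σ (A⁻¹ * g) = 1 := by
      have : A⁻¹ * g = gg GG.tau * LtoG u⁻¹ := by rw [← hgg', hA]; group
      rw [this, F3d_sigma σ σX]
      have := στ 1
      rw [one_mul, σ1, if_pos ⟨1, by simp⟩] at this
      simpa using this
    have e2 : σ (A⁻¹ * (g * val gg (w.take (r + 1)))) = 0 := by
      rw [hstep, hlet, lv_false, ← mul_assoc g, ← hg', ← hA, inv_mul_cancel, σ1]
    have e3 : σ (A⁻¹ * (g * val gg (w.take w.length))) = 1 := by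
      rw [List.take_length, hV _ he, ← hV _ hg, e1]
    obtain ⟨l, h1, h2, h3⟩ := F3d_step (fun l => - σ (A⁻¹ * (g * val gg (w.take l)))) (r + 1) w.length hrl
      (by show - _ < - _; rw [e2, e3]; norm_num)
    have h4 : σ (A⁻¹ * (g * val gg (w.take l))) < σ (A⁻¹ * (g * val gg (w.take (l + 1)))) := by
      simpa using h3
    have hsl : g * val gg (w.take (l + 1)) = g * val gg (w.take l) * lv gg w[l] := by
      rw [F3d_take_succ w l h2, mul_assoc]
    by_cases hzl : w[l].1 = GG.tau
    swap
    · exfalso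
      obtain ⟨v, hv⟩ := F3d_lv w[l] hzl
      rw [hsl, hv, ← mul_assoc A⁻¹ (g * val gg (w.take l)), F3d_sigma σ σX] at h4
      exact lt_irrefl _ h4
    rcases hbl : w[l].2 with _ | _
    · exfalso
      have hl2 : w[l] = (GG.tau, false) := Prod.ext hzl hbl
      rw [hsl, hl2, lv_false] at h4
      have := στ (A⁻¹ * (g * val gg (w.take l) * (gg GG.tau)⁻¹))
      rw [mul_assoc A⁻¹, inv_mul_cancel_right] at this
      rw [this] at h4
      split_ifs at h4 <;> omega
    · have hl2 : w[l] = (GG.tau, true) := Prod.ext hzl hbl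
      rw [hsl, hl2, lv_true, ← mul_assoc A⁻¹ (g * val gg (w.take l)), στ] at h4
      split_ifs at h4 with hc
      · obtain ⟨h, hh⟩ := hc
        refine hout l h2 h1 h ?_
        rw [hsl, hl2, lv_true]
        exact hcross _ h hh
      · omega
  · -- tau
    have hlet : w[r] = (GG.tau, true) := Prod.ext hz hb
    have hV : ∀ z ∈ R.HBP, σ (g'⁻¹ * z) = σ (g'⁻¹ * 1) := by
      refine R.hbp_const (fun z => σ (g'⁻¹ * z)) ?_ ?_ ?_ ?_
      · intro z y
        show σ (g'⁻¹ * (z * gg (GG.x y))) = _
        rw [← mul_assoc]; exact σX _ _ (by simp)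
      · intro z hz1 _
        show σ (g'⁻¹ * (z * gg GG.tau)) = _
        rw [← mul_assoc, στ, if_neg, add_zero]
        rintro ⟨h, hh⟩
        have : z = g' * iG (phi h) := by rw [← hh]; group
        rw [this] at hz1
        exact hg'iG _ hz1
      · intro z
        show σ (g'⁻¹ * (z * gg GG.s)) = _
        rw [← mul_assoc]; exact σX _ _ (by simp)
      · intro z
        show σ (g'⁻¹ * (z * gg GG.t)) = _
        rw [← mul_assoc]; exact σX _ _ (by simp)
    have e1 : σ (g'⁻¹ * g) = 0 := by
      rw [hgg']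
      have := F3d_sigma σ σX u⁻¹ 1
      rw [one_mul] at this
      rw [this, σ1]
    have e2 : σ (g'⁻¹ * (g * val gg (w.take (r + 1)))) = 1 := by
      rw [hstep, hlet, lv_true, ← mul_assoc g, ← hg', ← mul_assoc, inv_mul_cancel]
      have := στ 1
      rw [σ1, if_pos ⟨1, by simp⟩] at this
      simpa using this
    have e3 : σ (g'⁻¹ * (g * val gg (w.take w.length))) = 0 := by
      rw [List.take_length, hV _ he, ← hV _ hg, e1]
    obtain ⟨l, h1, h2, h3⟩ := F3d_step (fun l => σ (g'⁻¹ * (g * val gg (w.take l)))) (r + 1) w.length hrl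
      (by show _ < _; rw [e2, e3]; norm_num)
    have h4 : σ (g'⁻¹ * (g * val gg (w.take (l + 1)))) < σ (g'⁻¹ * (g * val gg (w.take l))) := h3
    have hsl : g * val gg (w.take (l + 1)) = g * val gg (w.take l) * lv gg w[l] := by
      rw [F3d_take_succ w l h2, mul_assoc]
    by_cases hzl : w[l].1 = GG.tau
    swap
    · exfalso
      obtain ⟨v, hv⟩ := F3d_lv w[l] hzl
      rw [hsl, hv, ← mul_assoc g'⁻¹ (g * val gg (w.take l)), F3d_sigma σ σX] at h4
      exact lt_irrefl _ h4
    rcases hbl : w[l].2 with _ | _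
    · have hl2 : w[l] = (GG.tau, false) := Prod.ext hzl hbl
      rw [hsl, hl2, lv_false] at h4
      have := στ (g'⁻¹ * (g * val gg (w.take l) * (gg GG.tau)⁻¹))
      rw [mul_assoc g'⁻¹, inv_mul_cancel_right] at this
      rw [this] at h4
      split_ifs at h4 with hc
      · obtain ⟨h, hh⟩ := hc
        refine hout l h2 h1 (phi h) ?_
        rw [hsl, hl2, lv_false, ← hh]; group
      · omega
    · exfalso
      have hl2 : w[l] = (GG.tau, true) := Prod.ext hzl hbl
      rw [hsl, hl2, lv_true, ← mul_assoc g'⁻¹ (g * val gg (w.take l)), στ] at h4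
      split_ifs at h4 <;> omega

end Ray
end Dae
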