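import Pool.Agent.Lib.MP_dae6d7_al.F3d
import Pool.Agent.Lib.MP_dae6d7_al.E2b
import Pool.Agent.Lib.MP_dae6d7_al.D9b

/-! Row F4a. (Sections refer to the paper /team-store/dae6d7_paper.md.)

trace for w, u = val lf f: w', with w'.head = the letter y (as a letter of L). crossing_all for w' (z0 = z1 = 0): T, Z. Claim: if Z u = 0 then u = 0 and
T 0 = 0: if T u > 0, the partial product val lg (w'.take (T u)) = val lf (f.take u), and trace gives 0 < l' < w.length, h:
LtoG (..) = val (w.take l') iG h, so g * val (w.take l') = g * LtoG (val lf (f.take u)) * iG h^{-1} in HBP: contradiction with hf. So T u = 0 and u = 0.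
In that case w'.head = embs f[0] = y, so f[0] is s or t (y is p,q,s,t), and g * letter = g * LtoG (val lf (f.take 1)) in HBP, so w.length = 1 by hf, f = [f[0]]
(iL_injective, LtoG_injective, f reduced): first alternative. Otherwise all Z u <> 0: no letter t in f (EY t z means z = 0).
Second item: cross_cost (its hypothesis hz: at a time l with an X letter l > 0, equality would give an HBP as above), cntE w' <= cntG w <= w.length.
Third item: u with f[u] = (s,b0), Z u <> 0, the letter w'[T u] is not an X letter, so LtoG (val lg (w'.take (T u))) = val (w.take l'), l' < w.length.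
p0 = g val (w.take l') = gam n * LtoG (ee (Z u)). If p0 is (D/2)-bad then gn(val (w.take l')) >= D/2 (g is not D-bad), so w.length >= D/2. If not,
gn (LtoG (ee (Z u))) >= D/2, gn <= |re| + |im| <= sqrt 2 |Z u|, and cntE (w'.take (T u)) >= |P| = |Z u| (exists_PL: P(val lf .. * ee z), eta may be
nonzero but |Rc| = 1): w.length >= D/(2 sqrt 2) >= D/4.
-/

namespace Dae

theorem F4a_iL_mk (f : Wd FG) : iL (FreeGroup.mk f) = val lf f := by
  rw [val_eq_lift]
  have h : iL = FreeGroup.lift lf := by
    ext i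
    cases i <;> simp [iL, lf, emb]
  rw [h]

theorem F4a_LtoG_lg (y : LG) : LtoG (lg y) = gg (LGG y) := by
  cases y <;> simp [LtoG, lg, LGG]

theorem F4a_LtoG_lv (y : LG × Bool) : LtoG (lv lg y) = lv gg (LGG y.1, y.2) := by
  rcases y with ⟨y, b⟩
  cases b <;> simp [F4a_LtoG_lg]

theorem F4a_lv_embs (y : FG × Bool) : lv lg (embs y) = lv lf y := by
  rcases y with ⟨y, b⟩
  cases b <;> simp [embs, lf]

theorem F4a_norm_Rc : ‖Rc‖ = 1 := by
  unfold Rc
  rw [norm_div, norm_two_add_I, norm_two_sub_I]
  have : Real.sqrt 5 ≠ 0 := by positivity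
  exact div_self this

theorem F4a_P_le (P : L → ℂ) (h1 : ∀ g : L, ∀ i, i ≠ LG.p → i ≠ LG.q → P (g * lg i) = P g)
    (h2 : ∀ g : L, ∀ y : LG × Bool, ‖P (g * lv lg y) - P g‖ ≤ 1) (w : Wd LG) :
    ∀ g : L, ‖P (g * val lg w) - P g‖ ≤ cntE w := by
  induction w with
  | nil => intro g; simp [cntE]
  | cons y w ih =>
    intro g
    have e1 := ih (g * lv lg y)
    rw [val_cons, ← mul_assoc]
    have e2 : ‖P (g * lv lg y) - P g‖ ≤ (if (y.1 = LG.p ∨ y.1 = LG.q) then 1 else 0 : ℕ) := by
      by_cases hy : y.1 = LG.p ∨ y.1 = LG.q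
      · rw [if_pos hy]; simpa using h2 g y
      · rw [if_neg hy]
        rw [not_or] at hy
        have : P (g * lv lg y) = P g := by
          rcases y with ⟨y, b⟩
          cases b with
          | true => simpa using h1 g y hy.1 hy.2
          | false =>
            have := h1 (g * (lg y)⁻¹) y hy.1 hy.2
            simp only [inv_mul_cancel_right] at this
            simpa using this.symm
        simp [this]
    have e3 : cntE (y :: w) = cntE w + (if (y.1 = LG.p ∨ y.1 = LG.q) then 1 else 0 : ℕ) := by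
      unfold cntE
      rw [List.countP_cons]
      simp
    rw [e3]
    push_cast at e2 ⊢
    calc ‖P (g * lv lg y * val lg w) - P g‖
        = ‖(P (g * lv lg y * val lg w) - P (g * lv lg y)) + (P (g * lv lg y) - P g)‖ := by ring_nf
      _ ≤ _ := norm_add_le _ _
      _ ≤ _ := add_le_add e1 e2

theorem F4a_nrm_zpow (i : GG) (n : ℤ) : gn (gg i ^ n) ≤ n.natAbs := by
  have hrep : ∀ (k : ℕ) (y : GG × Bool), val gg (List.replicate k y) = (lv gg y) ^ k := by
    intro k y
    simp [val, List.prod_replicate]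
  obtain ⟨k, hk | hk⟩ := n.eq_nat_or_neg
  · subst hk
    have := nrm_le (g := gg) (List.replicate k (i, true))
    rw [hrep, List.length_replicate] at this
    simpa [gn] using this
  · subst hk
    have := nrm_le (g := gg) (List.replicate k (i, false))
    rw [hrep, List.length_replicate] at this
    simpa [gn] using this

theorem F4a_gens : Gens gg := gens_PG

theorem F4a_gn_ee (z : GaussianInt) : (gn (LtoG (ee z)) : ℝ) ≤ |(z.re : ℝ)| + |(z.im : ℝ)| := by
  have e : LtoG (ee z) = gg GG.p ^ z.re * gg GG.q ^ z.im := by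
    unfold ee
    rw [map_mul, map_zpow, map_zpow, F4a_LtoG_lg, F4a_LtoG_lg]
    rfl
  rw [e]
  have h1 : gn (gg GG.p ^ z.re * gg GG.q ^ z.im) ≤ z.re.natAbs + z.im.natAbs :=
    le_trans (nrm_mul F4a_gens _ _) (add_le_add (F4a_nrm_zpow _ _) (F4a_nrm_zpow _ _))
  have h2 : ((z.re.natAbs + z.im.natAbs : ℕ) : ℝ) = |(z.re : ℝ)| + |(z.im : ℝ)| := by
    push_cast
    rw [Nat.cast_natAbs, Nat.cast_natAbs]
    push_cast
    rfl
  rw [← h2]
  exact_mod_cast h1

theorem F4a_gn_ee' (z : GaussianInt) : (gn (LtoG (ee z)) : ℝ) ≤ 2 * ‖GaussianInt.toComplex z‖ := by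
  have h := F4a_gn_ee z
  have h1 : |(z.re : ℝ)| ≤ ‖GaussianInt.toComplex z‖ := by
    rw [GaussianInt.intCast_re]; exact Complex.abs_re_le_norm _
  have h2 : |(z.im : ℝ)| ≤ ‖GaussianInt.toComplex z‖ := by
    rw [GaussianInt.intCast_im]; exact Complex.abs_im_le_norm _
  linarith

namespace Ray
variable (R : Ray)

/-- general run: f is the reduced word of F' of the run, all its initial pieces lead to hull points -/
theorem run_core {g : G} (hg : g ∈ R.HBP) (w : Wd GG) (y : GG × Bool) (hw : w.head? = some y)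
    (hy : y.1 = GG.p ∨ y.1 = GG.q ∨ y.1 = GG.s ∨ y.1 = GG.t) (f : Wd FG) (hfr : FreeGroup.IsReduced f)
    (he : val gg w = LtoG (val lf f)) (hpre : ∀ u, g * LtoG (val lf (f.take u)) ∈ R.HBP)
    (hf : ∀ l, 0 < l → l < w.length → g * val gg (w.take l) ∉ R.HBP) :
    (w.length = 1 ∧ ∃ y0 : FG × Bool, f = [y0] ∧ (y0.1 = FG.s ∨ y0.1 = FG.t)) ∨
    ((∀ y0 ∈ f, y0.1 ≠ FG.t) ∧
      (∀ (j : ℕ) (f1 f2 : Wd FG) (y0 : X6 × Bool), isC y0.1 = true → f = f1 ++ fx (sbn j [y0]) ++ f2 →
        Real.sqrt 5 ^ j / 5 ≤ w.length) ∧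
      (∀ (D : ℝ) (u : ℕ) (b0 : Bool), 0 ≤ D → ¬ R.bad D g → f[u]? = some (FG.s, b0) →
        (∃ n, g * LtoG (val lf (f.take u)) = R.gam n) → D / 4 ≤ w.length)) := by
  obtain ⟨yL, hyL, hyLX⟩ : ∃ yL : LG × Bool, y = (LGG yL.1, yL.2) ∧ ∀ z, yL.1 ≠ LG.x z := by
    rcases y with ⟨y1, y2⟩
    rcases hy with h | h | h | h <;> simp only at h <;> subst h
    · exact ⟨(LG.p, y2), rfl, by simp⟩
    · exact ⟨(LG.q, y2), rfl, by simp⟩
    · exact ⟨(LG.s, y2), rfl, by simp⟩
    · exact ⟨(LG.t, y2), rfl, by simp⟩
  obtain ⟨w', hv, hcnt, hhd, T1, T2⟩ := trace w (val lf f) he yL (by rw [hw, hyL])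
  have hcw : (cntE w' : ℝ) ≤ w.length := by
    have h1 : cntG w ≤ w.length := List.countP_le_length
    exact_mod_cast hcnt.trans h1
  -- no proper piece at a value f.take k * 1
  have hback : ∀ l k, 0 < l → l < w'.length → val lg (w'.take l) = val lf (f.take k) → False := by
    intro l k hl0 hl h
    obtain ⟨l', h', hl'0, hl'1, e⟩ := T1 l hl0 hl
    rw [h] at e
    apply hf l' hl'0 hl'1
    have e2 : g * val gg (w.take l') = g * LtoG (val lf (f.take k)) * iG h'⁻¹ := by
      rw [e, map_inv]; group
    rw [e2]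
    exact R.hbp_mul (hpre k) _
  obtain ⟨T, Z, hTZ, hT⟩ := crossing_all w' 0 0 f hfr (by rw [ee_zero, one_mul, mul_one, hv])
  have hTZ4 : ∀ u, u < f.length → val lg (w'.take (T u)) = val lf (f.take u) * ee (Z u) := by
    intro u hu
    have := (hTZ u hu).2.2.2
    rwa [ee_zero, one_mul] at this
  have hclaim : ∀ u, u < f.length → Z u = 0 → T u = 0 := by
    intro u hu hZ
    by_contra hne
    refine hback (T u) u (Nat.pos_of_ne_zero hne) (hTZ u hu).1 ?_
    rw [hTZ4 u hu, hZ, ee_zero, mul_one]
  have hw0 : w' ≠ [] := by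
    rintro rfl; simp at hhd
  have hw'0 : w'[0]? = some yL := by
    rw [← List.head?_eq_getElem?]; exact hhd
  by_cases hcase : ∃ u, u < f.length ∧ Z u = 0
  · left
    obtain ⟨u, hu, hZ⟩ := hcase
    have hTu := hclaim u hu hZ
    have hu0 : u = 0 := by
      by_contra hne
      obtain ⟨v, rfl⟩ := Nat.exists_eq_succ_of_ne_zero hne
      have h8 : T v < T (v + 1) := hT v hu
      have h9 : T (v + 1) = 0 := hTu
      omega
    subst hu0
    have hl := (hTZ 0 hu).2.1
    rw [hTu, hw'0] at hl
    have hl2 : yL = embs f[0] := by simpa using hl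
    have hst : (f[0]).1 = FG.s ∨ (f[0]).1 = FG.t := by
      have h3 : yL.1 = emb (f[0]).1 := by rw [hl2]; rfl
      rcases hfz : (f[0]).1 with _ | _ | z
      · exact Or.inl rfl
      · exact Or.inr rfl
      · exfalso
        rw [hfz] at h3
        exact hyLX z h3
    have hlv : lv gg y = LtoG (lv lf f[0]) := by
      rw [hyL, ← F4a_LtoG_lv, hl2, F4a_lv_embs]
    have hft : f.take 1 = [f[0]] := by
      rw [List.take_one, List.head?_eq_getElem?, List.getElem?_eq_getElem hu]; rfl
    obtain ⟨w1, hw1⟩ : ∃ w1, w = y :: w1 := by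
      cases w with
      | nil => simp at hw
      | cons a w1 => simp at hw; exact ⟨w1, by rw [hw]⟩
    have hlen : w.length = 1 := by
      by_contra hne
      have h1 : 1 < w.length := by
        rw [hw1] at hne ⊢
        simp only [List.length_cons] at hne ⊢
        omega
      apply hf 1 one_pos h1
      have h2 : val gg (w.take 1) = LtoG (val lf (f.take 1)) := by
        rw [hw1, hft]
        simp [hlv]
      rw [h2]
      exact hpre 1
    refine ⟨hlen, f[0], ?_, hst⟩
    have hw1' : w1 = [] := by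
      rw [hw1] at hlen
      simpa using hlen
    subst hw1'
    have h5 : val lf f = val lf [f[0]] := by
      apply LtoG_injective
      rw [← he, hw1]
      simp [hlv]
    rw [← F4a_iL_mk, ← F4a_iL_mk] at h5
    have h6 := iL_injective h5
    have h7 := congrArg FreeGroup.toWord h6
    rw [FreeGroup.toWord_mk, FreeGroup.toWord_mk, hfr.reduce_eq,
      (FreeGroup.IsReduced.singleton).reduce_eq] at h7
    exact h7
  · right
    have hZ : ∀ u, u < f.length → Z u ≠ 0 := by
      intro u hu h
      exact hcase ⟨u, hu, h⟩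
    refine ⟨?_, ?_, ?_⟩
    · intro y0 hy0 ht
      obtain ⟨u, hu, rfl⟩ := List.getElem_of_mem hy0
      have := (hTZ u hu).2.2.1
      unfold EY at this
      rw [ht] at this
      exact hZ u hu this
    · intro j f1 f2 y0 hy0 hfe
      have hfe' : f = f1 ++ (sbn j [y0]).map (fun z => (FG.x z.1, z.2)) ++ f2 := hfe
      have h := cross_cost w' f1 f2 j y0 hy0 (by rw [← hfe']; exact hfr) (by rw [← hfe']; exact hv) (by
        intro l n z hl hn hlz heq
        have hn' : n < (sbn j [y0]).length := (List.getElem?_eq_some_iff.mp hn).1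
        have hk : f1 ++ ((sbn j [y0]).map (fun z => (FG.x z.1, z.2))).take n = f.take (f1.length + n) := by
          rw [hfe', List.append_assoc, List.take_append]
          have h1 : f1.take (f1.length + n) = f1 := List.take_of_length_le (by omega)
          rw [h1, Nat.add_sub_cancel_left, List.take_append_of_le_length (by
            rw [List.length_map]; omega)]
        rw [hk] at heq
        rcases Nat.eq_zero_or_pos l with h0 | h0
        · subst h0
          rw [hw'0] at hlz
          have : yL = (LG.x z.1, z.2) := by simpa using hlz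
          exact hyLX z.1 (by rw [this])
        · exact hback l _ h0 hl heq)
      exact h.trans hcw
    · rintro D u b0 hD hbad hu ⟨n, hn⟩
      have hul : u < f.length := (List.getElem?_eq_some_iff.mp hu).1
      have hfu : f[u] = (FG.s, b0) := (List.getElem?_eq_some_iff.mp hu).2
      obtain ⟨hTl, hTw, -, -⟩ := hTZ u hul
      have hTv := hTZ4 u hul
      have hTw' : w'[T u] = (LG.s, b0) := by
        rw [List.getElem?_eq_getElem hTl, hfu] at hTw
        simpa [embs, emb] using hTw
      obtain ⟨l', hl', e⟩ := T2 (T u) hTl (by intro y; rw [hTw']; simp)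
      have hp0 : (R.gam n)⁻¹ * (g * val gg (w.take l')) = LtoG (ee (Z u)) := by
        rw [← e, hTv, map_mul, ← mul_assoc g, hn]; group
      have hPbound : ‖GaussianInt.toComplex (Z u)‖ ≤ w.length := by
        obtain ⟨P, hP1, hP2, hP3, hP4⟩ := exists_PL
        have h1 := F4a_P_le P hP2 hP3 (w'.take (T u)) 1
        rw [one_mul, hP1, sub_zero, hTv, hP4, norm_mul, norm_zpow, F4a_norm_Rc, one_zpow, one_mul] at h1
        have h2 : cntE (w'.take (T u)) ≤ cntE w' := (List.take_sublist _ _).countP_le
        have h3 : (cntE (w'.take (T u)) : ℝ) ≤ cntE w' := by exact_mod_cast h2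
        linarith
      by_cases hc : (gn (LtoG (ee (Z u))) : ℝ) < D / 2
      · have h1 : D ≤ gn ((R.gam n)⁻¹ * g) := by
          by_contra hlt
          exact hbad ⟨n, not_le.mp hlt⟩
        have h2 : (R.gam n)⁻¹ * g = LtoG (ee (Z u)) * (val gg (w.take l'))⁻¹ := by
          rw [← hp0]; group
        have h3 : gn ((R.gam n)⁻¹ * g) ≤ gn (LtoG (ee (Z u))) + gn (val gg (w.take l')) := by
          rw [h2]
          have h4 := nrm_mul F4a_gens (LtoG (ee (Z u))) (val gg (w.take l'))⁻¹
          have h5 := nrm_inv F4a_gens (val gg (w.take l'))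
          unfold gn
          rw [h5] at h4
          exact h4
        have h6 : gn (val gg (w.take l')) ≤ w.length := by
          refine (nrm_le _).trans ?_
          exact List.length_take_le _ _ |>.trans (by omega)
        have h3' : (gn ((R.gam n)⁻¹ * g) : ℝ) ≤ gn (LtoG (ee (Z u))) + gn (val gg (w.take l')) := by
          exact_mod_cast h3
        have h6' : (gn (val gg (w.take l')) : ℝ) ≤ w.length := by exact_mod_cast h6
        linarith
      · have h1 := F4a_gn_ee' (Z u)
        linarith

end Ray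
end Dae
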