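import Pool.Agent.Lib.MP_dae6d7_al.F4a

/-! Row F4b. (Sections refer to the paper /team-store/dae6d7_paper.md.)

run_core with f = fx h.toWord (LtoG (val lf (fx h.toWord)) = iG h); hpre: g * iG (..) in HBP (hbp_mul). First alternative impossible (letters of f
are FG.x). con J h: h.toWord = f1 ++ sbn J [y0] ++ f2, map by fx.
-/

namespace Dae

theorem F4b_val (u : Wd X6) : LtoG (val lf (fx u)) = iG (FreeGroup.mk u) := by
  have h1 : val lf (fx u) = val (lf ∘ FG.x) u := val_map FG.x lf u
  rw [h1, map_val, iG, MonoidHom.coe_comp, Function.comp_apply, iK_eq_val, map_val]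
  congr 1

theorem F4b_red {u : Wd X6} (h : FreeGroup.IsReduced u) : FreeGroup.IsReduced (fx u) := by
  unfold FreeGroup.IsReduced at h ⊢
  unfold fx
  rw [List.isChain_map]
  refine h.imp ?_
  intro a b hab h2
  exact hab (FG.x.inj h2)

namespace Ray
variable (R : Ray)

/-- run inside one block -/
theorem run_same {g : G} (hg : g ∈ R.HBP) (w : Wd GG) (y : GG × Bool) (hw : w.head? = some y)
    (hy : y.1 = GG.p ∨ y.1 = GG.q ∨ y.1 = GG.s ∨ y.1 = GG.t) (h : F) (he : val gg w = iG h)
    (hf : ∀ l, 0 < l → l < w.length → g * val gg (w.take l) ∉ R.HBP) (J : ℕ) (hc : con J h) :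
    Real.sqrt 5 ^ J / 5 ≤ w.length := by
  have hh : FreeGroup.mk h.toWord = h := FreeGroup.mk_toWord
  have hmem : ∀ y0 ∈ fx h.toWord, y0.1 ≠ FG.s ∧ y0.1 ≠ FG.t := by
    intro y0 hy0
    unfold fx at hy0
    rw [List.mem_map] at hy0
    obtain ⟨a, -, rfl⟩ := hy0
    exact ⟨fun h => FG.noConfusion h, fun h => FG.noConfusion h⟩
  rcases R.run_core hg w y hw hy (fx h.toWord) (F4b_red FreeGroup.isReduced_toWord)
    (by rw [F4b_val, hh]; exact he)
    (by
      intro u
      have h1 : (fx h.toWord).take u = fx (h.toWord.take u) := by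
        unfold fx
        rw [List.map_take]
      rw [h1, F4b_val]
      exact R.hbp_mul hg _) hf with ⟨-, y0, hf0, h0⟩ | ⟨-, h2, -⟩
  · exfalso
    have h3 := hmem y0 (by rw [hf0]; exact List.mem_singleton_self _)
    rcases h0 with h0 | h0
    · exact h3.1 h0
    · exact h3.2 h0
  · obtain ⟨y0, hy0, s, t, hst⟩ := hc
    refine h2 J (fx s) (fx t) y0 hy0 ?_
    rw [← hst]
    unfold fx
    rw [List.map_append, List.map_append]

end Ray
end Dae
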