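import Pool.Agent.Lib.MP_dae6d7_al.F1c
import Pool.Agent.Lib.MP_dae6d7_al.A1b

/-! Row F4c. (Sections refer to the paper /team-store/dae6d7_paper.md.)

mid_red: u.toWord, sbn m [c], v.toWord are reduced and are separated by letters s or t (never cancelling). mid_val: induction on k with pt_sep and
pt_mul (val of fx (sbn m [c]) is iG (wm m)). mid_hbp: a piece of the word x^{-1} wm(m_b): take n inside: pt b 0 (x * piece); after that
pt b 0 (wm) * LtoG (val lf ((mid b k).take n')): inside the block b+j+1: pt (b+j+1) 0 (piece), or the point after a separator: pt (b+j+1) 0 1;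
at the end pt (b+k+1) 0 (piece of x'). mid_hbp': the points of the reversed path are the same points: (invRev f).take n = invRev (f.drop (len - n)),
endpoint * val (invRev (f.drop r)) = start * val (f.take r), where start * val f = end.
-/

namespace Dae

theorem F4c_iL (w : Wd FG) : iL (FreeGroup.mk w) = val lf w := by
  rw [val_eq_lift]
  unfold iL
  congr 2
  funext y
  cases y <;> rfl

theorem F4c_fx (w : Wd X6) : LtoG (val lf (fx w)) = iG (FreeGroup.mk w) := by
  rw [← LtoG_iL_iF, ← F4c_iL]
  congr 2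

theorem F4c_toWord (m : ℕ) : (wm m).toWord = sbn m [(X6.c, true)] := by
  unfold wm
  rw [toWord_phn, FreeGroup.toWord_of]

theorem F4c_mk (m : ℕ) : FreeGroup.mk (sbn m [(X6.c, true)]) = wm m := by
  rw [← F4c_toWord, FreeGroup.mk_toWord]

theorem F4c_fx_red {w : Wd X6} (h : FreeGroup.IsReduced w) : FreeGroup.IsReduced (fx w) := by
  unfold fx FreeGroup.IsReduced
  rw [List.isChain_map]
  refine List.IsChain.imp ?_ h
  intro a b hab h1
  exact hab (by simpa using h1)

theorem F4c_app {w1 w2 : Wd FG} (h1 : FreeGroup.IsReduced w1) (h2 : FreeGroup.IsReduced w2)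
    (h : ∀ x ∈ w1.getLast?, ∀ y ∈ w2.head?, x.1 ≠ y.1) : FreeGroup.IsReduced (w1 ++ w2) := by
  unfold FreeGroup.IsReduced
  rw [List.isChain_append]
  refine ⟨h1, h2, ?_⟩
  intro x hx y hy hxy
  exact absurd hxy (h x hx y hy)

theorem F4c_fx_mem {w : Wd X6} {z : FG × Bool} (h : z ∈ fx w) : ∃ y, z.1 = FG.x y := by
  unfold fx at h
  rw [List.mem_map] at h
  obtain ⟨a, _, rfl⟩ := h
  exact ⟨_, rfl⟩

theorem F4c_cfx (m : ℕ) : FreeGroup.IsReduced (fx (sbn m [(X6.c, true)])) :=
  F4c_fx_red (red_sbn m (by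
    rw [FreeGroup.isReduced_iff_reduce_eq]
    rfl))

namespace Ray
variable (R : Ray)

theorem F4c_sep (b : ℕ) (y : X6) : (R.sepF b).1 ≠ FG.x y := by
  unfold sepF
  split <;> simp

theorem F4c_mid_head (b k : ℕ) : (R.mid b k).head? = some (R.sepF b) := by
  induction k with
  | zero => rfl
  | succ k ih =>
    have : R.mid b k ≠ [] := by
      intro h
      rw [h] at ih
      simp at ih
    simp only [mid]
    rw [List.append_assoc, List.head?_append, ih]
    rfl

theorem F4c_mid_last (b k : ℕ) : (R.mid b k).getLast? = some (R.sepF (b + k)) := by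
  cases k with
  | zero => rfl
  | succ k =>
    simp only [mid]
    rw [List.getLast?_append]
    rfl

theorem F4c_mid_red (b k : ℕ) : FreeGroup.IsReduced (R.mid b k) := by
  induction k with
  | zero =>
    unfold FreeGroup.IsReduced mid
    exact List.isChain_singleton _
  | succ k ih =>
    simp only [mid]
    refine F4c_app (F4c_app ih (F4c_cfx _) ?_) (List.isChain_singleton _) ?_
    · intro x hx y hy
      rw [F4c_mid_last, Option.mem_some_iff] at hx
      subst hx
      obtain ⟨w, hw⟩ := F4c_fx_mem (List.mem_of_mem_head? hy)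
      rw [hw]
      exact R.F4c_sep _ _
    · intro x hx y hy
      simp only [List.head?_cons, Option.mem_some_iff] at hy
      subst hy
      rw [List.getLast?_append] at hx
      have hne : fx (sbn (R.m (b + k + 1)) [(X6.c, true)]) ≠ [] := by
        intro h0
        have h1 := congrArg List.length h0
        unfold fx at h1
        rw [List.length_map, length_sbn] at h1
        simp at h1
      have h2 : (fx (sbn (R.m (b + k + 1)) [(X6.c, true)])).getLast? =
          some ((fx (sbn (R.m (b + k + 1)) [(X6.c, true)])).getLast hne) := List.getLast?_eq_getLast_of_ne_nil hne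
      rw [h2] at hx
      simp only [Option.some_or, Option.mem_some_iff] at hx
      subst hx
      obtain ⟨w, hw⟩ := F4c_fx_mem (List.getLast_mem hne)
      rw [hw]
      exact (R.F4c_sep _ _).symm

theorem mid_red (b k : ℕ) (u v : F) : FreeGroup.IsReduced (fx u.toWord ++ R.mid b k ++ fx v.toWord) := by
  have hne : R.mid b k ≠ [] := by
    intro h
    have := R.F4c_mid_head b k
    rw [h] at this
    simp at this
  refine F4c_app (F4c_app (F4c_fx_red FreeGroup.isReduced_toWord) (R.F4c_mid_red b k) ?_)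
    (F4c_fx_red FreeGroup.isReduced_toWord) ?_
  · intro x hx y hy
    rw [F4c_mid_head, Option.mem_some_iff] at hy
    subst hy
    obtain ⟨w, hw⟩ := F4c_fx_mem (List.mem_of_mem_getLast? hx)
    rw [hw]
    exact (R.F4c_sep _ _).symm
  · intro x hx y hy
    rw [List.getLast?_append, F4c_mid_last] at hx
    simp only [Option.some_or, Option.mem_some_iff] at hx
    subst hx
    obtain ⟨w, hw⟩ := F4c_fx_mem (List.mem_of_mem_head? hy)
    rw [hw]
    exact R.F4c_sep _ _

theorem F4c_sepv (b : ℕ) : LtoG (val lf [R.sepF b]) = lv gg (R.sep b) := by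
  rw [val_singleton]
  unfold sepF sep
  split <;> simp [lf, emb, lg, LtoG]

theorem mid_val (b k : ℕ) : R.pt b 0 (wm (R.m b)) * LtoG (val lf (R.mid b k)) = R.pt (b + k + 1) 0 1 := by
  induction k with
  | zero =>
    simp only [mid]
    rw [F4c_sepv, pt_sep]
    try rfl
  | succ k ih =>
    simp only [mid]
    rw [val_append, val_append, map_mul, map_mul, ← mul_assoc, ← mul_assoc, ih, F4c_fx, F4c_mk, pt_mul, one_mul,
      F4c_sepv, pt_sep]
    try rfl

/-- all initial pieces of w lead from y to hull points -/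
def F4c_ok (b : ℕ) (y : F) (w : Wd FG) : Prop := ∀ n, R.pt b 0 y * LtoG (val lf (w.take n)) ∈ R.HBP

theorem F4c_hbp (b : ℕ) (y : F) : R.pt b 0 y ∈ R.HBP := ⟨b, 0, y, by positivity, rfl⟩

theorem F4c_ok_fx (b : ℕ) (y : F) (v : Wd X6) : R.F4c_ok b y (fx v) := by
  intro n
  have h : (fx v).take n = fx (v.take n) := by
    unfold fx
    rw [List.map_take]
  rw [h, F4c_fx, pt_mul]
  exact R.F4c_hbp _ _

theorem F4c_ok_app {b b' : ℕ} {y y' : F} {w1 w2 : Wd FG} (h1 : R.F4c_ok b y w1)
    (h : R.pt b 0 y * LtoG (val lf w1) = R.pt b' 0 y') (h2 : R.F4c_ok b' y' w2) : R.F4c_ok b y (w1 ++ w2) := by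
  intro n
  rw [List.take_append]
  by_cases hn : n ≤ w1.length
  · have : w2.take (n - w1.length) = [] := by
      rw [Nat.sub_eq_zero_of_le hn, List.take_zero]
    rw [this, List.append_nil]
    exact h1 n
  · rw [List.take_of_length_le (by omega), val_append, map_mul, ← mul_assoc, h]
    exact h2 _

theorem F4c_ok_sep (b : ℕ) : R.F4c_ok b (wm (R.m b)) [R.sepF b] := by
  intro n
  cases n with
  | zero => simpa using R.F4c_hbp _ _
  | succ n =>
    rw [List.take_succ_cons, List.take_nil, F4c_sepv, pt_sep]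
    exact R.F4c_hbp _ _

theorem F4c_ok_mid (b k : ℕ) : R.F4c_ok b (wm (R.m b)) (R.mid b k) := by
  induction k with
  | zero => exact R.F4c_ok_sep b
  | succ k ih =>
    simp only [mid]
    refine R.F4c_ok_app (b' := b + k + 1) (y' := wm (R.m (b + k + 1))) (R.F4c_ok_app ih (R.mid_val b k) (R.F4c_ok_fx _ _ _)) ?_
      (R.F4c_ok_sep _)
    rw [val_append, map_mul, ← mul_assoc, mid_val, F4c_fx, F4c_mk, pt_mul, one_mul]

/-- all the points of the slow path are hull points -/
theorem mid_hbp (b k : ℕ) (x x' : F) (n : ℕ) :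
    R.pt b 0 x * LtoG (val lf ((fx (x⁻¹ * wm (R.m b)).toWord ++ R.mid b k ++ fx x'.toWord).take n)) ∈ R.HBP := by
  have h1 : R.pt b 0 x * LtoG (val lf (fx (x⁻¹ * wm (R.m b)).toWord)) = R.pt b 0 (wm (R.m b)) := by
    rw [F4c_fx, FreeGroup.mk_toWord, pt_mul, mul_inv_cancel_left]
  refine R.F4c_ok_app (b' := b + k + 1) (y' := 1) (R.F4c_ok_app (R.F4c_ok_fx _ _ _) h1 (R.F4c_ok_mid b k)) ?_
    (R.F4c_ok_fx _ _ _) n
  rw [val_append, map_mul, ← mul_assoc, h1, mid_val]

theorem F4c_end (b k : ℕ) (x x' : F) :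
    R.pt b 0 x * LtoG (val lf (fx (x⁻¹ * wm (R.m b)).toWord ++ R.mid b k ++ fx x'.toWord)) = R.pt (b + k + 1) 0 x' := by
  have h1 : R.pt b 0 x * LtoG (val lf (fx (x⁻¹ * wm (R.m b)).toWord)) = R.pt b 0 (wm (R.m b)) := by
    rw [F4c_fx, FreeGroup.mk_toWord, pt_mul, mul_inv_cancel_left]
  rw [val_append, val_append, map_mul, map_mul, ← mul_assoc, ← mul_assoc, h1, mid_val, F4c_fx, FreeGroup.mk_toWord,
    pt_mul, one_mul]

/-- the same for the reversed path -/
theorem mid_hbp' (b k : ℕ) (x x' : F) (n : ℕ) :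
    R.pt (b + k + 1) 0 x' * LtoG (val lf ((FreeGroup.invRev (fx (x⁻¹ * wm (R.m b)).toWord ++ R.mid b k ++
      fx x'.toWord)).take n)) ∈ R.HBP := by
  rw [← R.F4c_end b k x x']
  set f := fx (x⁻¹ * wm (R.m b)).toWord ++ R.mid b k ++ fx x'.toWord with hf
  have h1 : (FreeGroup.invRev f).take n = FreeGroup.invRev (f.drop (f.length - n)) := by
    unfold FreeGroup.invRev
    rw [List.map_drop, List.reverse_drop, List.length_map]
    by_cases hn : n ≤ f.length
    · rw [Nat.sub_sub_self hn]
    · have h0 : f.length - (f.length - n) = f.length := by omega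
      rw [h0, List.take_of_length_le (by simp; omega), List.take_of_length_le (by simp)]
  rw [h1, val_invRev]
  have h2 : val lf f = val lf (f.take (f.length - n)) * val lf (f.drop (f.length - n)) := by
    rw [← val_append, List.take_append_drop]
  rw [h2, map_mul, map_inv, mul_assoc, mul_assoc, mul_inv_cancel, mul_one]
  exact R.mid_hbp b k x x' _

end Ray
end Dae
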