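import Pool.Agent.Lib.MP_dae6d7_al.F4a
import Pool.Agent.Lib.MP_dae6d7_al.F4c
import Pool.Agent.Lib.MP_dae6d7_al.F1b

/-! Row F4d. (Sections refer to the paper /team-store/dae6d7_paper.md.)

b' = b + k + 1. f = fx (x^{-1} wm).toWord ++ mid b k ++ fx x'.toWord, reduced (mid_red), pt b 0 x * LtoG (val lf f) = pt b' 0 x' (mid_val), so
val gg w = LtoG (val lf f); hpre = mid_hbp. run_core. First alternative: f = [one letter]: then x^{-1} wm = 1, k = 0, x' = 1. Second alternative: no t
in f gives z_b .. z_{b'-1} = true; con J (x^{-1} wm) and con J x' give infixes of f; for b < k' < b' the block sbn (m_k') [c] is an infix of mid: J = m_k'.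
The letter s after x^{-1}wm is read at pt b 0 (wm m_b) = gam (..) (gam_down with i = 0).
-/

namespace Dae
namespace Ray
variable (R : Ray)

theorem F4d_mem (b k j : ℕ) (hj : j ≤ k) : R.sepF (b + j) ∈ R.mid b k := by
  induction k with
  | zero =>
    obtain rfl : j = 0 := by omega
    simp [mid]
  | succ k ih =>
    simp only [mid]
    rcases Nat.lt_or_ge j (k + 1) with h | h
    · have := ih (by omega)
      simp [this]
    · obtain rfl : j = k + 1 := by omega
      simp [add_assoc]

theorem F4d_blk (b k j : ℕ) (hj : j < k) : ∃ f1 f2, R.mid b k = f1 ++ fx (sbn (R.m (b + j + 1)) [(X6.c, true)]) ++ f2 := by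
  induction k with
  | zero => omega
  | succ k ih =>
    simp only [mid]
    rcases Nat.lt_or_ge j k with h | h
    · obtain ⟨f1, f2, hh⟩ := ih h
      refine ⟨f1, f2 ++ (fx (sbn (R.m (b + k + 1)) [(X6.c, true)]) ++ [R.sepF (b + k + 1)]), ?_⟩
      rw [hh]
      simp [List.append_assoc]
    · obtain rfl : j = k := by omega
      exact ⟨R.mid b j, [R.sepF (b + j + 1)], rfl⟩

theorem F4d_len (b k : ℕ) : k + 1 ≤ (R.mid b k).length := by
  induction k with
  | zero => simp [mid]
  | succ k ih =>
    simp only [mid, List.length_append, List.length_cons, List.length_nil]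
    omega

theorem F4d_fx_infix {J : ℕ} {y : X6 × Bool} {v : Wd X6} (h : sbn J [y] <:+: v) :
    ∃ s t : Wd FG, fx v = s ++ fx (sbn J [y]) ++ t := by
  obtain ⟨s, t, rfl⟩ := h
  refine ⟨fx s, fx t, ?_⟩
  unfold fx
  rw [List.map_append, List.map_append]

/-- run from block b to a later block b': either it is a single separator letter from W_b^+, or all separators
between b and b' are s, and the word is long -/
theorem run_up {b b' : ℕ} (hb : b < b') (x x' : F) (w : Wd GG) (y : GG × Bool) (hw : w.head? = some y)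
    (hy : y.1 = GG.p ∨ y.1 = GG.q ∨ y.1 = GG.s ∨ y.1 = GG.t) (he : R.pt b 0 x * val gg w = R.pt b' 0 x')
    (hf : ∀ l, 0 < l → l < w.length → R.pt b 0 x * val gg (w.take l) ∉ R.HBP) :
    (b' = b + 1 ∧ x = wm (R.m b) ∧ x' = 1) ∨
    ((∀ k, b ≤ k → k < b' → R.z k = true) ∧
      (∀ J, con J (x⁻¹ * wm (R.m b)) → Real.sqrt 5 ^ J / 5 ≤ w.length) ∧
      (∀ J, con J x' → Real.sqrt 5 ^ J / 5 ≤ w.length) ∧
      (∀ k, b < k → k < b' → Real.sqrt 5 ^ (R.m k) / 5 ≤ w.length) ∧
      (∀ D : ℝ, 0 ≤ D → ¬ R.bad D (R.pt b 0 x) → D / 4 ≤ w.length)) := by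
  obtain ⟨k, rfl⟩ : ∃ k, b' = b + k + 1 := ⟨b' - b - 1, by omega⟩
  set u := fx (x⁻¹ * wm (R.m b)).toWord with hu
  set v := fx x'.toWord with hv
  have hend : R.pt b 0 x * LtoG (val lf (u ++ R.mid b k ++ v)) = R.pt (b + k + 1) 0 x' := R.F4c_end b k x x'
  have he' : val gg w = LtoG (val lf (u ++ R.mid b k ++ v)) := by
    have := he.trans hend.symm
    exact mul_left_cancel this
  rcases R.run_core (R.F4c_hbp b x) w y hw hy (u ++ R.mid b k ++ v) (R.mid_red b k _ _) he'
    (fun n => R.mid_hbp b k x x' n) hf with ⟨-, y0, hy0, -⟩ | ⟨h1, h2, h3⟩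
  · left
    have hlen := congrArg List.length hy0
    simp only [List.length_append, List.length_cons, List.length_nil] at hlen
    have hk := R.F4d_len b k
    have hu0 : u.length = 0 := by omega
    have hv0 : v.length = 0 := by omega
    refine ⟨by omega, ?_, ?_⟩
    · rw [hu] at hu0
      unfold fx at hu0
      rw [List.length_map, List.length_eq_zero_iff, FreeGroup.toWord_eq_nil_iff] at hu0
      exact inv_mul_eq_one.mp hu0
    · rw [hv] at hv0
      unfold fx at hv0
      rw [List.length_map, List.length_eq_zero_iff, FreeGroup.toWord_eq_nil_iff] at hv0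
      exact hv0
  · right
    have hz : ∀ k', b ≤ k' → k' < b + k + 1 → R.z k' = true := by
      intro k' hk1 hk2
      obtain ⟨j, rfl⟩ : ∃ j, k' = b + j := ⟨k' - b, by omega⟩
      have hm := R.F4d_mem b k j (by omega)
      have := h1 (R.sepF (b + j)) (by simp [hm])
      by_contra hc
      apply this
      unfold sepF
      simp [hc]
    refine ⟨hz, ?_, ?_, ?_, ?_⟩
    · rintro J ⟨y0, hy0, hinf⟩
      obtain ⟨s, t, hst⟩ := F4d_fx_infix hinf
      refine h2 J s (t ++ R.mid b k ++ v) y0 hy0 ?_
      rw [hu, hst]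
      simp [List.append_assoc]
    · rintro J ⟨y0, hy0, hinf⟩
      obtain ⟨s, t, hst⟩ := F4d_fx_infix hinf
      refine h2 J (u ++ R.mid b k ++ s) t y0 hy0 ?_
      rw [hv, hst]
      simp [List.append_assoc]
    · intro k' hk1 hk2
      obtain ⟨j, rfl⟩ : ∃ j, k' = b + j + 1 := ⟨k' - b - 1, by omega⟩
      obtain ⟨f1, f2, hh⟩ := R.F4d_blk b k j (by omega)
      refine h2 _ (u ++ f1) (f2 ++ v) (X6.c, true) rfl ?_
      rw [hh]
      simp [List.append_assoc]
    · intro D hD hbad
      refine h3 D u.length true hD hbad ?_ ⟨R.S b + 2 * R.m b + 1, ?_⟩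
      · have hm : (R.mid b k)[0]? = some (FG.s, true) := by
          rw [← List.head?_eq_getElem?, F4c_mid_head]
          unfold sepF
          simp [hz b le_rfl (by omega)]
        have hmlen := R.F4d_len b k
        rw [List.append_assoc, List.getElem?_append_right (le_refl _), Nat.sub_self,
          List.getElem?_append_left (by omega), hm]
      · rw [List.append_assoc, List.take_left, hu, F4c_fx, FreeGroup.mk_toWord, pt_mul, mul_inv_cancel_left]
        have := R.gam_down b 0 (Nat.zero_le _)
        rw [Nat.sub_zero, Nat.sub_zero] at this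
        rw [this]
        rfl

end Ray
end Dae
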