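import Pool.Agent.Lib.MP_dae6d7_al.F4a
import Pool.Agent.Lib.MP_dae6d7_al.F4c
import Pool.Agent.Lib.MP_dae6d7_al.F1b

/-! Row F4e. (Sections refer to the paper /team-store/dae6d7_paper.md.)

b = b' + k + 1. f = invRev (fx (x'^{-1} wm(m_b')).toWord ++ mid b' k ++ fx x.toWord): pt b 0 x * LtoG (val lf f) = pt b' 0 x'; reduced; hpre = mid_hbp'.
run_core; the second item for inverses: con J h iff the reversed word contains the inverse block: sbn J [(y.1, !y.2)] (sbn_invRev). The first letter (s,false)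
(the inverse of the last separator) is read at pt b 0 1 = W b = gam (S b). First alternative: x = 1, k = 0, x' = wm.
-/

namespace Dae

theorem F4e_fx_append (u v : Wd X6) : fx (u ++ v) = fx u ++ fx v := by
  unfold fx
  exact List.map_append

theorem F4e_fx_invRev (w : Wd X6) : FreeGroup.invRev (fx w) = fx (FreeGroup.invRev w) := by
  unfold fx FreeGroup.invRev
  simp [List.map_reverse, Function.comp_def]

theorem F4e_iG_mk (w : Wd X6) : LtoG (val lf (fx w)) = iG (FreeGroup.mk w) := by
  have h1 : iG (FreeGroup.mk w) = KtoG (iK (FreeGroup.mk w)) := rfl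
  rw [h1, iK_eq_val, map_val, map_val]
  unfold fx
  rw [val_map]
  congr 1

theorem F4e_iG_toWord (h : F) : LtoG (val lf (fx h.toWord)) = iG h := by
  rw [F4e_iG_mk, FreeGroup.mk_toWord]

theorem F4e_red_invRev {w : Wd FG} (h : FreeGroup.IsReduced w) : FreeGroup.IsReduced (FreeGroup.invRev w) := by
  rw [FreeGroup.isReduced_iff_reduce_eq] at h ⊢
  rw [FreeGroup.reduce_invRev, h]

/-- con J h gives a decomposition of the reversed word -/
theorem F4e_con_invRev {J : ℕ} {h : F} (hc : con J h) : ∃ (f1 f2 : Wd FG) (y : X6 × Bool), isC y.1 = true ∧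
    FreeGroup.invRev (fx h.toWord) = f1 ++ fx (sbn J [y]) ++ f2 := by
  obtain ⟨y, hy, s, t, hst⟩ := hc
  refine ⟨fx (FreeGroup.invRev t), fx (FreeGroup.invRev s), (y.1, !y.2), hy, ?_⟩
  rw [F4e_fx_invRev, ← hst, FreeGroup.invRev_append, FreeGroup.invRev_append, ← sbn_invRev]
  have : FreeGroup.invRev [y] = [(y.1, !y.2)] := rfl
  rw [this, F4e_fx_append, F4e_fx_append, List.append_assoc]

namespace Ray
variable (R : Ray)

theorem F4e_mid_last (b k : ℕ) : ∃ l : Wd FG, R.mid b k = l ++ [R.sepF (b + k)] := by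
  cases k with
  | zero => exact ⟨[], rfl⟩
  | succ k => exact ⟨_, rfl⟩

theorem F4e_mid_length (b k : ℕ) : 2 * k + 1 ≤ (R.mid b k).length := by
  induction k with
  | zero => simp [mid]
  | succ k ih =>
    have h1 : (R.mid b (k + 1)).length = (R.mid b k).length +
        (fx (sbn (R.m (b + k + 1)) [(X6.c, true)])).length + 1 := by
      change ((R.mid b k ++ fx (sbn (R.m (b + k + 1)) [(X6.c, true)])) ++ [R.sepF (b + k + 1)]).length = _
      rw [List.length_append, List.length_append, List.length_singleton]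
    have h2 : (fx (sbn (R.m (b + k + 1)) [(X6.c, true)])).length = 8 ^ (R.m (b + k + 1)) := by
      unfold fx
      rw [List.length_map, length_sbn]
      simp
    have h3 : 1 ≤ 8 ^ (R.m (b + k + 1)) := Nat.one_le_pow _ _ (by norm_num)
    omega

theorem F4e_mem_mid (b k k' : ℕ) (h : k' ≤ k) : R.sepF (b + k') ∈ R.mid b k := by
  induction k with
  | zero =>
    have : k' = 0 := by omega
    subst this
    simp [mid]
  | succ k ih =>
    change _ ∈ (R.mid b k ++ fx (sbn (R.m (b + k + 1)) [(X6.c, true)])) ++ [R.sepF (b + k + 1)]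
    rcases Nat.lt_or_ge k k' with h1 | h1
    · have : k' = k + 1 := by omega
      subst this
      exact List.mem_append_right _ (List.mem_singleton.mpr rfl)
    · exact List.mem_append_left _ (List.mem_append_left _ (ih h1))

theorem F4e_mid_block (b k k' : ℕ) (h : k' < k) : ∃ s t : Wd FG,
    R.mid b k = s ++ fx (sbn (R.m (b + k' + 1)) [(X6.c, true)]) ++ t := by
  induction k with
  | zero => omega
  | succ k ih =>
    rcases Nat.lt_or_ge k' k with h1 | h1
    · obtain ⟨s, t, hst⟩ := ih h1
      refine ⟨s, t ++ fx (sbn (R.m (b + k + 1)) [(X6.c, true)]) ++ [R.sepF (b + k + 1)], ?_⟩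
      change R.mid b k ++ fx (sbn (R.m (b + k + 1)) [(X6.c, true)]) ++ [R.sepF (b + k + 1)] = _
      rw [hst]
      simp only [List.append_assoc]
    · have : k' = k := by omega
      subst this
      exact ⟨R.mid b k', [R.sepF (b + k' + 1)], rfl⟩

/-- end point of the slow path -/
theorem F4e_end (b k : ℕ) (x x' : F) :
    R.pt b 0 x * LtoG (val lf (fx (x⁻¹ * wm (R.m b)).toWord ++ R.mid b k ++ fx x'.toWord)) =
      R.pt (b + k + 1) 0 x' := by
  rw [val_append, val_append, map_mul, map_mul, F4e_iG_toWord, F4e_iG_toWord, ← mul_assoc, ← mul_assoc,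
    R.pt_mul, mul_inv_cancel_left, R.mid_val, R.pt_mul, one_mul]

/-- the same towards an earlier block -/
theorem run_down {b b' : ℕ} (hb : b' < b) (x x' : F) (w : Wd GG) (y : GG × Bool) (hw : w.head? = some y)
    (hy : y.1 = GG.p ∨ y.1 = GG.q ∨ y.1 = GG.s ∨ y.1 = GG.t) (he : R.pt b 0 x * val gg w = R.pt b' 0 x')
    (hf : ∀ l, 0 < l → l < w.length → R.pt b 0 x * val gg (w.take l) ∉ R.HBP) :
    (b = b' + 1 ∧ x' = wm (R.m b') ∧ x = 1) ∨
    ((∀ k, b' ≤ k → k < b → R.z k = true) ∧
      (∀ J, con J (x'⁻¹ * wm (R.m b')) → Real.sqrt 5 ^ J / 5 ≤ w.length) ∧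
      (∀ J, con J x → Real.sqrt 5 ^ J / 5 ≤ w.length) ∧
      (∀ k, b' < k → k < b → Real.sqrt 5 ^ (R.m k) / 5 ≤ w.length) ∧
      (∀ D : ℝ, 0 ≤ D → ¬ R.bad D (R.pt b 0 x) → D / 4 ≤ w.length)) := by
  obtain ⟨k, rfl⟩ : ∃ k, b = b' + k + 1 := ⟨b - b' - 1, by omega⟩
  set f0 : Wd FG := fx (x'⁻¹ * wm (R.m b')).toWord ++ R.mid b' k ++ fx x.toWord with hf0
  have hfr : FreeGroup.IsReduced (FreeGroup.invRev f0) := F4e_red_invRev (R.mid_red b' k _ _)
  have hend := R.F4e_end b' k x' x
  rw [← hf0] at hend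
  have he' : val gg w = LtoG (val lf (FreeGroup.invRev f0)) := by
    rw [val_invRev, map_inv, eq_inv_iff_mul_eq_one]
    have h1 : R.pt b' 0 x' * (LtoG (val lf f0) * val gg w) = R.pt b' 0 x' * 1 := by
      rw [← mul_assoc, hend, he, mul_one]
    have h2 := mul_left_cancel h1
    exact mul_eq_one_comm.mp h2
  have hg : R.pt (b' + k + 1) 0 x ∈ R.HBP := ⟨b' + k + 1, 0, x, by positivity, rfl⟩
  have hpre : ∀ u, R.pt (b' + k + 1) 0 x * LtoG (val lf ((FreeGroup.invRev f0).take u)) ∈ R.HBP :=
    fun u => R.mid_hbp' b' k x' x u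
  have hrev : FreeGroup.invRev f0 = FreeGroup.invRev (fx x.toWord) ++ FreeGroup.invRev (R.mid b' k) ++
      FreeGroup.invRev (fx (x'⁻¹ * wm (R.m b')).toWord) := by
    rw [hf0, FreeGroup.invRev_append, FreeGroup.invRev_append, List.append_assoc]
  rcases R.run_core hg w y hw hy (FreeGroup.invRev f0) hfr he' hpre hf with ⟨_, y0, h1, _⟩ | ⟨h1, h2, h3⟩
  · left
    have hl : f0.length = 1 := by
      have := congrArg List.length h1
      rwa [FreeGroup.invRev_length, List.length_singleton] at this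
    rw [hf0, List.length_append, List.length_append] at hl
    have h4 := R.F4e_mid_length b' k
    have h5 : (fx x.toWord).length = 0 := by omega
    have h6 : (fx (x'⁻¹ * wm (R.m b')).toWord).length = 0 := by omega
    have h7 : k = 0 := by omega
    unfold fx at h5 h6
    rw [List.length_map, List.length_eq_zero_iff, FreeGroup.toWord_eq_nil_iff] at h5 h6
    refine ⟨by omega, ?_, h5⟩
    have := inv_mul_eq_one.mp h6
    exact this
  · right
    have hz : ∀ j, j ≤ k → R.z (b' + j) = true := by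
      intro j hj
      by_contra hne
      have h4 : R.sepF (b' + j) = (FG.t, true) := by
        unfold sepF
        rw [if_neg hne]
      have h5 : (FG.t, true) ∈ f0 := by
        rw [← h4, hf0]
        exact List.mem_append_left _ (List.mem_append_right _ (R.F4e_mem_mid b' k j hj))
      have h6 : (FG.t, false) ∈ FreeGroup.invRev f0 := by
        unfold FreeGroup.invRev
        rw [List.mem_reverse, List.mem_map]
        exact ⟨_, h5, rfl⟩
      exact h1 _ h6 rfl
    refine ⟨?_, ?_, ?_, ?_, ?_⟩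
    · intro j hj1 hj2
      obtain ⟨j', rfl⟩ := Nat.exists_eq_add_of_le hj1
      exact hz j' (by omega)
    · intro J hJ
      obtain ⟨f1, f2, y1, hy1, hy2⟩ := F4e_con_invRev hJ
      refine h2 J (FreeGroup.invRev (fx x.toWord) ++ FreeGroup.invRev (R.mid b' k) ++ f1) f2 y1 hy1 ?_
      rw [hrev, hy2]
      simp only [List.append_assoc]
    · intro J hJ
      obtain ⟨f1, f2, y1, hy1, hy2⟩ := F4e_con_invRev hJ
      refine h2 J f1 (f2 ++ (FreeGroup.invRev (R.mid b' k) ++
        FreeGroup.invRev (fx (x'⁻¹ * wm (R.m b')).toWord))) y1 hy1 ?_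
      rw [hrev, hy2]
      simp only [List.append_assoc]
    · intro j hj1 hj2
      obtain ⟨j', rfl⟩ : ∃ j', j = b' + j' + 1 := ⟨j - b' - 1, by omega⟩
      obtain ⟨s, t, hst⟩ := R.F4e_mid_block b' k j' (by omega)
      refine h2 (R.m (b' + j' + 1)) (FreeGroup.invRev (fx x.toWord) ++ FreeGroup.invRev t)
        (FreeGroup.invRev s ++ FreeGroup.invRev (fx (x'⁻¹ * wm (R.m b')).toWord)) (X6.c, false) rfl ?_
      have h5 : FreeGroup.invRev (R.mid b' k) = FreeGroup.invRev t ++
          fx (sbn (R.m (b' + j' + 1)) [(X6.c, false)]) ++ FreeGroup.invRev s := by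
        rw [hst, FreeGroup.invRev_append, FreeGroup.invRev_append, F4e_fx_invRev, ← sbn_invRev, List.append_assoc]
        rfl
      rw [hrev, h5]
      simp only [List.append_assoc]
    · intro D hD hbad
      obtain ⟨l, hl⟩ := R.F4e_mid_last b' k
      have hs : R.sepF (b' + k) = (FG.s, true) := by
        unfold sepF
        rw [if_pos (hz k le_rfl)]
      have h5 : FreeGroup.invRev (R.mid b' k) = (FG.s, false) :: FreeGroup.invRev l := by
        rw [hl, hs, FreeGroup.invRev_append]
        rfl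
      refine h3 D (FreeGroup.invRev (fx x.toWord)).length false hD hbad ?_ ?_
      · rw [hrev, h5, List.append_assoc, List.getElem?_append_right (le_refl _)]
        simp
      · refine ⟨R.S (b' + k + 1), ?_⟩
        rw [hrev, List.append_assoc, List.take_left, val_invRev, map_inv, F4e_iG_toWord, ← map_inv, R.pt_mul,
          mul_inv_cancel, R.gam_S]
        unfold pt hp
        simp

end Ray
end Dae
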