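import Pool.Agent.Lib.MP_dae6d7_al.F4e
import Pool.Agent.Lib.MP_dae6d7_al.C5a

/-! Row F5e. (Sections refer to the paper /team-store/dae6d7_paper.md.)

Same as step_up with run_down: PF m_b' 0 x' against PF m_b' 0 wm (x'^{-1} wm), PF m_b 0 x against PF m_b 0 1. First alternative: x = 1: pt b 0 1 = W b = gam (S b) is bad, difference 2.
See the docstring of step_up (F5d): let J1, J2 be the least numbers with not con J1 (x'^{-1} wm(m_b')), not con J2 x; b = b'+1: |dPhi| <= 2(J1+3)+2+2(J2+3), c = w.length >= (sqrt 5)^(J-1)/5 and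
c >= D/4 if not bad; b >= b'+2: |dPhi| <= S (b+1) - S b' <= max C2 ((sqrt 5)^(m k)/5/(5 Lam)), k = b'+1, from Rd for 5 Lam.
-/

namespace Dae
namespace Ray
variable (R : Ray)

theorem F5e_growth (Lam : ℝ) (hL : 1 ≤ Lam) : ∃ J0 : ℕ, 1 ≤ J0 ∧ ∀ J : ℕ, J0 ≤ J →
    4 * (J : ℝ) + 14 ≤ Real.sqrt 5 ^ (J - 1) / 5 / Lam := by
  have h5 : (1 : ℝ) < Real.sqrt 5 := by
    rw [Real.lt_sqrt (by norm_num)]; norm_num
  have h0 : (0 : ℝ) < Real.sqrt 5 := by linarith
  have hlim := tendsto_self_mul_const_pow_of_lt_one (r := (Real.sqrt 5)⁻¹) (by positivity) (inv_lt_one_of_one_lt₀ h5)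
  have hev := hlim.eventually (gt_mem_nhds (show (0 : ℝ) < 1 / (110 * Lam) by positivity))
  obtain ⟨n0, hn0⟩ := Filter.eventually_atTop.1 hev
  refine ⟨max n0 1 + 1, by omega, ?_⟩
  intro J hJ
  obtain ⟨n, rfl⟩ : ∃ n, J = n + 1 := ⟨J - 1, by omega⟩
  have hn : n0 ≤ n := by omega
  have hn1 : 1 ≤ n := by omega
  have h1 := hn0 n hn
  rw [inv_pow, ← div_eq_mul_inv, div_lt_div_iff₀ (by positivity) (by positivity)] at h1
  rw [Nat.add_sub_cancel, div_div, le_div_iff₀ (by positivity)]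
  push_cast
  have hn1' : (1 : ℝ) ≤ n := by exact_mod_cast hn1
  have : (4 * ((n : ℝ) + 1) + 14) * (5 * Lam) ≤ n * (110 * Lam) := by nlinarith
  linarith

theorem F5e_con_exists (h : F) : ∃ J : ℕ, ¬ con J h := by
  refine ⟨h.toWord.length, fun H => ?_⟩
  have := con_length H
  have h2 := Nat.lt_pow_self (show 1 < 8 by norm_num) (n := h.toWord.length)
  omega

theorem F5e_arith (Lam : ℝ) (hL : 1 ≤ Lam) : ∃ D C0 : ℝ, 1 ≤ D ∧ 2 ≤ C0 ∧ ∀ (J1 J2 : ℕ) (c d : ℝ) (P : Prop) [Decidable P],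
    1 ≤ c → d ≤ 2 * (J1 + 3) + 2 + 2 * (J2 + 3) →
    (1 ≤ J1 → Real.sqrt 5 ^ (J1 - 1) / 5 ≤ c) → (1 ≤ J2 → Real.sqrt 5 ^ (J2 - 1) / 5 ≤ c) →
    (¬ P → D / 4 ≤ c) → d ≤ c / Lam + (if P then C0 else 0) := by
  obtain ⟨J0, hJ0, hg⟩ := F5e_growth Lam hL
  have hL0 : 0 < Lam := by linarith
  refine ⟨4 * (4 * J0 + 14) * Lam, 4 * J0 + 14, ?_, ?_, ?_⟩
  · have : (0 : ℝ) ≤ J0 := by positivity
    nlinarith
  · have : (0 : ℝ) ≤ J0 := by positivity
    linarith
  · intro J1 J2 c d P _ hc hd h1 h2 hP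
    have key : ∀ J : ℕ, J1 ≤ J → J2 ≤ J → (1 ≤ J → Real.sqrt 5 ^ (J - 1) / 5 ≤ c) →
        d ≤ c / Lam + (if P then 4 * (J0 : ℝ) + 14 else 0) := by
      intro J hJ1 hJ2 hJ
      have hd' : d ≤ 4 * J + 14 := by
        have a1 : (J1 : ℝ) ≤ J := by exact_mod_cast hJ1
        have a2 : (J2 : ℝ) ≤ J := by exact_mod_cast hJ2
        linarith
      have hif : (0 : ℝ) ≤ (if P then 4 * (J0 : ℝ) + 14 else 0) := by
        split_ifs <;> positivity
      rcases le_or_gt J0 J with h | h
      · have := hg J h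
        have h3 : Real.sqrt 5 ^ (J - 1) / 5 / Lam ≤ c / Lam :=
          div_le_div_of_nonneg_right (hJ (by omega)) hL0.le
        linarith
      · have h3 : (J : ℝ) ≤ J0 := by exact_mod_cast h.le
        by_cases hp : P
        · simp only [hp, if_true]
          have : 0 ≤ c / Lam := by positivity
          linarith
        · simp only [hp, if_false]
          have h4 := hP hp
          have h5 : 4 * (J0 : ℝ) + 14 ≤ c / Lam := by
            rw [le_div_iff₀ hL0]
            linarith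
          linarith
    rcases le_total J1 J2 with h | h
    · exact key J2 h le_rfl h2
    · exact key J1 le_rfl h h1

theorem F5e_PF_diff (m : ℕ) (x' : F) (J : ℕ) (hJ : ¬ con J (x'⁻¹ * wm m)) :
    |PF m 0 x' - 2 * m| ≤ 2 * (J + 3) := by
  have h := PF_jump m 0 x' (x'⁻¹ * wm m) J hJ
  have h2 := PF_tau' m 0 (Nat.zero_le _)
  rw [mul_inv_cancel_left] at h
  have h3 : PF m 0 (wm m) = 2 * m := by
    simpa [wm] using h2
  rw [h3, abs_sub_comm] at h
  exact h

theorem F5e_PF_diff0 (m : ℕ) (x : F) (J : ℕ) (hJ : ¬ con J x) :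
    |PF m 0 x| ≤ 2 * (J + 3) := by
  have h := PF_jump m 0 1 x J hJ
  have h2 := PF_tau m 0 (Nat.zero_le _)
  rw [one_mul] at h
  have h3 : PF m 0 1 = 0 := by
    simpa using h2
  rw [h3, sub_zero] at h
  exact h

open Classical in
/-- runs to an earlier block -/
theorem step_down (hR : R.Rd) (Lam : ℝ) (hL : 1 ≤ Lam) : ∃ D C0 : ℝ, 1 ≤ D ∧ 0 ≤ C0 ∧
    ∀ (b b' : ℕ) (x x' : F) (w : Wd GG) (y : GG × Bool), b' < b → w.head? = some y →
    (y.1 = GG.p ∨ y.1 = GG.q ∨ y.1 = GG.s ∨ y.1 = GG.t) → R.pt b 0 x * val gg w = R.pt b' 0 x' →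
    (∀ l, 0 < l → l < w.length → R.pt b 0 x * val gg (w.take l) ∉ R.HBP) →
    |R.Phi b' 0 x' - R.Phi b 0 x| ≤ w.length / Lam + (if R.bad D (R.pt b 0 x) then C0 else 0) := by
  obtain ⟨D1, C1, hD1, hC1, hA⟩ := F5e_arith Lam hL
  obtain ⟨C2, hC2, hRd⟩ := hR (5 * Lam) (by linarith)
  have hL0 : 0 < Lam := by linarith
  refine ⟨max D1 (4 * Lam * C2), max C1 C2, hD1.trans (le_max_left _ _), ?_, ?_⟩
  · exact (by linarith : (0 : ℝ) ≤ C1).trans (le_max_left _ _)
  intro b b' x x' w y hb hw hy he hf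
  have hc : (1 : ℝ) ≤ w.length := by
    have : w ≠ [] := by rintro rfl; simp at hw
    have := List.length_pos_iff.2 this
    exact_mod_cast this
  have hS1 := R.S_succ b'
  have hS1' : (R.S (b' + 1) : ℝ) = R.S b' + (2 * R.m b' + 2) := by exact_mod_cast hS1
  rcases R.run_down hb x x' w y hw hy he hf with ⟨h1, h2, h3⟩ | ⟨hz, hJ1, hJ2, hm, hbad⟩
  · subst h1 h2 h3
    have hb0 : R.bad (max D1 (4 * Lam * C2)) (R.pt (b' + 1) 0 1) := by
      refine ⟨R.S (b' + 1), ?_⟩
      have h4 := R.gam_up (b' + 1) 0 (Nat.zero_le _)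
      simp only [Nat.cast_zero, add_zero] at h4
      rw [h4, inv_mul_cancel, gn, nrm_one]
      have : (1 : ℝ) ≤ max D1 (4 * Lam * C2) := hD1.trans (le_max_left _ _)
      simp only [Nat.cast_zero]
      linarith
    rw [if_pos hb0]
    have hP1 := PF_tau' (R.m b') 0 (Nat.zero_le _)
    have hP2 := PF_tau (R.m (b' + 1)) 0 (Nat.zero_le _)
    have h5 : PF (R.m b') 0 (wm (R.m b')) = 2 * R.m b' := by simpa [wm] using hP1
    have h6 : PF (R.m (b' + 1)) 0 1 = 0 := by simpa using hP2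
    simp only [Phi, h5, h6, hS1']
    have : (R.S b' : ℝ) + 2 * R.m b' - (R.S b' + (2 * R.m b' + 2) + 0) = -2 := by ring
    rw [this, abs_neg, abs_two]
    have h7 : 0 ≤ (w.length : ℝ) / Lam := by positivity
    have h8 := le_max_left C1 C2
    linarith
  · -- common facts
    have hbad' : ¬ R.bad (max D1 (4 * Lam * C2)) (R.pt b 0 x) → max D1 (4 * Lam * C2) / 4 ≤ (w.length : ℝ) :=
      hbad _ ((by linarith : (0 : ℝ) ≤ D1).trans (le_max_left _ _))
    rcases Nat.lt_or_ge (b' + 1) b with h | h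
    · -- far
      have hR1 := hRd b' b (b' + 1) (by omega) (by omega) hz
      have hm1 := hm (b' + 1) (by omega) h
      have hS2 := R.S_succ b
      have hS2' : (R.S (b + 1) : ℝ) = R.S b + (2 * R.m b + 2) := by exact_mod_cast hS2
      have hmono : (R.S b' : ℝ) ≤ R.S b := by exact_mod_cast R.S_mono hb.le
      have hmono2 : (R.S (b' + 1) : ℝ) ≤ R.S b := by exact_mod_cast R.S_mono (show b' + 1 ≤ b by omega)
      have q1 := PF_nonneg (R.m b) 0 (by positivity) x
      have q2 := PF_le (R.m b) 0 (by positivity) x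
      have q3 := PF_nonneg (R.m b') 0 (by positivity) x'
      have q4 := PF_le (R.m b') 0 (by positivity) x'
      have hd : |R.Phi b' 0 x' - R.Phi b 0 x| ≤ R.S (b + 1) - R.S b' := by
        simp only [Phi]
        rw [abs_le]
        constructor <;> linarith
      have hle : (R.S (b + 1) - R.S b' : ℝ) ≤ max C2 (w.length / Lam) := by
        refine hR1.trans (max_le_max le_rfl ?_)
        have e1 : Real.sqrt 5 ^ (R.m (b' + 1)) / 5 / (5 * Lam) ≤ w.length / (5 * Lam) :=
          div_le_div_of_nonneg_right hm1 (by positivity)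
        have e2 : (w.length : ℝ) / (5 * Lam) ≤ w.length / Lam :=
          div_le_div_of_nonneg_left (by positivity) hL0 (by linarith)
        linarith
      have h7 : 0 ≤ (w.length : ℝ) / Lam := by positivity
      by_cases hp : R.bad (max D1 (4 * Lam * C2)) (R.pt b 0 x)
      · rw [if_pos hp]
        have h8 := le_max_right C1 C2
        rcases le_max_iff.1 hle with h9 | h9
        · linarith
        · have : 0 ≤ max C1 C2 := hC2.trans h8
          linarith
      · rw [if_neg hp]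
        have h10 := hbad' hp
        have h11 : C2 ≤ (w.length : ℝ) / Lam := by
          rw [le_div_iff₀ hL0]
          have := le_max_right D1 (4 * Lam * C2)
          linarith
        have h12 := max_le h11 (le_refl ((w.length : ℝ) / Lam))
        linarith
    · -- neighbour
      have hbb : b = b' + 1 := by omega
      subst hbb
      have ex1 := F5e_con_exists (x'⁻¹ * wm (R.m b'))
      have ex2 := F5e_con_exists x
      have n1 := Nat.find_spec ex1
      have n2 := Nat.find_spec ex2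
      have d1 := F5e_PF_diff (R.m b') x' _ n1
      have d2 := F5e_PF_diff0 (R.m (b' + 1)) x _ n2
      have hmain := hA (Nat.find ex1) (Nat.find ex2) w.length |R.Phi b' 0 x' - R.Phi (b' + 1) 0 x|
        (R.bad (max D1 (4 * Lam * C2)) (R.pt (b' + 1) 0 x)) hc ?_ ?_ ?_ ?_
      · refine hmain.trans ?_
        have h8 := le_max_left C1 C2
        split_ifs <;> linarith
      · simp only [Phi, hS1']
        rw [abs_le] at d1 d2 ⊢
        constructor <;> linarith [d1.1, d1.2, d2.1, d2.2]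
      · intro hJ
        have := Nat.find_min ex1 (m := Nat.find ex1 - 1) (by omega)
        exact hJ1 _ (not_not.1 this)
      · intro hJ
        have := Nat.find_min ex2 (m := Nat.find ex2 - 1) (by omega)
        exact hJ2 _ (not_not.1 this)
      · intro hp
        have := hbad' hp
        have h8 := le_max_left D1 (4 * Lam * C2)
        linarith

end Ray
end Dae
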