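import Pool.Agent.Lib.MP_dae6d7_al.F5c
import Pool.Agent.Lib.MP_dae6d7_al.F5d
import Pool.Agent.Lib.MP_dae6d7_al.F5e
import Pool.Agent.Lib.MP_dae6d7_al.F4b
import Pool.Agent.Lib.MP_dae6d7_al.F3c

/-! Row F5a. (Sections refer to the paper /team-store/dae6d7_paper.md.)

Proposition 7. D := max of the three D, C0 := sum of the three C0 (not bad for D implies not bad for a smaller D). First letter of w (w = y :: w1):
(1) X-letter: l = 1, pt b i (x y) (gg (GG.x y) = iG (of y), pt_mul); step_block. (2) tau^{-1}: l = 1, pt_tau_inv. (3) tau with pt * tau in HBP: pt b i x * tau = pt b' i' x' : chi, NG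
(chi_pt, NG_pt) give b' = b, i' = i+1 <= m, and pt b (i+1) x' = pt b i (phi x') tau, so x = phi x' (pt_inj). (4) tau with pt * tau not in HBP: i = m or x not in the image of phi (otherwise
pt_tau gives an HBP). exc_child: l, val (w.take l) = iG (phi h'), the new point is pt b i (x phi h'), kn (iK (phi h')) <= gn (val (w.take l)) <= l (kn_le_gn, rhoK_KtoG, nrm_le).
(5) first letter p,q,s,t: let l be the first time > 0 with the point in HBP (Nat.find; w.length works). exc_run for w.take l gives val (w.take l) = LtoG u; new point pt b' i' x'; hbp_L: i' = i,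
and i <> 0 -> b' = b. b' = b: val (w.take l) = iG (x^{-1} x'); run_same gives the con hypothesis, kn (iK h) <= l; step_block. b' <> b: i = 0; step_up / step_down for w.take l.
-/

namespace Dae
namespace Ray
variable (R : Ray)

theorem F5a_bad_mono {D D' : ℝ} (h : D ≤ D') {g : G} (hb : R.bad D g) : R.bad D' g := by
  obtain ⟨n, hn⟩ := hb
  exact ⟨n, lt_of_lt_of_le hn h⟩

open Classical in
theorem F5a_if {D D' C C' : ℝ} (h : D ≤ D') (hC : C ≤ C') (hC0 : 0 ≤ C) (g : G) :
    (if R.bad D g then C else 0) ≤ (if R.bad D' g then C' else 0) := by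
  by_cases hb : R.bad D g
  · rw [if_pos hb, if_pos (F5a_bad_mono R h hb)]; exact hC
  · rw [if_neg hb]
    split_ifs
    · exact hC0.trans hC
    · exact le_refl _

theorem F5a_iG_of (y : X6) : iG (FreeGroup.of y) = gg (GG.x y) := by
  simp [iG, iK, KtoG, kg]

theorem F5a_iG_lv (y : X6) (b : Bool) : lv gg (GG.x y, b) = iG (lv FreeGroup.of (y, b)) := by
  cases b
  · rw [lv_false, lv_false, map_inv, F5a_iG_of]
  · rw [lv_true, lv_true, F5a_iG_of]

theorem F5a_kn (h : F) (w : Wd GG) (hv : val gg w = iG h) : kn (iK h) ≤ w.length := by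
  have h1 : rhoK (iG h) = iK h := rhoK_KtoG (iK h)
  have h2 := kn_le_gn (iG h)
  rw [h1] at h2
  refine h2.trans ?_
  rw [← hv]
  exact nrm_le w

theorem F5a_mem_pt (b : ℕ) (i : ℤ) (x : F) (hi : i ≤ R.m b) : R.pt b i x ∈ R.HBP :=
  ⟨b, i, x, hi, rfl⟩

open Classical in
/-- Proposition 7 -/
theorem macro_step (hR : R.Rd) (Lam : ℝ) (hL : 1 ≤ Lam) : ∃ D C0 : ℝ, 1 ≤ D ∧ 0 ≤ C0 ∧
    ∀ (b : ℕ) (i : ℤ) (x : F) (w : Wd GG), i ≤ R.m b → w ≠ [] → R.pt b i x * val gg w ∈ R.HBP →
    ∃ l, 0 < l ∧ l ≤ w.length ∧ ∃ b' i' x', i' ≤ (R.m b' : ℤ) ∧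
      R.pt b i x * val gg (w.take l) = R.pt b' i' x' ∧
      |R.Phi b' i' x' - R.Phi b i x| ≤ l / Lam + (if R.bad D (R.pt b i x) then C0 else 0) := by
  obtain ⟨D1, C1, hD1, hC1, H1⟩ := step_block R Lam hL
  obtain ⟨D2, C2, hD2, hC2, H2⟩ := step_up R hR Lam hL
  obtain ⟨D3, C3, hD3, hC3, H3⟩ := step_down R hR Lam hL
  refine ⟨max D1 (max D2 D3), C1 + C2 + C3, le_max_of_le_left hD1, by linarith, ?_⟩
  intro b i x w hi hw he
  have m1 : (if R.bad D1 (R.pt b i x) then C1 else 0) ≤
      (if R.bad (max D1 (max D2 D3)) (R.pt b i x) then C1 + C2 + C3 else 0) :=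
    F5a_if R (le_max_left _ _) (by linarith) hC1 _
  have m2 : (if R.bad D2 (R.pt b i x) then C2 else 0) ≤
      (if R.bad (max D1 (max D2 D3)) (R.pt b i x) then C1 + C2 + C3 else 0) :=
    F5a_if R ((le_max_left _ _).trans (le_max_right _ _)) (by linarith) hC2 _
  have m3 : (if R.bad D3 (R.pt b i x) then C3 else 0) ≤
      (if R.bad (max D1 (max D2 D3)) (R.pt b i x) then C1 + C2 + C3 else 0) :=
    F5a_if R ((le_max_right _ _).trans (le_max_right _ _)) (by linarith) hC3 _
  have hg : R.pt b i x ∈ R.HBP := F5a_mem_pt R b i x hi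
  obtain ⟨B1, B2, B3, B4, B5⟩ := H1 b i x hi
  match w, hw with
  | (g0, s0) :: w1, _ =>
  have hlen : ((g0, s0) :: w1).length = w1.length + 1 := rfl
  have ht1 : ((g0, s0) :: w1).take 1 = [(g0, s0)] := rfl
  have hcast : ((1 : ℕ) : ℝ) = 1 := Nat.cast_one
  -- the case of a first letter in p, q, s, t
  have main5 : (g0 = GG.p ∨ g0 = GG.q ∨ g0 = GG.s ∨ g0 = GG.t) →
      ∃ l, 0 < l ∧ l ≤ ((g0, s0) :: w1).length ∧ ∃ b' i' x', i' ≤ (R.m b' : ℤ) ∧
      R.pt b i x * val gg (((g0, s0) :: w1).take l) = R.pt b' i' x' ∧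
      |R.Phi b' i' x' - R.Phi b i x| ≤ l / Lam +
        (if R.bad (max D1 (max D2 D3)) (R.pt b i x) then C1 + C2 + C3 else 0) := by
    intro hy
    classical
    have hex : ∃ l, 0 < l ∧ R.pt b i x * val gg (((g0, s0) :: w1).take l) ∈ R.HBP :=
      ⟨((g0, s0) :: w1).length, by simp, by rw [List.take_length]; exact he⟩
    obtain ⟨hl0, hlm⟩ := Nat.find_spec hex
    have hlmin : ∀ k, k < Nat.find hex → ¬ (0 < k ∧ R.pt b i x * val gg (((g0, s0) :: w1).take k) ∈ R.HBP) :=
      fun k hk => Nat.find_min hex hk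
    have hlle : Nat.find hex ≤ ((g0, s0) :: w1).length :=
      Nat.find_min' hex ⟨by simp, by rw [List.take_length]; exact he⟩
    generalize Nat.find hex = l at hl0 hlm hlmin hlle
    have hlt : (((g0, s0) :: w1).take l).length = l := by
      rw [List.length_take]; exact min_eq_left hlle
    have hhead : (((g0, s0) :: w1).take l).head? = some (g0, s0) := by
      obtain ⟨k, rfl⟩ := Nat.exists_eq_succ_of_ne_zero hl0.ne'
      rfl
    have hf : ∀ k, 0 < k → k < (((g0, s0) :: w1).take l).length →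
        R.pt b i x * val gg ((((g0, s0) :: w1).take l).take k) ∉ R.HBP := by
      intro k hk0 hk1 hk2
      rw [hlt] at hk1
      rw [List.take_take, min_eq_left hk1.le] at hk2
      exact hlmin k hk1 ⟨hk0, hk2⟩
    obtain ⟨u, hu⟩ := exc_run R hg (((g0, s0) :: w1).take l) (g0, s0) hhead hy hlm hf
    obtain ⟨b', i', x', hi', hp'⟩ := hlm
    have hL' := hbp_L R hi hi' u (by rw [← hp', hu])
    obtain ⟨rfl, hbb⟩ := hL'
    have hl1 : 1 ≤ l := hl0
    refine ⟨l, hl0, hlle, b', i', x', hi', hp', ?_⟩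
    by_cases hb : b' = b
    · subst hb
      have hv : val gg (((g0, s0) :: w1).take l) = iG (x⁻¹ * x') := by
        have e1 : R.pt b' i' x * iG (x⁻¹ * x') = R.pt b' i' x' := by
          rw [pt_mul, mul_inv_cancel_left]
        exact mul_left_cancel (hp'.trans e1.symm)
      have hk : kn (iK (x⁻¹ * x')) ≤ l := by
        have := F5a_kn (x⁻¹ * x') _ hv
        rwa [hlt] at this
      have hc : ∀ J, con J (x⁻¹ * x') → Real.sqrt 5 ^ J / 5 ≤ l := by
        intro J hJ
        have := run_same R hg (((g0, s0) :: w1).take l) (g0, s0) hhead hy (x⁻¹ * x') hv hf J hJ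
        rwa [hlt] at this
      have := B5 (x⁻¹ * x') l hl1 hk hc
      rw [mul_inv_cancel_left] at this
      linarith
    · have hi0 : i' = 0 := by
        by_contra hne
        exact hb (hbb hne)
      subst hi0
      rcases lt_or_gt_of_ne hb with hlt' | hgt'
      · have := H3 b b' x x' (((g0, s0) :: w1).take l) (g0, s0) hlt' hhead hy hp' hf
        rw [hlt] at this
        linarith
      · have := H2 b b' x x' (((g0, s0) :: w1).take l) (g0, s0) hgt' hhead hy hp' hf
        rw [hlt] at this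
        linarith
  match g0, s0 with
  | GG.p, _ => exact main5 (Or.inl rfl)
  | GG.q, _ => exact main5 (Or.inr (Or.inl rfl))
  | GG.s, _ => exact main5 (Or.inr (Or.inr (Or.inl rfl)))
  | GG.t, _ => exact main5 (Or.inr (Or.inr (Or.inr rfl)))
  | GG.x y, s0 =>
    refine ⟨1, Nat.one_pos, by rw [hlen]; omega, b, i, x * lv FreeGroup.of (y, s0), hi, ?_, ?_⟩
    · rw [ht1, val_singleton, F5a_iG_lv, pt_mul]
    · have := B1 (y, s0)
      rw [hcast]
      linarith
  | GG.tau, false =>
    refine ⟨1, Nat.one_pos, by rw [hlen]; omega, b, i - 1, phi x, by omega, ?_, ?_⟩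
    · rw [ht1, val_singleton, lv_false, pt_tau_inv]
    · rw [hcast]
      linarith
  | GG.tau, true =>
    by_cases hmem : R.pt b i x * gg GG.tau ∈ R.HBP
    · obtain ⟨b', i', x', hi', hp'⟩ := hmem
      have hb' : b' = b := by
        have h1 := congrArg chi hp'
        rw [chi_mul, chi_pt, chi_pt] at h1
        have h2 : chi (gg GG.tau) = 0 := by
          simp [chi, chih, gg]
        rw [h2] at h1
        omega
      have hii : i' = i + 1 := by
        have h1 := congrArg NG hp'
        rw [NG_mul, NG_pt, NG_pt] at h1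
        have h2 : NG (gg GG.tau) = 1 := by
          have h3 : KtoG kt = gg GG.tau := by simp [KtoG, kt, kg]
          rw [← h3, NG_KtoG, NK_kt]
        rw [h2] at h1
        omega
      subst hb'
      subst hii
      have hx : x = phi x' := by
        rw [← pt_tau] at hp'
        exact (pt_inj R (mul_right_cancel hp')).2.2
      refine ⟨1, Nat.one_pos, by rw [hlen]; omega, b', i + 1, x', hi', ?_, ?_⟩
      · rw [ht1, val_singleton, lv_true, hp']
      · have := B3 (by omega) x' hx
        rw [hcast]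
        linarith
    · obtain ⟨l, hl0, hll, h', hv⟩ := exc_child R hg hmem ((GG.tau, true) :: w1) rfl he
      have hx : i = R.m b ∨ ∀ g : F, x ≠ phi g := by
        by_contra hcon
        push Not at hcon
        obtain ⟨hne, g, rfl⟩ := hcon
        apply hmem
        rw [pt_tau]
        exact F5a_mem_pt R b (i + 1) g (by omega)
      have hk : kn (iK (phi h')) ≤ l := by
        have := F5a_kn (phi h') _ hv
        rw [List.length_take] at this
        exact this.trans (min_le_left _ _)
      refine ⟨l, hl0, hll, b, i, x * phi h', hi, ?_, ?_⟩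
      · rw [hv, pt_mul]
      · have := B4 h' l hx hk
        linarith

end Ray
end Dae
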