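import Pool.Agent.Lib.MP_dae6d7_al.F5a

/-! Row F5b. (Sections refer to the paper /team-store/dae6d7_paper.md.)

Theorem 8. D, C0 from macro_step. Claim: for all (b,i,x) with i <= m_b, w, and hull endpoint pt b' i' x': |Phi b' i' x' - Phi b i x| <= w.length/Lam + C0 * (number
of l < w.length with the point bad). Strong induction on w.length: macro_step gives l; the starting index 0 is one of the indices < l; the rest w.drop l:
its bad indices are the bad indices >= l of w. w = []: pt_inj. Then gam_pt for u and v (each within 1): total +2. C = C0.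
-/

namespace Dae
namespace Ray
variable (R : Ray)

open Classical in
theorem F5b_aux (Lam D C0 : ℝ) (hL : 1 ≤ Lam) (hC0 : 0 ≤ C0)
    (hstep : ∀ (b : ℕ) (i : ℤ) (x : F) (w : Wd GG), i ≤ R.m b → w ≠ [] → R.pt b i x * val gg w ∈ R.HBP →
    ∃ l, 0 < l ∧ l ≤ w.length ∧ ∃ b' i' x', i' ≤ (R.m b' : ℤ) ∧
      R.pt b i x * val gg (w.take l) = R.pt b' i' x' ∧
      |R.Phi b' i' x' - R.Phi b i x| ≤ l / Lam + (if R.bad D (R.pt b i x) then C0 else 0)) :
    ∀ (N : ℕ) (w : Wd GG), w.length = N → ∀ (b : ℕ) (i : ℤ) (x : F) (b' : ℕ) (i' : ℤ) (x' : F),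
      i ≤ R.m b → i' ≤ R.m b' → R.pt b i x * val gg w = R.pt b' i' x' →
      |R.Phi b' i' x' - R.Phi b i x| ≤ w.length / Lam +
        C0 * ((Finset.range (w.length + 1)).filter (fun l => R.bad D (R.pt b i x * val gg (w.take l)))).card := by
  intro N
  induction N using Nat.strong_induction_on with
  | _ N ih =>
    intro w hw b i x b' i' x' hi hi' h
    have hLpos : 0 < Lam := lt_of_lt_of_le one_pos hL
    by_cases hw0 : w = []
    · subst hw0
      simp only [val_nil, mul_one] at h
      obtain ⟨rfl, rfl, rfl⟩ := R.pt_inj h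
      simp only [sub_self, abs_zero]
      positivity
    · have hmem : R.pt b i x * val gg w ∈ R.HBP := ⟨b', i', x', hi', h⟩
      obtain ⟨l, hl0, hl, b1, i1, x1, hi1, h1, hle⟩ := hstep b i x w hi hw0 hmem
      have hsplit : val gg w = val gg (w.take l) * val gg (w.drop l) := by
        rw [← val_append, List.take_append_drop]
      have h2 : R.pt b1 i1 x1 * val gg (w.drop l) = R.pt b' i' x' := by
        rw [← h1, mul_assoc, ← hsplit, h]
      have hlen : (w.drop l).length = w.length - l := List.length_drop
      have hlt : (w.drop l).length < N := by omega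
      have hih := ih _ hlt (w.drop l) rfl b1 i1 x1 b' i' x' hi1 hi' h2
      -- cardinalities
      set A := (Finset.range (w.length + 1)).filter (fun k => R.bad D (R.pt b i x * val gg (w.take k))) with hA
      set B := (Finset.range ((w.drop l).length + 1)).filter
        (fun k => R.bad D (R.pt b1 i1 x1 * val gg ((w.drop l).take k))) with hB
      have hshift : ∀ k, R.pt b1 i1 x1 * val gg ((w.drop l).take k) = R.pt b i x * val gg (w.take (l + k)) := by
        intro k
        rw [← h1, mul_assoc, ← val_append, List.take_add]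
      have hBA : B.image (fun k => l + k) ⊆ A := by
        intro k hk
        rw [Finset.mem_image] at hk
        obtain ⟨j, hj, rfl⟩ := hk
        rw [hB, Finset.mem_filter, Finset.mem_range] at hj
        rw [hA, Finset.mem_filter, Finset.mem_range]
        refine ⟨by omega, ?_⟩
        rw [← hshift]
        exact hj.2
      have hcardB : (B.image (fun k => l + k)).card = B.card :=
        Finset.card_image_of_injective _ (fun a c hac => by simpa using hac)
      have hcard : (if R.bad D (R.pt b i x) then (1 : ℕ) else 0) + B.card ≤ A.card := by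
        split_ifs with hbad
        · have h0 : 0 ∈ A := by
            rw [hA, Finset.mem_filter, Finset.mem_range]
            refine ⟨by omega, ?_⟩
            simpa using hbad
          have h0' : 0 ∉ B.image (fun k => l + k) := by
            intro h0B
            rw [Finset.mem_image] at h0B
            obtain ⟨j, _, hj⟩ := h0B
            omega
          have hins : insert 0 (B.image (fun k => l + k)) ⊆ A := Finset.insert_subset h0 hBA
          have := Finset.card_le_card hins
          rw [Finset.card_insert_of_notMem h0', hcardB] at this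
          omega
        · have := Finset.card_le_card hBA
          rw [hcardB] at this
          omega
      have hcardR : (if R.bad D (R.pt b i x) then (1 : ℝ) else 0) + (B.card : ℝ) ≤ (A.card : ℝ) := by
        have : (((if R.bad D (R.pt b i x) then (1 : ℕ) else 0) + B.card : ℕ) : ℝ) ≤ (A.card : ℝ) := by
          exact_mod_cast hcard
        split_ifs at this ⊢ <;> push_cast at this ⊢ <;> linarith
      have htri : |R.Phi b' i' x' - R.Phi b i x| ≤ |R.Phi b' i' x' - R.Phi b1 i1 x1| + |R.Phi b1 i1 x1 - R.Phi b i x| := by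
        have := abs_add_le (R.Phi b' i' x' - R.Phi b1 i1 x1) (R.Phi b1 i1 x1 - R.Phi b i x)
        simpa using this
      have hlenR : ((w.drop l).length : ℝ) = (w.length : ℝ) - l := by
        rw [hlen, Nat.cast_sub hl]
      have hite : (if R.bad D (R.pt b i x) then C0 else 0) = C0 * (if R.bad D (R.pt b i x) then (1 : ℝ) else 0) := by
        split_ifs <;> simp
      rw [hlenR] at hih
      rw [hite] at hle
      have hmul := mul_le_mul_of_nonneg_left hcardR hC0
      have hdiv : ((w.length : ℝ) - l) / Lam + l / Lam = w.length / Lam := by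
        rw [← add_div]; congr 1; ring
      rw [mul_add] at hmul
      linarith

open Classical in
/-- Theorem 8 -/
theorem detour (hR : R.Rd) (Lam : ℝ) (hL : 1 ≤ Lam) : ∃ D C : ℝ, 1 ≤ D ∧ 0 ≤ C ∧
    ∀ (u v : ℕ) (w : Wd GG), R.gam u * val gg w = R.gam v →
      |(u : ℝ) - v| ≤ w.length / Lam + 2 +
        C * ((Finset.range (w.length + 1)).filter (fun l => R.bad D (R.gam u * val gg (w.take l)))).card := by
  obtain ⟨D, C0, hD, hC0, hstep⟩ := R.macro_step hR Lam hL
  refine ⟨D, C0, hD, hC0, ?_⟩
  intro u v w h
  obtain ⟨b, i, x, hi, hgu, hPu⟩ := R.gam_pt u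
  obtain ⟨b', i', x', hi', hgv, hPv⟩ := R.gam_pt v
  rw [hgu, hgv] at h
  have := R.F5b_aux Lam D C0 hL hC0 hstep w.length w rfl b i x b' i' x' hi hi' h
  rw [hgu]
  have h1 : |(u : ℝ) - v| ≤ |R.Phi b' i' x' - R.Phi b i x| + |R.Phi b i x - u| + |R.Phi b' i' x' - v| := by
    have e : (u : ℝ) - v = -(R.Phi b i x - u) + (R.Phi b' i' x' - v) + (-(R.Phi b' i' x' - R.Phi b i x)) := by ring
    rw [e]
    have a1 := abs_add_le (-(R.Phi b i x - u) + (R.Phi b' i' x' - v)) (-(R.Phi b' i' x' - R.Phi b i x))
    have a2 := abs_add_le (-(R.Phi b i x - u)) (R.Phi b' i' x' - v)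
    rw [abs_neg] at a1 a2
    linarith
  linarith

end Ray
end Dae
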