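import Pool.Agent.Lib.MP_dae6d7_al.C8
import Pool.Agent.Lib.MP_dae6d7_al.F1d

/-! Row F5c. (Sections refer to the paper /team-store/dae6d7_paper.md.)

Phi b i x = S b + PF (m b) i x, so only PF matters. good_of_not_bad: if pt b i x is not D-bad then good (m b) D (hp i x). Take D >= 16000 Lam, 32, D0 of
PF_jump_cost; C0 >= 30 and C0 of PF_jump_cost. Letters: PF_letter_good (16/D <= 1/Lam) or PF_letter' (4 <= C0). tau^{-1}: PF_tau_good' with i-1 (hp (i-1+1) x)
or PF_tau_move. tau: PF_tau_good or PF_tau_move. Child: PF_child_good (1000/D * kn <= l/Lam) or PF_child' (24 <= C0). Jump: PF_jump_cost with c = l.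
-/

namespace Dae
namespace Ray
variable (R : Ray)

theorem F5c_diff (b : ℕ) (i i' : ℤ) (x x' : F) :
    R.Phi b i' x' - R.Phi b i x = PF (R.m b) i' x' - PF (R.m b) i x := by
  unfold Phi; ring

open Classical in
/-- moves inside a block -/
theorem step_block (Lam : ℝ) (hL : 1 ≤ Lam) : ∃ D C0 : ℝ, 1 ≤ D ∧ 0 ≤ C0 ∧
    ∀ (b : ℕ) (i : ℤ) (x : F), i ≤ R.m b →
    (∀ y : X6 × Bool, |R.Phi b i (x * lv FreeGroup.of y) - R.Phi b i x| ≤
      1 / Lam + (if R.bad D (R.pt b i x) then C0 else 0)) ∧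
    |R.Phi b (i - 1) (phi x) - R.Phi b i x| ≤ 1 / Lam + (if R.bad D (R.pt b i x) then C0 else 0) ∧
    (i < R.m b → ∀ x', x = phi x' → |R.Phi b (i + 1) x' - R.Phi b i x| ≤
      1 / Lam + (if R.bad D (R.pt b i x) then C0 else 0)) ∧
    (∀ (h' : F) (l : ℕ), (i = R.m b ∨ ∀ g : F, x ≠ phi g) → kn (iK (phi h')) ≤ l →
      |R.Phi b i (x * phi h') - R.Phi b i x| ≤ l / Lam + (if R.bad D (R.pt b i x) then C0 else 0)) ∧
    (∀ (h : F) (l : ℕ), 1 ≤ l → kn (iK h) ≤ l → (∀ J, con J h → Real.sqrt 5 ^ J / 5 ≤ l) →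
      |R.Phi b i (x * h) - R.Phi b i x| ≤ l / Lam + (if R.bad D (R.pt b i x) then C0 else 0)) := by
  obtain ⟨D0, C1, hD0, hC1, hj⟩ := PF_jump_cost Lam hL
  have hLp : 0 < Lam := by linarith
  have h1L : 0 ≤ 1 / Lam := by positivity
  set D : ℝ := max D0 (1000 * Lam) with hDdef
  have hDD0 : D0 ≤ D := le_max_left _ _
  have hDL : 1000 * Lam ≤ D := le_max_right _ _
  have hD32 : 32 ≤ D := hD0.trans hDD0
  have hD1 : 1 ≤ D := by linarith
  have hDp : 0 < D := by linarith
  refine ⟨D, C1 + 30, hD1, by linarith, ?_⟩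
  intro b i x hi
  have hgood : ¬ R.bad D (R.pt b i x) → good (R.m b) D (hp i x) := R.good_of_not_bad D b i x
  refine ⟨?_, ?_, ?_, ?_, ?_⟩
  · intro y
    rw [F5c_diff]
    split_ifs with hb
    · have h := PF_letter' (R.m b) i x y
      linarith
    · have h := PF_letter_good (R.m b) i hi x y D hD32 (hgood hb)
      have h2 : 16 / D ≤ 1 / Lam := by
        rw [div_le_div_iff₀ hDp hLp]; linarith
      linarith
  · rw [F5c_diff]
    have hi' : i - 1 < (R.m b : ℤ) := by linarith
    split_ifs with hb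
    · have h := PF_tau_move (R.m b) (i - 1) hi' x
      rw [sub_add_cancel, abs_sub_comm] at h
      linarith
    · have hg := hgood hb
      have h := PF_tau_good' (R.m b) (i - 1) hi' x D hD1 (by rw [sub_add_cancel]; exact hg)
      rw [sub_add_cancel] at h
      rw [h, sub_self, abs_zero]
      linarith
  · intro hi' x' hx
    subst hx
    rw [F5c_diff]
    split_ifs with hb
    · have h := PF_tau_move (R.m b) i hi' x'
      linarith
    · have h := PF_tau_good (R.m b) i hi' x' D hD1 (hgood hb)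
      rw [h, sub_self, abs_zero]
      linarith
  · intro h' l hx hl
    rw [F5c_diff]
    have hlL : (0 : ℝ) ≤ l / Lam := by positivity
    split_ifs with hb
    · have h := PF_child' (R.m b) i hi x h' hx
      linarith
    · have h := PF_child_good (R.m b) i hi x h' hx D hD32 (hgood hb)
      have hl' : (kn (iK (phi h')) : ℝ) ≤ l := by exact_mod_cast hl
      have h2 : 1000 / D ≤ 1 / Lam := by
        rw [div_le_div_iff₀ hDp hLp]; linarith
      have h3 : 1000 / D * (kn (iK (phi h')) : ℝ) ≤ 1 / Lam * l :=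
        mul_le_mul h2 hl' (by positivity) h1L
      have h4 : 1 / Lam * (l : ℝ) = l / Lam := by ring
      linarith
  · intro h l hl1 hl hc
    rw [F5c_diff]
    have hl' : (kn (iK h) : ℝ) ≤ l := by exact_mod_cast hl
    have hl1' : (1 : ℝ) ≤ l := by exact_mod_cast hl1
    have hh := hj (R.m b) i hi x h l hl1' hl' hc
    split_ifs with hb
    · linarith [hh.1]
    · linarith [hh.2 D hDD0 (hgood hb)]

end Ray
end Dae
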