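import Pool.Agent.Lib.MP_dae6d7_al.Subst

/-! The group K. -/

namespace Dae

/-- relators tau x tau^{-1} phi(x)^{-1} -/
def relK {ι : Type} (tau : ι) (x : X6 → ι) : Set (Wd ι) :=
  {w | ∃ y : X6, w = (tau, true) :: (x y, true) :: (tau, false) ::
    FreeGroup.invRev ((base y).map (fun z => (x z.1, z.2)))}

/-- generators of K -/
inductive KG | tau | x (y : X6)
  deriving DecidableEq

/-- the ascending HNN extension K of F -/
abbrev K : Type := PG (relK KG.tau KG.x)

/-- generators of K -/
def kg : KG → K := PG.of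

/-- stable letter -/
def kt : K := kg KG.tau

/-- F -> K -/
def iK : F →* K := FreeGroup.lift (fun y => kg (KG.x y))

/-- a hom out of K -/
theorem relK_val {ι Γ : Type} [Group Γ] (tau : ι) (x : X6 → ι) (f : ι → Γ)
    (h : ∀ y : X6, f tau * f (x y) * (f tau)⁻¹ = val (f ∘ x) (base y)) :
    ∀ w ∈ relK tau x, val f w = 1 := by
  rintro w ⟨y, rfl⟩
  simp only [val_cons, lv_true, lv_false, val_invRev]
  rw [val_map, ← mul_assoc, ← mul_assoc, h y]
  simp

theorem relK_rel {ι : Type} {R : Set (Wd ι)} (tau : ι) (x : X6 → ι) (hR : relK tau x ⊆ R) (y : X6) :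
    (PG.of tau : PG R) * PG.of (x y) * (PG.of tau)⁻¹ = val (PG.of ∘ x) (base y) := by
  have h := PG.val_rel (hR ⟨y, rfl⟩)
  simp only [val_cons, lv_true, lv_false, val_invRev] at h
  rw [val_map, ← mul_assoc, ← mul_assoc] at h
  exact mul_inv_eq_one.mp h

theorem iK_eq_val (w : Wd X6) : iK (FreeGroup.mk w) = val (kg ∘ KG.x) w := by
  rw [val_eq_lift]; rfl

theorem kt_conj (h : F) : kt * iK h * kt⁻¹ = iK (phi h) := by
  have : (MulAut.conj kt).toMonoidHom.comp iK = iK.comp phi := by
    ext y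
    simp only [MonoidHom.coe_comp, Function.comp_apply, MulEquiv.toMonoidHom_eq_coe, MonoidHom.coe_coe,
      MulAut.conj_apply, phi, FreeGroup.lift_apply_of, iK_eq_val]
    have := relK_rel (R := relK KG.tau KG.x) KG.tau KG.x (le_refl _) y
    simpa [iK, kt, kg] using this
  exact DFunLike.congr_fun this h

/-- exponent of tau -/
def NKh : K →* Multiplicative ℤ := PG.lift (fun g => match g with
  | KG.tau => Multiplicative.ofAdd (1 : ℤ)
  | KG.x _ => 1) (relK_val _ _ _ (by
    intro y
    simp only [mul_one, mul_inv_cancel]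
    have : ((fun g : KG => match g with
      | KG.tau => Multiplicative.ofAdd (1 : ℤ)
      | KG.x _ => 1) ∘ KG.x) = fun _ => 1 := rfl
    rw [this]
    cases y <;> simp [base]))

/-- exponent of tau, additive -/
def NK (k : K) : ℤ := Multiplicative.toAdd (NKh k)

theorem NK_mul (g h : K) : NK (g * h) = NK g + NK h := by simp [NK]
theorem NK_one : NK 1 = 0 := by simp [NK]
theorem NK_inv (g : K) : NK g⁻¹ = - NK g := by simp [NK]
theorem NK_kt : NK kt = 1 := by simp [NK, NKh, kt, kg]
theorem NK_iK (h : F) : NK (iK h) = 0 := by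
  have : NKh.comp iK = 1 := by
    ext y
    simp [NKh, iK, kg]
  have h2 := DFunLike.congr_fun this h
  simp only [MonoidHom.coe_comp, Function.comp_apply, MonoidHom.one_apply] at h2
  simp [NK, h2]

/-- level of a K-word -/
def lvl (w : Wd KG) : ℤ := NK (val kg w)

/-- word norm of K -/
noncomputable def kn (k : K) : ℕ := nrm kg k

/-- hull points tau^i x -/
def hp (i : ℤ) (x : F) : K := kt ^ i * iK x

/-- k is D-good for the block path gamma_m -/
def good (m : ℕ) (D : ℝ) (k : K) : Prop := ∀ i : ℕ, i ≤ m →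
  D ≤ kn ((kt ^ i)⁻¹ * k) ∧ D ≤ kn ((iK (wm m) * kt ^ i)⁻¹ * k)

end Dae
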