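import Pool.Agent.Lib.MP_dae6d7_al.EDefs
import Pool.Agent.Lib.MP_dae6d7_al.KDefs

/-! The rays. -/

namespace Dae

/-- words of F as words of F' -/
def fx (w : Wd X6) : Wd FG := w.map (fun z => (FG.x z.1, z.2))

/-- data of a ray: block parameters m, separators z (true: s, false: t) -/
structure Ray where
  m : ℕ → ℕ
  z : ℕ → Bool

namespace Ray
variable (R : Ray)

/-- separator letter after block b -/
def sep (b : ℕ) : GG × Bool := if R.z b then (GG.s, true) else (GG.t, true)

/-- letters of block b with its separator -/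
def blk (b : ℕ) : Wd GG :=
  List.replicate (R.m b) (GG.tau, true) ++ [(GG.x X6.c, true)] ++ List.replicate (R.m b) (GG.tau, false) ++ [R.sep b]

/-- the word before block b -/
def pre : ℕ → Wd GG
  | 0 => []
  | b + 1 => pre b ++ R.blk b

/-- start point of block b -/
def W (b : ℕ) : G := val gg (R.pre b)

/-- number of letters before block b -/
def S (b : ℕ) : ℕ := (R.pre b).length

/-- the ray -/
def gam (n : ℕ) : G := val gg ((R.pre n).take n)

/-- hull points -/
def pt (b : ℕ) (i : ℤ) (x : F) : G := R.W b * KtoG (hp i x)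

/-- the set of hull points -/
def HBP : Set G := {g | ∃ b i x, i ≤ (R.m b : ℤ) ∧ g = R.pt b i x}

/-- the coordinate -/
noncomputable def Phi (b : ℕ) (i : ℤ) (x : F) : ℝ := R.S b + PF (R.m b) i x

/-- g is at distance < D from the ray -/
def bad (D : ℝ) (g : G) : Prop := ∃ n : ℕ, (gn ((R.gam n)⁻¹ * g) : ℝ) < D

/-- separator letter in F' -/
def sepF (b : ℕ) : FG × Bool := if R.z b then (FG.s, true) else (FG.t, true)

/-- W b lies in L, it is the value of this word of F' -/
def slow : ℕ → Wd FG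
  | 0 => []
  | b + 1 => slow b ++ fx (sbn (R.m b) [(X6.c, true)]) ++ [R.sepF b]

/-- slow word from W_b^+ to W_{b+k+1} -/
def mid (b : ℕ) : ℕ → Wd FG
  | 0 => [R.sepF b]
  | k + 1 => mid b k ++ fx (sbn (R.m (b + k + 1)) [(X6.c, true)]) ++ [R.sepF (b + k + 1)]

/-- growth condition: consecutive blocks b..b' not separated by t are short compared with (sqrt 5)^m -/
def Rd : Prop := ∀ Lam : ℝ, 1 ≤ Lam → ∃ C : ℝ, 0 ≤ C ∧ ∀ b b' b'', b ≤ b'' → b'' ≤ b' →
  (∀ k, b ≤ k → k < b' → R.z k = true) →
  (R.S (b' + 1) - R.S b : ℝ) ≤ max C (Real.sqrt 5 ^ (R.m b'') / 5 / Lam)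

end Ray

end Dae
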