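import Pool.Agent.Lib.MP_dae6d7_al.CayM

/-! Row G2. (Sections refer to the paper /team-store/dae6d7_paper.md.)

exists_vert: distance of edge g s t to vert g is <= t <= 1. Lift x to PreCay by SeparationQuotient.surjective_mk / Quotient.inductionOn; dist of classes =
pd. cay_CG: vertices g, h within 1 of x, y; n = wlen(g^{-1}h), |n - d| <= 2, d = dist x y; a word of length n from g to h, vertices p_0..p_n with
dist p_i p_j = |i - j| (geodesic). If d = 0 f = const x. f s = x for s = 0, y for s = d, p_(min (floor s) n) otherwise. Errors: floor 1+1, cut at n: 2,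
ends 1+..: total <= 10.
-/

namespace Dae
variable {G : Type} [Group G] (T : GenSet G)

theorem exists_vert (x : Cay T) : ∃ g : G, dist x (Cay.vert T g) ≤ 1 := by
  obtain ⟨p, rfl⟩ := SeparationQuotient.surjective_mk x
  cases p with
  | vert g =>
    refine ⟨g, ?_⟩
    have : dist (SeparationQuotient.mk (PreCay.vert g : PreCay T) : Cay T) (Cay.vert T g) = 0 := dist_self _
    exact this.le.trans (by norm_num)
  | edge g s t =>
    refine ⟨g, ?_⟩
    have h1 : dist (SeparationQuotient.mk (PreCay.edge g s t : PreCay T) : Cay T) (Cay.vert T g) =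
        PreCay.pd (PreCay.edge g s t : PreCay T) (PreCay.vert g) := rfl
    refine h1.le.trans ?_
    have h2 : PreCay.pd (PreCay.edge g s t : PreCay T) (PreCay.vert g) =
        PreCay.thru (PreCay.edge g s t : PreCay T) (PreCay.vert g) := rfl
    rw [h2]
    have h3 : PreCay.thru (PreCay.edge g s t : PreCay T) (PreCay.vert g) ≤
        PreCay.vd (PreCay.edge g s t : PreCay T) g + 0 := min_le_left _ _
    have h4 : PreCay.vd (PreCay.edge g s t : PreCay T) g ≤ (t : ℝ) + wlen T.S (g⁻¹ * g) := min_le_left _ _
    have h5 : wlen T.S (g⁻¹ * g) = 0 := by rw [inv_mul_cancel]; exact wlen_one T.S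
    rw [h5] at h4
    have h6 : (t : ℝ) ≤ 1 := t.2.2
    push_cast at h4
    linarith

/-- distances along a geodesic word -/
theorem G2_geo (g : G) (w : List G) (hw : ∀ y ∈ w, y ∈ T.S ∨ y⁻¹ ∈ T.S) (hn : w.length = wlen T.S w.prod)
    (i j : ℕ) (hij : i ≤ j) (hj : j ≤ w.length) :
    dist (Cay.vert T (g * (w.take i).prod)) (Cay.vert T (g * (w.take j).prod)) = (j : ℝ) - i := by
  rw [Cay.dist_vert]
  have h1 : (w.take i).prod * ((w.take j).drop i).prod = (w.take j).prod := by
    have h := List.take_append_drop i (w.take j)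
    rw [List.take_take, min_eq_left hij] at h
    rw [← List.prod_append, h]
  have h2 : (w.take j).prod * (w.drop j).prod = w.prod := by
    rw [← List.prod_append, List.take_append_drop]
  have h3 : (g * (w.take i).prod)⁻¹ * (g * (w.take j).prod) = ((w.take j).drop i).prod := by
    rw [← h1]; group
  rw [h3]
  have hmem : ∀ (u : List G), (∀ y ∈ u, y ∈ w) → ∀ y ∈ u, y ∈ T.S ∨ y⁻¹ ∈ T.S := fun u hu y hy => hw y (hu y hy)
  have l1 : wlen T.S ((w.take j).drop i).prod ≤ j - i := by
    have h := wlen_le T.S ((w.take j).drop i) (hmem _ (fun y hy => List.mem_of_mem_take (List.mem_of_mem_drop hy)))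
    rw [List.length_drop, List.length_take, min_eq_left hj] at h
    exact h
  have l2 : wlen T.S (w.take i).prod ≤ i := by
    have h := wlen_le T.S (w.take i) (hmem _ (fun y hy => List.mem_of_mem_take hy))
    rw [List.length_take, min_eq_left (hij.trans hj)] at h
    exact h
  have l3 : wlen T.S (w.drop j).prod ≤ w.length - j := by
    have h := wlen_le T.S (w.drop j) (hmem _ (fun y hy => List.mem_of_mem_drop hy))
    rw [List.length_drop] at h
    exact h
  have l4 : wlen T.S w.prod ≤ wlen T.S (w.take i).prod + wlen T.S ((w.take j).drop i).prod +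
      wlen T.S (w.drop j).prod := by
    rw [← h2, ← h1]
    exact (wlen_mul T _ _).trans (Nat.add_le_add_right (wlen_mul T _ _) _)
  have l5 : wlen T.S ((w.take j).drop i).prod = j - i := by omega
  rw [l5, Nat.cast_sub hij]

/-- through the vertices: f s = x for s = 0, y for s = dist x y, a vertex on a geodesic word otherwise -/
theorem cay_CG : CG (Cay T) 10 := by
  classical
  intro x y
  obtain ⟨g, hg⟩ := exists_vert T x
  obtain ⟨h, hh⟩ := exists_vert T y
  obtain ⟨w, hwl, hws, hwp⟩ := exists_wlen T (g⁻¹ * h)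
  have hn : w.length = wlen T.S w.prod := by rw [hwp, hwl]
  set n : ℕ := w.length with hndef
  set p : ℕ → Cay T := fun k => Cay.vert T (g * (w.take k).prod) with hp
  have p0 : p 0 = Cay.vert T g := by simp [hp]
  have pn : p n = Cay.vert T h := by
    simp only [hp, hndef, List.take_length, hwp]
    congr 1
    group
  have hgeo : ∀ i j : ℕ, i ≤ n → j ≤ n → dist (p i) (p j) = |(i : ℝ) - j| := by
    intro i j hi hj
    rcases le_total i j with hij | hij
    · have h := G2_geo T g w hws hn i j hij hj
      have h' : dist (p i) (p j) = (j : ℝ) - i := h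
      rw [h', abs_sub_comm, abs_of_nonneg]
      have : (i : ℝ) ≤ j := by exact_mod_cast hij
      linarith
    · have h := G2_geo T g w hws hn j i hij hi
      have h' : dist (p j) (p i) = (i : ℝ) - j := h
      rw [dist_comm, h', abs_of_nonneg]
      have : (j : ℝ) ≤ i := by exact_mod_cast hij
      linarith
  set d : ℝ := dist x y with hd
  have hd0 : 0 ≤ d := dist_nonneg
  have hgh : dist (p 0) (p n) = n := by
    rw [hgeo 0 n (Nat.zero_le _) le_rfl]; simp
  have hxp : dist x (p 0) ≤ 1 := by rw [p0]; exact hg
  have hyp : dist y (p n) ≤ 1 := by rw [pn]; exact hh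
  have hnd : (n : ℝ) ≤ d + 2 := by
    have h1 : dist (p 0) (p n) ≤ dist (p 0) x + dist x y + dist y (p n) := dist_triangle4 _ _ _ _
    rw [dist_comm (p 0) x, hgh] at h1
    linarith
  have hdn : d ≤ n + 2 := by
    have h1 : dist x y ≤ dist x (p 0) + dist (p 0) (p n) + dist (p n) y := dist_triangle4 _ _ _ _
    rw [dist_comm (p n) y, hgh] at h1
    linarith
  set a : ℝ → ℕ := fun s => min ⌊s⌋₊ n with ha
  have han : ∀ s, a s ≤ n := fun s => min_le_right _ _
  have has : ∀ s ∈ Set.Icc 0 d, |(a s : ℝ) - s| ≤ 2 := by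
    intro s hs
    have h1 : (⌊s⌋₊ : ℝ) ≤ s := Nat.floor_le hs.1
    have h2 : s < ⌊s⌋₊ + 1 := Nat.lt_floor_add_one s
    simp only [ha]
    rcases le_total ⌊s⌋₊ n with h3 | h3
    · rw [min_eq_left h3, abs_le]
      constructor <;> linarith
    · rw [min_eq_right h3, abs_le]
      have h4 : (n : ℝ) ≤ ⌊s⌋₊ := by exact_mod_cast h3
      have := hs.2
      constructor <;> linarith
  set f : ℝ → Cay T := fun s => if s = 0 then x else if s = d then y else p (a s) with hf
  have f0 : f 0 = x := by simp [hf]
  have fd : f d = y := by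
    simp only [hf]
    split_ifs with h1
    · have : dist x y = 0 := by rw [← hd]; exact h1
      exact dist_eq_zero.mp this
    · rfl
  have fe : ∀ s ∈ Set.Icc 0 d, dist (f s) (p (a s)) ≤ if s = d then 4 else 1 := by
    intro s hs
    by_cases h1 : s = 0
    · subst h1
      rw [f0]
      have : a 0 = 0 := by simp [ha]
      rw [this]
      split_ifs <;> linarith
    · by_cases h2 : s = d
      · rw [if_pos h2, h2, fd]
        have h3 : dist y (p (a d)) ≤ dist y (p n) + dist (p n) (p (a d)) := dist_triangle _ _ _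
        rw [hgeo n (a d) le_rfl (han d)] at h3
        have h4 : |(n : ℝ) - a d| ≤ 3 := by
          have h5 : (⌊d⌋₊ : ℝ) ≤ d := Nat.floor_le hd0
          have h6 : d < ⌊d⌋₊ + 1 := Nat.lt_floor_add_one d
          simp only [ha]
          rcases le_total ⌊d⌋₊ n with h7 | h7
          · rw [min_eq_left h7, abs_le]
            have h8 : (⌊d⌋₊ : ℝ) ≤ n := by exact_mod_cast h7
            constructor <;> linarith
          · rw [min_eq_right h7, sub_self, abs_zero]; norm_num
        linarith
      · rw [if_neg h2]
        have : f s = p (a s) := by simp [hf, h1, h2]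
        rw [this, dist_self]; norm_num
  refine ⟨f, f0, fd, ?_⟩
  intro s hs t ht
  by_cases hst : s = t
  · subst hst; simp
  · have e1 := fe s hs
    have e2 := fe t ht
    have e12 : dist (f s) (p (a s)) + dist (f t) (p (a t)) ≤ 5 := by
      by_cases h1 : s = d
      · have h2 : t ≠ d := fun h => hst (h1.trans h.symm)
        rw [if_pos h1] at e1
        rw [if_neg h2] at e2
        linarith
      · rw [if_neg h1] at e1
        split_ifs at e2 <;> linarith
    have h3 := hgeo (a s) (a t) (han s) (han t)
    have h4 := abs_le.mp (has s hs)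
    have h5 := abs_le.mp (has t ht)
    have h6 : abs (|(a s : ℝ) - a t| - |s - t|) ≤ 4 := by
      refine (abs_abs_sub_abs_le _ _).trans ?_
      rw [abs_le]
      constructor <;> linarith [h4.1, h4.2, h5.1, h5.2]
    have h6' := abs_le.mp h6
    have h7 : dist (f s) (f t) ≤ dist (f s) (p (a s)) + dist (p (a s)) (p (a t)) + dist (p (a t)) (f t) :=
      dist_triangle4 _ _ _ _
    have h8 : dist (p (a s)) (p (a t)) ≤ dist (p (a s)) (f s) + dist (f s) (f t) + dist (f t) (p (a t)) :=
      dist_triangle4 _ _ _ _
    rw [dist_comm (p (a t)) (f t)] at h7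
    rw [dist_comm (p (a s)) (f s)] at h8
    rw [h3] at h7 h8
    rw [abs_le]
    constructor <;> linarith [h6'.1, h6'.2]

end Dae
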