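import Pool.Agent.Lib.MP_dae6d7_al.CayM

/-! Row G3. (Sections refer to the paper /team-store/dae6d7_paper.md.)

rho t for t in [n,n+1], n = floor t: if γ(n+1) = γ n * s: Cay.edge (γ n) s (t-n); if γ(n+1) * s = γ n: Cay.edge (γ (n+1)) s (1-(t-n)). Then
dist (rho t) (vert γ n) <= t - n and dist (rho t) (vert (γ (n+1))) <= n+1-t (pd formulas), and for t, t' in the same [n,n+1] the distance is <= |t - t'|
(in the edge). So dist (rho t) (rho t') <= |t - t'| in general. Lower bound: for integers a <= t <= t' <= b: b - a = dist (vert γ a) (vert γ b) <= (t-a) +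
dist (rho t) (rho t') + (b - t'), so dist >= t' - t. Hence an isometry of ℝ≥0 (NNReal.dist_eq). rho n = vert (γ n): distance 0 in the metric space.
-/

namespace Dae
variable {G : Type} [Group G] (T : GenSet G)

theorem pd_edge_vert_le (g : G) (s : T.S) (t : unitInterval) :
    PreCay.pd (PreCay.edge g s t : PreCay T) (PreCay.vert g) ≤ t := by
  have h : PreCay.pd (PreCay.edge g s t : PreCay T) (PreCay.vert g) = PreCay.thru (PreCay.edge g s t : PreCay T) (PreCay.vert g) := by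
    simp only [PreCay.pd]
  rw [h]
  refine (min_le_left _ _).trans ?_
  simp only [PreCay.v0, PreCay.r0]
  rw [add_zero]
  refine (min_le_left _ _).trans ?_
  simp only [PreCay.v0, PreCay.r0, inv_mul_cancel, wlen_one, Nat.cast_zero, add_zero, le_refl]

theorem pd_edge_vert_le' (g : G) (s : T.S) (t : unitInterval) :
    PreCay.pd (PreCay.edge g s t : PreCay T) (PreCay.vert (g * s)) ≤ 1 - t := by
  have h : PreCay.pd (PreCay.edge g s t : PreCay T) (PreCay.vert (g * s)) =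
      PreCay.thru (PreCay.edge g s t : PreCay T) (PreCay.vert (g * s)) := by
    simp only [PreCay.pd]
  rw [h]
  refine (min_le_left _ _).trans ?_
  simp only [PreCay.v0, PreCay.r0]
  rw [add_zero]
  refine (min_le_right _ _).trans ?_
  simp only [PreCay.v1, PreCay.r1, inv_mul_cancel, wlen_one, Nat.cast_zero, add_zero, le_refl]

theorem pd_edge_edge_le (g : G) (s : T.S) (t t' : unitInterval) :
    PreCay.pd (PreCay.edge g s t : PreCay T) (PreCay.edge g s t') ≤ |(t : ℝ) - t'| := by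
  simp only [PreCay.pd, and_self, if_true]
  exact min_le_left _ _

/-- the path along one edge -/
theorem exists_edge_path (g h : G) (hs : ∃ s ∈ T.S, h = g * s ∨ h * s = g) :
    ∃ c : ℝ → Cay T, (∀ t ∈ Set.Icc (0 : ℝ) 1, dist (c t) (Cay.vert T g) ≤ t) ∧
      (∀ t ∈ Set.Icc (0 : ℝ) 1, dist (c t) (Cay.vert T h) ≤ 1 - t) ∧
      (∀ t ∈ Set.Icc (0 : ℝ) 1, ∀ t' ∈ Set.Icc (0 : ℝ) 1, dist (c t) (c t') ≤ |t - t'|) := by
  obtain ⟨s, hsS, rfl | rfl⟩ := hs
  · refine ⟨fun t => Cay.edge T g ⟨s, hsS⟩ (Set.projIcc 0 1 zero_le_one t), ?_, ?_, ?_⟩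
    · intro t ht
      refine (pd_edge_vert_le T g ⟨s, hsS⟩ _).trans ?_
      rw [Set.projIcc_of_mem _ ht]
    · intro t ht
      refine (pd_edge_vert_le' T g ⟨s, hsS⟩ _).trans ?_
      rw [Set.projIcc_of_mem _ ht]
    · intro t ht t' ht'
      refine (pd_edge_edge_le T g ⟨s, hsS⟩ _ _).trans ?_
      rw [Set.projIcc_of_mem _ ht, Set.projIcc_of_mem _ ht']
  · have hm : ∀ t ∈ Set.Icc (0 : ℝ) 1, 1 - t ∈ Set.Icc (0 : ℝ) 1 := by
      intro t ht
      exact ⟨by linarith [ht.2], by linarith [ht.1]⟩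
    refine ⟨fun t => Cay.edge T h ⟨s, hsS⟩ (Set.projIcc 0 1 zero_le_one (1 - t)), ?_, ?_, ?_⟩
    · intro t ht
      refine (pd_edge_vert_le' T h ⟨s, hsS⟩ _).trans ?_
      rw [Set.projIcc_of_mem _ (hm t ht)]
      simp
    · intro t ht
      refine (pd_edge_vert_le T h ⟨s, hsS⟩ _).trans ?_
      rw [Set.projIcc_of_mem _ (hm t ht)]
    · intro t ht t' ht'
      refine (pd_edge_edge_le T h ⟨s, hsS⟩ _ _).trans ?_
      rw [Set.projIcc_of_mem _ (hm t ht), Set.projIcc_of_mem _ (hm t' ht')]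
      simp only
      rw [show (1 - t) - (1 - t') = -(t - t') by ring, abs_neg]

/-- t in [n,n+1] goes to the point of the edge between γ n and γ (n+1) at distance t - n from γ n -/
theorem exists_ray_of_word (γ : ℕ → G) (h0 : γ 0 = 1) (hs : ∀ n, ∃ s ∈ T.S, γ (n + 1) = γ n * s ∨ γ (n + 1) * s = γ n)
    (hg : ∀ i j, i ≤ j → wlen T.S ((γ i)⁻¹ * γ j) = j - i) :
    ∃ ρ : GRay (Cay T) (Cay.vert T 1), ∀ n : ℕ, ρ.toFun n = Cay.vert T (γ n) := by
  have hc : ∀ n, ∃ c : ℝ → Cay T, (∀ t ∈ Set.Icc (0 : ℝ) 1, dist (c t) (Cay.vert T (γ n)) ≤ t) ∧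
      (∀ t ∈ Set.Icc (0 : ℝ) 1, dist (c t) (Cay.vert T (γ (n + 1))) ≤ 1 - t) ∧
      (∀ t ∈ Set.Icc (0 : ℝ) 1, ∀ t' ∈ Set.Icc (0 : ℝ) 1, dist (c t) (c t') ≤ |t - t'|) :=
    fun n => exists_edge_path T (γ n) (γ (n + 1)) (hs n)
  choose c hc1 hc2 hc3 using hc
  set ρ : NNReal → Cay T := fun t => c ⌊t⌋₊ ((t : ℝ) - ⌊t⌋₊) with hρ
  have hfl : ∀ t : NNReal, ((⌊t⌋₊ : ℕ) : ℝ) ≤ t := by
    intro t
    have := Nat.floor_le (a := t) zero_le
    exact_mod_cast this
  have hfl2 : ∀ t : NNReal, (t : ℝ) < ⌊t⌋₊ + 1 := by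
    intro t
    have := Nat.lt_floor_add_one t
    exact_mod_cast this
  have hmem : ∀ t : NNReal, (t : ℝ) - ⌊t⌋₊ ∈ Set.Icc (0 : ℝ) 1 := by
    intro t
    exact ⟨by linarith [hfl t], by linarith [hfl2 t]⟩
  have hA : ∀ t : NNReal, dist (ρ t) (Cay.vert T (γ ⌊t⌋₊)) ≤ t - ⌊t⌋₊ := fun t => hc1 _ _ (hmem t)
  have hB : ∀ t : NNReal, dist (ρ t) (Cay.vert T (γ (⌊t⌋₊ + 1))) ≤ ⌊t⌋₊ + 1 - t := by
    intro t
    have := hc2 ⌊t⌋₊ _ (hmem t)
    refine this.trans (le_of_eq ?_)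
    ring
  have hv : ∀ i j, i ≤ j → dist (Cay.vert T (γ i)) (Cay.vert T (γ j)) = (j : ℝ) - i := by
    intro i j hij
    rw [Cay.dist_vert, hg i j hij, Nat.cast_sub hij]
  have hle : ∀ t t' : NNReal, t ≤ t' → dist (ρ t) (ρ t') = (t' : ℝ) - t := by
    intro t t' htt
    have hnm : ⌊t⌋₊ ≤ ⌊t'⌋₊ := Nat.floor_mono htt
    have htt' : (t : ℝ) ≤ t' := by exact_mod_cast htt
    apply le_antisymm
    · rcases hnm.eq_or_lt with h | h
      · have := hc3 ⌊t⌋₊ _ (hmem t) ((t' : ℝ) - ⌊t⌋₊) (by rw [h]; exact hmem t')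
        have e : ρ t' = c ⌊t⌋₊ ((t' : ℝ) - ⌊t⌋₊) := by simp only [hρ]; rw [h]
        rw [e]
        refine this.trans (le_of_eq ?_)
        rw [show (t : ℝ) - ⌊t⌋₊ - ((t' : ℝ) - ⌊t⌋₊) = -((t' : ℝ) - t) by ring, abs_neg, abs_of_nonneg (by linarith)]
      · have h1 := dist_triangle (ρ t) (Cay.vert T (γ (⌊t⌋₊ + 1))) (ρ t')
        have h2 := dist_triangle (Cay.vert T (γ (⌊t⌋₊ + 1))) (Cay.vert T (γ ⌊t'⌋₊)) (ρ t')
        have h3 := hv _ _ (Nat.succ_le_of_lt h)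
        have h4 := hA t'
        have h5 := hB t
        rw [dist_comm] at h4
        simp only [Nat.succ_eq_add_one] at h3
        push_cast at h3
        linarith
    · have h1 := dist_triangle (Cay.vert T (γ ⌊t⌋₊)) (ρ t) (Cay.vert T (γ (⌊t'⌋₊ + 1)))
      have h2 := dist_triangle (ρ t) (ρ t') (Cay.vert T (γ (⌊t'⌋₊ + 1)))
      have h3 := hv ⌊t⌋₊ (⌊t'⌋₊ + 1) (by omega)
      have h4 := hA t
      have h5 := hB t'
      rw [dist_comm] at h4
      push_cast at h3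
      linarith
  have hiso : Isometry ρ := by
    refine Isometry.of_dist_eq ?_
    intro t t'
    rw [NNReal.dist_eq]
    rcases le_total t t' with h | h
    · have h' : (t : ℝ) ≤ t' := by exact_mod_cast h
      rw [hle t t' h, abs_sub_comm, abs_of_nonneg (by linarith)]
    · have h' : (t' : ℝ) ≤ t := by exact_mod_cast h
      rw [dist_comm, hle t' t h, abs_of_nonneg (by linarith)]
  have hn : ∀ n : ℕ, ρ n = Cay.vert T (γ n) := by
    intro n
    have h := hA (n : NNReal)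
    rw [Nat.floor_natCast] at h
    rw [← dist_le_zero]
    refine h.trans (le_of_eq ?_)
    simp
  refine ⟨⟨ρ, hiso, ?_⟩, hn⟩
  have := hn 0
  rw [h0] at this
  exact_mod_cast this

end Dae
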