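import Pool.Agent.Lib.MP_dae6d7_al.Cay

/-! Row G1a. (Sections refer to the paper /team-store/dae6d7_paper.md.)

Word length with respect to S. exists_wlen: the set of lengths is nonempty by Subgroup.closure_induction (T.gen) or Subgroup.exists_list_of_mem_closure;
Nat.sInf_mem. wlen_inv: reverse and invert the list.
-/

namespace Dae
variable {G : Type} [Group G]

theorem wlen_one (S : Set G) : wlen S 1 = 0 := by
  unfold wlen
  have h : (0 : ℕ) ∈ {n | ∃ w : List G, w.length = n ∧ (∀ y ∈ w, y ∈ S ∨ y⁻¹ ∈ S) ∧ w.prod = 1} :=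
    ⟨[], rfl, by simp, rfl⟩
  exact Nat.eq_zero_of_le_zero (Nat.sInf_le h)

theorem exists_wlen (T : GenSet G) (x : G) : ∃ w : List G, w.length = wlen T.S x ∧
    (∀ y ∈ w, y ∈ T.S ∨ y⁻¹ ∈ T.S) ∧ w.prod = x := by
  have hne : {n | ∃ w : List G, w.length = n ∧ (∀ y ∈ w, y ∈ T.S ∨ y⁻¹ ∈ T.S) ∧ w.prod = x}.Nonempty := by
    have hx : x ∈ Subgroup.closure T.S := by rw [T.gen]; exact Subgroup.mem_top x
    rw [← Subgroup.mem_toSubmonoid, Subgroup.closure_toSubmonoid] at hx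
    obtain ⟨l, hl, hp⟩ := Submonoid.exists_list_of_mem_closure hx
    refine ⟨l.length, l, rfl, ?_, hp⟩
    intro y hy
    rcases hl y hy with h | h
    · exact Or.inl h
    · exact Or.inr (Set.mem_inv.mp h)
  exact Nat.sInf_mem hne

theorem wlen_le (S : Set G) (w : List G) (hw : ∀ y ∈ w, y ∈ S ∨ y⁻¹ ∈ S) : wlen S w.prod ≤ w.length :=
  Nat.sInf_le ⟨w, rfl, hw, rfl⟩

theorem wlen_mul (T : GenSet G) (x y : G) : wlen T.S (x * y) ≤ wlen T.S x + wlen T.S y := by
  obtain ⟨u, hu, hu2, rfl⟩ := exists_wlen T x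
  obtain ⟨w, hw, hw2, rfl⟩ := exists_wlen T y
  rw [← hu, ← hw, ← List.length_append, ← List.prod_append]
  apply wlen_le
  intro z hz
  rw [List.mem_append] at hz
  rcases hz with hz | hz
  · exact hu2 z hz
  · exact hw2 z hz

theorem G1a_aux (S : Set G) (x : G) (n : ℕ) (h : ∃ w : List G, w.length = n ∧ (∀ y ∈ w, y ∈ S ∨ y⁻¹ ∈ S) ∧ w.prod = x) :
    ∃ w : List G, w.length = n ∧ (∀ y ∈ w, y ∈ S ∨ y⁻¹ ∈ S) ∧ w.prod = x⁻¹ := by
  obtain ⟨w, hw, hw2, rfl⟩ := h
  refine ⟨(w.map fun y => y⁻¹).reverse, by simpa using hw, ?_, ?_⟩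
  · intro y hy
    rw [List.mem_reverse, List.mem_map] at hy
    obtain ⟨z, hz, rfl⟩ := hy
    rw [inv_inv]
    exact (hw2 z hz).symm
  · rw [List.prod_inv_reverse]

theorem wlen_inv (S : Set G) (x : G) : wlen S x⁻¹ = wlen S x := by
  unfold wlen
  congr 1
  ext n
  constructor
  · intro h
    have := G1a_aux S x⁻¹ n h
    rwa [inv_inv] at this
  · intro h
    exact G1a_aux S x n h

theorem wlen_gen (S : Set G) (s : G) (hs : s ∈ S) : wlen S s ≤ 1 := by
  have := wlen_le S [s] (by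
    intro y hy
    rw [List.mem_singleton] at hy
    subst hy
    exact Or.inl hs)
  rwa [List.prod_singleton] at this

theorem wlen_eq_zero (T : GenSet G) {x : G} (h : wlen T.S x = 0) : x = 1 := by
  obtain ⟨w, hw, -, rfl⟩ := exists_wlen T x
  rw [h] at hw
  rw [List.length_eq_zero_iff.mp hw]
  rfl

end Dae
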