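import Pool.Agent.Lib.MP_dae6d7_al.TGD
import Pool.Agent.Lib.MP_dae6d7_al.G1a

/-! Row GG2. (Sections refer to the paper /team-store/dae6d7_paper.md.)

TG.S = range gg. Lists of elements g with g or g^{-1} in range gg correspond to words (choose letters); both infima agree (wlen_le, exists_wlen,
nrm_le, nrm_spec).
-/

namespace Dae

theorem wlen_TG (x : G) : wlen TG.S x = gn x := by
  have h1 : ∀ w : Wd GG, wlen TG.S (val gg w) ≤ w.length := by
    intro w
    have := wlen_le TG.S (w.map (lv gg)) (by
      intro y hy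
      obtain ⟨z, hz, rfl⟩ := List.mem_map.mp hy
      rcases z with ⟨z, b⟩
      cases b
      · right; simp only [lv_false, inv_inv]; exact ⟨z, rfl⟩
      · left; simp only [lv_true]; exact ⟨z, rfl⟩)
    rw [List.length_map] at this
    exact this
  have h2 : ∀ w : List G, (∀ y ∈ w, y ∈ TG.S ∨ y⁻¹ ∈ TG.S) → ∃ v : Wd GG, v.length = w.length ∧ val gg v = w.prod := by
    intro w
    induction w with
    | nil => intro _; exact ⟨[], rfl, by simp⟩
    | cons y w ih =>
      intro hw
      obtain ⟨v, hl, hv⟩ := ih (fun z hz => hw z (List.mem_cons_of_mem _ hz))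
      rcases hw y (List.mem_cons_self) with ⟨z, hz⟩ | ⟨z, hz⟩
      · refine ⟨(z, true) :: v, by simp [hl], ?_⟩
        rw [val_cons, hv, List.prod_cons, lv_true, hz]
      · refine ⟨(z, false) :: v, by simp [hl], ?_⟩
        rw [val_cons, hv, List.prod_cons, lv_false, hz, inv_inv]
  apply le_antisymm
  · obtain ⟨w, hw, hv⟩ := nrm_spec (g := gg) gens_PG x
    have := h1 w
    rw [hv, hw] at this
    exact this
  · obtain ⟨w, hw, hm, hp⟩ := exists_wlen TG x
    obtain ⟨v, hl, hv⟩ := h2 w hm
    have := nrm_le (g := gg) v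
    rw [hv, hp, hl, hw] at this
    exact this

end Dae
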