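import Pool.Agent.Lib.MP_dae6d7_al.G5b
import Pool.Agent.Lib.MP_dae6d7_al.G3
import Pool.Agent.Lib.MP_dae6d7_al.GG2
import Pool.Agent.Lib.MP_dae6d7_al.G2

/-! Row FinA. (Sections refer to the paper /team-store/dae6d7_paper.md.)

dev_discrete gives w,u,v,k0. f s = vert (gam u * val (w.take (floor s))) for s in [0, w.length] (Nat.floor). (20 j, 1)-quasi-geodesic: |floor s - floor t| is within 1 of |s - t|;
dist = gn; upper bound: nrm_path: dist <= |floor s - floor t| <= |s-t| + 1 <= 20j|s-t|+1; lower bound: dist >= |floor s - floor t|/(20j) >= |s-t|/(20j) - 1. Ends: f 0 = rho u,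
f (w.length) = rho v. At s = k0 Morse gives t with dist (f k0) (rho t) <= Ng (20j) 1; rho t is within 1 of rho (floor t) = vert (gam (floor t)), and dist (f k0) (vert (gam n')) >= 5^n.
-/

namespace Dae
open scoped NNReal

theorem FinA_dist (x y : G) : dist (Cay.vert TG x) (Cay.vert TG y) = (gn (x⁻¹ * y) : ℝ) := by
  rw [Cay.dist_vert, wlen_TG]

theorem FinA_qg (R : Ray) (u : ℕ) (w : Wd GG) (j : ℕ) (hj : 1 ≤ j)
    (hlow : ∀ k k', k ≤ k' → k' ≤ w.length →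
        ((k' : ℝ) - k) ≤ 20 * j * gn ((val gg (w.take k))⁻¹ * val gg (w.take k'))) :
    IsQG (20 * j : ℝ) 1 0 w.length (fun s : ℝ => Cay.vert TG (R.gam u * val gg (w.take ⌊s⌋₊))) := by
  have hj1 : (1 : ℝ) ≤ j := by exact_mod_cast hj
  have key : ∀ s t : ℝ, 0 ≤ s → s ≤ t → t ≤ w.length →
      (20 * j : ℝ)⁻¹ * |s - t| - 1 ≤ dist (Cay.vert TG (R.gam u * val gg (w.take ⌊s⌋₊))) (Cay.vert TG (R.gam u * val gg (w.take ⌊t⌋₊))) ∧
      dist (Cay.vert TG (R.gam u * val gg (w.take ⌊s⌋₊))) (Cay.vert TG (R.gam u * val gg (w.take ⌊t⌋₊))) ≤ (20 * j : ℝ) * |s - t| + 1 := by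
    intro s t hs hst ht
    have ht0 : 0 ≤ t := hs.trans hst
    have hfl : ⌊s⌋₊ ≤ ⌊t⌋₊ := Nat.floor_le_floor hst
    have hft : ⌊t⌋₊ ≤ w.length := by
      have : (⌊t⌋₊ : ℝ) ≤ w.length := (Nat.floor_le ht0).trans ht
      exact_mod_cast this
    have e : dist (Cay.vert TG (R.gam u * val gg (w.take ⌊s⌋₊))) (Cay.vert TG (R.gam u * val gg (w.take ⌊t⌋₊)))
        = (gn ((val gg (w.take ⌊s⌋₊))⁻¹ * val gg (w.take ⌊t⌋₊)) : ℝ) := by
      rw [FinA_dist]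
      congr 2
      group
    rw [e]
    have habs : |s - t| = t - s := by rw [abs_sub_comm, abs_of_nonneg (by linarith)]
    rw [habs]
    have h1 : (⌊s⌋₊ : ℝ) ≤ s := Nat.floor_le hs
    have h2 : s < ⌊s⌋₊ + 1 := Nat.lt_floor_add_one s
    have h3 : (⌊t⌋₊ : ℝ) ≤ t := Nat.floor_le ht0
    have h4 : t < ⌊t⌋₊ + 1 := Nat.lt_floor_add_one t
    have hup : (gn ((val gg (w.take ⌊s⌋₊))⁻¹ * val gg (w.take ⌊t⌋₊)) : ℝ) ≤ (⌊t⌋₊ : ℝ) - ⌊s⌋₊ := by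
      have := nrm_path (g := gg) w ⌊s⌋₊ ⌊t⌋₊ hfl
      have h' : (gn ((val gg (w.take ⌊s⌋₊))⁻¹ * val gg (w.take ⌊t⌋₊)) : ℝ) ≤ ((⌊t⌋₊ - ⌊s⌋₊ : ℕ) : ℝ) := by
        exact_mod_cast this
      rwa [Nat.cast_sub hfl] at h'
    have hlo := hlow ⌊s⌋₊ ⌊t⌋₊ hfl hft
    set gv : ℝ := (gn ((val gg (w.take ⌊s⌋₊))⁻¹ * val gg (w.take ⌊t⌋₊)) : ℝ) with hgv
    have hpos : (0 : ℝ) < 20 * j := by linarith
    constructor
    · have h5 : t - s ≤ 20 * j * gv + 1 := by linarith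
      have h6 : (20 * j : ℝ)⁻¹ * (t - s) ≤ (20 * j : ℝ)⁻¹ * (20 * j * gv + 1) :=
        mul_le_mul_of_nonneg_left h5 (inv_nonneg.mpr hpos.le)
      have h7 : (20 * j : ℝ)⁻¹ * (20 * j * gv + 1) = gv + (20 * j : ℝ)⁻¹ := by
        field_simp
      have h8 : (20 * j : ℝ)⁻¹ ≤ 1 := by
        apply inv_le_one_of_one_le₀
        linarith
      linarith
    · have h9 : t - s ≤ 20 * j * (t - s) := by
        have : 0 ≤ t - s := by linarith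
        nlinarith
      linarith
  intro s hs t ht
  rcases le_total s t with h | h
  · exact key s t hs.1 h ht.2
  · have := key t s ht.1 h hs.2
    rw [dist_comm, abs_sub_comm]
    exact this

/-- Proposition 10 -/
theorem not_morse (R : Ray) (ρ : GRay (Cay TG) (Cay.vert TG 1))
    (hρ : ∀ n : ℕ, ρ.toFun n = Cay.vert TG (R.gam n)) (b0 N n j : ℕ) (hN : 1 ≤ N) (hj : 1 ≤ j)
    (hm : ∀ k, k < N → R.m (b0 + k) = 2 * n) (hz : ∀ k, k + 1 < N → R.z (b0 + k) = true)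
    (h5 : (5 : ℝ) ^ n ≤ 2 * j * (N * (2 * (2 * n) + 2))) (Ng : Gauge) (hM : IsMorse Ng ρ) :
    (5 : ℝ) ^ n ≤ Ng (20 * j) 1 + 1 := by
  obtain ⟨w, u, v, k0, hk0, huv, hlow, hfar⟩ := R.dev_discrete b0 N n j hN hj hm hz h5
  have hj1 : (1 : ℝ) ≤ j := by exact_mod_cast hj
  have hqg := FinA_qg R u w j hj hlow
  have hk0' : (k0 : ℝ) ≤ w.length := by exact_mod_cast hk0
  have hfa : (fun s : ℝ => Cay.vert TG (R.gam u * val gg (w.take ⌊s⌋₊))) 0 ∈ Set.range ρ.toFun := by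
    refine ⟨(u : ℝ≥0), ?_⟩
    rw [hρ u]
    simp
  have hfb : (fun s : ℝ => Cay.vert TG (R.gam u * val gg (w.take ⌊s⌋₊))) (w.length : ℝ) ∈ Set.range ρ.toFun := by
    refine ⟨(v : ℝ≥0), ?_⟩
    rw [hρ v]
    simp [huv]
  obtain ⟨t, ht⟩ := hM (20 * j) 1 0 w.length (by linarith) (by norm_num) (by positivity) _ hqg hfa hfb
    (k0 : ℝ) ⟨by positivity, hk0'⟩
  simp only [Nat.floor_natCast] at ht
  have ht2 : dist (ρ.toFun t) (Cay.vert TG (R.gam ⌊(t : ℝ)⌋₊)) ≤ 1 := by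
    rw [← hρ, ρ.iso.dist_eq, NNReal.dist_eq]
    have h1 : (⌊(t : ℝ)⌋₊ : ℝ) ≤ t := Nat.floor_le t.2
    have h2 : (t : ℝ) < ⌊(t : ℝ)⌋₊ + 1 := Nat.lt_floor_add_one _
    simp only [NNReal.coe_natCast]
    rw [abs_of_nonneg (by linarith)]
    linarith
  have hf := hfar ⌊(t : ℝ)⌋₊
  rw [← FinA_dist] at hf
  have htri := dist_triangle (Cay.vert TG (R.gam u * val gg (w.take k0))) (ρ.toFun t) (Cay.vert TG (R.gam ⌊(t : ℝ)⌋₊))
  rw [dist_comm] at hf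
  linarith

end Dae
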