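import Pool.Agent.Lib.MP_dae6d7_al.GG2
import Pool.Agent.Lib.MP_dae6d7_al.G2

/-! Row G4. (Sections refer to the paper /team-store/dae6d7_paper.md.)

Corollary 9. Given lam >= 1, eps >= 0 we must find one constant R(lam,eps) (choose N lam eps := R; use choice for all lam, eps) such that for every
(lam,eps)-quasi-geodesic f : [a,b] with ends on rho and s in [a,b]: exists t, dist (f s) (rho t) <= R. kap := lam + eps + 4. Sample u_k = min (a+k) b, k = 0..r,
r = ceil (b-a); g_k vertex within 1 of f u_k (exists_vert); for k = 0 and r choose g_0 = γ n_0, g_r = γ n_1 (f a = rho t, so within 1 of rho (floor t)).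
gn (g_k^{-1} g_{k+1}) <= kap (natural number bound). Join by shortest words: a long word w from g_0 to g_r, with times t_k. Between g_k and g_k' the word has
length <= kap (k'-k), and k'-k <= lam (gn (g_k^{-1} g_k') + 2 + eps) + 1. Lam := 2 kap lam (>= 1), D, C from H. Suppose g_k0 has distance > D + kap from all γ n.
Take k1 < k0 < k2 maximal interval with all g_k, k1 < k < k2 at distance > D + kap (k1, k2 exist because the ends are on γ), so g_k1, g_k2 are within D + kap of
γ v1, γ v2. Path: shortest word from γ v1 to g_k1, the word from g_k1 to g_k2, shortest word to γ v2. Its points at distance < D from γ are among the first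
D + 2kap + 1 and the last D + 2 kap + 1. H: |v1 - v2| <= len/Lam + 2 + C (2 D + 4 kap + 4), len <= 2(D+kap) + kap lam gn(g_k1^{-1}g_k2) + const <= kap lam |v1-v2| + const'
= (Lam/2)|v1 - v2| + const'. So |v1-v2| <= const'', len <= const''', and the distance of f s to rho is <= that + D + kap + 2.
-/

namespace Dae

theorem G4_gens : Gens gg := gens_PG

theorem G4_inv (x : G) : gn x⁻¹ = gn x := nrm_inv G4_gens x

theorem G4_mul (x y : G) : gn (x * y) ≤ gn x + gn y := nrm_mul G4_gens x y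

theorem G4_tri (x y z : G) : gn (x⁻¹ * z) ≤ gn (x⁻¹ * y) + gn (y⁻¹ * z) := by
  have h := G4_mul (x⁻¹ * y) (y⁻¹ * z)
  rwa [show x⁻¹ * y * (y⁻¹ * z) = x⁻¹ * z by group] at h

theorem G4_symm (x y : G) : gn (x⁻¹ * y) = gn (y⁻¹ * x) := by
  rw [← G4_inv (x⁻¹ * y)]
  congr 1
  group

/-- joining the points g_k by shortest words -/
theorem G4_join (g : ℕ → G) (kap : ℕ) (k1 : ℕ) (m : ℕ)
    (hk : ∀ k, gn ((g k)⁻¹ * g (k + 1)) ≤ kap) :
    ∃ w : Wd GG, g k1 * val gg w = g (k1 + m) ∧ w.length ≤ kap * m ∧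
      ∀ l, l ≤ w.length → m = 0 ∨ ∃ k, k < m ∧ gn ((g (k1 + k))⁻¹ * (g k1 * val gg (w.take l))) ≤ kap ∧
        gn ((g (k1 + k + 1))⁻¹ * (g k1 * val gg (w.take l))) ≤ kap := by
  induction m with
  | zero => exact ⟨[], by simp, by simp, fun l _ => Or.inl rfl⟩
  | succ m ih =>
    obtain ⟨w, hw, hl, hp⟩ := ih
    obtain ⟨v, hv, hvv⟩ := nrm_spec G4_gens ((g (k1 + m))⁻¹ * g (k1 + m + 1))
    have hvk : v.length ≤ kap := by rw [hv]; exact hk (k1 + m)
    refine ⟨w ++ v, ?_, ?_, ?_⟩
    · rw [val_append, ← mul_assoc, hw, hvv]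
      group
    · rw [List.length_append, Nat.mul_succ]
      omega
    · intro l hlen
      right
      by_cases h : l < w.length
      · have hm : m ≠ 0 := by
          rintro rfl
          simp at hl
          simp [hl] at h
        obtain h0 | ⟨k, hk1, hk2, hk3⟩ := hp l h.le
        · exact absurd h0 hm
        · refine ⟨k, by omega, ?_, ?_⟩
          · rw [List.take_append_of_le_length h.le]; exact hk2
          · rw [List.take_append_of_le_length h.le]; exact hk3
      · push Not at h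
        have ht : (w ++ v).take l = w ++ v.take (l - w.length) := by
          rw [List.take_append, List.take_of_length_le h]
        have hj : l - w.length ≤ v.length := by
          rw [List.length_append] at hlen; omega
        set j := l - w.length with hjd
        have hpt : g k1 * val gg ((w ++ v).take l) = g (k1 + m) * val gg (v.take j) := by
          rw [ht, val_append, ← mul_assoc, hw]
        refine ⟨m, by omega, ?_, ?_⟩
        · rw [hpt, inv_mul_cancel_left]
          refine le_trans (nrm_le _) ?_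
          rw [List.length_take]
          omega
        · rw [hpt]
          have h1 := nrm_path (g := gg) v j v.length hj
          rw [List.take_length, hvv] at h1
          have h2 : (g (k1 + m + 1))⁻¹ * (g (k1 + m) * val gg (v.take j)) =
              ((val gg (v.take j))⁻¹ * ((g (k1 + m))⁻¹ * g (k1 + m + 1)))⁻¹ := by group
          rw [h2, G4_inv]
          refine le_trans h1 ?_
          omega

open Classical in
/-- the discrete part -/
theorem G4_core (γ : ℕ → G) (hg : ∀ i j, i ≤ j → gn ((γ i)⁻¹ * γ j) = j - i)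
    (kap : ℕ) (lam eps D C : ℝ) (hlam : 1 ≤ lam) (heps : 0 ≤ eps) (hD : 1 ≤ D) (hC : 0 ≤ C) (hkap : 1 ≤ kap)
    (H : ∀ (u v : ℕ) (w : Wd GG), γ u * val gg w = γ v →
      |(u : ℝ) - v| ≤ w.length / (2 * kap * lam) + 2 +
        C * ((Finset.range (w.length + 1)).filter (fun l => ∃ n : ℕ,
          (gn ((γ n)⁻¹ * (γ u * val gg (w.take l))) : ℝ) < D)).card)
    (g : ℕ → G) (r : ℕ) (hk : ∀ k, gn ((g k)⁻¹ * g (k + 1)) ≤ kap)
    (hlow : ∀ k k', k ≤ k' → k' ≤ r → (k' : ℝ) - k ≤ lam * (gn ((g k)⁻¹ * g k') + 2 + eps) + 1)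
    (h0 : ∃ n, g 0 = γ n) (hr : ∃ n, g r = γ n) (k0 : ℕ) (hk0 : k0 ≤ r) :
    ∃ n, (gn ((γ n)⁻¹ * g k0) : ℝ) ≤
      kap * (lam * (2 * ((2 * (D + kap) + kap * (lam * (2 * (D + kap) + 2 + eps) + 1)) / (2 * kap * lam)
        + 2 + C * (2 * (D + kap)))) + (lam * (2 * (D + kap) + 2 + eps) + 1)) + D + kap := by
  have hkR : (1 : ℝ) ≤ kap := by exact_mod_cast hkap
  set c1 : ℝ := lam * (2 * (D + kap) + 2 + eps) + 1 with hc1
  set X0 : ℝ := 2 * ((2 * (D + kap) + kap * c1) / (2 * kap * lam) + 2 + C * (2 * (D + kap))) with hX0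
  have hc1p : 0 ≤ c1 := by positivity
  have hX0p : 0 ≤ X0 := by positivity
  have hbase : D + kap ≤ kap * (lam * X0 + c1) + D + kap := by
    have : 0 ≤ kap * (lam * X0 + c1) := by positivity
    linarith
  let near : ℕ → Prop := fun k => ∃ n, (gn ((γ n)⁻¹ * g k) : ℝ) ≤ D + kap
  by_cases hn : near k0
  · obtain ⟨n, hn⟩ := hn
    exact ⟨n, hn.trans hbase⟩
  have hgam1 : gn (1 : G) = 0 := nrm_one gg
  have hnear0 : near 0 := by
    obtain ⟨n, hn0⟩ := h0
    refine ⟨n, ?_⟩
    rw [hn0, inv_mul_cancel, hgam1]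
    push_cast
    linarith
  have hnearr : near r := by
    obtain ⟨n, hn0⟩ := hr
    refine ⟨n, ?_⟩
    rw [hn0, inv_mul_cancel, hgam1]
    push_cast
    linarith
  -- k1
  have hk1s := Nat.findGreatest_spec (P := near) (Nat.zero_le k0) hnear0
  set k1 := Nat.findGreatest near k0 with hk1d
  have hk1le : k1 ≤ k0 := Nat.findGreatest_le k0
  have hk1lt : k1 < k0 := lt_of_le_of_ne hk1le (fun h => hn (h ▸ hk1s))
  have hk1m : ∀ k, k1 < k → k ≤ k0 → ¬ near k := fun k hk hk' => Nat.findGreatest_is_greatest hk hk'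
  -- k2
  have hex : ∃ k, k0 ≤ k ∧ near k := ⟨r, hk0, hnearr⟩
  have hk2s := Nat.find_spec hex
  have hk2m' : ∀ k, k < Nat.find hex → ¬ (k0 ≤ k ∧ near k) := fun k hk => Nat.find_min hex hk
  have hk2r' : Nat.find hex ≤ r := Nat.find_min' hex ⟨hk0, hnearr⟩
  set k2 := Nat.find hex with hk2d
  have hk2lt : k0 < k2 := lt_of_le_of_ne hk2s.1 (fun h => hn (h ▸ hk2s.2))
  have hfar : ∀ k, k1 < k → k < k2 → ¬ near k := by
    intro k h1 h2
    by_cases h : k ≤ k0
    · exact hk1m k h1 h
    · intro h3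
      exact hk2m' k h2 ⟨by omega, h3⟩
  obtain ⟨n1, hn1⟩ := hk1s
  obtain ⟨n2, hn2⟩ := hk2s.2
  obtain ⟨m, hm⟩ : ∃ m, k2 = k1 + m := ⟨k2 - k1, by omega⟩
  have hmpos : 0 < m := by omega
  obtain ⟨w1, hw1l, hw1⟩ := nrm_spec G4_gens ((γ n1)⁻¹ * g k1)
  obtain ⟨w3, hw3l, hw3⟩ := nrm_spec G4_gens ((g k2)⁻¹ * γ n2)
  obtain ⟨w2, hw2, hw2l, hw2p⟩ := G4_join g kap k1 m hk
  rw [← hm] at hw2
  have hw1R : (w1.length : ℝ) ≤ D + kap := by rw [hw1l]; exact hn1
  have hw3R : (w3.length : ℝ) ≤ D + kap := by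
    rw [hw3l]
    have := G4_symm (g k2) (γ n2)
    unfold gn at this hn2
    rw [this]; exact hn2
  have hw2R : (w2.length : ℝ) ≤ kap * m := by exact_mod_cast hw2l
  have hval : γ n1 * val gg (w1 ++ (w2 ++ w3)) = γ n2 := by
    rw [val_append, val_append, hw1, hw3]
    rw [show γ n1 * ((γ n1)⁻¹ * g k1 * (val gg w2 * ((g k2)⁻¹ * γ n2))) =
      (g k1 * val gg w2) * ((g k2)⁻¹ * γ n2) by group, hw2]
    group
  have hH := H n1 n2 (w1 ++ (w2 ++ w3)) hval
  have hcard : ((Finset.range ((w1 ++ (w2 ++ w3)).length + 1)).filter (fun l => ∃ n : ℕ,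
          (gn ((γ n)⁻¹ * (γ n1 * val gg ((w1 ++ (w2 ++ w3)).take l))) : ℝ) < D)).card
      ≤ w1.length + w3.length := by
    have hsub : ((Finset.range ((w1 ++ (w2 ++ w3)).length + 1)).filter (fun l => ∃ n : ℕ,
          (gn ((γ n)⁻¹ * (γ n1 * val gg ((w1 ++ (w2 ++ w3)).take l))) : ℝ) < D)) ⊆
        Finset.range w1.length ∪ Finset.Ioc (w1.length + w2.length) (w1.length + w2.length + w3.length) := by
      intro l hl
      rw [Finset.mem_filter, Finset.mem_range] at hl
      obtain ⟨hl1, n, hl2⟩ := hl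
      rw [Finset.mem_union, Finset.mem_range, Finset.mem_Ioc]
      by_contra hcon
      push Not at hcon
      have hlen : (w1 ++ (w2 ++ w3)).length = w1.length + w2.length + w3.length := by
        simp [List.length_append]; ring
      have ha : w1.length ≤ l := hcon.1
      have hb : l ≤ w1.length + w2.length := by
        by_contra hb
        push Not at hb
        have := hcon.2 hb
        omega
      have htake : (w1 ++ (w2 ++ w3)).take l = w1 ++ w2.take (l - w1.length) := by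
        rw [List.take_append, List.take_of_length_le ha,
          List.take_append_of_le_length (by omega : l - w1.length ≤ w2.length)]
      have hpt : γ n1 * val gg ((w1 ++ (w2 ++ w3)).take l) = g k1 * val gg (w2.take (l - w1.length)) := by
        rw [htake, val_append, hw1]; group
      obtain h00 | ⟨k, hkm, hka, hkb⟩ := hw2p (l - w1.length) (by omega)
      · omega
      · rw [hpt] at hl2
        set P := g k1 * val gg (w2.take (l - w1.length)) with hP
        -- an endpoint strictly between k1 and k2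
        have hend : ∃ k', k1 < k' ∧ k' < k2 ∧ gn ((g k')⁻¹ * P) ≤ kap := by
          by_cases hk00 : k = 0
          · subst hk00
            exact ⟨k1 + 0 + 1, by omega, by omega, hkb⟩
          · exact ⟨k1 + k, by omega, by omega, hka⟩
        obtain ⟨k', hk1', hk2', hk3'⟩ := hend
        refine hfar k' hk1' hk2' ⟨n, ?_⟩
        have ht1 := G4_tri (γ n) P (g k')
        have ht2 := G4_symm P (g k')
        rw [ht2] at ht1
        have ht1R : (gn ((γ n)⁻¹ * g k') : ℝ) ≤ gn ((γ n)⁻¹ * P) + gn ((g k')⁻¹ * P) := by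
          exact_mod_cast ht1
        have hk3R : (gn ((g k')⁻¹ * P) : ℝ) ≤ kap := by exact_mod_cast hk3'
        linarith
    refine le_trans (Finset.card_le_card hsub) (le_trans (Finset.card_union_le _ _) ?_)
    rw [Finset.card_range, Nat.card_Ioc]
    omega
  have hcardR : (((Finset.range ((w1 ++ (w2 ++ w3)).length + 1)).filter (fun l => ∃ n : ℕ,
          (gn ((γ n)⁻¹ * (γ n1 * val gg ((w1 ++ (w2 ++ w3)).take l))) : ℝ) < D)).card : ℝ)
      ≤ 2 * (D + kap) := by
    have : (((Finset.range ((w1 ++ (w2 ++ w3)).length + 1)).filter (fun l => ∃ n : ℕ,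
          (gn ((γ n)⁻¹ * (γ n1 * val gg ((w1 ++ (w2 ++ w3)).take l))) : ℝ) < D)).card : ℝ)
      ≤ (w1.length : ℝ) + w3.length := by exact_mod_cast hcard
    linarith
  have hlenR : ((w1 ++ (w2 ++ w3)).length : ℝ) ≤ 2 * (D + kap) + kap * m := by
    rw [List.length_append, List.length_append]
    push_cast
    linarith
  -- lower bound
  have hm1 : (m : ℝ) ≤ lam * (gn ((g k1)⁻¹ * g k2) + 2 + eps) + 1 := by
    have := hlow k1 k2 (by omega) hk2r'
    rw [hm] at this ⊢
    push_cast at this ⊢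
    linarith
  have hx : (gn ((γ n1)⁻¹ * γ n2) : ℝ) ≤ |(n1 : ℝ) - n2| := by
    rcases le_total n1 n2 with h | h
    · rw [hg n1 n2 h, Nat.cast_sub h, abs_sub_comm]
      exact le_abs_self _
    · rw [G4_symm, hg n2 n1 h, Nat.cast_sub h]
      exact le_abs_self _
  have hgn : (gn ((g k1)⁻¹ * g k2) : ℝ) ≤ |(n1 : ℝ) - n2| + 2 * (D + kap) := by
    have t1 := G4_tri (g k1) (γ n1) (g k2)
    have t2 := G4_tri (γ n1) (γ n2) (g k2)
    rw [G4_symm (g k1) (γ n1)] at t1
    have t1R : (gn ((g k1)⁻¹ * g k2) : ℝ) ≤ gn ((γ n1)⁻¹ * g k1) + gn ((γ n1)⁻¹ * g k2) := by exact_mod_cast t1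
    have t2R : (gn ((γ n1)⁻¹ * g k2) : ℝ) ≤ gn ((γ n1)⁻¹ * γ n2) + gn ((γ n2)⁻¹ * g k2) := by exact_mod_cast t2
    linarith
  set x : ℝ := |(n1 : ℝ) - n2| with hxd
  have hx0 : 0 ≤ x := abs_nonneg _
  have hm2 : (m : ℝ) ≤ lam * x + c1 := by
    have h1 : lam * (gn ((g k1)⁻¹ * g k2) : ℝ) ≤ lam * (x + 2 * (D + kap)) :=
      mul_le_mul_of_nonneg_left hgn (by linarith)
    rw [hc1]
    nlinarith [h1, hm1]
  have hLp : (0 : ℝ) < 2 * kap * lam := by positivity
  have hxb : x ≤ X0 := by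
    have h1 : ((w1 ++ (w2 ++ w3)).length : ℝ) / (2 * kap * lam) ≤
        (2 * (D + kap) + kap * (lam * x + c1)) / (2 * kap * lam) := by
      apply div_le_div_of_nonneg_right _ hLp.le
      have : (kap : ℝ) * m ≤ kap * (lam * x + c1) := mul_le_mul_of_nonneg_left hm2 (by positivity)
      linarith
    have h2 : (2 * (D + kap) + kap * (lam * x + c1)) / (2 * kap * lam) =
        x / 2 + (2 * (D + kap) + kap * c1) / (2 * kap * lam) := by
      field_simp
      ring
    have h3 : C * (((Finset.range ((w1 ++ (w2 ++ w3)).length + 1)).filter (fun l => ∃ n : ℕ,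
          (gn ((γ n)⁻¹ * (γ n1 * val gg ((w1 ++ (w2 ++ w3)).take l))) : ℝ) < D)).card : ℝ) ≤
        C * (2 * (D + kap)) := mul_le_mul_of_nonneg_left hcardR hC
    rw [hX0]
    linarith
  have hm3 : (m : ℝ) ≤ lam * X0 + c1 := by
    have : lam * x ≤ lam * X0 := mul_le_mul_of_nonneg_left hxb (by linarith)
    linarith
  refine ⟨n1, ?_⟩
  -- dist (g k1) (g k0)
  have hstep : ∀ j, gn ((g k1)⁻¹ * g (k1 + j)) ≤ kap * j := by
    intro j
    induction j with
    | zero => simp [hgam1]
    | succ j ih =>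
      have h1 := G4_tri (g k1) (g (k1 + j)) (g (k1 + (j + 1)))
      have h2 := hk (k1 + j)
      rw [Nat.mul_succ]
      have h3 : gn ((g (k1 + j))⁻¹ * g (k1 + (j + 1))) ≤ kap := h2
      omega
  have h1 := hstep (k0 - k1)
  rw [show k1 + (k0 - k1) = k0 by omega] at h1
  have h1R : (gn ((g k1)⁻¹ * g k0) : ℝ) ≤ kap * m := by
    have : (gn ((g k1)⁻¹ * g k0) : ℝ) ≤ kap * ((k0 - k1 : ℕ) : ℝ) := by exact_mod_cast h1
    have h5 : ((k0 - k1 : ℕ) : ℝ) ≤ m := by exact_mod_cast (by omega : k0 - k1 ≤ m)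
    exact this.trans (mul_le_mul_of_nonneg_left h5 (by positivity))
  have t1 := G4_tri (γ n1) (g k1) (g k0)
  have t1R : (gn ((γ n1)⁻¹ * g k0) : ℝ) ≤ gn ((γ n1)⁻¹ * g k1) + gn ((g k1)⁻¹ * g k0) := by exact_mod_cast t1
  have h6 : (kap : ℝ) * m ≤ kap * (lam * X0 + c1) := mul_le_mul_of_nonneg_left hm3 (by positivity)
  linarith

open Classical in
theorem morse_of_detour (γ : ℕ → G) (hg : ∀ i j, i ≤ j → gn ((γ i)⁻¹ * γ j) = j - i)
    (H : ∀ Lam : ℝ, 1 ≤ Lam → ∃ D C : ℝ, 1 ≤ D ∧ 0 ≤ C ∧ ∀ (u v : ℕ) (w : Wd GG), γ u * val gg w = γ v →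
      |(u : ℝ) - v| ≤ w.length / Lam + 2 +
        C * ((Finset.range (w.length + 1)).filter (fun l => ∃ n : ℕ,
          (gn ((γ n)⁻¹ * (γ u * val gg (w.take l))) : ℝ) < D)).card)
    (ρ : GRay (Cay TG) (Cay.vert TG 1)) (hρ : ∀ n : ℕ, ρ.toFun n = Cay.vert TG (γ n)) :
    ∃ N : Gauge, IsMorse N ρ := by
  have core : ∀ lam eps : ℝ, 1 ≤ lam → 0 ≤ eps → ∃ R : NNReal, ∀ a b : ℝ, a ≤ b → ∀ f : ℝ → Cay TG,
      IsQG lam eps a b f → f a ∈ Set.range ρ.toFun → f b ∈ Set.range ρ.toFun →
      ∀ s ∈ Set.Icc a b, ∃ t : NNReal, dist (f s) (ρ.toFun t) ≤ R := by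
    intro lam eps hlam heps
    set kap : ℕ := ⌈lam + eps⌉₊ + 4 with hkd
    have hkap : (lam + eps : ℝ) + 4 ≤ kap := by
      rw [hkd]; push_cast; linarith [Nat.le_ceil (lam + eps)]
    have hkap1 : 1 ≤ kap := by omega
    have hkR : (1 : ℝ) ≤ kap := by exact_mod_cast hkap1
    have hLam : 1 ≤ 2 * (kap : ℝ) * lam := by nlinarith
    obtain ⟨D, C, hD, hC, HH⟩ := H (2 * kap * lam) hLam
    set R0 : ℝ := kap * (lam * (2 * ((2 * (D + kap) + kap * (lam * (2 * (D + kap) + 2 + eps) + 1)) / (2 * kap * lam)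
        + 2 + C * (2 * (D + kap)))) + (lam * (2 * (D + kap) + 2 + eps) + 1)) + D + kap with hR0
    have hR0p : 0 ≤ R0 := by positivity
    refine ⟨Real.toNNReal (R0 + kap), ?_⟩
    intro a b hab f hf hfa hfb s hs
    set r : ℕ := ⌈b - a⌉₊ with hrd
    have hrb : b ≤ a + r := by linarith [Nat.le_ceil (b - a)]
    let u : ℕ → ℝ := fun k => min (a + k) b
    have hu : ∀ k, u k ∈ Set.Icc a b := fun k =>
      ⟨le_min (by linarith [(Nat.cast_nonneg k : (0 : ℝ) ≤ k)]) hab, min_le_right _ _⟩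
    have hu0 : u 0 = a := by simp [u, hab]
    have hur : ∀ k, r ≤ k → u k = b := by
      intro k hk
      have : (r : ℝ) ≤ k := by exact_mod_cast hk
      simp only [u]
      exact min_eq_right (by linarith)
    have hrange : ∀ x ∈ Set.range ρ.toFun, ∃ n : ℕ, dist x (Cay.vert TG (γ n)) ≤ 1 := by
      rintro x ⟨t, rfl⟩
      refine ⟨⌊t⌋₊, ?_⟩
      rw [← hρ, ρ.iso.dist_eq, NNReal.dist_eq]
      have h1 : ((⌊t⌋₊ : NNReal) : ℝ) ≤ t := by exact_mod_cast Nat.floor_le (zero_le : 0 ≤ t)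
      have h2 : (t : ℝ) < (⌊t⌋₊ : NNReal) + 1 := by exact_mod_cast Nat.lt_floor_add_one t
      rw [abs_of_nonneg (by linarith)]
      linarith
    have hgex : ∀ k : ℕ, ∃ g : G, dist (f (u k)) (Cay.vert TG g) ≤ 1 ∧ (k = 0 ∨ r ≤ k → ∃ n, g = γ n) := by
      intro k
      by_cases hk : k = 0 ∨ r ≤ k
      · have : f (u k) ∈ Set.range ρ.toFun := by
          rcases hk with rfl | hk
          · rw [hu0]; exact hfa
          · rw [hur k hk]; exact hfb
        obtain ⟨n, hn⟩ := hrange _ this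
        exact ⟨γ n, hn, fun _ => ⟨n, rfl⟩⟩
      · obtain ⟨g, hg⟩ := exists_vert TG (f (u k))
        exact ⟨g, hg, fun h => absurd h hk⟩
    choose g hg1 hg2 using hgex
    have hdist : ∀ x y : G, (gn (x⁻¹ * y) : ℝ) = dist (Cay.vert TG x) (Cay.vert TG y) := by
      intro x y
      rw [Cay.dist_vert, wlen_TG]
    have hk : ∀ k, gn ((g k)⁻¹ * g (k + 1)) ≤ kap := by
      intro k
      have h1 : dist (Cay.vert TG (g k)) (Cay.vert TG (g (k + 1))) ≤
          dist (f (u k)) (Cay.vert TG (g k)) + dist (f (u k)) (f (u (k + 1))) +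
            dist (f (u (k + 1))) (Cay.vert TG (g (k + 1))) := by
        have t1 := dist_triangle (Cay.vert TG (g k)) (f (u k)) (Cay.vert TG (g (k + 1)))
        have t2 := dist_triangle (f (u k)) (f (u (k + 1))) (Cay.vert TG (g (k + 1)))
        rw [dist_comm (Cay.vert TG (g k)) (f (u k))] at t1
        linarith
      have h2 := (hf (u k) (hu k) (u (k + 1)) (hu (k + 1))).2
      have h3 : |u k - u (k + 1)| ≤ 1 := by
        simp only [u]
        refine le_trans (abs_min_sub_min_le_max _ _ _ _) ?_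
        push_cast
        rw [sub_self, abs_zero, show a + (k : ℝ) - (a + (k + 1)) = -1 by ring, abs_neg, abs_one]
        simp
      have h4 : lam * |u k - u (k + 1)| ≤ lam := by nlinarith
      have h5 : (gn ((g k)⁻¹ * g (k + 1)) : ℝ) ≤ kap := by
        rw [hdist]
        linarith [hg1 k, hg1 (k + 1)]
      exact_mod_cast h5
    have hlow : ∀ k k', k ≤ k' → k' ≤ r → (k' : ℝ) - k ≤ lam * (gn ((g k)⁻¹ * g k') + 2 + eps) + 1 := by
      intro k k' hkk hkr
      have hkkR : (k : ℝ) ≤ k' := by exact_mod_cast hkk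
      have h1 : dist (f (u k)) (f (u k')) ≤ dist (Cay.vert TG (g k)) (Cay.vert TG (g k')) + 2 := by
        have t1 := dist_triangle (f (u k)) (Cay.vert TG (g k)) (f (u k'))
        have t2 := dist_triangle (Cay.vert TG (g k)) (Cay.vert TG (g k')) (f (u k'))
        rw [dist_comm (Cay.vert TG (g k')) (f (u k'))] at t2
        linarith [hg1 k, hg1 k']
      have h2 := (hf (u k) (hu k) (u k') (hu k')).1
      have h3 : (k' : ℝ) - k - 1 ≤ |u k - u k'| := by
        rcases Nat.eq_zero_or_pos k' with h0 | hpos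
        · subst h0
          have : (0 : ℝ) ≤ k := Nat.cast_nonneg k
          have h9 := abs_nonneg (u k - u 0)
          push_cast
          linarith
        · have h4 : a + ((k' : ℝ) - 1) ≤ u k' := by
            have h5 : ((k' - 1 : ℕ) : ℝ) < b - a := by
              apply Nat.lt_ceil.mp
              omega
            rw [Nat.cast_sub (by omega : 1 ≤ k')] at h5
            push_cast at h5
            simp only [u]
            exact le_min (by linarith) (by linarith)
          have h6 : u k ≤ a + k := min_le_left _ _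
          have h7 := neg_abs_le (u k - u k')
          linarith
      rw [← hdist] at h1
      have hlp : 0 < lam := by linarith
      have h8 : lam⁻¹ * |u k - u k'| ≤ gn ((g k)⁻¹ * g k') + 2 + eps := by linarith
      have h9 : |u k - u k'| ≤ lam * (gn ((g k)⁻¹ * g k') + 2 + eps) := by
        rw [inv_mul_le_iff₀ hlp] at h8
        exact h8
      linarith
    -- the index of s
    set k0 : ℕ := ⌊s - a⌋₊ with hk0d
    have hsa : 0 ≤ s - a := by linarith [hs.1]
    have hk0a : (k0 : ℝ) ≤ s - a := Nat.floor_le hsa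
    have hk0b : s - a < k0 + 1 := Nat.lt_floor_add_one _
    have hk0r : k0 ≤ r := by
      have : (k0 : ℝ) ≤ r := by linarith [hs.2]
      exact_mod_cast this
    have huk0 : u k0 = a + k0 := min_eq_left (by linarith [hs.2])
    obtain ⟨n, hn⟩ := G4_core γ hg kap lam eps D C hlam heps hD hC hkap1 HH g r hk hlow
      (hg2 0 (Or.inl rfl)) (hg2 r (Or.inr le_rfl)) k0 hk0r
    refine ⟨n, ?_⟩
    rw [hρ, Real.coe_toNNReal _ (by positivity)]
    have d1 := (hf s hs (u k0) (hu k0)).2
    have d2 : |s - u k0| ≤ 1 := by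
      rw [huk0, abs_of_nonneg (by linarith)]
      linarith
    have d3 : lam * |s - u k0| ≤ lam := by nlinarith
    have t1 := dist_triangle (f s) (f (u k0)) (Cay.vert TG (γ n))
    have t2 := dist_triangle (f (u k0)) (Cay.vert TG (g k0)) (Cay.vert TG (γ n))
    rw [dist_comm (Cay.vert TG (g k0)) (Cay.vert TG (γ n)), ← hdist] at t2
    linarith [hg1 k0]
  refine ⟨fun lam eps => if h : 1 ≤ lam ∧ 0 ≤ eps then Classical.choose (core lam eps h.1 h.2) else 0, ?_⟩
  intro lam eps a b hlam heps hab f hf hfa hfb s hs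
  have h : 1 ≤ lam ∧ 0 ≤ eps := ⟨hlam, heps⟩
  simp only [h, and_self, dite_true]
  exact Classical.choose_spec (core lam eps h.1 h.2) a b hab f hf hfa hfb s hs

end Dae
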