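import Pool.Agent.Lib.MP_dae6d7_al.FDefs

/-! Row G6. (Sections refer to the paper /team-store/dae6d7_paper.md.)

N j = 5^(n j) / ((j+1)(4 n j + 2)) (natural division) >= 1, start j = sum_{i<j} N i (strictly increasing), seg b = the j with start j <= b < start (j+1)
(Nat.find or Nat.findGreatest). m b = 2 n (seg b), z b = decide (b + 1 <> start (seg b + 1)). S (b+1) = S b + 2 m b + 2 (length of blk). Last claim: floor(x) >= x/2 for
x >= 1. Rd: for b <= b'' <= b' with z = true on [b,b'): all in the same segment j; S(b'+1) - S b <= N j (4 n j + 2) <= 5^(n j)/(j+1); m b'' = 2 n j so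
(sqrt 5)^(m b'') = 5^(n j). For j + 1 >= 5 Lam: <= 5^(n j)/5/Lam. For j + 1 < 5 Lam: C = sum over those j of N j (4 n j + 2).
-/

namespace Dae

/-- number of blocks of the segment j -/
def G6_N (n : ℕ → ℕ) (j : ℕ) : ℕ := 5 ^ (n j) / ((j + 1) * (4 * n j + 2))

/-- first block of the segment j -/
def G6_start (n : ℕ → ℕ) (j : ℕ) : ℕ := ∑ i ∈ Finset.range j, G6_N n i

/-- segment of the block b -/
def G6_seg (n : ℕ → ℕ) (b : ℕ) : ℕ := Nat.findGreatest (fun j => G6_start n j ≤ b) b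

theorem G6_N_pos (n : ℕ → ℕ) (hn : ∀ j, (j + 1) * (4 * n j + 2) ≤ 5 ^ (n j)) (j : ℕ) : 1 ≤ G6_N n j := by
  unfold G6_N
  exact Nat.div_pos (hn j) (by positivity)

theorem G6_N_le (n : ℕ → ℕ) (j : ℕ) : G6_N n j * ((j + 1) * (4 * n j + 2)) ≤ 5 ^ (n j) :=
  Nat.div_mul_le_self _ _

theorem G6_N_ge (n : ℕ → ℕ) (hn : ∀ j, (j + 1) * (4 * n j + 2) ≤ 5 ^ (n j)) (j : ℕ) :
    5 ^ (n j) ≤ 2 * (G6_N n j * ((j + 1) * (4 * n j + 2))) := by
  have hD : 0 < (j + 1) * (4 * n j + 2) := by positivity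
  have h1 : 5 ^ (n j) < (G6_N n j + 1) * ((j + 1) * (4 * n j + 2)) := by
    have := Nat.lt_mul_div_succ (5 ^ (n j)) hD
    unfold G6_N
    rw [Nat.mul_comm]
    exact this
  have h2 := G6_N_pos n hn j
  nlinarith

theorem G6_start_succ (n : ℕ → ℕ) (j : ℕ) : G6_start n (j + 1) = G6_start n j + G6_N n j := by
  unfold G6_start
  rw [Finset.sum_range_succ]

theorem G6_start_mono (n : ℕ → ℕ) (hn : ∀ j, (j + 1) * (4 * n j + 2) ≤ 5 ^ (n j)) :
    StrictMono (G6_start n) := by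
  refine strictMono_nat_of_lt_succ ?_
  intro j
  rw [G6_start_succ]
  have := G6_N_pos n hn j
  omega

theorem G6_le_start (n : ℕ → ℕ) (hn : ∀ j, (j + 1) * (4 * n j + 2) ≤ 5 ^ (n j)) (j : ℕ) : j ≤ G6_start n j :=
  (G6_start_mono n hn).le_apply

theorem G6_seg_le (n : ℕ → ℕ) (b : ℕ) : G6_start n (G6_seg n b) ≤ b := by
  unfold G6_seg
  refine Nat.findGreatest_spec (P := fun j => G6_start n j ≤ b) (m := 0) (Nat.zero_le _) ?_
  simp [G6_start]

theorem G6_lt_seg (n : ℕ → ℕ) (hn : ∀ j, (j + 1) * (4 * n j + 2) ≤ 5 ^ (n j)) (b : ℕ) :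
    b < G6_start n (G6_seg n b + 1) := by
  by_contra h
  push Not at h
  have h1 : G6_seg n b + 1 ≤ b := (G6_le_start n hn _).trans h
  have h2 : G6_seg n b + 1 ≤ G6_seg n b :=
    Nat.le_findGreatest (P := fun j => G6_start n j ≤ b) h1 h
  omega

/-- the segment is determined by the inequalities -/
theorem G6_seg_eq (n : ℕ → ℕ) (hn : ∀ j, (j + 1) * (4 * n j + 2) ≤ 5 ^ (n j)) (b j : ℕ)
    (h1 : G6_start n j ≤ b) (h2 : b < G6_start n (j + 1)) : G6_seg n b = j := by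
  have h3 := G6_seg_le n b
  have h4 := G6_lt_seg n hn b
  have hm := G6_start_mono n hn
  have h5 : j < G6_seg n b + 1 := hm.lt_iff_lt.mp (h1.trans_lt h4)
  have h6 : G6_seg n b < j + 1 := hm.lt_iff_lt.mp (h3.trans_lt h2)
  omega

/-- the ray -/
def G6_R (n : ℕ → ℕ) : Ray where
  m b := 2 * n (G6_seg n b)
  z b := decide (b + 1 ≠ G6_start n (G6_seg n b + 1))

theorem G6_S_succ (R : Ray) (b : ℕ) : R.S (b + 1) = R.S b + (2 * R.m b + 2) := by
  unfold Ray.S
  change (R.pre b ++ R.blk b).length = _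
  rw [List.length_append]
  unfold Ray.blk
  simp only [List.length_append, List.length_replicate, List.length_cons, List.length_nil]
  omega

theorem G6_S_add (n : ℕ → ℕ) (b j k : ℕ) (h : ∀ i, i < k → G6_seg n (b + i) = j) :
    (G6_R n).S (b + k) = (G6_R n).S b + k * (4 * n j + 2) := by
  induction k with
  | zero => simp
  | succ k ih =>
    rw [← add_assoc, G6_S_succ, ih (fun i hi => h i (by omega))]
    have h1 : (G6_R n).m (b + k) = 2 * n j := by
      change 2 * n (G6_seg n (b + k)) = _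
      rw [h k (by omega)]
    rw [h1]
    ring

theorem G6_seg_const (n : ℕ → ℕ) (hn : ∀ j, (j + 1) * (4 * n j + 2) ≤ 5 ^ (n j)) (b k : ℕ)
    (h : ∀ i, b ≤ i → i < b + k → (G6_R n).z i = true) : G6_seg n (b + k) = G6_seg n b := by
  induction k with
  | zero => simp
  | succ k ih =>
    have h1 := ih (fun i hi hi2 => h i hi (by omega))
    have h2 := h (b + k) (by omega) (by omega)
    change decide (b + k + 1 ≠ G6_start n (G6_seg n (b + k) + 1)) = true at h2
    rw [decide_eq_true_eq, h1] at h2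
    have h3 := G6_lt_seg n hn (b + k)
    rw [h1] at h3
    have h4 := G6_seg_le n (b + k)
    rw [h1] at h4
    exact G6_seg_eq n hn _ _ (by omega) (by omega)

theorem G6_Rd (n : ℕ → ℕ) (hn : ∀ j, (j + 1) * (4 * n j + 2) ≤ 5 ^ (n j)) : (G6_R n).Rd := by
  intro Lam hLam
  refine ⟨∑ j ∈ Finset.range (⌈5 * Lam⌉₊), ((G6_N n j * (4 * n j + 2) : ℕ) : ℝ), ?_, ?_⟩
  · positivity
  intro b b' b'' h1 h2 hz
  obtain ⟨k, rfl⟩ := Nat.exists_eq_add_of_le (h1.trans h2)
  obtain ⟨k', rfl⟩ := Nat.exists_eq_add_of_le h1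
  have hk : k' ≤ k := by omega
  set j := G6_seg n b with hj
  have hseg : ∀ i, i < k + 1 → G6_seg n (b + i) = j := by
    intro i hi
    exact G6_seg_const n hn b i (fun l hl hl2 => hz l hl (by omega))
  have hS : (G6_R n).S (b + k + 1) = (G6_R n).S b + (k + 1) * (4 * n j + 2) :=
    G6_S_add n b j (k + 1) hseg
  have h3 : k + 1 ≤ G6_N n j := by
    have e1 := G6_seg_le n b
    have e2 := G6_lt_seg n hn (b + k)
    rw [hseg k (by omega), G6_start_succ] at e2
    rw [← hj] at e1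
    omega
  have h4 : ((G6_R n).S (b + k + 1) - (G6_R n).S b : ℝ) ≤ ((G6_N n j * (4 * n j + 2) : ℕ) : ℝ) := by
    rw [hS]
    push_cast
    have h5 : ((k : ℝ) + 1) ≤ (G6_N n j : ℝ) := by exact_mod_cast h3
    have h6 : (0 : ℝ) ≤ 4 * (n j : ℝ) + 2 := by positivity
    nlinarith
  refine h4.trans ?_
  have hm : Real.sqrt 5 ^ ((G6_R n).m (b + k')) = (5 : ℝ) ^ (n j) := by
    have : (G6_R n).m (b + k') = 2 * n j := by
      change 2 * n (G6_seg n (b + k')) = _
      rw [hseg k' (by omega)]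
    rw [this, pow_mul, Real.sq_sqrt (by norm_num)]
  rw [hm]
  by_cases hc : (5 * Lam : ℝ) ≤ (j : ℝ) + 1
  · refine le_max_of_le_right ?_
    have h7 : ((G6_N n j * ((j + 1) * (4 * n j + 2)) : ℕ) : ℝ) ≤ (5 : ℝ) ^ (n j) := by
      exact_mod_cast G6_N_le n j
    rw [le_div_iff₀ (by positivity), le_div_iff₀ (by positivity)]
    refine le_trans ?_ h7
    push_cast
    have h8 : (0 : ℝ) ≤ (G6_N n j : ℝ) * (4 * (n j : ℝ) + 2) := by positivity
    nlinarith
  · refine le_max_of_le_left ?_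
    push Not at hc
    have h9 : j ∈ Finset.range (⌈5 * Lam⌉₊) := by
      rw [Finset.mem_range, Nat.lt_ceil]
      linarith
    exact Finset.single_le_sum (f := fun j => ((G6_N n j * (4 * n j + 2) : ℕ) : ℝ))
      (fun i _ => by positivity) h9

/-- segments j = 0,1,2,...: N_j blocks with parameter 2 n_j, N_j = floor(5^{n_j}/((j+1)(4 n_j+2))) -/
theorem exists_Ray (n : ℕ → ℕ) (hn : ∀ j, (j + 1) * (4 * n j + 2) ≤ 5 ^ (n j)) : ∃ R : Ray, R.Rd ∧
    ∀ j, ∃ b0 N : ℕ, 1 ≤ N ∧ (∀ k, k < N → R.m (b0 + k) = 2 * n j) ∧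
      (∀ k, k + 1 < N → R.z (b0 + k) = true) ∧
      (5 : ℝ) ^ (n j) ≤ 2 * (j + 1 : ℕ) * (N * (2 * (2 * n j) + 2)) := by
  refine ⟨G6_R n, G6_Rd n hn, ?_⟩
  intro j
  have hseg : ∀ k, k < G6_N n j → G6_seg n (G6_start n j + k) = j := by
    intro k hk
    refine G6_seg_eq n hn _ _ (by omega) ?_
    rw [G6_start_succ]
    omega
  refine ⟨G6_start n j, G6_N n j, G6_N_pos n hn j, ?_, ?_, ?_⟩
  · intro k hk
    change 2 * n (G6_seg n (G6_start n j + k)) = _
    rw [hseg k hk]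
  · intro k hk
    change decide (G6_start n j + k + 1 ≠ G6_start n (G6_seg n (G6_start n j + k) + 1)) = true
    rw [decide_eq_true_eq, hseg k (by omega), G6_start_succ]
    omega
  · have h := G6_N_ge n hn j
    have h2 : ((5 ^ (n j) : ℕ) : ℝ) ≤ ((2 * (G6_N n j * ((j + 1) * (4 * n j + 2))) : ℕ) : ℝ) := by
      exact_mod_cast h
    push_cast at h2 ⊢
    linarith

end Dae
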