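import Pool.Agent.Lib.MP_dae6d7_al.H2b

/-! Row H2c. (Sections refer to the paper /team-store/dae6d7_paper.md.)

compactCovering / SigmaCompactSpace.exists_compact_covering: Q_i compact with union univ; compact_in_stratum gives N_i; Ns i = Ntr κ N_i. For a Morse ray γ its class is in some
Q_i, so it is the class of an N_i-Morse ray γ' with Asym; morse_transfer.
-/

namespace Dae
open scoped NNReal
variable {X : Type} [MetricSpace X] {e : X}

/-- (5.4), first part -/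
theorem sigma_gauges {κ : ℝ} (hκ : 0 ≤ κ) (hX : CG X κ) (h : SigmaCompactSpace (MorseBoundary X e)) :
    ∃ Ns : ℕ → Gauge, ∀ γ : GRay X e, (∃ N, IsMorse N γ) → ∃ i, IsMorse (Ns i) γ := by
  obtain ⟨Q, hQc, hQu⟩ := h.exists_compact_covering
  have hN := fun i => compact_in_stratum hκ hX (Q i) (hQc i)
  choose N hN using hN
  refine ⟨fun i => Ntr κ (N i), ?_⟩
  intro γ hγ
  let ξ : MorseBoundary X e := Quotient.mk (asymSetoid X e) ⟨γ, hγ⟩
  have hξ : ξ ∈ ⋃ i, Q i := by rw [hQu]; trivial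
  obtain ⟨i, hi⟩ := Set.mem_iUnion.mp hξ
  obtain ⟨γ', hγ'⟩ := hN i hi
  refine ⟨i, ?_⟩
  have h1 : Asym γ'.1 γ := Quotient.exact (s := asymSetoid X e) hγ'
  have h2 : Asym γ γ'.1 := (asymSetoid X e).symm (a := ⟨γ'.1, N i, γ'.2⟩) (b := ⟨γ, hγ⟩) h1
  exact morse_transfer hκ hX (N i) γ γ'.1 γ'.2 h2

end Dae
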