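import Pool.Agent.Lib.MP_dae6d7_al.F5b
import Pool.Agent.Lib.MP_dae6d7_al.FinA
import Pool.Agent.Lib.MP_dae6d7_al.G4
import Pool.Agent.Lib.MP_dae6d7_al.G6
import Pool.Agent.Lib.MP_dae6d7_al.H2c

/-! Assembly. -/

namespace Dae
open scoped NNReal

/-- ray of the Cayley graph from a Ray -/
theorem exists_GRay (R : Ray) : ∃ ρ : GRay (Cay TG) (Cay.vert TG 1), ∀ n : ℕ,
    ρ.toFun n = Cay.vert TG (R.gam n) := by
  refine exists_ray_of_word TG R.gam R.gam_zero ?_ ?_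
  · intro n
    obtain ⟨y, hy⟩ := R.gam_succ n
    refine ⟨gg y.1, ⟨y.1, rfl⟩, ?_⟩
    rcases y with ⟨y, b⟩
    cases b
    · right; rw [hy]; simp
    · left; rw [hy]; simp
  · intro i j h
    rw [wlen_TG]; exact R.gam_geod i j h

theorem ray_morse (R : Ray) (hR : R.Rd) (ρ : GRay (Cay TG) (Cay.vert TG 1))
    (hρ : ∀ n : ℕ, ρ.toFun n = Cay.vert TG (R.gam n)) : ∃ N : Gauge, IsMorse N ρ := by
  refine morse_of_detour R.gam R.gam_geod ?_ ρ hρ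
  intro Lam hL
  obtain ⟨D, C, hD, hC, h⟩ := R.detour hR Lam hL
  exact ⟨D, C, hD, hC, fun u v w hw => h u v w hw⟩

theorem exists_big (j : ℕ) (B : ℝ) : ∃ n : ℕ, (j + 1) * (4 * n + 2) ≤ 5 ^ n ∧ B < 5 ^ n := by
  obtain ⟨k, hk⟩ := exists_nat_gt B
  have h1 : ∀ n : ℕ, n + 1 ≤ 2 ^ n := fun n => Nat.lt_two_pow_self
  refine ⟨4 * (j + k + 2), ?_, ?_⟩
  · have h2 := h1 (j + k + 2)
    have h3 : (5 : ℕ) ^ (4 * (j + k + 2)) ≥ (2 ^ (j + k + 2)) ^ 8 := by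
      rw [← pow_mul]
      calc (2 : ℕ) ^ ((j + k + 2) * 8) = (2 ^ 2) ^ (4 * (j + k + 2)) := by rw [← pow_mul]; ring_nf
        _ ≤ 5 ^ (4 * (j + k + 2)) := Nat.pow_le_pow_left (by norm_num) _
    have h4 : (j + k + 3) ^ 8 ≤ (2 ^ (j + k + 2)) ^ 8 := Nat.pow_le_pow_left h2 8
    have h5 : (j + 1) * (4 * (4 * (j + k + 2)) + 2) ≤ (j + k + 3) ^ 8 := by
      have a1 : j + 1 ≤ j + k + 3 := by omega
      have a2 : 4 * (4 * (j + k + 2)) + 2 ≤ (j + k + 3) * 3 ^ 6 := by omega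
      have a3 : (3 : ℕ) ^ 6 ≤ (j + k + 3) ^ 6 := Nat.pow_le_pow_left (by omega) 6
      calc (j + 1) * (4 * (4 * (j + k + 2)) + 2) ≤ (j + k + 3) * ((j + k + 3) * (j + k + 3) ^ 6) :=
            Nat.mul_le_mul a1 (a2.trans (Nat.mul_le_mul_left _ a3))
        _ = (j + k + 3) ^ 8 := by ring
    exact h5.trans (h4.trans h3)
  · have h2 : k < 5 ^ (4 * (j + k + 2)) := by
      calc k < 2 ^ k := Nat.lt_two_pow_self
        _ ≤ 2 ^ (4 * (j + k + 2)) := Nat.pow_le_pow_right (by norm_num) (by omega)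
        _ ≤ 5 ^ (4 * (j + k + 2)) := Nat.pow_le_pow_left (by norm_num) _
    exact hk.trans (by exact_mod_cast h2)

theorem main : ¬ SigmaCompactSpace (MorseBoundary (Cay TG) (Cay.vert TG 1)) := by
  intro hσ
  obtain ⟨Ns, hNs⟩ := sigma_gauges (κ := 10) (by norm_num) (cay_CG TG) hσ
  have hch : ∀ j : ℕ, ∃ n : ℕ, (j + 1) * (4 * n + 2) ≤ 5 ^ n ∧
      ((Ns j (20 * ((j + 1 : ℕ) : ℝ)) 1 : ℝ≥0) : ℝ) + 1 < 5 ^ n := fun j => exists_big j _
  choose n hn1 hn2 using hch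
  obtain ⟨R, hR, hseg⟩ := exists_Ray n hn1
  obtain ⟨ρ, hρ⟩ := exists_GRay R
  obtain ⟨i, hi⟩ := hNs ρ (ray_morse R hR ρ hρ)
  obtain ⟨b0, N, hN, hm, hz, h5⟩ := hseg i
  have h := not_morse R ρ hρ b0 N (n i) (i + 1) hN (by omega) hm hz h5 (Ns i) hi
  exact absurd h (not_le.mpr (hn2 i))

/-- there is a finitely presented group with a Morse boundary which is not sigma-compact -/
theorem final : ∃ (G : Type) (_ : Group G) (T : GenSet G), Group.IsFinitelyPresented G ∧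
    ¬ SigmaCompactSpace (MorseBoundary (Cay T) (Cay.vert T 1)) :=
  ⟨G, inferInstance, TG, G_fp, main⟩

end Dae
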