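import Pool.Agent.Lib.MP_dae6d7_al.G1a

/-! Row G1b. (Sections refer to the paper /team-store/dae6d7_paper.md.)

Path distance of the Cayley graph. Facts: (i) wlen (v0 p)^{-1} v1 p) <= 1 and r0 + r1 = 1 for an edge point (r0 = r1 = 0, v0 = v1 for a vertex);
(ii) vd p x <= vd p y + wlen(y^{-1} x) (wlen_mul); (iii) wlen (x^{-1} y) <= vd p x + vd p y for all vertices x,y (for an edge point with both minima at
different ends: r0 + r1 = 1 >= wlen(v0^{-1}v1)); (iv) thru p q = min over x of (vd p x + vd q x), in particular thru p q <= vd p x + vd q x for every x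
and thru p q is attained at an end of q; thru p q = thru q p; (v) on the same edge vd p x <= |t - t'| + vd q x. Triangle: D(p,q), D(q,r) each either
thru or |t - t'|. thru/thru: D(p,r) <= vd p x + vd r y + wlen(x^{-1}y) <= vd p x + vd q x + vd q y + vd r y with (ii),(iii). edge/thru: (v). edge/edge: same
edge, triangle inequality for reals.  pd_self: vertex: wlen 1 = 0; edge: |t-t| = 0 and thru >= 0.
-/

namespace Dae
variable {G : Type} [Group G]
namespace PreCay
variable {T : GenSet G}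

theorem G1b_r0_nonneg (p : PreCay T) : 0 ≤ p.r0 := by
  cases p with
  | vert g => exact le_refl _
  | edge g s t => exact t.2.1

theorem G1b_r1_nonneg (p : PreCay T) : 0 ≤ p.r1 := by
  cases p with
  | vert g => exact le_refl _
  | edge g s t => exact sub_nonneg.2 t.2.2

theorem G1b_ends (p : PreCay T) : (wlen T.S (p.v0⁻¹ * p.v1) : ℝ) ≤ p.r0 + p.r1 := by
  cases p with
  | vert g =>
    simp only [v0, v1, r0, r1, inv_mul_cancel, wlen_one]
    norm_num
  | edge g s t =>
    simp only [v0, v1, r0, r1, inv_mul_cancel_left]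
    have h := wlen_gen T.S (s : G) s.2
    have h' : (wlen T.S (s : G) : ℝ) ≤ 1 := by exact_mod_cast h
    linarith

theorem G1b_wtri (x y z : G) : (wlen T.S (x⁻¹ * z) : ℝ) ≤ wlen T.S (x⁻¹ * y) + wlen T.S (y⁻¹ * z) := by
  have h := wlen_mul T (x⁻¹ * y) (y⁻¹ * z)
  have e : x⁻¹ * y * (y⁻¹ * z) = x⁻¹ * z := by group
  rw [e] at h
  exact_mod_cast h

theorem G1b_wcomm (x y : G) : wlen T.S (x⁻¹ * y) = wlen T.S (y⁻¹ * x) := by
  rw [← wlen_inv T.S (x⁻¹ * y)]
  congr 1
  group

theorem G1b_vd_nonneg (p : PreCay T) (x : G) : 0 ≤ vd p x := by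
  unfold vd
  have h0 := G1b_r0_nonneg p
  have h1 := G1b_r1_nonneg p
  exact le_min (by positivity) (by positivity)

theorem G1b_vd_lip (p : PreCay T) (x y : G) : vd p x ≤ vd p y + wlen T.S (y⁻¹ * x) := by
  have a := G1b_wtri (T := T) p.v0 y x
  have b := G1b_wtri (T := T) p.v1 y x
  unfold vd
  rcases min_choice (p.r0 + (wlen T.S (p.v0⁻¹ * y) : ℝ)) (p.r1 + (wlen T.S (p.v1⁻¹ * y) : ℝ)) with h | h
  · rw [h]
    exact (min_le_left _ _).trans (by linarith)
  · rw [h]
    exact (min_le_right _ _).trans (by linarith)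

theorem G1b_vd_pair (p : PreCay T) (x y : G) : (wlen T.S (x⁻¹ * y) : ℝ) ≤ vd p x + vd p y := by
  have h0 := G1b_r0_nonneg p
  have h1 := G1b_r1_nonneg p
  have he := G1b_ends p
  have cx0 : (wlen T.S (p.v0⁻¹ * x) : ℝ) = wlen T.S (x⁻¹ * p.v0) := by rw [G1b_wcomm]
  have cx1 : (wlen T.S (p.v1⁻¹ * x) : ℝ) = wlen T.S (x⁻¹ * p.v1) := by rw [G1b_wcomm]
  have c01 : (wlen T.S (p.v1⁻¹ * p.v0) : ℝ) = wlen T.S (p.v0⁻¹ * p.v1) := by rw [G1b_wcomm]
  unfold vd
  rcases min_choice (p.r0 + (wlen T.S (p.v0⁻¹ * x) : ℝ)) (p.r1 + (wlen T.S (p.v1⁻¹ * x) : ℝ)) with h | h <;>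
  rcases min_choice (p.r0 + (wlen T.S (p.v0⁻¹ * y) : ℝ)) (p.r1 + (wlen T.S (p.v1⁻¹ * y) : ℝ)) with h' | h' <;>
  rw [h, h']
  · have := G1b_wtri (T := T) x p.v0 y
    linarith
  · have a1 := G1b_wtri (T := T) x p.v0 y
    have a2 := G1b_wtri (T := T) p.v0 p.v1 y
    linarith
  · have a1 := G1b_wtri (T := T) x p.v1 y
    have a2 := G1b_wtri (T := T) p.v1 p.v0 y
    linarith
  · have := G1b_wtri (T := T) x p.v1 y
    linarith

theorem G1b_vd_v0 (p : PreCay T) : vd p p.v0 ≤ p.r0 := by
  unfold vd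
  refine (min_le_left _ _).trans ?_
  rw [inv_mul_cancel, wlen_one]
  simp

theorem G1b_vd_v1 (p : PreCay T) : vd p p.v1 ≤ p.r1 := by
  unfold vd
  refine (min_le_right _ _).trans ?_
  rw [inv_mul_cancel, wlen_one]
  simp

theorem G1b_thru_le (p q : PreCay T) (x : G) : thru p q ≤ vd p x + vd q x := by
  have a := G1b_vd_lip p q.v0 x
  have b := G1b_vd_lip p q.v1 x
  have cx0 : (wlen T.S (q.v0⁻¹ * x) : ℝ) = wlen T.S (x⁻¹ * q.v0) := by rw [G1b_wcomm]
  have cx1 : (wlen T.S (q.v1⁻¹ * x) : ℝ) = wlen T.S (x⁻¹ * q.v1) := by rw [G1b_wcomm]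
  have hq : vd q x = min (q.r0 + (wlen T.S (q.v0⁻¹ * x) : ℝ)) (q.r1 + (wlen T.S (q.v1⁻¹ * x) : ℝ)) := rfl
  unfold thru
  rcases min_choice (q.r0 + (wlen T.S (q.v0⁻¹ * x) : ℝ)) (q.r1 + (wlen T.S (q.v1⁻¹ * x) : ℝ)) with h | h
  · rw [hq, h]
    exact (min_le_left _ _).trans (by linarith)
  · rw [hq, h]
    exact (min_le_right _ _).trans (by linarith)

theorem G1b_thru_ex (p q : PreCay T) : ∃ y : G, vd p y + vd q y ≤ thru p q := by
  have a := G1b_vd_v0 q
  have b := G1b_vd_v1 q
  unfold thru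
  rcases min_choice (p.vd q.v0 + q.r0) (p.vd q.v1 + q.r1) with h | h
  · rw [h]
    exact ⟨q.v0, by linarith⟩
  · rw [h]
    exact ⟨q.v1, by linarith⟩

theorem G1b_thru_comm (p q : PreCay T) : thru p q = thru q p := by
  apply le_antisymm
  · obtain ⟨y, hy⟩ := G1b_thru_ex q p
    have := G1b_thru_le p q y
    linarith
  · obtain ⟨y, hy⟩ := G1b_thru_ex p q
    have := G1b_thru_le q p y
    linarith

theorem G1b_thru_nonneg (p q : PreCay T) : 0 ≤ thru p q := by
  unfold thru
  have h0 := G1b_r0_nonneg q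
  have h1 := G1b_r1_nonneg q
  have a := G1b_vd_nonneg p q.v0
  have b := G1b_vd_nonneg p q.v1
  exact le_min (by positivity) (by positivity)

theorem G1b_pd_le_thru (p q : PreCay T) : pd p q ≤ thru p q := by
  cases p with
  | vert g => exact le_refl _
  | edge g s t =>
    cases q with
    | vert g' => exact le_refl _
    | edge g' s' t' =>
      simp only [pd]
      split_ifs with h
      · exact min_le_right _ _
      · exact le_refl _

theorem G1b_pd_edge (g : G) (s : T.S) (t t' : unitInterval) :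
    pd (edge g s t : PreCay T) (edge g s t') ≤ |(t : ℝ) - t'| := by
  simp only [pd, and_self, if_true]
  exact min_le_left _ _

theorem G1b_pd_cases (p q : PreCay T) : pd p q = thru p q ∨
    ∃ (g : G) (s : T.S) (t t' : unitInterval), p = edge g s t ∧ q = edge g s t' ∧ pd p q = |(t : ℝ) - t'| := by
  cases p with
  | vert g => exact Or.inl rfl
  | edge g s t =>
    cases q with
    | vert g' => exact Or.inl rfl
    | edge g' s' t' =>
      by_cases h : g = g' ∧ s = s'
      · obtain ⟨rfl, rfl⟩ := h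
        simp only [pd, and_self, if_true]
        rcases min_choice |(t : ℝ) - t'| (thru (edge g s t : PreCay T) (edge g s t')) with h | h
        · exact Or.inr ⟨g, s, t, t', rfl, rfl, h⟩
        · exact Or.inl h
      · left
        simp only [pd, if_neg h]

theorem G1b_vd_edge (g : G) (s : T.S) (t t' : unitInterval) (x : G) :
    vd (edge g s t : PreCay T) x ≤ |(t : ℝ) - t'| + vd (edge g s t' : PreCay T) x := by
  have h1 := le_abs_self ((t : ℝ) - t')
  have h2 := neg_abs_le ((t : ℝ) - t')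
  unfold vd
  simp only [v0, v1, r0, r1]
  rcases min_choice ((t' : ℝ) + (wlen T.S (g⁻¹ * x) : ℝ)) (1 - (t' : ℝ) + (wlen T.S ((g * (s : G))⁻¹ * x) : ℝ)) with h | h
  · rw [h]
    exact (min_le_left _ _).trans (by linarith)
  · rw [h]
    exact (min_le_right _ _).trans (by linarith)

theorem pd_nonneg (p q : PreCay T) : 0 ≤ pd p q := by
  rcases G1b_pd_cases p q with h | ⟨g, s, t, t', -, -, h⟩
  · rw [h]
    exact G1b_thru_nonneg p q
  · rw [h]
    exact abs_nonneg _

theorem pd_self (p : PreCay T) : pd p p = 0 := by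
  apply le_antisymm _ (pd_nonneg p p)
  cases p with
  | vert g =>
    have h := G1b_pd_le_thru (vert g : PreCay T) (vert g)
    have h2 := G1b_thru_le (vert g : PreCay T) (vert g) g
    have h3 := G1b_vd_v0 (vert g : PreCay T)
    simp only [v0, r0] at h3
    linarith
  | edge g s t =>
    have h := G1b_pd_edge (T := T) g s t t
    simpa using h

theorem pd_comm (p q : PreCay T) : pd p q = pd q p := by
  have key : ∀ p q : PreCay T, pd p q ≤ pd q p := by
    intro p q
    rcases G1b_pd_cases q p with h | ⟨g, s, t, t', hp, hq, h⟩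
    · rw [h, G1b_thru_comm]
      exact G1b_pd_le_thru p q
    · rw [h, hp, hq, abs_sub_comm]
      exact G1b_pd_edge g s t' t
  exact le_antisymm (key p q) (key q p)

/-- cases: through a vertex / inside an edge. For the vertex - vertex case use that vd q is 1-Lipschitz on vertices and
wlen(x^{-1}y) <= vd q x + vd q y; for the edge - vertex case |vd p x - vd q x| <= |t - t'| on the same edge. -/
theorem pd_triangle (p q r : PreCay T) : pd p r ≤ pd p q + pd q r := by
  have h0 := G1b_pd_le_thru p r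
  rcases G1b_pd_cases p q with h | ⟨g, s, t, t', hp, hq, h⟩
  · rcases G1b_pd_cases q r with k | ⟨g', s', u, u', kq, kr, k⟩
    · obtain ⟨x, hx⟩ := G1b_thru_ex p q
      obtain ⟨y, hy⟩ := G1b_thru_ex q r
      have a1 := G1b_thru_le p r x
      have a2 := G1b_vd_lip r x y
      have a3 := G1b_vd_pair q y x
      linarith
    · obtain ⟨x, hx⟩ := G1b_thru_ex p q
      have a1 := G1b_thru_le p r x
      have a2 := G1b_vd_edge (T := T) g' s' u' u x
      rw [abs_sub_comm] at a2
      rw [← kq, ← kr] at a2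
      linarith
  · rcases G1b_pd_cases q r with k | ⟨g', s', u, u', kq, kr, k⟩
    · obtain ⟨y, hy⟩ := G1b_thru_ex q r
      have a1 := G1b_thru_le p r y
      have a2 := G1b_vd_edge (T := T) g s t t' y
      rw [← hp, ← hq] at a2
      linarith
    · rw [hq] at kq
      injection kq with e1 e2 e3
      subst e1 e2 e3
      have a1 := G1b_pd_edge (T := T) g s t u'
      have a2 := abs_sub_le (t : ℝ) t' u'
      rw [h, k, hp, kr]
      linarith

theorem pd_vert (g h : G) : pd (vert g : PreCay T) (vert h) = wlen T.S (g⁻¹ * h) := by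
  simp [pd, thru, vd, v0, v1, r0, r1]

end PreCay
end Dae
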