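import Pool.Agent.Lib.MP_dae6d7_al.D5b
import Pool.Agent.Lib.MP_dae6d7_al.A2
import Pool.Agent.Lib.MP_dae6d7_al.A1b

/-! Row G5a. (Sections refer to the paper /team-store/dae6d7_paper.md.)

More general: for a word f of F (letters) and w in Z[i]: if all initial pieces of f have height in [0,m] then ee (pG^m) * (value of f) = value * ee (pG^(m-k) qG^k),
k = height of f: induction on the word from the right: letter of isC: commutes; letter a,b (true) from height k to k+1 <= m: pG^(m-k) qG^k = pG * (pG^(m-k-1) qG^k) crosses to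
qG * (..) (ee_cross_ab); letter inverse from k to k-1 >= 0: qG * (pG^(m-k) qG^(k-1)) crosses back to pG * (..). hts_take_sbn for f = sbn m [c], total height 0 (hts_sbn).
-/

namespace Dae

theorem G5a_comm (y : X6) (hy : isC y = true) (z : GaussianInt) :
    ee z * lf (FG.x y) = lf (FG.x y) * ee z := by
  obtain ⟨h1, h2, h3, h4, h5, h6, h7⟩ := relL_rel (R := relL LG.p LG.q LG.s LG.x)
    LG.p LG.q LG.s LG.x (le_refl _)
  have hp : Commute (lg (LG.x y)) (lg LG.p) := h4 y hy
  have hq : Commute (lg (LG.x y)) (lg LG.q) := h5 y hy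
  have : Commute (lg (LG.x y)) (lg LG.p ^ z.re * lg LG.q ^ z.im) :=
    (hp.zpow_right _).mul_right (hq.zpow_right _)
  exact this.eq.symm

theorem G5a_lift (x : F) : iL (iF x) = val (fun y => lf (FG.x y)) x.toWord := by
  rw [val_eq_lift, FreeGroup.mk_toWord]
  have h : (iL.comp iF) = FreeGroup.lift (fun y => lf (FG.x y)) := by
    apply FreeGroup.ext_hom
    intro y
    simp only [MonoidHom.comp_apply, iF, FreeGroup.map.of, iL, FreeGroup.lift_apply_of, lf, emb]
  rw [← h]; rfl

theorem G5a_gen (m : ℕ) (f : Wd X6) : ∀ k : ℕ, k ≤ m →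
    (∀ n, 0 ≤ (k : ℤ) + hts (f.take n) ∧ (k : ℤ) + hts (f.take n) ≤ m) →
    ∃ k' : ℕ, (k' : ℤ) = k + hts f ∧
      ee (pG ^ (m - k) * qG ^ k) * val (fun y => lf (FG.x y)) f =
        val (fun y => lf (FG.x y)) f * ee (pG ^ (m - k') * qG ^ k') := by
  induction f with
  | nil =>
    intro k hk _
    exact ⟨k, by simp [hts], by simp⟩
  | cons y f ih =>
    intro k hk hn
    have hcons : ∀ n, hts ((y :: f).take (n + 1)) = ht1 y + hts (f.take n) := by
      intro n; simp [hts]
    have hall : hts (y :: f) = ht1 y + hts f := by simp [hts]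
    -- it is enough to cross the first letter
    have key : ∀ k1 : ℕ, k1 ≤ m → (k1 : ℤ) = k + ht1 y →
        ee (pG ^ (m - k) * qG ^ k) * lv (fun y => lf (FG.x y)) y =
          lv (fun y => lf (FG.x y)) y * ee (pG ^ (m - k1) * qG ^ k1) →
        ∃ k' : ℕ, (k' : ℤ) = k + hts (y :: f) ∧
          ee (pG ^ (m - k) * qG ^ k) * val (fun y => lf (FG.x y)) (y :: f) =
            val (fun y => lf (FG.x y)) (y :: f) * ee (pG ^ (m - k') * qG ^ k') := by
      intro k1 hk1 hk1' hc
      obtain ⟨k', h1, h2⟩ := ih k1 hk1 (by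
        intro n
        have := hn (n + 1)
        rw [hcons] at this
        constructor
        · linarith [this.1]
        · linarith [this.2])
      refine ⟨k', by rw [hall]; linarith, ?_⟩
      rw [val_cons, ← mul_assoc, hc, mul_assoc, h2, mul_assoc]
    have hn1 := hn 1
    rw [hcons 0, List.take_zero] at hn1
    have h0 : hts ([] : Wd X6) = 0 := by simp [hts]
    rw [h0, add_zero] at hn1
    rcases y with ⟨x, b⟩
    by_cases hx : isC x = true
    · refine key k hk (by simp [ht1, hx]) ?_
      cases b
      · rw [lv_false]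
        have := G5a_comm x hx (pG ^ (m - k) * qG ^ k)
        rw [eq_inv_mul_iff_mul_eq, ← mul_assoc, ← this, mul_inv_cancel_right]
      · rw [lv_true]
        exact G5a_comm x hx _
    · have hx' : isC x = false := by simpa using hx
      cases b
      · -- inverse letter
        have hht : ht1 (x, false) = -1 := by simp [ht1, hx']
        rw [hht] at hn1
        have hk1 : 1 ≤ k := by
          have := hn1.1
          omega
        obtain ⟨j, rfl⟩ : ∃ j, k = j + 1 := ⟨k - 1, by omega⟩
        refine key j (by omega) (by rw [hht]; push_cast; ring) ?_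
        rw [lv_false]
        have e1 : pG ^ (m - (j + 1)) * qG ^ (j + 1) = qG * (pG ^ (m - (j + 1)) * qG ^ j) := by ring
        have e2 : pG ^ (m - j) * qG ^ j = pG * (pG ^ (m - (j + 1)) * qG ^ j) := by
          have : m - j = (m - (j + 1)) + 1 := by omega
          rw [this]; ring
        rw [e1, e2]
        have := ee_cross_ab x hx' (pG ^ (m - (j + 1)) * qG ^ j)
        rw [eq_inv_mul_iff_mul_eq, ← mul_assoc, ← this, mul_inv_cancel_right]
      · have hht : ht1 (x, true) = 1 := by simp [ht1, hx']
        rw [hht] at hn1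
        have hk1 : k + 1 ≤ m := by
          have := hn1.2
          omega
        refine key (k + 1) hk1 (by rw [hht]; push_cast; ring) ?_
        rw [lv_true]
        have e1 : pG ^ (m - k) * qG ^ k = pG * (pG ^ (m - (k + 1)) * qG ^ k) := by
          have : m - k = (m - (k + 1)) + 1 := by omega
          rw [this]; ring
        have e2 : pG ^ (m - (k + 1)) * qG ^ (k + 1) = qG * (pG ^ (m - (k + 1)) * qG ^ k) := by ring
        rw [e1, e2]
        exact ee_cross_ab x hx' (pG ^ (m - (k + 1)) * qG ^ k)

/-- phi^m(c) can be crossed at offset pi^m (heights in [0,m]) -/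
theorem cross_block (m : ℕ) : ee (pG ^ m) * iL (iF (wm m)) = iL (iF (wm m)) * ee (pG ^ m) := by
  have hw : (wm m).toWord = sbn m [(X6.c, true)] := by
    unfold wm
    rw [toWord_phn, FreeGroup.toWord_of]
  rw [G5a_lift, hw]
  obtain ⟨k', h1, h2⟩ := G5a_gen m (sbn m [(X6.c, true)]) 0 (Nat.zero_le _) (by
    intro n
    have := hts_take_sbn m n
    simpa using this)
  have h3 : hts (sbn m [(X6.c, true)]) = 0 := by
    rw [hts_sbn]; simp [hts, ht1, isC]
  rw [h3] at h1
  have h4 : k' = 0 := by simpa using h1
  subst h4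
  simpa using h2

end Dae
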