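import Pool.Agent.Lib.MP_dae6d7_al.F2c
import Pool.Agent.Lib.MP_dae6d7_al.G5a
import Pool.Agent.Lib.MP_dae6d7_al.D4b
import Pool.Agent.Lib.MP_dae6d7_al.F1b

/-! Row G5b. (Sections refer to the paper /team-store/dae6d7_paper.md.)

Proposition 10. Z = pG^(2n) = (re,im), |Z|^2 = 25^n... (norm of pG is 5, so |Z| = 5^n). u = S b0, v = S (b0+N) - 1. Word: zw ++ mw ++ invRev zw, zw = p^re q^im
written with |re|+|im| letters, mw = the letters number u..v of the ray (from W_b0 to W_(b0+N-1)^+). Value: mw has value in L: product of phi^{2n}(c) s ...,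
commutes with ee Z (cross_block and [s,ee] = 1), so the total value is that of mw and gam u * val w = gam v. Points: first leg gam u * ee (partial sums);
middle gam u * LtoG (ee Z) * (gam u)^{-1} gam (u + k); last leg gam v * LtoG (ee (partial)). Lower bounds for gn: rhoM kills p,q and gam is geodesic in M
(gam_geod_M); P (exists_P): |P(g) - P(g')| <= gn (g^{-1} g'), P(gam ..) = 0, P (gam u * ee z) = z (eta (W b) = 0), P = Z on the middle part (points gam u * Z * (element); show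
P (gam u * LtoG (ee Z) * rest) = P (gam u * LtoG (ee Z)) since the letters of the ray are not p,q). Cases of the 20 j bound: see the paper section 4, Prop 10:
leg/leg same side |.|_1 <= sqrt 2 |.|; leg/middle: <= 3 gn; opposite legs: k'-k <= 2 sqrt 2 5^n + T, T = v - u = N(4n+2) - 1 >= 1, 5^n <= 2j(T+1) <= 4jT, gn >= T:
(8 sqrt 2 j + 1) T <= 20 j T. middle/middle: gn >= k'-k. k0 = |re|+|im|: P = Z there, P = 0 on gam: gn >= 5^n. Please split into lemmas.
-/

namespace Dae

theorem G5b_val_rep (y : GG × Bool) (j : ℕ) : val gg (List.replicate j y) = (lv gg y) ^ j := by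
  induction j with
  | zero => simp
  | succ j ih => rw [List.replicate_succ, val_cons, ih, pow_succ']

theorem G5b_leg (y : GG) (r : ℤ) (j : ℕ) (hj : j ≤ r.natAbs) :
    val gg (List.replicate j (y, decide (0 ≤ r))) = gg y ^ (r.sign * j) := by
  rw [G5b_val_rep]
  rcases lt_trichotomy r 0 with h | h | h
  · have : decide (0 ≤ r) = false := by simp [h]
    rw [this, Int.sign_eq_neg_one_of_neg h, lv_false]
    simp
  · subst h
    have : j = 0 := by simpa using hj
    subst this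
    simp
  · have : decide (0 ≤ r) = true := by simp [h.le]
    rw [this, Int.sign_eq_one_of_pos h, lv_true]
    simp

/-- the staircase word -/
def G5b_zw (Z : GaussianInt) : Wd GG :=
  List.replicate Z.re.natAbs (GG.p, decide (0 ≤ Z.re)) ++ List.replicate Z.im.natAbs (GG.q, decide (0 ≤ Z.im))

/-- its partial sums -/
def G5b_zs (Z : GaussianInt) (k : ℕ) : GaussianInt :=
  ⟨Z.re.sign * (min k Z.re.natAbs : ℕ), Z.im.sign * (k - Z.re.natAbs : ℕ)⟩

theorem G5b_zw_len (Z : GaussianInt) : (G5b_zw Z).length = Z.re.natAbs + Z.im.natAbs := by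
  simp [G5b_zw]

theorem G5b_LtoG_ee (z : GaussianInt) : LtoG (ee z) = gg GG.p ^ z.re * gg GG.q ^ z.im := by
  have h1 : LtoG (lg LG.p) = gg GG.p := PG.lift_of _ _ _
  have h2 : LtoG (lg LG.q) = gg GG.q := PG.lift_of _ _ _
  rw [ee, map_mul, map_zpow, map_zpow, h1, h2]

theorem G5b_val_zw (Z : GaussianInt) (k : ℕ) (hk : k ≤ Z.re.natAbs + Z.im.natAbs) :
    val gg ((G5b_zw Z).take k) = LtoG (ee (G5b_zs Z k)) := by
  have e : min (k - Z.re.natAbs) Z.im.natAbs = k - Z.re.natAbs := min_eq_left (by omega)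
  rw [G5b_LtoG_ee, G5b_zw, List.take_append, List.take_replicate, List.length_replicate, List.take_replicate,
    val_append, G5b_leg _ _ _ (min_le_right _ _), e, G5b_leg _ _ _ (by omega)]
  rfl

theorem G5b_zs_full (Z : GaussianInt) : G5b_zs Z (Z.re.natAbs + Z.im.natAbs) = Z := by
  have h1 : Z.re.sign * (min (Z.re.natAbs + Z.im.natAbs) Z.re.natAbs : ℕ) = Z.re := by
    rw [min_eq_right (by omega), Int.sign_mul_natAbs]
  have h2 : Z.im.sign * (Z.re.natAbs + Z.im.natAbs - Z.re.natAbs : ℕ) = Z.im := by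
    rw [Nat.add_sub_cancel_left, Int.sign_mul_natAbs]
  rw [G5b_zs, h1, h2]

theorem G5b_sign_abs (r : ℤ) (x : ℤ) (hx : r = 0 → x = 0) : (r.sign * x) ^ 2 = x ^ 2 := by
  rcases lt_trichotomy r 0 with h | h | h
  · rw [Int.sign_eq_neg_one_of_neg h]; ring
  · rw [hx h]; ring
  · rw [Int.sign_eq_one_of_pos h]; ring

theorem G5b_zs_dist (Z : GaussianInt) (k k' : ℕ) (h : k ≤ k') (hk : k' ≤ Z.re.natAbs + Z.im.natAbs) :
    ((k' : ℝ) - k) ≤ 3 / 2 * ‖GaussianInt.toComplex (G5b_zs Z k') - GaussianInt.toComplex (G5b_zs Z k)‖ := by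
  have e1 : (((min k' Z.re.natAbs : ℕ) : ℤ) - (min k Z.re.natAbs : ℕ)) + (((k' - Z.re.natAbs : ℕ) : ℤ) -
      (k - Z.re.natAbs : ℕ)) = (k' : ℤ) - k := by omega
  have e2 : (Z.re.sign * ((min k' Z.re.natAbs : ℕ) : ℤ) - Z.re.sign * (min k Z.re.natAbs : ℕ)) ^ 2 =
      (((min k' Z.re.natAbs : ℕ) : ℤ) - (min k Z.re.natAbs : ℕ)) ^ 2 := by
    rw [← mul_sub]
    apply G5b_sign_abs
    intro h0
    rw [h0]; simp
  have e3 : (Z.im.sign * ((k' - Z.re.natAbs : ℕ) : ℤ) - Z.im.sign * (k - Z.re.natAbs : ℕ)) ^ 2 =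
      (((k' - Z.re.natAbs : ℕ) : ℤ) - (k - Z.re.natAbs : ℕ)) ^ 2 := by
    rw [← mul_sub]
    apply G5b_sign_abs
    intro h0
    rw [h0] at hk
    simp at hk
    omega
  have hsq : ‖GaussianInt.toComplex (G5b_zs Z k') - GaussianInt.toComplex (G5b_zs Z k)‖ ^ 2 =
      (((G5b_zs Z k').re : ℝ) - (G5b_zs Z k).re) ^ 2 + (((G5b_zs Z k').im : ℝ) - (G5b_zs Z k).im) ^ 2 := by
    rw [Complex.sq_norm, Complex.normSq_apply]
    rw [Complex.sub_re, Complex.sub_im, ← GaussianInt.intCast_re, ← GaussianInt.intCast_im,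
      ← GaussianInt.intCast_re, ← GaussianInt.intCast_im]
    ring
  have e2' : (((G5b_zs Z k').re : ℝ) - (G5b_zs Z k).re) ^ 2 =
      ((((min k' Z.re.natAbs : ℕ) : ℤ) - (min k Z.re.natAbs : ℕ) : ℤ) : ℝ) ^ 2 := by
    have := congrArg (Int.cast : ℤ → ℝ) e2
    rw [Int.cast_pow, Int.cast_pow, Int.cast_sub] at this
    exact this
  have e3' : (((G5b_zs Z k').im : ℝ) - (G5b_zs Z k).im) ^ 2 =
      ((((k' - Z.re.natAbs : ℕ) : ℤ) - (k - Z.re.natAbs : ℕ) : ℤ) : ℝ) ^ 2 := by
    have := congrArg (Int.cast : ℤ → ℝ) e3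
    rw [Int.cast_pow, Int.cast_pow, Int.cast_sub] at this
    exact this
  set X : ℤ := ((min k' Z.re.natAbs : ℕ) : ℤ) - (min k Z.re.natAbs : ℕ) with hX
  set Y : ℤ := ((k' - Z.re.natAbs : ℕ) : ℤ) - (k - Z.re.natAbs : ℕ) with hY
  have e1' : (X : ℝ) + Y = (k' : ℝ) - k := by exact_mod_cast e1
  rw [e2', e3'] at hsq
  have h0 := norm_nonneg (GaussianInt.toComplex (G5b_zs Z k') - GaussianInt.toComplex (G5b_zs Z k))
  rw [← e1']
  refine le_of_sq_le_sq ?_ (by positivity)
  rw [mul_pow, hsq]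
  nlinarith [sq_nonneg ((X : ℝ) - Y), sq_nonneg (X : ℝ), sq_nonneg (Y : ℝ)]

theorem G5b_norm_Z (n : ℕ) : ‖GaussianInt.toComplex (pG ^ (2 * n))‖ = 5 ^ n := by
  rw [map_pow, norm_pow, pow_mul]
  congr 1
  rw [Complex.sq_norm, Complex.normSq_apply]
  rw [← GaussianInt.intCast_re, ← GaussianInt.intCast_im]
  simp [pG]
  norm_num

theorem G5b_gens : Gens gg := gens_PG

/-- E commutes with s -/
theorem G5b_comm_s (z : GaussianInt) : Commute (LtoG (ee z)) (gg GG.s) := by
  obtain ⟨_, h2, h3, _⟩ := relL_rel (R := relL GG.p GG.q GG.s GG.x ∪ relK GG.tau GG.x)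
    GG.p GG.q GG.s GG.x Set.subset_union_left
  rw [G5b_LtoG_ee]
  have c1 : Commute (gg GG.p) (gg GG.s) := h2.symm
  have c2 : Commute (gg GG.q) (gg GG.s) := h3.symm
  exact (c1.zpow_left _).mul_left (c2.zpow_left _)

theorem G5b_comm_w (m : ℕ) : Commute (LtoG (ee (pG ^ m))) (iG (wm m)) := by
  have h := congrArg LtoG (cross_block m)
  rw [map_mul, map_mul, LtoG_iL_iF] at h
  exact h

theorem G5b_eta_iG_wm (m : ℕ) : eta (iG (wm m)) = 0 := by
  have h0 : ∀ x : F, eta (iG (phi x)) = eta (iG x) := by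
    intro x
    rw [← tau_conj, eta_mul, eta_mul, eta_inv]
    ring
  have h1 : ∀ m : ℕ, eta (iG (phn m (FreeGroup.of X6.c))) = eta (iG (FreeGroup.of X6.c)) := by
    intro m
    induction m with
    | zero => rfl
    | succ m ih =>
      rw [phn, Function.iterate_succ_apply', h0]
      exact ih
  rw [wm, h1]
  have : iG (FreeGroup.of X6.c) = gg (GG.x X6.c) := by
    simp only [iG, MonoidHom.comp_apply, iK, FreeGroup.lift_apply_of]
    exact PG.lift_of _ _ _
  rw [this]
  simp [eta, etah, gg, isC]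

theorem G5b_eta_ee (z : GaussianInt) : eta (LtoG (ee z)) = 0 := by
  rw [G5b_LtoG_ee]
  simp [eta, etah, gg]

namespace Ray
variable (R : Ray)

theorem G5b_eta_sep (b : ℕ) : eta (lv gg (R.sep b)) = 0 := by
  unfold sep
  split
  · simp [eta, etah, gg]
  · simp [eta, etah, gg]

theorem G5b_eta_W (b : ℕ) : eta (R.W b) = 0 := by
  induction b with
  | zero => rw [W_zero, eta_one]
  | succ b ih => rw [W_succ, eta_mul, eta_mul, ih, G5b_eta_iG_wm, G5b_eta_sep]; rfl

/-- last point of a block -/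
theorem G5b_gam_end (b : ℕ) : R.gam (R.S (b + 1) - 1) = R.W b * iG (wm (R.m b)) := by
  have h := R.gam_down b 0 (Nat.zero_le _)
  have e : R.S b + 2 * R.m b + 1 - 0 = R.S (b + 1) - 1 := by
    rw [S_succ]; omega
  rw [e, Nat.sub_zero] at h
  rw [h]
  simp [pt, hp, iG, wm]

theorem G5b_comm_W (b0 N n : ℕ) (hm : ∀ k, k < N → R.m (b0 + k) = 2 * n)
    (hz : ∀ k, k + 1 < N → R.z (b0 + k) = true) (k : ℕ) (hk : k < N) :
    Commute (LtoG (ee (pG ^ (2 * n)))) ((R.W b0)⁻¹ * R.W (b0 + k)) := by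
  induction k with
  | zero => simp
  | succ k ih =>
    have h1 := ih (by omega)
    have h2 : (R.W b0)⁻¹ * R.W (b0 + (k + 1)) = (R.W b0)⁻¹ * R.W (b0 + k) * iG (wm (2 * n)) * gg GG.s := by
      rw [← add_assoc, W_succ, hm k (by omega), sep, if_pos (hz k hk), lv_true]
      group
    rw [h2]
    exact (h1.mul_right (G5b_comm_w _)).mul_right (G5b_comm_s _)

theorem G5b_comm_gam (b0 N n : ℕ) (hN : 1 ≤ N) (hm : ∀ k, k < N → R.m (b0 + k) = 2 * n)
    (hz : ∀ k, k + 1 < N → R.z (b0 + k) = true) :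
    Commute (LtoG (ee (pG ^ (2 * n)))) ((R.gam (R.S b0))⁻¹ * R.gam (R.S (b0 + N) - 1)) := by
  obtain ⟨k, rfl⟩ : ∃ k, N = k + 1 := ⟨N - 1, by omega⟩
  have h1 := R.G5b_comm_W b0 (k + 1) n hm hz k (by omega)
  rw [gam_S, ← add_assoc, G5b_gam_end, hm k (by omega), ← mul_assoc]
  exact h1.mul_right (G5b_comm_w _)

theorem G5b_eta_gam (b0 N : ℕ) (hN : 1 ≤ N) : eta (R.gam (R.S (b0 + N) - 1)) = 0 := by
  obtain ⟨k, rfl⟩ : ∃ k, N = k + 1 := ⟨N - 1, by omega⟩
  rw [← add_assoc, G5b_gam_end, eta_mul, G5b_eta_W, G5b_eta_iG_wm]; rfl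

theorem G5b_L_gam (b0 N : ℕ) (hN : 1 ≤ N) : ∃ u : L, R.gam (R.S (b0 + N) - 1) = LtoG u := by
  obtain ⟨k, rfl⟩ : ∃ k, N = k + 1 := ⟨N - 1, by omega⟩
  refine ⟨val lf (R.slow (b0 + k)) * iL (iF (wm (R.m (b0 + k)))), ?_⟩
  rw [← add_assoc, G5b_gam_end, map_mul, ← W_slow, LtoG_iL_iF]

theorem G5b_S_add (b0 N n : ℕ) (hm : ∀ k, k < N → R.m (b0 + k) = 2 * n) :
    R.S (b0 + N) = R.S b0 + N * (2 * (2 * n) + 2) := by
  induction N with
  | zero => simp
  | succ N ih =>
    rw [← add_assoc, S_succ, ih (fun k hk => hm k (by omega)), hm N (by omega)]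
    ring

/-- letters of the ray are not p, q -/
theorem G5b_letters (b : ℕ) : ∀ y ∈ R.pre b, y.1 ≠ GG.p ∧ y.1 ≠ GG.q := by
  induction b with
  | zero => simp [pre]
  | succ b ih =>
    intro y hy
    rw [pre, List.mem_append] at hy
    rcases hy with hy | hy
    · exact ih y hy
    · simp only [blk, List.mem_append, List.mem_replicate, List.mem_singleton, sep] at hy
      rcases hy with ((hy | hy) | hy) | hy
      · rw [hy.2]; simp
      · rw [hy]; simp
      · rw [hy.2]; simp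
      · rw [hy]; split <;> simp

/-- values of the pieces of the ray word -/
theorem G5b_mid (b u v k : ℕ) (huv : u ≤ v) (hv : v ≤ R.S b) (hk : k ≤ v - u) :
    R.gam u * val gg ((((R.pre b).take v).drop u).take k) = R.gam (u + k) := by
  rw [R.gam_eq u b (by omega), R.gam_eq (u + k) b (by omega)]
  have e : ((R.pre b).take v).drop u = ((R.pre b).drop u).take (v - u) := by
    rw [List.drop_take]
  rw [e, List.take_take, min_eq_left hk, ← val_append]
  congr 1
  rw [List.take_add]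

end Ray

/-- P does not change under letters different from p, q -/
theorem G5b_P_const {P : G → ℂ} (h : ∀ g i, i ≠ GG.p → i ≠ GG.q → P (g * gg i) = P g) (w : Wd GG)
    (hw : ∀ y ∈ w, y.1 ≠ GG.p ∧ y.1 ≠ GG.q) (g : G) : P (g * val gg w) = P g := by
  induction w generalizing g with
  | nil => simp
  | cons y w ih =>
    rw [val_cons, ← mul_assoc, ih (fun z hz => hw z (List.mem_cons_of_mem _ hz))]
    have hy := hw y List.mem_cons_self
    rcases y with ⟨i, b⟩
    cases b
    · have := h (g * (gg i)⁻¹) i hy.1 hy.2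
      rw [inv_mul_cancel_right] at this
      rw [lv_false, ← this]
    · rw [lv_true, h g i hy.1 hy.2]

theorem G5b_norm_Rc (k : ℤ) : ‖Rc ^ k‖ = 1 := by
  have h : ‖Rc‖ = 1 := by
    rw [Rc, norm_div]
    have h1 : ‖(2 + Complex.I)‖ = Real.sqrt 5 := by
      rw [Complex.norm_def, Complex.normSq_apply]; simp; norm_num
    have h2 : ‖(2 - Complex.I)‖ = Real.sqrt 5 := by
      rw [Complex.norm_def, Complex.normSq_apply]; simp; norm_num
    rw [h1, h2]
    exact div_self (by positivity)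
  rw [norm_zpow, h, one_zpow]

open Classical in
/-- P is 1-Lipschitz -/
theorem G5b_P_lip {P : G → ℂ}
    (h1 : ∀ g, P (g * gg GG.p) = P g + if (∃ u : L, g = LtoG u) then Rc ^ (eta g) else 0)
    (h2 : ∀ g, P (g * gg GG.q) = P g + if (∃ u : L, g = LtoG u) then Rc ^ (eta g) * Complex.I else 0)
    (h3 : ∀ g i, i ≠ GG.p → i ≠ GG.q → P (g * gg i) = P g) (g g' : G) :
    ‖P g' - P g‖ ≤ gn (g⁻¹ * g') := by
  have hl : ∀ g i, ‖P (g * gg i) - P g‖ ≤ 1 := by
    intro g i
    by_cases hp : i = GG.p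
    · subst hp
      rw [h1]
      split
      · rw [add_sub_cancel_left, G5b_norm_Rc]
      · simp
    · by_cases hq : i = GG.q
      · subst hq
        rw [h2]
        split
        · rw [add_sub_cancel_left, norm_mul, G5b_norm_Rc]; simp
        · simp
      · rw [h3 g i hp hq]; simp
  have hs : ∀ g (y : GG × Bool), ‖P (g * lv gg y) - P g‖ ≤ 1 := by
    rintro g ⟨i, b⟩
    cases b
    · have := hl (g * (gg i)⁻¹) i
      rw [inv_mul_cancel_right] at this
      rw [lv_false, norm_sub_rev]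
      exact this
    · rw [lv_true]; exact hl g i
  have hw : ∀ (w : Wd GG) g, ‖P (g * val gg w) - P g‖ ≤ w.length := by
    intro w
    induction w with
    | nil => intro g; simp
    | cons y w ih =>
      intro g
      rw [val_cons, ← mul_assoc]
      calc ‖P (g * lv gg y * val gg w) - P g‖
          = ‖(P (g * lv gg y * val gg w) - P (g * lv gg y)) + (P (g * lv gg y) - P g)‖ := by ring_nf
        _ ≤ w.length + 1 := (norm_add_le _ _).trans (add_le_add (ih _) (hs _ _))
        _ = ((y :: w).length : ℝ) := by simp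
  obtain ⟨w, hw1, hw2⟩ := nrm_spec G5b_gens (g⁻¹ * g')
  have := hw w g
  rw [hw2, mul_inv_cancel_left, hw1] at this
  exact this

open Classical in
theorem G5b_P_zpow {P : G → ℂ} (y : GG) (hy : y = GG.p ∨ y = GG.q) (c : ℂ)
    (h1 : ∀ g, P (g * gg y) = P g + if (∃ u : L, g = LtoG u) then Rc ^ (eta g) * c else 0)
    (g : G) (hg : ∃ u : L, g = LtoG u) (h0 : eta g = 0) (k : ℤ) : P (g * gg y ^ k) = P g + k * c := by
  have hL : ∃ v : L, gg y = LtoG v := by
    rcases hy with rfl | rfl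
    · have : LtoG (lg LG.p) = gg GG.p := PG.lift_of _ _ _
      exact ⟨lg LG.p, this.symm⟩
    · have : LtoG (lg LG.q) = gg GG.q := PG.lift_of _ _ _
      exact ⟨lg LG.q, this.symm⟩
  have he : eta (gg y) = 0 := by
    rcases hy with rfl | rfl
    · simp [eta, etah, gg]
    · simp [eta, etah, gg]
  have hm : ∀ k : ℤ, (∃ u : L, g * gg y ^ k = LtoG u) ∧ eta (g * gg y ^ k) = 0 := by
    intro k
    obtain ⟨u, hu⟩ := hg
    obtain ⟨v, hv⟩ := hL
    refine ⟨⟨u * v ^ k, by rw [map_mul, map_zpow, ← hu, ← hv]⟩, ?_⟩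
    rw [eta_mul, h0, zero_add]
    have : eta (gg y ^ k) = k * eta (gg y) := by simp [eta]
    rw [this, he, mul_zero]
  have step : ∀ k : ℤ, P (g * gg y ^ (k + 1)) = P (g * gg y ^ k) + c := by
    intro k
    have := h1 (g * gg y ^ k)
    rw [if_pos (hm k).1, (hm k).2, zpow_zero, one_mul, mul_assoc, ← zpow_add_one] at this
    exact this
  induction k using Int.induction_on with
  | zero => simp
  | succ k ih => rw [step, ih]; push_cast; ring
  | pred k ih =>
    have := step (-(k : ℤ) - 1)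
    rw [sub_add_cancel, ih] at this
    push_cast at this ⊢
    linear_combination -this

open Classical in
theorem G5b_P_ee {P : G → ℂ}
    (h1 : ∀ g, P (g * gg GG.p) = P g + if (∃ u : L, g = LtoG u) then Rc ^ (eta g) else 0)
    (h2 : ∀ g, P (g * gg GG.q) = P g + if (∃ u : L, g = LtoG u) then Rc ^ (eta g) * Complex.I else 0)
    (g : G) (hg : ∃ u : L, g = LtoG u) (h0 : eta g = 0) (z : GaussianInt) :
    P (g * LtoG (ee z)) = P g + GaussianInt.toComplex z := by
  have e1 := G5b_P_zpow (P := P) GG.p (Or.inl rfl) 1 (by simpa using h1) g hg h0 z.re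
  have hg' : ∃ u : L, g * gg GG.p ^ z.re = LtoG u := by
    obtain ⟨u, hu⟩ := hg
    refine ⟨u * lg LG.p ^ z.re, ?_⟩
    have : LtoG (lg LG.p) = gg GG.p := PG.lift_of _ _ _
    rw [map_mul, map_zpow, this, ← hu]
  have h0' : eta (g * gg GG.p ^ z.re) = 0 := by
    rw [eta_mul, h0]
    simp [eta, etah, gg]
  have e2 := G5b_P_zpow (P := P) GG.q (Or.inr rfl) Complex.I h2 _ hg' h0' z.im
  rw [G5b_LtoG_ee, ← mul_assoc, e2, e1, GaussianInt.toComplex_def]
  ring


theorem G5b_rhoM_ee (z : GaussianInt) : rhoM (LtoG (ee z)) = 1 := by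
  rw [G5b_LtoG_ee, map_mul, map_zpow, map_zpow]
  have h1 : rhoM (gg GG.p) = 1 := PG.lift_of _ _ _
  have h2 : rhoM (gg GG.q) = 1 := PG.lift_of _ _ _
  rw [h1, h2]; simp

/-- nrm in M is at most gn -/
theorem G5b_rhoM_le (x : G) : nrm mg (rhoM x) ≤ gn x := by
  refine nrm_map G5b_gens mg rhoM ?_ x
  intro i
  have h : rhoM (gg i) = fM i := PG.lift_of _ _ _
  rw [h]
  cases i with
  | p => exact Or.inl rfl
  | q => exact Or.inl rfl
  | s => exact Or.inr ⟨_, rfl⟩
  | t => exact Or.inr ⟨_, rfl⟩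
  | tau => exact Or.inr ⟨_, rfl⟩
  | x y => exact Or.inr ⟨_, rfl⟩

/-- the pieces of invRev of the staircase word -/
theorem G5b_val_inv (Z : GaussianInt) (i : ℕ) (_hi : i ≤ Z.re.natAbs + Z.im.natAbs) :
    val gg ((FreeGroup.invRev (G5b_zw Z)).take i) =
      (LtoG (ee Z))⁻¹ * LtoG (ee (G5b_zs Z (Z.re.natAbs + Z.im.natAbs - i))) := by
  have e : (FreeGroup.invRev (G5b_zw Z)).take i =
      FreeGroup.invRev ((G5b_zw Z).drop (Z.re.natAbs + Z.im.natAbs - i)) := by
    rw [FreeGroup.invRev, FreeGroup.invRev, List.take_reverse, List.length_map, G5b_zw_len, List.map_drop]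
  have h1 := G5b_val_zw Z (Z.re.natAbs + Z.im.natAbs - i) (Nat.sub_le _ _)
  have h2 := G5b_val_zw Z (Z.re.natAbs + Z.im.natAbs) le_rfl
  rw [G5b_zs_full, List.take_of_length_le (by rw [G5b_zw_len])] at h2
  rw [e, val_invRev, ← h1, ← h2]
  have h3 : val gg (G5b_zw Z) = val gg ((G5b_zw Z).take (Z.re.natAbs + Z.im.natAbs - i)) *
      val gg ((G5b_zw Z).drop (Z.re.natAbs + Z.im.natAbs - i)) := by
    rw [← val_append, List.take_append_drop]
  rw [h3]
  group

/-- the abstract case analysis -/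
theorem G5b_cases (X : ℕ → G) (P : G → ℂ) (mu : ℕ → M) (z : ℕ → ℂ) (a T : ℕ) (j : ℕ) (hj : 1 ≤ j)
    (hT : 2 * (a : ℝ) ≤ 12 * j * T)
    (hz : ∀ k k', k ≤ k' → k' ≤ a → ((k' : ℝ) - k) ≤ 3 / 2 * ‖z k' - z k‖)
    (hP : ∀ g g', ‖P g' - P g‖ ≤ gn (g⁻¹ * g'))
    (hM : ∀ i i', i ≤ i' → i' ≤ T → nrm mg ((mu i)⁻¹ * mu i') = i' - i)
    (h1 : ∀ k, k ≤ a → P (X k) = z k ∧ rhoM (X k) = mu 0)
    (h2 : ∀ k, k ≤ T → P (X (a + k)) = z a ∧ rhoM (X (a + k)) = mu k)
    (h3 : ∀ k, k ≤ a → P (X (a + T + k)) = z (a - k) ∧ rhoM (X (a + T + k)) = mu T)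
    (k k' : ℕ) (hk : k ≤ k') (hk' : k' ≤ a + T + a) :
    ((k' : ℝ) - k) ≤ 20 * j * gn ((X k)⁻¹ * X k') := by
  have hj1 : (1 : ℝ) ≤ j := by exact_mod_cast hj
  have hg0 : (0 : ℝ) ≤ gn ((X k)⁻¹ * X k') := Nat.cast_nonneg _
  have hPk := hP (X k) (X k')
  have hMk : (nrm mg ((rhoM (X k))⁻¹ * rhoM (X k')) : ℝ) ≤ gn ((X k)⁻¹ * X k') := by
    have := G5b_rhoM_le ((X k)⁻¹ * X k')
    rw [map_mul, map_inv] at this
    exact_mod_cast this
  have hbig : 20 * (gn ((X k)⁻¹ * X k') : ℝ) ≤ 20 * j * gn ((X k)⁻¹ * X k') := by nlinarith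
  rcases le_total k' a with c | c
  · -- both on the first leg
    rw [(h1 k (by omega)).1, (h1 k' c).1] at hPk
    have := hz k k' hk c
    linarith
  rcases le_total k' (a + T) with c' | c'
  · obtain ⟨i', rfl⟩ := Nat.exists_eq_add_of_le c
    rcases le_total k a with d | d
    · -- first leg, middle
      rw [(h1 k d).1, (h2 i' (by omega)).1] at hPk
      rw [(h1 k d).2, (h2 i' (by omega)).2, hM 0 i' (by omega) (by omega)] at hMk
      have := hz k a d le_rfl
      simp only [Nat.sub_zero] at hMk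
      push_cast
      linarith
    · -- middle, middle
      obtain ⟨i, rfl⟩ := Nat.exists_eq_add_of_le d
      rw [(h2 i (by omega)).2, (h2 i' (by omega)).2, hM i i' (by omega) (by omega), Nat.cast_sub (by omega)] at hMk
      push_cast
      linarith
  · obtain ⟨i', rfl⟩ := Nat.exists_eq_add_of_le c'
    rcases le_total k a with d | d
    · -- opposite legs
      rw [(h1 k d).2, (h3 i' (by omega)).2, hM 0 T (by omega) le_rfl] at hMk
      simp only [Nat.sub_zero] at hMk
      have e1 : (i' : ℝ) ≤ a := by exact_mod_cast (by omega : i' ≤ a)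
      have e2 : (0 : ℝ) ≤ k := Nat.cast_nonneg _
      have e3 : (0 : ℝ) ≤ T := Nat.cast_nonneg _
      have e4 : (j : ℝ) * T ≤ j * gn ((X k)⁻¹ * X (a + T + i')) := by
        exact mul_le_mul_of_nonneg_left hMk (by linarith)
      have e5 : (T : ℝ) ≤ j * T := by nlinarith
      push_cast
      nlinarith
    · rcases le_total k (a + T) with d' | d'
      · -- middle, last leg
        obtain ⟨i, rfl⟩ := Nat.exists_eq_add_of_le d
        rw [(h2 i (by omega)).1, (h3 i' (by omega)).1] at hPk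
        rw [(h2 i (by omega)).2, (h3 i' (by omega)).2, hM i T (by omega) le_rfl, Nat.cast_sub (by omega)] at hMk
        have := hz (a - i') a (by omega) le_rfl
        rw [Nat.cast_sub (by omega), norm_sub_rev] at this
        push_cast
        linarith
      · -- both on the last leg
        obtain ⟨i, rfl⟩ := Nat.exists_eq_add_of_le d'
        rw [(h3 i (by omega)).1, (h3 i' (by omega)).1] at hPk
        have := hz (a - i') (a - i) (by omega) (by omega)
        rw [Nat.cast_sub (by omega), Nat.cast_sub (by omega), norm_sub_rev] at this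
        push_cast
        linarith

namespace Ray
variable (R : Ray)

/-- discrete form of Proposition 10. Blocks b0, ..., b0+N-1 with the same parameter 2n, separated by s.
Path: W_{b0} -> W_{b0} Z (Z = pi^{2n}, staircase) -> letters of the ray -> back. -/
theorem dev_discrete (b0 N n j : ℕ) (hN : 1 ≤ N) (hj : 1 ≤ j) (hm : ∀ k, k < N → R.m (b0 + k) = 2 * n)
    (hz : ∀ k, k + 1 < N → R.z (b0 + k) = true)
    (h5 : (5 : ℝ) ^ n ≤ 2 * j * (N * (2 * (2 * n) + 2))) :
    ∃ w : Wd GG, ∃ u v k0 : ℕ, k0 ≤ w.length ∧ R.gam u * val gg w = R.gam v ∧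
      (∀ k k', k ≤ k' → k' ≤ w.length →
        ((k' : ℝ) - k) ≤ 20 * j * gn ((val gg (w.take k))⁻¹ * val gg (w.take k'))) ∧
      ∀ n' : ℕ, (5 : ℝ) ^ n ≤ gn ((R.gam n')⁻¹ * (R.gam u * val gg (w.take k0))) := by
  classical
  obtain ⟨P, hP0, hPp, hPq, hPx⟩ := exists_P
  set Z : GaussianInt := pG ^ (2 * n) with hZ
  set a : ℕ := Z.re.natAbs + Z.im.natAbs with ha
  set u : ℕ := R.S b0 with hu
  set v : ℕ := R.S (b0 + N) - 1 with hv
  set T : ℕ := v - u with hT
  have hS := R.G5b_S_add b0 N n hm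
  have hNn : 2 ≤ N * (2 * (2 * n) + 2) := by nlinarith
  have huv : u ≤ v := by omega
  have hT1 : T + 1 = N * (2 * (2 * n) + 2) := by omega
  set mw : Wd GG := ((R.pre (b0 + N)).take v).drop u with hmw
  have hmwl : mw.length = T := by
    rw [hmw, List.length_drop, List.length_take, min_eq_left]
    have : (R.pre (b0 + N)).length = R.S (b0 + N) := rfl
    omega
  have hmid : ∀ k, k ≤ T → R.gam u * val gg (mw.take k) = R.gam (u + k) := fun k hk =>
    R.G5b_mid (b0 + N) u v k huv (by omega) hk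
  have hmw1 : ∀ y ∈ mw, y.1 ≠ GG.p ∧ y.1 ≠ GG.q := fun y hy =>
    R.G5b_letters (b0 + N) y (List.mem_of_mem_take (List.mem_of_mem_drop hy))
  have hmwv : val gg mw = (R.gam u)⁻¹ * R.gam v := by
    have := hmid T le_rfl
    rw [List.take_of_length_le (by omega), show u + T = v by omega] at this
    rw [← this]; group
  have hcomm := R.G5b_comm_gam b0 N n hN hm hz
  rw [← hZ, ← hu, ← hv, ← hmwv] at hcomm
  set w : Wd GG := G5b_zw Z ++ mw ++ FreeGroup.invRev (G5b_zw Z) with hw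
  have hzl := G5b_zw_len Z
  rw [← ha] at hzl
  have hzf : val gg (G5b_zw Z) = LtoG (ee Z) := by
    have h2 := G5b_val_zw Z a le_rfl
    rw [G5b_zs_full, List.take_of_length_le (by rw [hzl])] at h2
    exact h2
  have hinvl : (FreeGroup.invRev (G5b_zw Z)).length = a := by rw [FreeGroup.invRev_length, hzl]
  have hwl : w.length = a + T + a := by
    rw [hw, List.length_append, List.length_append, hzl, hmwl, hinvl]
  -- prefix values
  have v1 : ∀ k, k ≤ a → val gg (w.take k) = LtoG (ee (G5b_zs Z k)) := by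
    intro k hk
    rw [hw, List.append_assoc, List.take_append_of_le_length (by omega)]
    exact G5b_val_zw Z k hk
  have v2 : ∀ k, k ≤ T → val gg (w.take (a + k)) = LtoG (ee Z) * val gg (mw.take k) := by
    intro k hk
    rw [hw, List.append_assoc, ← hzl, List.take_length_add_append,
      List.take_append_of_le_length (by omega), val_append, hzf]
  have v3 : ∀ k, k ≤ a → val gg (w.take (a + T + k)) =
      (R.gam u)⁻¹ * R.gam v * LtoG (ee (G5b_zs Z (a - k))) := by
    intro k hk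
    have e : (G5b_zw Z ++ mw).length = a + T := by rw [List.length_append, hzl, hmwl]
    rw [hw, ← e, List.take_length_add_append, val_append, val_append, G5b_val_inv Z k hk, hzf, hcomm.eq, hmwv]
    rw [← ha]
    group
  have vfull : R.gam u * val gg w = R.gam v := by
    have h := v3 a le_rfl
    rw [← hwl, List.take_length] at h
    rw [h]
    have e : G5b_zs Z (a - a) = 0 := by
      rw [Nat.sub_self]
      ext <;> simp [G5b_zs]
    rw [e]
    have e2 : LtoG (ee 0) = 1 := by rw [G5b_LtoG_ee]; simp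
    rw [e2]; group
  have hLu : ∃ y : L, R.gam u = LtoG y := ⟨_, by rw [hu, gam_S, W_slow]⟩
  have hLv : ∃ y : L, R.gam v = LtoG y := R.G5b_L_gam b0 N hN
  have heu : eta (R.gam u) = 0 := by rw [hu, gam_S, G5b_eta_W]
  have hev : eta (R.gam v) = 0 := R.G5b_eta_gam b0 N hN
  have hPgam : ∀ n', P (R.gam n') = 0 := by
    intro n'
    have := G5b_P_const hPx ((R.pre n').take n') (fun y hy => R.G5b_letters n' y (List.mem_of_mem_take hy)) 1
    rw [one_mul, hP0] at this
    exact this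
  have hP1 : ∀ k, k ≤ a → P (R.gam u * val gg (w.take k)) = GaussianInt.toComplex (G5b_zs Z k) := by
    intro k hk
    rw [v1 k hk, G5b_P_ee hPp hPq _ hLu heu, hPgam, zero_add]
  have hzsa : G5b_zs Z a = Z := G5b_zs_full Z
  have hP2 : ∀ k, k ≤ T → P (R.gam u * val gg (w.take (a + k))) = GaussianInt.toComplex (G5b_zs Z a) := by
    intro k hk
    rw [v2 k hk, ← mul_assoc, G5b_P_const hPx _ (fun y hy => hmw1 y (List.mem_of_mem_take hy)),
      G5b_P_ee hPp hPq _ hLu heu, hPgam, zero_add, hzsa]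
  have hP3 : ∀ k, k ≤ a → P (R.gam u * val gg (w.take (a + T + k))) =
      GaussianInt.toComplex (G5b_zs Z (a - k)) := by
    intro k hk
    rw [v3 k hk, ← mul_assoc, mul_inv_cancel_left, G5b_P_ee hPp hPq _ hLv hev, hPgam, zero_add]
  have hM1 : ∀ k, k ≤ a → rhoM (R.gam u * val gg (w.take k)) = rhoM (R.gam (u + 0)) := by
    intro k hk
    rw [v1 k hk, map_mul, G5b_rhoM_ee, mul_one]; rfl
  have hM2 : ∀ k, k ≤ T → rhoM (R.gam u * val gg (w.take (a + k))) = rhoM (R.gam (u + k)) := by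
    intro k hk
    rw [v2 k hk, ← hmid k hk, map_mul, map_mul, map_mul, G5b_rhoM_ee, one_mul]
  have hM3 : ∀ k, k ≤ a → rhoM (R.gam u * val gg (w.take (a + T + k))) = rhoM (R.gam (u + T)) := by
    intro k hk
    rw [v3 k hk, show u + T = v by omega, ← mul_assoc, mul_inv_cancel_left, map_mul, G5b_rhoM_ee, mul_one]
  refine ⟨w, u, v, a, by omega, vfull, ?_, ?_⟩
  · intro k k' hk hk'
    have key := G5b_cases (fun k => R.gam u * val gg (w.take k)) P (fun i => rhoM (R.gam (u + i)))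
      (fun k => GaussianInt.toComplex (G5b_zs Z k)) a T j hj ?_
      (fun k k' h1 h2 => G5b_zs_dist Z k k' h1 h2) (G5b_P_lip hPp hPq hPx) ?_
      (fun k hk => ⟨hP1 k hk, hM1 k hk⟩) (fun k hk => ⟨hP2 k hk, hM2 k hk⟩)
      (fun k hk => ⟨hP3 k hk, hM3 k hk⟩) k k' hk (by omega)
    · have e : (R.gam u * val gg (w.take k))⁻¹ * (R.gam u * val gg (w.take k')) =
          (val gg (w.take k))⁻¹ * val gg (w.take k') := by group
      simp only [e] at key
      exact key
    · -- 2 a <= 12 j T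
      have h1 := G5b_zs_dist Z 0 a (Nat.zero_le _) le_rfl
      have e0 : G5b_zs Z 0 = 0 := by ext <;> simp [G5b_zs]
      rw [e0, hzsa, map_zero, sub_zero, hZ, G5b_norm_Z] at h1
      have hTr : ((N : ℝ) * (2 * (2 * n) + 2)) = T + 1 := by exact_mod_cast hT1.symm
      have hT2 : (1 : ℝ) ≤ T := by exact_mod_cast (by omega : 1 ≤ T)
      have hj1 : (1 : ℝ) ≤ j := by exact_mod_cast hj
      rw [hTr] at h5
      have h6 : (j : ℝ) * (T + 1) ≤ j * (2 * T) := mul_le_mul_of_nonneg_left (by linarith) (by linarith)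
      push_cast at h1
      nlinarith
    · intro i i' hi hi'
      have := R.gam_geod_M (u + i) (u + i') (by omega)
      rw [map_mul, map_inv] at this
      rw [this]
      omega
  · intro n'
    have h1 := G5b_P_lip hPp hPq hPx (R.gam n') (R.gam u * val gg (w.take a))
    rw [hP1 a le_rfl, hPgam, sub_zero, hzsa, hZ, G5b_norm_Z] at h1
    exact h1

end Ray
end Dae
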