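import Pool.Agent.Lib.MP_dae6d7_al.KDefs
import Pool.Agent.Lib.MP_dae6d7_al.N1

/-! The groups L, M, G and their homomorphisms. -/

namespace Dae

/-- relators of L: p,q commute; p,q commute with s and the letters of height 0;
p^2 q x = x p^2 q^{-1} and p^{-1} q^2 x = x p q^2 for x = a, b. -/
def relL {ι : Type} (p q s : ι) (x : X6 → ι) : Set (Wd ι) :=
  {w | w = [(p, true), (q, true), (p, false), (q, false)] ∨
    w = [(s, true), (p, true), (s, false), (p, false)] ∨
    w = [(s, true), (q, true), (s, false), (q, false)] ∨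
    (∃ y : X6, isC y = true ∧ w = [(x y, true), (p, true), (x y, false), (p, false)]) ∨
    (∃ y : X6, isC y = true ∧ w = [(x y, true), (q, true), (x y, false), (q, false)]) ∨
    (∃ y : X6, isC y = false ∧ w = [(p, true), (p, true), (q, true), (x y, true), (q, true), (p, false),
      (p, false), (x y, false)]) ∨
    (∃ y : X6, isC y = false ∧ w = [(p, false), (q, true), (q, true), (x y, true), (q, false), (q, false),
      (p, false), (x y, false)])}

/-- generators of L -/
inductive LG | p | q | s | t | x (y : X6)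
  deriving DecidableEq

/-- generators of G -/
inductive GG | p | q | s | t | tau | x (y : X6)
  deriving DecidableEq

/-- generators of M -/
inductive MG | s | t | tau | x (y : X6)
  deriving DecidableEq

/-- generators of F' -/
inductive FG | s | t | x (y : X6)
  deriving DecidableEq

/-- the group L -/
abbrev L : Type := PG (relL LG.p LG.q LG.s LG.x)

/-- the group M = K * F(s,t) -/
abbrev M : Type := PG (relK MG.tau MG.x)

/-- the group G -/
abbrev G : Type := PG (relL GG.p GG.q GG.s GG.x ∪ relK GG.tau GG.x)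

/-- the free group F' -/
abbrev F' : Type := FreeGroup FG

def lg : LG → L := PG.of
def mg : MG → M := PG.of
def gg : GG → G := PG.of

/-- the relators of L hold for f iff these equations hold -/
theorem relL_val {ι Γ : Type} [Group Γ] (p q s : ι) (x : X6 → ι) (f : ι → Γ)
    (h1 : f p * f q = f q * f p) (h2 : f s * f p = f p * f s) (h3 : f s * f q = f q * f s)
    (h4 : ∀ y, isC y = true → f (x y) * f p = f p * f (x y))
    (h5 : ∀ y, isC y = true → f (x y) * f q = f q * f (x y))
    (h6 : ∀ y, isC y = false → f p * f p * f q * f (x y) = f (x y) * (f p * f p * (f q)⁻¹))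
    (h7 : ∀ y, isC y = false → (f p)⁻¹ * f q * f q * f (x y) = f (x y) * (f p * f q * f q)) :
    ∀ w ∈ relL p q s x, val f w = 1 := by
  rintro w (rfl | rfl | rfl | ⟨y, hy, rfl⟩ | ⟨y, hy, rfl⟩ | ⟨y, hy, rfl⟩ | ⟨y, hy, rfl⟩)
  · simp only [val_cons, lv_true, lv_false, val_nil, mul_one]
    rw [← mul_assoc, h1]; group
  · simp only [val_cons, lv_true, lv_false, val_nil, mul_one]
    rw [← mul_assoc, h2]; group
  · simp only [val_cons, lv_true, lv_false, val_nil, mul_one]
    rw [← mul_assoc, h3]; group
  · simp only [val_cons, lv_true, lv_false, val_nil, mul_one]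
    rw [← mul_assoc, h4 y hy]; group
  · simp only [val_cons, lv_true, lv_false, val_nil, mul_one]
    rw [← mul_assoc, h5 y hy]; group
  · simp only [val_cons, lv_true, lv_false, val_nil, mul_one]
    rw [show f p * (f p * (f q * (f (x y) * (f q * ((f p)⁻¹ * ((f p)⁻¹ * (f (x y))⁻¹)))))) =
      (f p * f p * f q * f (x y)) * (f q * ((f p)⁻¹ * ((f p)⁻¹ * (f (x y))⁻¹))) by group, h6 y hy]
    group
  · simp only [val_cons, lv_true, lv_false, val_nil, mul_one]
    rw [show (f p)⁻¹ * (f q * (f q * (f (x y) * ((f q)⁻¹ * ((f q)⁻¹ * ((f p)⁻¹ * (f (x y))⁻¹)))))) =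
      ((f p)⁻¹ * f q * f q * f (x y)) * ((f q)⁻¹ * ((f q)⁻¹ * ((f p)⁻¹ * (f (x y))⁻¹))) by group, h7 y hy]
    group

/-- converse: the equations hold in every group presented with these relators -/
theorem relL_rel {ι : Type} {R : Set (Wd ι)} (p q s : ι) (x : X6 → ι) (hR : relL p q s x ⊆ R) :
    ((PG.of p : PG R) * PG.of q = PG.of q * PG.of p) ∧
    ((PG.of s : PG R) * PG.of p = PG.of p * PG.of s) ∧
    ((PG.of s : PG R) * PG.of q = PG.of q * PG.of s) ∧
    (∀ y, isC y = true → (PG.of (x y) : PG R) * PG.of p = PG.of p * PG.of (x y)) ∧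
    (∀ y, isC y = true → (PG.of (x y) : PG R) * PG.of q = PG.of q * PG.of (x y)) ∧
    (∀ y, isC y = false → (PG.of p : PG R) * PG.of p * PG.of q * PG.of (x y) =
      PG.of (x y) * (PG.of p * PG.of p * (PG.of q)⁻¹)) ∧
    (∀ y, isC y = false → (PG.of p : PG R)⁻¹ * PG.of q * PG.of q * PG.of (x y) =
      PG.of (x y) * (PG.of p * PG.of q * PG.of q)) := by
  have e : ∀ {w : Wd ι}, w ∈ relL p q s x → val (PG.of : ι → PG R) w = 1 := fun hw => PG.val_rel (hR hw)
  refine ⟨?_, ?_, ?_, ?_, ?_, ?_, ?_⟩
  · have h := e (w := [(p, true), (q, true), (p, false), (q, false)]) (Or.inl rfl)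
    simp only [val_cons, lv_true, lv_false, val_nil, mul_one] at h
    rw [← mul_inv_eq_one]; rw [← h]; group
  · have h := e (w := [(s, true), (p, true), (s, false), (p, false)]) (Or.inr (Or.inl rfl))
    simp only [val_cons, lv_true, lv_false, val_nil, mul_one] at h
    rw [← mul_inv_eq_one]; rw [← h]; group
  · have h := e (w := [(s, true), (q, true), (s, false), (q, false)]) (Or.inr (Or.inr (Or.inl rfl)))
    simp only [val_cons, lv_true, lv_false, val_nil, mul_one] at h
    rw [← mul_inv_eq_one]; rw [← h]; group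
  · intro y hy
    have h := e (w := [(x y, true), (p, true), (x y, false), (p, false)])
      (Or.inr (Or.inr (Or.inr (Or.inl ⟨y, hy, rfl⟩))))
    simp only [val_cons, lv_true, lv_false, val_nil, mul_one] at h
    rw [← mul_inv_eq_one]; rw [← h]; group
  · intro y hy
    have h := e (w := [(x y, true), (q, true), (x y, false), (q, false)])
      (Or.inr (Or.inr (Or.inr (Or.inr (Or.inl ⟨y, hy, rfl⟩)))))
    simp only [val_cons, lv_true, lv_false, val_nil, mul_one] at h
    rw [← mul_inv_eq_one]; rw [← h]; group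
  · intro y hy
    have h := e (w := [(p, true), (p, true), (q, true), (x y, true), (q, true), (p, false),
      (p, false), (x y, false)]) (Or.inr (Or.inr (Or.inr (Or.inr (Or.inr (Or.inl ⟨y, hy, rfl⟩))))))
    simp only [val_cons, lv_true, lv_false, val_nil, mul_one] at h
    rw [← mul_inv_eq_one]; rw [← h]; group
  · intro y hy
    have h := e (w := [(p, false), (q, true), (q, true), (x y, true), (q, false), (q, false),
      (p, false), (x y, false)]) (Or.inr (Or.inr (Or.inr (Or.inr (Or.inr (Or.inr ⟨y, hy, rfl⟩))))))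
    simp only [val_cons, lv_true, lv_false, val_nil, mul_one] at h
    rw [← mul_inv_eq_one]; rw [← h]; group

end Dae
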