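import Pool.Agent.Lib.MP_dae6d7_al.CayM
import Pool.Agent.Lib.MP_dae6d7_al.FDefs

/-! Row GG1. (Sections refer to the paper /team-store/dae6d7_paper.md.)

G_fp: G = PresentedGroup of a finite set of relators on a finite type: Mathlib instance Group.IsFinitelyPresented (PresentedGroup s) needs Finite GG
(GG is finite: surjection from Option^5 X6, or Finite.of_injective into ℕ, or an explicit Fintype) and Finite of the relator set
(image of relL ∪ relK; each is a finite union of finite sets indexed by X6). closure_range_gg: PG.exists_val.
-/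

namespace Dae

instance finite_GG : Finite GG := by
  have : Function.Surjective (fun x : Option (Option (Option (Option (Option X6)))) => match x with
    | none => GG.p
    | some none => GG.q
    | some (some none) => GG.s
    | some (some (some none)) => GG.t
    | some (some (some (some none))) => GG.tau
    | some (some (some (some (some y)))) => GG.x y) := by
    intro g
    cases g with
    | p => exact ⟨none, rfl⟩
    | q => exact ⟨some none, rfl⟩
    | s => exact ⟨some (some none), rfl⟩
    | t => exact ⟨some (some (some none)), rfl⟩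
    | tau => exact ⟨some (some (some (some none))), rfl⟩
    | x y => exact ⟨some (some (some (some (some y)))), rfl⟩
  exact Finite.of_surjective _ this

theorem finite_relL {ι : Type} (p q s : ι) (x : X6 → ι) : (relL p q s x).Finite := by
  have h4 : (Set.range (fun y : X6 => [(x y, true), (p, true), (x y, false), (p, false)])).Finite := Set.finite_range _
  have h5 : (Set.range (fun y : X6 => [(x y, true), (q, true), (x y, false), (q, false)])).Finite := Set.finite_range _
  have h6 : (Set.range (fun y : X6 => [(p, true), (p, true), (q, true), (x y, true), (q, true), (p, false),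
      (p, false), (x y, false)])).Finite := Set.finite_range _
  have h7 : (Set.range (fun y : X6 => [(p, false), (q, true), (q, true), (x y, true), (q, false), (q, false),
      (p, false), (x y, false)])).Finite := Set.finite_range _
  refine (((((((Set.finite_singleton [(p, true), (q, true), (p, false), (q, false)]).union
    (Set.finite_singleton [(s, true), (p, true), (s, false), (p, false)])).union
    (Set.finite_singleton [(s, true), (q, true), (s, false), (q, false)])).union h4).union h5).union h6).union h7).subset ?_
  rintro w (rfl | rfl | rfl | ⟨y, -, rfl⟩ | ⟨y, -, rfl⟩ | ⟨y, -, rfl⟩ | ⟨y, -, rfl⟩)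
  · exact Or.inl (Or.inl (Or.inl (Or.inl (Or.inl (Or.inl rfl)))))
  · exact Or.inl (Or.inl (Or.inl (Or.inl (Or.inl (Or.inr rfl)))))
  · exact Or.inl (Or.inl (Or.inl (Or.inl (Or.inr rfl))))
  · exact Or.inl (Or.inl (Or.inl (Or.inr ⟨y, rfl⟩)))
  · exact Or.inl (Or.inl (Or.inr ⟨y, rfl⟩))
  · exact Or.inl (Or.inr ⟨y, rfl⟩)
  · exact Or.inr ⟨y, rfl⟩

theorem finite_relK {ι : Type} (tau : ι) (x : X6 → ι) : (relK tau x).Finite := by
  refine (Set.finite_range (fun y : X6 => (tau, true) :: (x y, true) :: (tau, false) ::
    FreeGroup.invRev ((base y).map (fun z => (x z.1, z.2))))).subset ?_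
  rintro w ⟨y, rfl⟩
  exact ⟨y, rfl⟩

/-- G is finitely presented: 11 generators, 21 relators -/
theorem G_fp : Group.IsFinitelyPresented G := by
  have hf : (relL GG.p GG.q GG.s GG.x ∪ relK GG.tau GG.x).Finite := (finite_relL _ _ _ _).union (finite_relK _ _)
  have hf2 : ({r : FreeGroup GG | ∃ w ∈ relL GG.p GG.q GG.s GG.x ∪ relK GG.tau GG.x, r = FreeGroup.mk w}).Finite := by
    refine (hf.image FreeGroup.mk).subset ?_
    rintro r ⟨w, hw, rfl⟩
    exact ⟨w, hw, rfl⟩
  have : Finite ({r : FreeGroup GG | ∃ w ∈ relL GG.p GG.q GG.s GG.x ∪ relK GG.tau GG.x, r = FreeGroup.mk w}) := hf2.to_subtype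
  exact inferInstanceAs (Group.IsFinitelyPresented (PresentedGroup
    {r : FreeGroup GG | ∃ w ∈ relL GG.p GG.q GG.s GG.x ∪ relK GG.tau GG.x, r = FreeGroup.mk w}))

theorem finite_range_gg : (Set.range gg).Finite := Set.finite_range _

theorem closure_range_gg : Subgroup.closure (Set.range gg) = ⊤ :=
  PresentedGroup.closure_range_of
    {r : FreeGroup GG | ∃ w ∈ relL GG.p GG.q GG.s GG.x ∪ relK GG.tau GG.x, r = FreeGroup.mk w}

end Dae
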