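import Pool.Agent.Lib.MP_dae6d7_al.GDefs

/-! Homomorphisms between K, L, M, G, F, F'. -/

namespace Dae

theorem relK_self {ι : Type} {R : Set (Wd ι)} (tau : ι) (x : X6 → ι) (hR : relK tau x ⊆ R) (y : X6) :
    (PG.of tau : PG R) * PG.of (x y) * (PG.of tau)⁻¹ = val (PG.of ∘ x) (base y) :=
  relK_rel tau x hR y

/-- G -> K, kills p,q,s,t -/
def fK : GG → K
  | .p => 1 | .q => 1 | .s => 1 | .t => 1 | .tau => kt | .x y => kg (KG.x y)

def rhoK : G →* K := PG.lift fK (by
  rintro w (hw | hw)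
  · refine relL_val _ _ _ _ fK ?_ ?_ ?_ ?_ ?_ ?_ ?_ w hw <;> simp [fK]
  · refine relK_val _ _ fK ?_ w hw
    intro y
    exact relK_self KG.tau KG.x (le_refl _) y)

/-- G -> M, kills p,q -/
def fM : GG → M
  | .p => 1 | .q => 1 | .s => mg .s | .t => mg .t | .tau => mg .tau | .x y => mg (MG.x y)

def rhoM : G →* M := PG.lift fM (by
  rintro w (hw | hw)
  · refine relL_val _ _ _ _ fM ?_ ?_ ?_ ?_ ?_ ?_ ?_ w hw <;> simp [fM]
  · refine relK_val _ _ fM ?_ w hw
    intro y
    exact relK_self MG.tau MG.x (le_refl _) y)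

/-- K -> G -/
def KtoG : K →* G := PG.lift (fun g => match g with
  | KG.tau => gg GG.tau
  | KG.x y => gg (GG.x y)) (by
  refine relK_val _ _ _ ?_
  intro y
  exact relK_self GG.tau GG.x Set.subset_union_right y)

/-- M -> G -/
def MtoG : M →* G := PG.lift (fun g => match g with
  | MG.s => gg GG.s | MG.t => gg GG.t
  | MG.tau => gg GG.tau
  | MG.x y => gg (GG.x y)) (by
  refine relK_val _ _ _ ?_
  intro y
  exact relK_self GG.tau GG.x Set.subset_union_right y)

/-- M -> K, kills s,t -/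
def MtoK : M →* K := PG.lift (fun g => match g with
  | MG.s => 1 | MG.t => 1
  | MG.tau => kt
  | MG.x y => kg (KG.x y)) (by
  refine relK_val _ _ _ ?_
  intro y
  exact relK_self KG.tau KG.x (le_refl _) y)

/-- K -> M -/
def KtoM : K →* M := PG.lift (fun g => match g with
  | KG.tau => mg MG.tau
  | KG.x y => mg (MG.x y)) (by
  refine relK_val _ _ _ ?_
  intro y
  exact relK_self MG.tau MG.x (le_refl _) y)

/-- L -> G -/
def LtoG : L →* G := PG.lift (fun g => match g with
  | LG.p => gg GG.p | LG.q => gg GG.q | LG.s => gg GG.s | LG.t => gg GG.t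
  | LG.x y => gg (GG.x y)) (by
  obtain ⟨h1, h2, h3, h4, h5, h6, h7⟩ := relL_rel (R := relL GG.p GG.q GG.s GG.x ∪ relK GG.tau GG.x)
    GG.p GG.q GG.s GG.x Set.subset_union_left
  exact relL_val _ _ _ _ _ h1 h2 h3 h4 h5 h6 h7)

/-- F' -> L -/
def iL : F' →* L := FreeGroup.lift (fun g => match g with
  | FG.s => lg LG.s | FG.t => lg LG.t | FG.x y => lg (LG.x y))

/-- L -> F', kills p, q -/
def rF : L →* F' := PG.lift (fun g => match g with
  | LG.p => 1 | LG.q => 1 | LG.s => FreeGroup.of FG.s | LG.t => FreeGroup.of FG.t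
  | LG.x y => FreeGroup.of (FG.x y)) (by
  refine relL_val _ _ _ _ _ ?_ ?_ ?_ ?_ ?_ ?_ ?_ <;> simp)

/-- F -> F' -/
def iF : F →* F' := FreeGroup.map FG.x

/-- F -> G -/
def iG : F →* G := KtoG.comp iK

/-- the three exponent homomorphisms: of tau, of s and t together, height -/
def NGh : G →* Multiplicative ℤ := NKh.comp rhoK

def chih : G →* Multiplicative ℤ := PG.lift (fun g => match g with
  | GG.s => Multiplicative.ofAdd (1 : ℤ) | GG.t => Multiplicative.ofAdd (1 : ℤ)
  | _ => 1) (by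
  rintro w (hw | hw)
  · refine relL_val _ _ _ _ _ ?_ ?_ ?_ ?_ ?_ ?_ ?_ w hw <;> simp
  · refine relK_val _ _ _ ?_ w hw
    intro y
    cases y <;> simp [base])

def etah : G →* Multiplicative ℤ := PG.lift (fun g => match g with
  | GG.x y => if isC y then 1 else Multiplicative.ofAdd (1 : ℤ)
  | _ => 1) (by
  rintro w (hw | hw)
  · refine relL_val _ _ _ _ _ ?_ ?_ ?_ ?_ ?_ ?_ ?_ w hw <;> simp
  · refine relK_val _ _ _ ?_ w hw
    intro y
    cases y <;> simp [base, isC])

def NG (g : G) : ℤ := Multiplicative.toAdd (NGh g)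
def chi (g : G) : ℤ := Multiplicative.toAdd (chih g)
def eta (g : G) : ℤ := Multiplicative.toAdd (etah g)

theorem NG_mul (g h : G) : NG (g * h) = NG g + NG h := by simp [NG]
theorem chi_mul (g h : G) : chi (g * h) = chi g + chi h := by simp [chi]
theorem eta_mul (g h : G) : eta (g * h) = eta g + eta h := by simp [eta]
theorem NG_inv (g : G) : NG g⁻¹ = - NG g := by simp [NG]
theorem chi_inv (g : G) : chi g⁻¹ = - chi g := by simp [chi]
theorem eta_inv (g : G) : eta g⁻¹ = - eta g := by simp [eta]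
theorem NG_one : NG 1 = 0 := by simp [NG]
theorem chi_one : chi 1 = 0 := by simp [chi]
theorem eta_one : eta 1 = 0 := by simp [eta]

/-- R = pi / pibar -/
noncomputable def Rc : ℂ := (2 + Complex.I) / (2 - Complex.I)

/-- word norm of G, distance -/
noncomputable def gn (g : G) : ℕ := nrm gg g

end Dae
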