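import Pool.Agent.Lib.MP_dae6d7_al.CayM

/-! Row H1a. (Sections refer to the paper /team-store/dae6d7_paper.md.)

Fix t. Take T' >= t + C + 1, x = γ' T'; some point of γ is within C of x; the function u -> dist x (γ u) is continuous and >= u - T', so it has a minimum at some
u0 (compactness of [0, T'+C]); d = dist x (γ u0) <= C, and u0 >= T' - C >= t. Coarse geodesic f from γ u0 to x (hX). g : [0,u0+d] -> X, g s = γ s for s <= u0,
f (s - u0) after. Upper bound dist (g s) (g s') <= |s-s'| + κ. Lower bound for s <= u0 <= s' = u0 + v: dist (γ s) x >= d, dist (f v) x <= d - v + κ, so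
δ := dist (g s)(g s') >= v - κ; u0 - s = dist (γ s) (γ u0) <= δ + v + κ; so (u0-s)+v <= 3δ + 3κ: δ >= |s-s'|/3 - κ. So g is a (3, 4κ+4)-quasi-geodesic with ends
γ 0 = e = γ' 0 and x on γ'. Hence dist (γ t) (γ' t'') <= N 3 (4κ+4) for some t'', |t - t''| <= the same (distances to e), so dist (γ t)(γ' t) <= 2 N 3 (4κ+4) <= dl κ N.
(Take care of f 0 and the junction; if f(0) = γ u0 both definitions agree.)
-/

namespace Dae
open scoped NNReal
variable {X : Type} [MetricSpace X] {e : X}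

theorem H1a_dist (γ : GRay X e) (a b : ℝ≥0) : dist (γ.toFun a) (γ.toFun b) = |(a : ℝ) - b| := by
  rw [γ.iso.dist_eq, NNReal.dist_eq]

theorem H1a_dist_e (γ : GRay X e) (a : ℝ≥0) : dist (γ.toFun a) e = a := by
  have h := H1a_dist γ a 0
  rw [γ.start] at h
  rw [h, NNReal.coe_zero, sub_zero]
  exact abs_of_nonneg (NNReal.coe_nonneg a)

/-- nearest point of the ray -/
theorem H1a_near (γ : GRay X e) (x : X) : ∃ u0 : ℝ≥0, ∀ u : ℝ≥0, dist (γ.toFun u0) x ≤ dist (γ.toFun u) x := by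
  -- compare with u = 0
  set M : ℝ≥0 := Real.toNNReal (2 * dist e x) with hM
  have hMc : (M : ℝ) = 2 * dist e x := by
    rw [hM, Real.coe_toNNReal _ (by positivity)]
  have hc : IsCompact (Set.Icc (0 : ℝ≥0) M) := isCompact_Icc
  have hcont : ContinuousOn (fun u : ℝ≥0 => dist (γ.toFun u) x) (Set.Icc (0 : ℝ≥0) M) :=
    (γ.iso.continuous.dist continuous_const).continuousOn
  obtain ⟨u0, hu0, hmin⟩ := hc.exists_isMinOn ⟨0, by simp⟩ hcont
  refine ⟨u0, fun u => ?_⟩
  by_cases hu : u ≤ M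
  · exact hmin ⟨(zero_le), hu⟩
  · have h0 : dist (γ.toFun u0) x ≤ dist (γ.toFun 0) x := hmin ⟨le_refl _, (zero_le)⟩
    rw [γ.start] at h0
    have h1 : (M : ℝ) < u := by exact_mod_cast not_le.mp hu
    have h2 := H1a_dist_e γ u
    have h3 := dist_triangle (γ.toFun u) x e
    rw [dist_comm x e] at h3
    linarith

theorem H1a_qg {κ : ℝ} (hκ : 0 ≤ κ) (γ : GRay X e) (x : X) (u0 : ℝ≥0)
    (hmin : ∀ u : ℝ≥0, dist (γ.toFun u0) x ≤ dist (γ.toFun u) x) (f : ℝ → X) (hf0 : f 0 = γ.toFun u0)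
    (hfd : f (dist (γ.toFun u0) x) = x)
    (hf : ∀ s ∈ Set.Icc 0 (dist (γ.toFun u0) x), ∀ t ∈ Set.Icc 0 (dist (γ.toFun u0) x),
      abs (dist (f s) (f t) - abs (s - t)) ≤ κ) :
    IsQG 3 (4 * κ + 4) 0 (u0 + dist (γ.toFun u0) x)
      (fun s => if s ≤ (u0 : ℝ) then γ.toFun (Real.toNNReal s) else f (s - u0)) := by
  set d := dist (γ.toFun u0) x with hd
  have hd0 : 0 ≤ d := dist_nonneg
  have key : ∀ s t : ℝ, 0 ≤ s → s ≤ t → t ≤ u0 + d →
      (3 : ℝ)⁻¹ * |s - t| - (4 * κ + 4) ≤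
        dist ((fun s : ℝ => if s ≤ (u0 : ℝ) then γ.toFun (Real.toNNReal s) else f (s - u0)) s)
          ((fun s : ℝ => if s ≤ (u0 : ℝ) then γ.toFun (Real.toNNReal s) else f (s - u0)) t) ∧
        dist ((fun s : ℝ => if s ≤ (u0 : ℝ) then γ.toFun (Real.toNNReal s) else f (s - u0)) s)
          ((fun s : ℝ => if s ≤ (u0 : ℝ) then γ.toFun (Real.toNNReal s) else f (s - u0)) t) ≤
        3 * |s - t| + (4 * κ + 4) := by
    intro s t hs hst ht
    have habs : |s - t| = t - s := by rw [abs_sub_comm, abs_of_nonneg (by linarith)]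
    simp only []
    rw [habs]
    by_cases ht0 : t ≤ u0
    · have hs0 : s ≤ u0 := le_trans hst ht0
      rw [if_pos hs0, if_pos ht0, H1a_dist, Real.coe_toNNReal _ hs, Real.coe_toNNReal _ (le_trans hs hst), habs]
      constructor <;> linarith
    · rw [if_neg ht0]
      have ht1 : (u0 : ℝ) < t := not_le.mp ht0
      have hv : t - u0 ∈ Set.Icc 0 d := ⟨by linarith, by linarith⟩
      by_cases hs0 : s ≤ u0
      · rw [if_pos hs0]
        have a1 : dist (γ.toFun (Real.toNNReal s)) (γ.toFun u0) = u0 - s := by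
          rw [H1a_dist, Real.coe_toNNReal _ hs, abs_sub_comm, abs_of_nonneg (by linarith)]
        have a2 := hf 0 ⟨le_refl _, hd0⟩ (t - u0) hv
        rw [hf0, abs_sub_comm 0 (t - (u0 : ℝ)), sub_zero, abs_of_nonneg hv.1] at a2
        have a2' := abs_le.mp a2
        have a3 := hf (t - u0) hv d ⟨hd0, le_refl _⟩
        rw [hfd, abs_sub_comm (t - (u0 : ℝ)) d, abs_of_nonneg (sub_nonneg.mpr hv.2)] at a3
        have a3' := abs_le.mp a3
        have a4 := hmin (Real.toNNReal s)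
        have a5 := dist_triangle (γ.toFun (Real.toNNReal s)) (f (t - u0)) x
        have a6 := dist_triangle (γ.toFun (Real.toNNReal s)) (γ.toFun u0) (f (t - u0))
        have a7 := dist_triangle (γ.toFun (Real.toNNReal s)) (f (t - u0)) (γ.toFun u0)
        rw [dist_comm (f (t - u0)) (γ.toFun u0)] at a7
        constructor <;> linarith [a2'.1, a2'.2, a3'.1, a3'.2]
      · rw [if_neg hs0]
        have hs1 : (u0 : ℝ) < s := not_le.mp hs0
        have a := hf (s - u0) ⟨by linarith, by linarith⟩ (t - u0) hv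
        rw [show s - (u0 : ℝ) - (t - u0) = s - t by ring, habs] at a
        have a' := abs_le.mp a
        constructor <;> linarith [a'.1, a'.2]
  intro s hs t ht
  rcases le_total s t with hst | hst
  · exact key s t hs.1 hst ht.2
  · have := key t s ht.1 hst hs.2
    rw [abs_sub_comm s t, dist_comm]
    exact this

/-- (5.1): γ' N-Morse, γ another ray from e at bounded Hausdorff distance: they are synchronously close.
Take T' large, x = γ' T', y = γ u a point of γ nearest to x up to 1 (nearest point exists: γ is proper), concatenate γ on [0,u]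
with a coarse geodesic from y to x: a (3, 4κ+4)-quasi-geodesic with endpoints e, x on γ'. -/
theorem rays_close {κ : ℝ} (hκ : 0 ≤ κ) (hX : CG X κ) (N : Gauge) (γ γ' : GRay X e) (hN : IsMorse N γ')
    (h : Asym γ γ') (t : ℝ≥0) : dist (γ.toFun t) (γ'.toFun t) ≤ dl κ N := by
  obtain ⟨C, _, h2⟩ := h
  set T' : ℝ≥0 := t + Real.toNNReal C with hT'
  obtain ⟨u1, hu1⟩ := h2 T'
  have hC : 0 ≤ C := le_trans dist_nonneg hu1
  obtain ⟨u0, hmin⟩ := H1a_near γ (γ'.toFun T')
  obtain ⟨f, hf0, hfd, hf⟩ := hX (γ.toFun u0) (γ'.toFun T')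
  have hqg := H1a_qg hκ γ (γ'.toFun T') u0 hmin f hf0 hfd hf
  have hdC : dist (γ.toFun u0) (γ'.toFun T') ≤ C := le_trans (hmin u1) hu1
  have htu : (t : ℝ) ≤ u0 := by
    have b1 := H1a_dist_e γ u0
    have b2 := H1a_dist_e γ' T'
    have b3 := dist_triangle (γ'.toFun T') (γ.toFun u0) e
    rw [dist_comm (γ'.toFun T') (γ.toFun u0)] at b3
    have b4 : (T' : ℝ) = t + C := by
      rw [hT', NNReal.coe_add, Real.coe_toNNReal _ hC]
    linarith
  have hd0 : 0 ≤ dist (γ.toFun u0) (γ'.toFun T') := dist_nonneg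
  obtain ⟨t'', ht''⟩ := hN 3 (4 * κ + 4) 0 (u0 + dist (γ.toFun u0) (γ'.toFun T')) (by norm_num) (by linarith)
    (by have := u0.2; linarith [NNReal.coe_nonneg u0]) _ hqg
    (by
      refine ⟨0, ?_⟩
      show _ = if (0 : ℝ) ≤ (u0 : ℝ) then _ else _
      rw [if_pos (NNReal.coe_nonneg u0), Real.toNNReal_zero, γ.start, γ'.start])
    (by
      refine ⟨T', ?_⟩
      show _ = if (u0 : ℝ) + dist (γ.toFun u0) (γ'.toFun T') ≤ (u0 : ℝ) then _ else _
      by_cases hz : dist (γ.toFun u0) (γ'.toFun T') = 0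
      · rw [hz, add_zero, if_pos (le_refl _), Real.toNNReal_coe]
        exact (dist_eq_zero.mp hz).symm
      · have : 0 < dist (γ.toFun u0) (γ'.toFun T') := lt_of_le_of_ne hd0 (Ne.symm hz)
        rw [if_neg (by linarith), add_sub_cancel_left, hfd])
    t ⟨NNReal.coe_nonneg t, by linarith⟩
  have ht2 : dist (if (t : ℝ) ≤ (u0 : ℝ) then γ.toFun (Real.toNNReal t) else f (t - u0)) (γ'.toFun t'') ≤ N 3 (4 * κ + 4) := ht''
  rw [if_pos htu, Real.toNNReal_coe] at ht2
  have c1 := H1a_dist_e γ t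
  have c2 := H1a_dist_e γ' t''
  have c3 := dist_triangle (γ.toFun t) (γ'.toFun t'') e
  have c4 := dist_triangle (γ'.toFun t'') (γ.toFun t) e
  rw [dist_comm (γ'.toFun t'') (γ.toFun t)] at c4
  have c5 : |(t'' : ℝ) - t| ≤ N 3 (4 * κ + 4) := abs_le.mpr ⟨by linarith, by linarith⟩
  have c6 := dist_triangle (γ.toFun t) (γ'.toFun t'') (γ'.toFun t)
  rw [H1a_dist γ' t'' t] at c6
  unfold dl
  linarith

end Dae
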