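import Pool.Agent.Lib.MP_dae6d7_al.H1a

/-! Row H1b. (Sections refer to the paper /team-store/dae6d7_paper.md.)

Let f be a (lam,eps)-quasi-geodesic on [a,b], f a = γ s1, f b = γ s2. If a = b trivial (f s on γ). Put f' = f except f' a = γ' s1, f' b = γ' s2; by rays_close f' is a
(lam, eps + 2 dl)-quasi-geodesic with ends on γ'. So for s in (a,b): exists t, dist (f s) (γ' t) <= N lam (eps + 2 dl), and dist (γ' t) (γ t) <= dl. (dl >= 0.)
-/

namespace Dae
open scoped NNReal
variable {X : Type} [MetricSpace X] {e : X}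

/-- (5.1) second part: change the endpoints of the quasi-geodesic only -/
theorem morse_transfer {κ : ℝ} (hκ : 0 ≤ κ) (hX : CG X κ) (N : Gauge) (γ γ' : GRay X e) (hN : IsMorse N γ')
    (h : Asym γ γ') : IsMorse (Ntr κ N) γ := by
  intro lam eps a b hlam heps hab f hf hfa hfb s hs
  have hD0 : 0 ≤ dl κ N := by
    unfold dl
    have := (N 3 (4 * κ + 4)).coe_nonneg
    positivity
  have hNtr0 : (0 : ℝ) ≤ Ntr κ N lam eps := (Ntr κ N lam eps).coe_nonneg
  obtain ⟨s1, hs1⟩ := hfa
  obtain ⟨s2, hs2⟩ := hfb
  by_cases hsa : s = a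
  · exact ⟨s1, by rw [hs1, hsa, dist_self]; exact hNtr0⟩
  by_cases hsb : s = b
  · exact ⟨s2, by rw [hs2, hsb, dist_self]; exact hNtr0⟩
  have hrc := fun t => rays_close hκ hX N γ γ' hN h t
  let f' : ℝ → X := fun u => if u = a then γ'.toFun s1 else if u = b then γ'.toFun s2 else f u
  have hf' : ∀ u, dist (f' u) (f u) ≤ dl κ N := by
    intro u
    by_cases hu : u = a
    · have : f' u = γ'.toFun s1 := by simp [f', hu]
      rw [this, hu, ← hs1, dist_comm]
      exact hrc s1
    · by_cases hu' : u = b
      · have : f' u = γ'.toFun s2 := by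
          simp only [f']
          rw [if_neg hu, if_pos hu']
        rw [this, hu', ← hs2, dist_comm]
        exact hrc s2
      · have : f' u = f u := by
          simp only [f']
          rw [if_neg hu, if_neg hu']
        rw [this, dist_self]
        exact hD0
  have hqg : IsQG lam (eps + 2 * dl κ N) a b f' := by
    intro u hu v hv
    obtain ⟨h1, h2⟩ := hf u hu v hv
    have t1 : dist (f u) (f v) ≤ dist (f' u) (f' v) + 2 * dl κ N := by
      have := dist_triangle4 (f u) (f' u) (f' v) (f v)
      have a1 := hf' u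
      have a2 := hf' v
      rw [dist_comm] at a1
      linarith
    have t2 : dist (f' u) (f' v) ≤ dist (f u) (f v) + 2 * dl κ N := by
      have := dist_triangle4 (f' u) (f u) (f v) (f' v)
      have a1 := hf' u
      have a2 := hf' v
      rw [dist_comm] at a2
      linarith
    constructor <;> linarith
  have hfa' : f' a ∈ Set.range γ'.toFun := ⟨s1, by simp [f']⟩
  have hne : a ≠ b := by
    intro hab'
    have h1 := hs.1
    have h2 := hs.2
    exact hsa (le_antisymm (by rw [hab']; exact h2) h1)
  have hfb' : f' b ∈ Set.range γ'.toFun := ⟨s2, by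
    simp [f', Ne.symm hne]⟩
  obtain ⟨t, ht⟩ := hN lam (eps + 2 * dl κ N) a b hlam (by linarith) hab f' hqg hfa' hfb' s hs
  have hfs : f' s = f s := by
    simp only [f']
    rw [if_neg hsa, if_neg hsb]
  rw [hfs] at ht
  refine ⟨t, ?_⟩
  have h3 := dist_triangle (f s) (γ'.toFun t) (γ.toFun t)
  have h4 := hrc t
  rw [dist_comm] at h4
  have h5 : ((Ntr κ N lam eps : ℝ≥0) : ℝ) = N lam (eps + 2 * dl κ N) + dl κ N := by
    simp only [Ntr, NNReal.coe_add]
    rw [Real.coe_toNNReal _ hD0]
  rw [h5]
  linarith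

end Dae
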