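import Pool.Agent.Lib.MP_dae6d7_al.H1b

/-! Row H2a. (Sections refer to the paper /team-store/dae6d7_paper.md.)

If the set is empty: closed. Otherwise fix γ0 in it. The set is {γ : N-Morse | for all t, dist (γ t) (γ0 t) <= dl κ N}: if γ is in the class then Asym and rays_close;
conversely the bound gives Asym. For fixed t the map γ -> γ t is continuous (evaluation on C(ℝ≥0,X), continuous_induced_dom, subtype), so closed; intersection over t.
-/

namespace Dae
open scoped NNReal
variable {X : Type} [MetricSpace X] {e : X}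

theorem H2a_cont_eval (t : ℝ≥0) : Continuous (fun γ : GRay X e => γ.toFun t) := by
  have h1 : Continuous (fun γ : GRay X e => (⟨γ.toFun, γ.iso.continuous⟩ : C(ℝ≥0, X))) :=
    continuous_induced_dom
  have h2 : Continuous (fun f : C(ℝ≥0, X) => f t) := ContinuousEvalConst.continuous_eval_const t
  exact h2.comp h1

/-- (5.2) -/
theorem class_closed {κ : ℝ} (hκ : 0 ≤ κ) (hX : CG X κ) (N : Gauge) (ξ : MorseBoundary X e) :
    IsClosed {γ : {γ : GRay X e // IsMorse N γ} | stratumMap N γ = ξ} := by
  by_cases hne : ∃ γ0 : {γ : GRay X e // IsMorse N γ}, stratumMap N γ0 = ξ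
  · obtain ⟨γ0, h0⟩ := hne
    have hset : {γ : {γ : GRay X e // IsMorse N γ} | stratumMap N γ = ξ} =
        ⋂ t : ℝ≥0, {γ : {γ : GRay X e // IsMorse N γ} |
          dist (γ.1.toFun t) (γ0.1.toFun t) ≤ dl κ N} := by
      ext γ
      simp only [Set.mem_ofPred_eq, Set.mem_iInter]
      constructor
      · intro h t
        have h1 : stratumMap N γ = stratumMap N γ0 := h.trans h0.symm
        have h2 : Asym γ.1 γ0.1 := Quotient.exact h1
        exact rays_close hκ hX N γ.1 γ0.1 γ0.2 h2 t
      · intro h
        have h2 : Asym γ.1 γ0.1 := ⟨dl κ N, fun t => ⟨t, h t⟩, fun t => ⟨t, h t⟩⟩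
        have h1 : stratumMap N γ = stratumMap N γ0 :=
          Quotient.sound (s := asymSetoid X e) h2
        exact h1.trans h0
    rw [hset]
    refine isClosed_iInter fun t => ?_
    have hc : Continuous (fun γ : {γ : GRay X e // IsMorse N γ} =>
        dist (γ.1.toFun t) (γ0.1.toFun t)) :=
      ((H2a_cont_eval (X := X) (e := e) t).comp continuous_subtype_val).dist continuous_const
    exact isClosed_le hc continuous_const
  · have : {γ : {γ : GRay X e // IsMorse N γ} | stratumMap N γ = ξ} = ∅ := by
      ext γ
      simp only [Set.mem_ofPred_eq, Set.mem_empty_iff_false, iff_false]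
      exact fun h => hne ⟨γ, h⟩
    rw [this]
    exact isClosed_empty

end Dae
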