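import Pool.Agent.Lib.MP_dae6d7_al.H2a

/-! Row H2b. (Sections refer to the paper /team-store/dae6d7_paper.md.)

(5.3). For a class ξ let Bd ξ lam eps d: for every Morse ray γ in ξ, every (lam,eps)-qg f on [a,b] with ends on γ and s in [a,b] there is t with dist (f s)(γ t) <= d.
Every ξ has such a d: if ξ = class of an N-Morse ray then d = Ntr κ N lam eps works (morse_transfer); it depends only on N. If for all lam >= 1, eps >= 0 there is d
(>= 0) with Bd ξ lam eps d for all ξ in Q, choose N lam eps = d: then Q is in the range of stratumMap N. Otherwise fix lam, eps such that for every k : ℕ there is ξ_k in Q with not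
Bd ξ_k lam eps k. Let A be any subset of {ξ_k}. For each gauge N, the preimage of A in the N-Morse rays is a finite union of fibres of points (ξ_k in stratum N implies
k < Ntr κ N lam eps ...: finitely many k), closed by class_closed. So every subset of S = {ξ_k} is closed in MorseBoundary (isClosed in iSup of coinduced: isClosed_iSup_iff,
isClosed_coinduced). S is infinite: each ξ has Bd ξ lam eps d for some d, so ξ = ξ_k only for k < d. S closed subset of the compact Q: compact; every subset of S closed: S is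
discrete; compact discrete => finite: contradiction. (E.g. use the open cover of Q by the sets (S \ {x})^c, x in S: U_x open, U_x contains x and no other
point of S; together they cover Q; a finite subcover covers S: S finite.)
-/

namespace Dae
open scoped NNReal
variable {X : Type} [MetricSpace X] {e : X}

/-- boundedness of the gauge of the rays of a class -/
def H2b_Bd (ξ : MorseBoundary X e) (lam eps d : ℝ) : Prop :=
  ∀ (γ : GRay X e) (hγ : ∃ N, IsMorse N γ), (Quotient.mk (asymSetoid X e) ⟨γ, hγ⟩ : MorseBoundary X e) = ξ →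
    ∀ a b : ℝ, a ≤ b → ∀ f : ℝ → X, IsQG lam eps a b f →
    f a ∈ Set.range γ.toFun → f b ∈ Set.range γ.toFun →
    ∀ s ∈ Set.Icc a b, ∃ t : ℝ≥0, dist (f s) (γ.toFun t) ≤ d

theorem H2b_Bd_mono {ξ : MorseBoundary X e} {lam eps d d' : ℝ} (h : H2b_Bd ξ lam eps d) (hd : d ≤ d') :
    H2b_Bd ξ lam eps d' := by
  intro γ hγ hξ a b hab f hf ha hb s hs
  obtain ⟨t, ht⟩ := h γ hγ hξ a b hab f hf ha hb s hs
  exact ⟨t, ht.trans hd⟩

theorem H2b_Bd_stratum {κ : ℝ} (hκ : 0 ≤ κ) (hX : CG X κ) (N : Gauge) (γ0 : {γ : GRay X e // IsMorse N γ})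
    {lam eps : ℝ} (hl : 1 ≤ lam) (he : 0 ≤ eps) :
    H2b_Bd (stratumMap N γ0) lam eps (Ntr κ N lam eps) := by
  intro γ hγ hξ a b hab f hf ha hb s hs
  have has : Asym γ γ0.1 := Quotient.exact hξ
  exact morse_transfer hκ hX N γ γ0.1 γ0.2 has lam eps a b hl he hab f hf ha hb s hs

/-- (5.3) -/
theorem compact_in_stratum {κ : ℝ} (hκ : 0 ≤ κ) (hX : CG X κ) (Q : Set (MorseBoundary X e)) (hQ : IsCompact Q) :
    ∃ N : Gauge, Q ⊆ Set.range (stratumMap N) := by
  classical
  by_cases h : ∀ lam eps : ℝ, 1 ≤ lam → 0 ≤ eps → ∃ d : ℕ, ∀ ξ ∈ Q, H2b_Bd ξ lam eps d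
  · choose d hd using h
    refine ⟨fun lam eps => if h : 1 ≤ lam ∧ 0 ≤ eps then (d lam eps h.1 h.2 : ℝ≥0) else 0, ?_⟩
    intro ξ hξ
    induction ξ using Quotient.ind with
    | _ γ =>
      obtain ⟨γ, hγ⟩ := γ
      refine ⟨⟨γ, ?_⟩, rfl⟩
      intro lam eps a b hl he hab f hf ha hb s hs
      obtain ⟨t, ht⟩ := hd lam eps hl he _ hξ γ hγ rfl a b hab f hf ha hb s hs
      refine ⟨t, ?_⟩
      simpa [hl, he] using ht
  · exfalso
    push Not at h
    obtain ⟨lam, eps, hl, he, h⟩ := h
    choose ξ hξQ hξB using h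
    have hclosed : ∀ A ⊆ Set.range ξ, IsClosed A := by
      intro A hA
      rw [isClosed_iSup_iff]
      intro N
      rw [isClosed_coinduced]
      have hK : ∀ k : ℕ, ξ k ∈ Set.range (stratumMap (X := X) (e := e) N) → k < ⌈(Ntr κ N lam eps : ℝ)⌉₊ := by
        rintro k ⟨γ0, hγ0⟩
        by_contra hk
        push Not at hk
        apply hξB k
        rw [← hγ0]
        exact H2b_Bd_mono (H2b_Bd_stratum hκ hX N γ0 hl he) (Nat.ceil_le.1 hk)
      have : stratumMap N ⁻¹' A = ⋃ k ∈ {k : ℕ | k < ⌈(Ntr κ N lam eps : ℝ)⌉₊ ∧ ξ k ∈ A},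
          {γ : {γ : GRay X e // IsMorse N γ} | stratumMap N γ = ξ k} := by
        ext γ
        simp only [Set.mem_preimage, Set.mem_ofPred_eq, Set.mem_iUnion, exists_prop]
        constructor
        · intro hγ
          obtain ⟨k, hk⟩ := hA hγ
          exact ⟨k, ⟨hK k ⟨γ, hk.symm⟩, by rw [hk]; exact hγ⟩, hk.symm⟩
        · rintro ⟨k, ⟨_, hk⟩, hγ⟩
          rw [hγ]; exact hk
      rw [this]
      refine Set.Finite.isClosed_biUnion ((Set.finite_lt_nat _).subset (fun k hk => hk.1)) ?_
      intro k _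
      exact class_closed hκ hX N (ξ k)
    have hS : (Set.range ξ).Finite := by
      have hc : IsCompact (Set.range ξ) := hQ.of_isClosed_subset (hclosed _ le_rfl) (by
        rintro _ ⟨k, rfl⟩; exact hξQ k)
      have hd : DiscreteTopology (Set.range ξ) := by
        rw [discreteTopology_iff_forall_isClosed]
        intro B
        have hB : B = Subtype.val ⁻¹' (Subtype.val '' B) := by
          rw [Set.preimage_image_eq _ Subtype.val_injective]
        rw [hB]
        exact (hclosed _ (by rintro _ ⟨x, _, rfl⟩; exact x.2)).preimage continuous_subtype_val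
      exact hc.finite ⟨hd⟩
    have hbd : ∀ x : MorseBoundary X e, ∃ d : ℕ, H2b_Bd x lam eps d := by
      intro x
      induction x using Quotient.ind with
      | _ γ =>
        obtain ⟨γ, N, hN⟩ := γ
        exact ⟨⌈(Ntr κ N lam eps : ℝ)⌉₊, H2b_Bd_mono (H2b_Bd_stratum hκ hX N ⟨γ, hN⟩ hl he) (Nat.le_ceil _)⟩
    choose D hD using hbd
    obtain ⟨M, hM⟩ := (hS.image D).bddAbove
    apply hξB M
    exact H2b_Bd_mono (hD (ξ M)) (by exact_mod_cast hM ⟨ξ M, ⟨M, rfl⟩, rfl⟩)

end Dae
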