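import Mathlib

/-! Pieces of reduced words are reduced. -/

namespace Dae

theorem chain_ifx {α : Type} {R : α → α → Prop} {u w : List α} (h : List.IsChain R w) (hu : u <:+: w) :
    List.IsChain R u := by
  obtain ⟨s, t, rfl⟩ := hu
  have h1 := (List.isChain_append.1 h).1
  exact (List.isChain_append.1 h1).2.1

theorem red_ifx {α : Type} {u w : List (α × Bool)} (h : FreeGroup.IsReduced w) (hu : u <:+: w) :
    FreeGroup.IsReduced u :=
  chain_ifx h hu

end Dae
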