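import Pool.Agent.Lib.MP_dae6d7_al.Subst

/-! Finite facts on the substitution (P1)-(P4). -/

namespace Dae

theorem sub_len (y : X6 × Bool) : (sub y).length = 8 := by
  rcases y with ⟨x, b⟩; cases x <;> cases b <;> decide

theorem sub_head (y : X6 × Bool) : (sub y).head? = some y := by
  rcases y with ⟨x, b⟩; cases x <;> cases b <;> decide

theorem sub_last (y : X6 × Bool) : (sub y).getLast? = some y := by
  rcases y with ⟨x, b⟩; cases x <;> cases b <;> decide

theorem sub_red (y : X6 × Bool) : FreeGroup.IsReduced (sub y) := by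
  rw [FreeGroup.isReduced_iff_reduce_eq]
  rcases y with ⟨x, b⟩; cases x <;> cases b <;> decide

theorem sub_neg (x : X6) (b : Bool) : sub (x, !b) = FreeGroup.invRev (sub (x, b)) := by
  cases x <;> cases b <;> decide

theorem dig : ∀ y y' : X6 × Bool, ∀ i i' : Fin 7, (sub y)[i.1]? = (sub y')[i'.1]? →
    (sub y)[i.1 + 1]? = (sub y')[i'.1 + 1]? → y = y' ∧ i = i' := by
  decide

theorem ht_sub (y : X6 × Bool) : hts (sub y) = ht1 y := by
  rcases y with ⟨x, b⟩; cases x <;> cases b <;> decide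

theorem C_in_sub (y : X6 × Bool) : ∃ z ∈ sub y, isC z.1 = true := by
  rcases y with ⟨x, b⟩; cases x <;> cases b <;> decide

/-- for a letter of height 0: three letters of height 0 at level 0, three at level 1 -/
theorem sub_three (y : X6 × Bool) (hy : isC y.1 = true) :
    (∃ r0 r1 r2 : Fin 8, r0 < r1 ∧ r1 < r2 ∧ ∀ r ∈ [r0, r1, r2],
      (∃ z, (sub y)[r.1]? = some z ∧ isC z.1 = true) ∧ hts ((sub y).take r.1) = 0) ∧
    (∃ r0 r1 r2 : Fin 8, r0 < r1 ∧ r1 < r2 ∧ ∀ r ∈ [r0, r1, r2],
      (∃ z, (sub y)[r.1]? = some z ∧ isC z.1 = true) ∧ hts ((sub y).take r.1) = 1) := by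
  revert y; decide

/-- heights of the initial pieces of sub y -/
theorem sub_range (y : X6 × Bool) (r : Fin 9) :
    (if ht1 y = -1 then (-1 : ℤ) else 0) ≤ hts ((sub y).take r.1) ∧
    hts ((sub y).take r.1) ≤ (if ht1 y = -1 then (0 : ℤ) else 1) := by
  revert y r; decide

end Dae
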