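import Pool.Agent.Lib.MP_dae6d7_al.Words

/-! The substitution phi, heights, the trees T_j, the lengths lam, the potential A. -/

namespace Dae

/-- the six letters -/
inductive X6 | a | b | c | d | e | f
  deriving DecidableEq

open X6

instance : Fintype X6 := ⟨{.a, .b, .c, .d, .e, .f}, by intro x; cases x <;> decide⟩

/-- the free group F -/
abbrev F := FreeGroup X6

/-- letters of height 0 -/
def isC : X6 → Bool
  | .a => false | .b => false | .c => true | .d => true | .e => true | .f => true

/-- height of a signed letter -/
def ht1 (y : X6 × Bool) : ℤ := if isC y.1 then 0 else if y.2 then 1 else -1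

/-- height of a word -/
def hts (w : Wd X6) : ℤ := (w.map ht1).sum

/-- images of the positive letters -/
def base : X6 → Wd X6
  | .a => [(a, true), (d, false), (f, true), (a, false), (c, false), (f, false), (f, false), (a, true)]
  | .b => [(b, true), (e, false), (f, true), (b, false), (c, false), (c, false), (f, true), (b, true)]
  | .c => [(c, true), (f, true), (a, true), (c, false), (d, false), (c, true), (b, false), (c, true)]
  | .d => [(d, true), (d, true), (a, true), (f, true), (e, true), (d, false), (b, false), (d, true)]
  | .e => [(e, true), (d, true), (b, true), (d, false), (e, true), (f, false), (b, false), (e, true)]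
  | .f => [(f, true), (c, false), (a, true), (d, true), (e, true), (c, false), (b, false), (f, true)]

/-- image of a signed letter -/
def sub (y : X6 × Bool) : Wd X6 := if y.2 then base y.1 else FreeGroup.invRev (base y.1)

/-- the substitution on words -/
def sbst (w : Wd X6) : Wd X6 := w.flatMap sub

/-- its iterates -/
def sbn (j : ℕ) (w : Wd X6) : Wd X6 := sbst^[j] w

/-- the endomorphism phi of F -/
def phi : F →* F := FreeGroup.lift (fun x => FreeGroup.mk (base x))

/-- iterates of phi -/
def phn (j : ℕ) (x : F) : F := (phi : F → F)^[j] x

/-- the words in T_j -/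
def TT (j : ℕ) (w : Wd X6) : Prop := ∃ g : Wd X6, FreeGroup.IsReduced g ∧ w <+: sbn j g

open Classical in
/-- length of the longest initial piece of w which is in T_j -/
noncomputable def lamL (j : ℕ) (w : Wd X6) : ℕ := Nat.findGreatest (fun n => TT j (w.take n)) w.length

/-- the same for elements of F -/
noncomputable def lam (j : ℕ) (x : F) : ℕ := lamL j x.toWord

/-- h contains phi^j(y), y a signed letter of height 0 -/
def con (j : ℕ) (h : F) : Prop := ∃ y : X6 × Bool, isC y.1 = true ∧ sbn j [y] <:+: h.toWord

/-- the potential A_i(x) (block parameter m) -/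
noncomputable def A (m : ℕ) (i : ℤ) (x : F) : ℝ :=
  max (i : ℝ) 0 + ∑ j ∈ Finset.Icc (1 + (-i).toNat) ((m : ℤ) - i).toNat, min 1 ((lam j x : ℝ) / 8 ^ (j - 1))

/-- the block word w_m = phi^m(c) -/
def wm (m : ℕ) : F := phn m (FreeGroup.of c)

/-- the potential Phi on hull points tau^i x -/
noncomputable def PF (m : ℕ) (i : ℤ) (x : F) : ℝ :=
  A m i x + m - A m i ((phn ((m : ℤ) - i).toNat (FreeGroup.of c))⁻¹ * x)

end Dae
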