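import Pool.Agent.Lib.MP_dae6d7_al.GG1

/-! The generating set of G. -/

namespace Dae

/-- the generating set of G (the 11 generators) -/
def TG : GenSet G := ⟨Set.range gg, finite_range_gg, closure_range_gg⟩

end Dae
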