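import Mathlib

/-! Words, values of words, word norms, groups given by relator words. -/

namespace Dae

/-- words in signed letters -/
abbrev Wd (ι : Type) := List (ι × Bool)

section
variable {ι Γ : Type} [Group Γ]

/-- value of a signed letter -/
def lv (g : ι → Γ) (y : ι × Bool) : Γ := if y.2 then g y.1 else (g y.1)⁻¹

/-- value of a word -/
def val (g : ι → Γ) (w : Wd ι) : Γ := (w.map (lv g)).prod

/-- word norm (0 if there is no word) -/
noncomputable def nrm (g : ι → Γ) (x : Γ) : ℕ := sInf {n | ∃ w : Wd ι, w.length = n ∧ val g w = x}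

@[simp] theorem lv_true (g : ι → Γ) (i : ι) : lv g (i, true) = g i := by simp [lv]
@[simp] theorem lv_false (g : ι → Γ) (i : ι) : lv g (i, false) = (g i)⁻¹ := by simp [lv]
@[simp] theorem val_nil (g : ι → Γ) : val g [] = 1 := by simp [val]
@[simp] theorem val_cons (g : ι → Γ) (y : ι × Bool) (w : Wd ι) : val g (y :: w) = lv g y * val g w := by
  simp [val]
@[simp] theorem val_append (g : ι → Γ) (u w : Wd ι) : val g (u ++ w) = val g u * val g w := by
  simp [val]
theorem val_singleton (g : ι → Γ) (y : ι × Bool) : val g [y] = lv g y := by simp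

theorem val_eq_lift (g : ι → Γ) (w : Wd ι) : val g w = FreeGroup.lift g (FreeGroup.mk w) := by
  induction w with
  | nil => simp [FreeGroup.lift_mk]
  | cons y w ih =>
    rw [val_cons, ih, FreeGroup.lift_mk, FreeGroup.lift_mk]
    rcases y with ⟨i, b⟩
    cases b <;> simp [lv]

theorem val_map {κ : Type} (f : ι → κ) (g : κ → Γ) (w : Wd ι) :
    val g (w.map (fun y => (f y.1, y.2))) = val (g ∘ f) w := by
  induction w with
  | nil => simp
  | cons y w ih =>
    rw [List.map_cons, val_cons, val_cons, ih]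
    rfl

theorem map_val {Γ' : Type} [Group Γ'] (h : Γ →* Γ') (g : ι → Γ) (w : Wd ι) :
    h (val g w) = val (h ∘ g) w := by
  induction w with
  | nil => simp
  | cons y w ih =>
    rw [val_cons, map_mul, ih, val_cons]
    rcases y with ⟨i, b⟩
    cases b <;> simp

theorem val_invRev (g : ι → Γ) (w : Wd ι) : val g (FreeGroup.invRev w) = (val g w)⁻¹ := by
  rw [val_eq_lift, ← FreeGroup.inv_mk, map_inv, ← val_eq_lift]

/-- g generates: every element is the value of a word -/
def Gens (g : ι → Γ) : Prop := ∀ x : Γ, ∃ w : Wd ι, val g w = x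

/-- total increment along a word, starting at g, of the letter increments D -/
def Dw {B : Type} [AddCommGroup B] (gen : ι → Γ) (D : ι → Γ → B) : Γ → Wd ι → B
  | _, [] => 0
  | g, y :: w => (if y.2 then D y.1 g else - D y.1 (g * (gen y.1)⁻¹)) + Dw gen D (g * lv gen y) w

end

/-- the group with generators ι and relators the words of R -/
def PG {ι : Type} (R : Set (Wd ι)) : Type := PresentedGroup {r : FreeGroup ι | ∃ w ∈ R, r = FreeGroup.mk w}

namespace PG
variable {ι : Type} {R : Set (Wd ι)}

instance : Group (PG R) := inferInstanceAs (Group (PresentedGroup _))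

/-- generators -/
def of (i : ι) : PG R := PresentedGroup.of i

theorem val_rel {w : Wd ι} (hw : w ∈ R) : val (of : ι → PG R) w = 1 := by
  have : (PresentedGroup.mk {r : FreeGroup ι | ∃ w ∈ R, r = FreeGroup.mk w}) (FreeGroup.mk w) = 1 :=
    PresentedGroup.one_of_mem ⟨w, hw, rfl⟩
  rw [val_eq_lift]
  have h2 : FreeGroup.lift (of : ι → PG R) = PresentedGroup.mk {r : FreeGroup ι | ∃ w ∈ R, r = FreeGroup.mk w} := by
    ext i
    simp only [FreeGroup.lift_apply_of]
    rfl
  rw [h2]; exact this

/-- universal property -/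
def lift {Γ : Type} [Group Γ] (f : ι → Γ) (h : ∀ w ∈ R, val f w = 1) : PG R →* Γ :=
  PresentedGroup.toGroup (f := f) (rels := {r : FreeGroup ι | ∃ w ∈ R, r = FreeGroup.mk w}) (by
    rintro r ⟨w, hw, rfl⟩
    rw [← val_eq_lift]; exact h w hw)

@[simp] theorem lift_of {Γ : Type} [Group Γ] (f : ι → Γ) (h : ∀ w ∈ R, val f w = 1) (i : ι) :
    lift f h (of i) = f i := by
  unfold lift of
  exact PresentedGroup.toGroup.of _

theorem lift_val {Γ : Type} [Group Γ] (f : ι → Γ) (h : ∀ w ∈ R, val f w = 1) (w : Wd ι) :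
    lift f h (val of w) = val f w := by
  rw [map_val]; congr 1; funext i; simp

theorem exists_val (x : PG R) : ∃ w : Wd ι, val of w = x := by
  obtain ⟨z, rfl⟩ := PresentedGroup.mk_surjective _ x
  obtain ⟨w, rfl⟩ := Quot.exists_rep z
  refine ⟨w, ?_⟩
  have h2 : FreeGroup.lift (of : ι → PG R) = PresentedGroup.mk {r : FreeGroup ι | ∃ w ∈ R, r = FreeGroup.mk w} := by
    ext i
    simp only [FreeGroup.lift_apply_of]
    rfl
  rw [val_eq_lift, h2]; rfl

theorem hom_ext {Γ : Type} [Group Γ] {f g : PG R →* Γ} (h : ∀ i, f (of i) = g (of i)) : f = g := by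
  ext x
  obtain ⟨w, rfl⟩ := exists_val x
  rw [map_val, map_val]
  congr 1
  funext i
  exact h i

end PG

end Dae
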